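import Mathlib

/-!
# The pencil of conormals: algebra

`X_l` are three unit complex numbers, `A_l`, `B_l` real numbers.
-/

set_option autoImplicit false

namespace Pool.Agent.F5.H58

open Complex ComplexConjugate

/-- the quantity `C = ∑ (A + 4 i B) X²` -/
noncomputable def Cq (A B : Fin 3 → ℝ) (X : Fin 3 → ℂ) : ℂ :=
  ∑ l, ((A l : ℂ) + 4 * I * (B l : ℂ)) * X l ^ 2

/-- the quantity `P = ∑ B N X` -/
noncomputable def Pq (B N : Fin 3 → ℝ) (X : Fin 3 → ℂ) : ℂ :=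
  ∑ l, ((B l * N l : ℝ) : ℂ) * X l

/-- the quantity `E = ∑ A N²` -/
noncomputable def Eq' (A N : Fin 3 → ℝ) : ℝ := ∑ l, A l * N l ^ 2

/-- the first condition `∑ A` -/
noncomputable def s0 (A : Fin 3 → ℝ) : ℝ := ∑ l, A l

/-- the second condition `∑ (A + 2 i B) X` -/
noncomputable def s1 (A B : Fin 3 → ℝ) (X : Fin 3 → ℂ) : ℂ :=
  ∑ l, ((A l : ℂ) + 2 * I * (B l : ℂ)) * X l

/-- the third condition `∑ B N` -/
noncomputable def s2 (B N : Fin 3 → ℝ) : ℝ := ∑ l, B l * N l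

theorem unit_mul_conj {z : ℂ} (h : ‖z‖ = 1) : z * conj z = 1 := by
  rw [mul_conj, normSq_eq_norm_sq, h]
  norm_num

/-- ALG1 -/
theorem alg1 (A B : Fin 3 → ℝ) (X : Fin 3 → ℂ) (hX : ∀ l, ‖X l‖ = 1) :
    Cq A B X = 2 * I * ((B 0 : ℂ) * ((X 0 - X 1) * (X 0 - X 2)) +
        (B 1 : ℂ) * ((X 1 - X 0) * (X 1 - X 2)) + (B 2 : ℂ) * ((X 2 - X 0) * (X 2 - X 1))) +
      (X 0 + X 1 + X 2) * s1 A B X - (X 0 * X 1 + X 0 * X 2 + X 1 * X 2) * (s0 A : ℂ) +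
      X 0 * X 1 * X 2 * conj (s1 A B X) := by
  have h0 := unit_mul_conj (hX 0)
  have h1 := unit_mul_conj (hX 1)
  have h2 := unit_mul_conj (hX 2)
  simp only [Cq, s1, s0, Fin.sum_univ_three, map_add, map_mul, conj_ofReal, conj_I, map_ofNat,
    ofReal_add]
  linear_combination (-(X 1 * X 2) * ((A 0 : ℂ) - 2 * I * B 0)) * h0 +
    (-(X 0 * X 2) * ((A 1 : ℂ) - 2 * I * B 1)) * h1 + (-(X 0 * X 1) * ((A 2 : ℂ) - 2 * I * B 2)) * h2

theorem conj_unit {z : ℂ} (h : ‖z‖ = 1) : conj z = z⁻¹ := by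
  have h1 := unit_mul_conj h
  exact eq_inv_of_mul_eq_one_right h1

/-- the area of a triangle with vertices on the unit circle -/
theorem area {X Y Z : ℂ} (hX : ‖X‖ = 1) (hY : ‖Y‖ = 1) (hZ : ‖Z‖ = 1) :
    2 * |((X - Z) * conj (Y - Z)).im| = ‖X - Y‖ * ‖X - Z‖ * ‖Y - Z‖ := by
  have x0 : X ≠ 0 := by rintro rfl; simp at hX
  have y0 : Y ≠ 0 := by rintro rfl; simp at hY
  have z0 : Z ≠ 0 := by rintro rfl; simp at hZ
  have h : (2 * I) * (((X - Z) * conj (Y - Z)).im : ℂ) =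
      (X - Y) * (X - Z) * (Z - Y) * (X⁻¹ * Y⁻¹ * Z⁻¹) := by
    have h3 : (2 * I) * (((X - Z) * conj (Y - Z)).im : ℂ) =
        (X - Z) * conj (Y - Z) - conj ((X - Z) * conj (Y - Z)) := by
      rw [sub_conj]
      push_cast
      ring
    rw [h3]
    simp only [map_sub, map_mul, conj_conj]
    simp only [conj_unit hX, conj_unit hY, conj_unit hZ]
    field_simp
    ring
  have h4 := congrArg norm h
  simp only [norm_mul, norm_inv, hX, hY, hZ, norm_I, norm_real, Real.norm_eq_abs, inv_one,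
    mul_one, Complex.norm_ofNat, norm_sub_rev Z Y] at h4
  linarith

/-- two real coefficients -/
theorem two {η δ : ℝ} (hη : 0 < η) {b₁ b₂ : ℝ} {X Y Z : ℂ} (hX : ‖X‖ = 1) (hY : ‖Y‖ = 1)
    (hZ : ‖Z‖ = 1) (h1 : η ≤ ‖X - Y‖) (h2 : η ≤ ‖X - Z‖) (h3 : η ≤ ‖Y - Z‖)
    (h : ‖(b₁ : ℂ) * (X - Z) + (b₂ : ℂ) * (Y - Z)‖ ≤ δ) : |b₁| ≤ 4 * δ / η ^ 3 := by
  have h4 := area hX hY hZ
  have h5 : ((((b₁ : ℂ) * (X - Z) + (b₂ : ℂ) * (Y - Z)) * conj (Y - Z)).im) =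
      b₁ * ((X - Z) * conj (Y - Z)).im := by
    have : ((b₁ : ℂ) * (X - Z) + (b₂ : ℂ) * (Y - Z)) * conj (Y - Z) =
        (b₁ : ℂ) * ((X - Z) * conj (Y - Z)) + (b₂ : ℂ) * ((Y - Z) * conj (Y - Z)) := by ring
    rw [this, mul_conj, add_im, im_ofReal_mul, ← ofReal_mul, ofReal_im, add_zero]
  have h6 : |b₁ * ((X - Z) * conj (Y - Z)).im| ≤ δ * ‖Y - Z‖ := by
    rw [← h5]
    refine (abs_im_le_norm _).trans ?_
    rw [norm_mul, norm_conj]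
    exact mul_le_mul_of_nonneg_right h (norm_nonneg _)
  have h7 : ‖Y - Z‖ ≤ 2 := by
    refine (norm_sub_le _ _).trans ?_
    rw [hY, hZ]; norm_num
  have h8 : 0 < ‖Y - Z‖ := hη.trans_le h3
  rw [abs_mul] at h6
  have h9 : |b₁| * (‖X - Y‖ * ‖X - Z‖) ≤ 2 * δ := by
    have : |b₁| * (‖X - Y‖ * ‖X - Z‖ * ‖Y - Z‖) ≤ 2 * δ * ‖Y - Z‖ := by
      rw [← h4]; linarith
    have h10 : (|b₁| * (‖X - Y‖ * ‖X - Z‖)) * ‖Y - Z‖ ≤ (2 * δ) * ‖Y - Z‖ := by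
      linarith
    exact le_of_mul_le_mul_right h10 h8
  have h11 : |b₁| * η ^ 2 ≤ 2 * δ := by
    refine le_trans ?_ h9
    refine mul_le_mul_of_nonneg_left ?_ (abs_nonneg _)
    rw [sq]
    exact mul_le_mul h1 h2 hη.le (norm_nonneg _)
  have h12 : η ≤ 2 := h3.trans h7
  rw [le_div_iff₀ (by positivity)]
  have h13 : |b₁| * η ^ 3 = |b₁| * η ^ 2 * η := by ring
  rw [h13]
  have h14 : 0 ≤ |b₁| * η ^ 2 := by positivity
  nlinarith

/-- ALG2 -/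
theorem alg2 {η ε : ℝ} (hη : 0 < η) {X : Fin 3 → ℂ} (hX : ∀ l, ‖X l‖ = 1)
    (hs : ∀ l m, l ≠ m → η ≤ ‖X l - X m‖) {b : Fin 3 → ℝ} (h0 : |∑ l, b l| ≤ ε)
    (h1 : ‖∑ l, (b l : ℂ) * X l‖ ≤ ε) (l : Fin 3) : |b l| ≤ 8 * ε / η ^ 3 := by
  have key : ∀ (b₁ b₂ : ℝ) (X Y Z : ℂ), ‖X‖ = 1 → ‖Y‖ = 1 → ‖Z‖ = 1 → η ≤ ‖X - Y‖ →
      η ≤ ‖X - Z‖ → η ≤ ‖Y - Z‖ → ‖(b₁ : ℂ) * (X - Z) + (b₂ : ℂ) * (Y - Z)‖ ≤ 2 * ε →
      |b₁| ≤ 8 * ε / η ^ 3 := by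
    intro b₁ b₂ X Y Z hX hY hZ h1 h2 h3 h
    have := two hη hX hY hZ h1 h2 h3 h
    rwa [show 4 * (2 * ε) = 8 * ε by ring] at this
  simp only [Fin.sum_univ_three] at h0 h1
  have comb : ∀ Z : ℂ, ‖Z‖ = 1 →
      ‖((b 0 : ℂ) * X 0 + b 1 * X 1 + b 2 * X 2) - Z * ((b 0 + b 1 + b 2 : ℝ) : ℂ)‖ ≤ 2 * ε := by
    intro Z hZ
    refine (norm_sub_le _ _).trans ?_
    rw [norm_mul, hZ, one_mul, norm_real, Real.norm_eq_abs]
    linarith
  fin_cases l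
  · refine key (b 0) (b 1) (X 0) (X 1) (X 2) (hX 0) (hX 1) (hX 2) (hs 0 1 (by decide))
      (hs 0 2 (by decide)) (hs 1 2 (by decide)) ?_
    have := comb (X 2) (hX 2)
    rw [show (b 0 : ℂ) * (X 0 - X 2) + (b 1 : ℂ) * (X 1 - X 2) =
      ((b 0 : ℂ) * X 0 + b 1 * X 1 + b 2 * X 2) - X 2 * ((b 0 + b 1 + b 2 : ℝ) : ℂ) by
        push_cast; ring]
    exact this
  · refine key (b 1) (b 2) (X 1) (X 2) (X 0) (hX 1) (hX 2) (hX 0) (hs 1 2 (by decide))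
      (hs 1 0 (by decide)) (hs 2 0 (by decide)) ?_
    have := comb (X 0) (hX 0)
    rw [show (b 1 : ℂ) * (X 1 - X 0) + (b 2 : ℂ) * (X 2 - X 0) =
      ((b 0 : ℂ) * X 0 + b 1 * X 1 + b 2 * X 2) - X 0 * ((b 0 + b 1 + b 2 : ℝ) : ℂ) by
        push_cast; ring]
    exact this
  · refine key (b 2) (b 0) (X 2) (X 0) (X 1) (hX 2) (hX 0) (hX 1) (hs 2 0 (by decide))
      (hs 2 1 (by decide)) (hs 0 1 (by decide)) ?_
    have := comb (X 1) (hX 1)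
    rw [show (b 2 : ℂ) * (X 2 - X 1) + (b 0 : ℂ) * (X 0 - X 1) =
      ((b 0 : ℂ) * X 0 + b 1 * X 1 + b 2 * X 2) - X 1 * ((b 0 + b 1 + b 2 : ℝ) : ℂ) by
        push_cast; ring]
    exact this

/-- NDG: the nondegeneracy of the pencil -/
theorem ndg {η ε : ℝ} (hη : 0 < η) {X : Fin 3 → ℂ} (hX : ∀ l, ‖X l‖ = 1)
    (hs : ∀ l m, l ≠ m → η ≤ ‖X l - X m‖) {A B N : Fin 3 → ℝ} (hN : N 2 = 1)
    (h0 : |s0 A| ≤ ε) (h1 : ‖s1 A B X‖ ≤ ε) (h2 : |s2 B N| ≤ ε) (hC : ‖Cq A B X‖ ≤ ε)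
    (hP : ‖Pq B N X‖ ≤ ε) (l : Fin 3) :
    |B l| ≤ 256 * ε / η ^ 7 ∧ |A l| ≤ 13312 * ε / η ^ 10 := by
  have hε : 0 ≤ ε := (norm_nonneg _).trans hP
  have hη2 : η ≤ 2 := by
    refine (hs 0 1 (by decide)).trans ((norm_sub_le _ _).trans ?_)
    rw [hX, hX]; norm_num
  have p3 : η ^ 3 ≤ 8 := by
    have := pow_le_pow_left₀ hη.le hη2 3
    norm_num at this; exact this
  have p4 : η ^ 4 ≤ 16 := by
    have := pow_le_pow_left₀ hη.le hη2 4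
    norm_num at this; exact this
  have p7 : η ^ 7 ≤ 128 := by
    have := pow_le_pow_left₀ hη.le hη2 7
    norm_num at this; exact this
  -- the third component
  have hb2 : |B 2| ≤ 8 * ε / η ^ 3 := by
    have := alg2 hη hX hs (b := fun l => B l * N l) h2 hP 2
    simpa [hN] using this
  have hd1 : ‖X 0 - X 1‖ ≤ 2 := by
    refine (norm_sub_le _ _).trans ?_
    rw [hX, hX]; norm_num
  have hd2 : ‖X 2 - X 0‖ ≤ 2 := by
    refine (norm_sub_le _ _).trans ?_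
    rw [hX, hX]; norm_num
  have hd3 : ‖X 2 - X 1‖ ≤ 2 := by
    refine (norm_sub_le _ _).trans ?_
    rw [hX, hX]; norm_num
  -- the two others
  have e1 : (2 * I * (X 0 - X 1)) * ((B 0 : ℂ) * (X 0 - X 2) + ((-B 1 : ℝ) : ℂ) * (X 1 - X 2)) =
      Cq A B X - (2 * I * ((B 2 : ℂ) * ((X 2 - X 0) * (X 2 - X 1))) +
      (X 0 + X 1 + X 2) * s1 A B X - (X 0 * X 1 + X 0 * X 2 + X 1 * X 2) * (s0 A : ℂ) +
      X 0 * X 1 * X 2 * conj (s1 A B X)) := by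
    rw [alg1 A B X hX]
    push_cast
    ring
  have n1 : ‖Cq A B X - (2 * I * ((B 2 : ℂ) * ((X 2 - X 0) * (X 2 - X 1))) +
      (X 0 + X 1 + X 2) * s1 A B X - (X 0 * X 1 + X 0 * X 2 + X 1 * X 2) * (s0 A : ℂ) +
      X 0 * X 1 * X 2 * conj (s1 A B X))‖ ≤ 128 * ε / η ^ 3 := by
    have m1 : ‖2 * I * ((B 2 : ℂ) * ((X 2 - X 0) * (X 2 - X 1)))‖ ≤ 64 * ε / η ^ 3 := by
      simp only [norm_mul, norm_I, norm_real, Real.norm_eq_abs, Complex.norm_ofNat, mul_one]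
      have : |B 2| * (‖X 2 - X 0‖ * ‖X 2 - X 1‖) ≤ 8 * ε / η ^ 3 * (2 * 2) := by
        gcongr
      calc 2 * (|B 2| * (‖X 2 - X 0‖ * ‖X 2 - X 1‖)) ≤ 2 * (8 * ε / η ^ 3 * (2 * 2)) := by
            linarith
        _ ≤ 64 * ε / η ^ 3 := by
            have : 0 ≤ ε / η ^ 3 := by positivity
            have e : 2 * (8 * ε / η ^ 3 * (2 * 2)) = 64 * ε / η ^ 3 - 0 := by ring
            rw [e]; linarith
    have m2 : ‖(X 0 + X 1 + X 2) * s1 A B X‖ ≤ 3 * ε := by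
      rw [norm_mul]
      refine mul_le_mul ?_ h1 (norm_nonneg _) (by norm_num)
      refine (norm_add_le _ _).trans ?_
      have := norm_add_le (X 0) (X 1)
      rw [hX, hX] at this
      rw [hX]; linarith
    have m3 : ‖(X 0 * X 1 + X 0 * X 2 + X 1 * X 2) * (s0 A : ℂ)‖ ≤ 3 * ε := by
      rw [norm_mul, norm_real, Real.norm_eq_abs]
      refine mul_le_mul ?_ h0 (abs_nonneg _) (by norm_num)
      refine (norm_add_le _ _).trans ?_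
      have := norm_add_le (X 0 * X 1) (X 0 * X 2)
      simp only [norm_mul, hX, mul_one] at this ⊢
      linarith
    have m4 : ‖X 0 * X 1 * X 2 * conj (s1 A B X)‖ ≤ ε := by
      simp only [norm_mul, hX, mul_one, one_mul, norm_conj]
      exact h1
    have m5 : 8 * ε ≤ 64 * ε / η ^ 3 := by
      rw [le_div_iff₀ (by positivity)]
      nlinarith
    calc _ ≤ ‖Cq A B X‖ + (‖2 * I * ((B 2 : ℂ) * ((X 2 - X 0) * (X 2 - X 1)))‖ +
          ‖(X 0 + X 1 + X 2) * s1 A B X‖ + ‖(X 0 * X 1 + X 0 * X 2 + X 1 * X 2) * (s0 A : ℂ)‖ +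
          ‖X 0 * X 1 * X 2 * conj (s1 A B X)‖) := by
          refine (norm_sub_le _ _).trans ?_
          refine add_le_add le_rfl ?_
          refine (norm_add_le _ _).trans ?_
          refine add_le_add ?_ le_rfl
          refine (norm_sub_le _ _).trans ?_
          refine add_le_add ?_ le_rfl
          exact norm_add_le _ _
      _ ≤ 128 * ε / η ^ 3 := by
          have : 128 * ε / η ^ 3 = 64 * ε / η ^ 3 + 64 * ε / η ^ 3 := by ring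
          rw [this]; linarith
  rw [← e1] at n1
  have n2 : ‖(B 0 : ℂ) * (X 0 - X 2) + ((-B 1 : ℝ) : ℂ) * (X 1 - X 2)‖ ≤ 64 * ε / η ^ 4 := by
    rw [norm_mul, norm_mul, norm_mul, norm_I, Complex.norm_ofNat, mul_one] at n1
    have h3 := hs 0 1 (by decide)
    set w := ‖(B 0 : ℂ) * (X 0 - X 2) + ((-B 1 : ℝ) : ℂ) * (X 1 - X 2)‖
    have hw : 0 ≤ w := norm_nonneg _
    have h4 : 2 * η * w ≤ 128 * ε / η ^ 3 := by
      refine le_trans ?_ n1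
      gcongr
    rw [le_div_iff₀ (by positivity)] at h4 ⊢
    nlinarith
  have b0 : |B 0| ≤ 256 * ε / η ^ 7 := by
    have := two hη (hX 0) (hX 1) (hX 2) (hs 0 1 (by decide)) (hs 0 2 (by decide))
      (hs 1 2 (by decide)) n2
    refine this.trans (le_of_eq ?_)
    field_simp
    ring
  have b1 : |B 1| ≤ 256 * ε / η ^ 7 := by
    have n3 : ‖((-B 1 : ℝ) : ℂ) * (X 1 - X 2) + (B 0 : ℂ) * (X 0 - X 2)‖ ≤ 64 * ε / η ^ 4 := by
      rw [add_comm]; exact n2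
    have := two hη (hX 1) (hX 0) (hX 2) (hs 1 0 (by decide)) (hs 1 2 (by decide))
      (hs 0 2 (by decide)) n3
    rw [abs_neg] at this
    refine this.trans (le_of_eq ?_)
    field_simp
    ring
  have b2 : |B 2| ≤ 256 * ε / η ^ 7 := by
    refine hb2.trans ?_
    rw [div_le_div_iff₀ (by positivity) (by positivity)]
    have : η ^ 7 = η ^ 3 * η ^ 4 := by ring
    rw [this]
    have h3 : 0 ≤ ε * η ^ 3 := by positivity
    nlinarith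
  have hB : ∀ l, |B l| ≤ 256 * ε / η ^ 7 := by
    intro l
    fin_cases l
    · exact b0
    · exact b1
    · exact b2
  refine ⟨hB l, ?_⟩
  have c1 : ε ≤ 128 * ε / η ^ 7 := by
    rw [le_div_iff₀ (by positivity)]
    nlinarith
  have c2 : |∑ l, A l| ≤ 1664 * ε / η ^ 7 := by
    refine h0.trans ?_
    have : 1664 * ε / η ^ 7 = 128 * ε / η ^ 7 + 1536 * ε / η ^ 7 := by ring
    rw [this]
    have : 0 ≤ 1536 * ε / η ^ 7 := by positivity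
    linarith
  have c3 : ‖∑ l, (A l : ℂ) * X l‖ ≤ 1664 * ε / η ^ 7 := by
    have e2 : ∑ l, (A l : ℂ) * X l = s1 A B X - 2 * I * ∑ l, (B l : ℂ) * X l := by
      simp only [s1, Fin.sum_univ_three]
      ring
    have e3 : ‖∑ l, (B l : ℂ) * X l‖ ≤ 3 * (256 * ε / η ^ 7) := by
      refine (norm_sum_le _ _).trans ?_
      rw [Fin.sum_univ_three]
      simp only [norm_mul, hX, mul_one, norm_real, Real.norm_eq_abs]
      linarith [hB 0, hB 1, hB 2]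
    rw [e2]
    refine (norm_sub_le _ _).trans ?_
    rw [norm_mul, norm_mul, norm_I, Complex.norm_ofNat, mul_one]
    have : 1664 * ε / η ^ 7 = 128 * ε / η ^ 7 + 2 * (3 * (256 * ε / η ^ 7)) := by ring
    rw [this]
    linarith
  have := alg2 hη hX hs c2 c3 l
  refine this.trans (le_of_eq ?_)
  field_simp
  ring

/-- the principal minors of the Hessian matrix with the entries `-c₁/2`, `c₁/2`, `-c₂/2`, `2 p₁`,
`2 p₂`, `-E` -/
theorem minors (c₁ c₂ p₁ p₂ E : ℝ) :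
    c₁ ^ 2 + c₂ ^ 2 + p₁ ^ 2 + p₂ ^ 2 ≤
      4 * (|(-(c₁ / 2)) * (c₁ / 2) - (c₂ / 2) ^ 2| + |(-(c₁ / 2)) * (-E) - (2 * p₁) ^ 2| +
        |(c₁ / 2) * (-E) - (2 * p₂) ^ 2|) := by
  have h1 := neg_abs_le ((-(c₁ / 2)) * (c₁ / 2) - (c₂ / 2) ^ 2)
  have h2 := neg_abs_le ((-(c₁ / 2)) * (-E) - (2 * p₁) ^ 2)
  have h3 := neg_abs_le ((c₁ / 2) * (-E) - (2 * p₂) ^ 2)
  nlinarith [sq_nonneg p₁, sq_nonneg p₂]

end Pool.Agent.F5.H58
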