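import Pool.Agent.Helper58_F5.Chart
import Pool.Agent.Helper58_F5.Alg

/-!
# First and second derivatives of the chart
-/

set_option autoImplicit false

namespace Pool.Agent.F5.H58

open Complex ComplexConjugate

/-- the three points -/
noncomputable def ww (e : Fin 3 → ℂ) (ν ε : Fin 3 → ℝ) (μ : ℂ) (θ : ℝ) (l : Fin 3) : ℂ :=
  if l = 2 then w3 μ θ else wl (e l) (e 2) (ν l) (ε l) μ θ

/-- the derivatives of the angles of the three points -/
noncomputable def dph (e : Fin 3 → ℂ) (ν ε : Fin 3 → ℝ) (μ : ℂ) (θ : ℝ) (v : ℂ) (τ : ℝ)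
    (l : Fin 3) : ℝ :=
  if l = 2 then dph3 μ θ v τ else dphl (e l) (e 2) (ν l) (ε l) μ θ v τ

/-- the point of the cone -/
noncomputable def Mm (e : Fin 3 → ℂ) (ν ε : Fin 3 → ℝ) (μ : ℂ) (θ : ℝ) (l : Fin 3) : ℂ :=
  ww e ν ε μ θ l - μ * conj (ww e ν ε μ θ l)

/-- the tangent vectors -/
noncomputable def bb (e : Fin 3 → ℂ) (ν ε : Fin 3 → ℝ) (μ : ℂ) (θ : ℝ) (v : ℂ) (τ : ℝ)
    (l : Fin 3) : ℂ :=
  (dph e ν ε μ θ v τ l : ℂ) * I * (ww e ν ε μ θ l + μ * conj (ww e ν ε μ θ l)) -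
    v * conj (ww e ν ε μ θ l)

/-- the scalar product -/
noncomputable def sp (k m : Fin 3 → ℂ) : ℝ := ∑ l, (conj (k l) * m l).re

/-- the domain of the chart -/
def Dom (e : Fin 3 → ℂ) (ν ε : Fin 3 → ℝ) (μ : ℂ) (θ : ℝ) : Prop :=
  ∀ l : Fin 3, l ≠ 2 → ε l ^ 2 = 1 ∧ Eh (e l) μ ≠ 0 ∧ cf (e l) (e 2) (ν l) μ θ ^ 2 < 1

variable {e : Fin 3 → ℂ} {ν ε : Fin 3 → ℝ}

theorem norm_ww {μ : ℂ} {θ : ℝ} (h : Dom e ν ε μ θ) (l : Fin 3) : ‖ww e ν ε μ θ l‖ = 1 := by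
  unfold ww
  split_ifs with h1
  · exact norm_w3 _ _
  · obtain ⟨h2, h3, h4⟩ := h l h1
    exact norm_wl h3 h4.le h2

theorem hasDerivAt_ww {μ v : ℂ} {θ τ s : ℝ} (h : Dom e ν ε (μ + (s : ℂ) * v) (θ + s * τ))
    (l : Fin 3) : HasDerivAt (fun s : ℝ => ww e ν ε (μ + (s : ℂ) * v) (θ + s * τ) l)
      ((dph e ν ε (μ + (s : ℂ) * v) (θ + s * τ) v τ l : ℂ) * I *
        ww e ν ε (μ + (s : ℂ) * v) (θ + s * τ) l) s := by
  unfold ww dph
  split_ifs with h1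
  · exact hasDerivAt_w3 μ θ v τ s
  · obtain ⟨h2, h3, h4⟩ := h l h1
    exact hasDerivAt_wl h2 h3 h4

/-- D2 -/
theorem hasDerivAt_Mm {μ v : ℂ} {θ τ s : ℝ} (h : Dom e ν ε (μ + (s : ℂ) * v) (θ + s * τ))
    (l : Fin 3) : HasDerivAt (fun s : ℝ => Mm e ν ε (μ + (s : ℂ) * v) (θ + s * τ) l)
      (bb e ν ε (μ + (s : ℂ) * v) (θ + s * τ) v τ l) s := by
  unfold Mm bb
  have h1 := hasDerivAt_ww h l
  have h2 := h1.sub ((hasDerivAt_mu μ v s).mul (hasDerivAt_conj h1))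
  refine h2.congr_deriv ?_
  simp only [map_mul, conj_ofReal, conj_I]
  ring

theorem hasDerivAt_sp {k : Fin 3 → ℂ} {f : ℝ → Fin 3 → ℂ} {f' : Fin 3 → ℂ} {s : ℝ}
    (h : ∀ l, HasDerivAt (fun s => f s l) (f' l) s) : HasDerivAt (fun s => sp k (f s)) (sp k f') s := by
  unfold sp
  refine HasDerivAt.fun_sum fun l _ => ?_
  exact hasDerivAt_re ((h l).const_mul (conj (k l)))

/-! ### the base points -/

/-- the base points -/
structure Base (e : Fin 3 → ℂ) (ν ε : Fin 3 → ℝ) (θ : ℝ) : Prop where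
  e1 : ∀ l, ‖e l‖ = 1
  e2 : ∀ l : Fin 3, l ≠ 2 → ε l ^ 2 = 1
  e3 : ∀ l : Fin 3, l ≠ 2 → ν l * (conj (w3 0 θ) * e 2).re = 0

theorem Eh_zero (e : ℂ) : Eh e 0 = e := by simp [Eh]

theorem Base.cf {θ : ℝ} (h : Base e ν ε θ) {l : Fin 3} (hl : l ≠ 2) :
    cf (e l) (e 2) (ν l) 0 θ = 0 := by
  have := h.e3 l hl
  unfold H58.cf Yf
  rw [Eh_zero, this, zero_div]

theorem Base.dom {θ : ℝ} (h : Base e ν ε θ) : Dom e ν ε 0 θ := by
  intro l hl
  refine ⟨h.e2 l hl, ?_, ?_⟩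
  · rw [Eh_zero]
    intro h0
    have := h.e1 l
    rw [h0, norm_zero] at this
    norm_num at this
  · rw [h.cf hl]; norm_num

theorem Base.conj_mul {θ : ℝ} (h : Base e ν ε θ) {l : Fin 3} (hl : l ≠ 2) :
    conj (ww e ν ε 0 θ l) * e l = -((ε l : ℂ) * I) := by
  have h1 := conj_wl_mul (e := e l) (e₃ := e 2) (μ := 0) (ν := ν l) (ε := ε l) (θ := θ)
    (h.dom l hl).2.1
  rw [Eh_zero, h.cf hl, h.e1 l] at h1
  unfold ww
  rw [if_neg hl, h1]
  have h2 : ν l * Yf (e 2) 0 θ = 0 := by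
    have := h.e3 l hl
    unfold Yf
    rwa [Eh_zero]
  rw [h2]
  norm_num

/-- the numbers `N_l` -/
noncomputable def Nn (e : Fin 3 → ℂ) (ν ε : Fin 3 → ℝ) (θ : ℝ) (l : Fin 3) : ℝ :=
  if l = 2 then 1 else -(ε l * ν l * (conj (w3 0 θ) * e 2).im)

/-- the squares of the conjugates -/
noncomputable def Xc (e : Fin 3 → ℂ) (ν ε : Fin 3 → ℝ) (θ : ℝ) (l : Fin 3) : ℂ :=
  conj (ww e ν ε 0 θ l) ^ 2

theorem exp_eq (θ : ℝ) : cexp (((-2 * θ : ℝ) : ℂ) * I) = conj (w3 0 θ) ^ 2 := by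
  unfold w3 ph3
  rw [zero_mul, zero_im, sub_zero, ← exp_conj, ← Complex.exp_nat_mul]
  congr 1
  simp only [map_mul, conj_ofReal, conj_I]
  push_cast
  ring

theorem Base.conj_mul' {θ : ℝ} (h : Base e ν ε θ) {l : Fin 3} (hl : l ≠ 2) :
    conj (ww e ν ε 0 θ l) * conj (e l) = (ε l : ℂ) * I * Xc e ν ε θ l := by
  have h1 := h.conj_mul hl
  have h2 := unit_mul_conj (norm_ww h.dom l)
  have h3 : conj (e l) * ww e ν ε 0 θ l = (ε l : ℂ) * I := by
    have := congrArg conj h1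
    simp only [map_mul, conj_conj, map_neg, conj_ofReal, conj_I] at this
    rw [mul_comm, this]
    ring
  unfold Xc
  calc conj (ww e ν ε 0 θ l) * conj (e l)
      = conj (ww e ν ε 0 θ l) * conj (e l) * (ww e ν ε 0 θ l * conj (ww e ν ε 0 θ l)) := by
        rw [h2, mul_one]
    _ = (conj (e l) * ww e ν ε 0 θ l) * conj (ww e ν ε 0 θ l) ^ 2 := by ring
    _ = _ := by rw [h3]

theorem w3_conj (θ : ℝ) (z : ℂ) :
    conj (w3 0 θ) * conj z = conj (w3 0 θ) ^ 2 * conj (conj (w3 0 θ) * z) := by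
  have h2 := unit_mul_conj (norm_w3 0 θ)
  rw [map_mul, conj_conj]
  calc conj (w3 0 θ) * conj z = conj (w3 0 θ) * (w3 0 θ * conj (w3 0 θ)) * conj z := by
        rw [h2, mul_one]
    _ = _ := by ring

theorem Xc_two (θ : ℝ) : Xc e ν ε θ 2 = conj (w3 0 θ) ^ 2 := by
  unfold Xc ww
  rw [if_pos rfl]

/-- P1 -/
theorem Base.dph {θ : ℝ} (h : Base e ν ε θ) (v : ℂ) (τ : ℝ) (l : Fin 3) :
    dph e ν ε 0 θ v τ l = Nn e ν ε θ l * τ - (v * Xc e ν ε θ l).im := by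
  by_cases hl : l = 2
  · subst hl
    unfold H58.dph dph3 Nn
    rw [if_pos rfl, if_pos rfl, exp_eq, Xc_two, zero_mul, zero_re]
    ring
  · have h1 := h.conj_mul hl
    have h2 := h.conj_mul' hl
    have h3 := h.e3 l hl
    have h4 := h.e2 l hl
    unfold H58.dph dphl Nn
    rw [if_neg hl, if_neg hl]
    have h5 : wl (e l) (e 2) (ν l) (ε l) 0 θ = ww e ν ε 0 θ l := by
      unfold ww; rw [if_neg hl]
    rw [h5, Eh_zero, h1]
    have h6 : conj (ww e ν ε 0 θ l) * (v * conj (e l)) = (ε l : ℂ) * (I * (v * Xc e ν ε θ l)) := by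
      calc _ = v * (conj (ww e ν ε 0 θ l) * conj (e l)) := by ring
        _ = _ := by rw [h2]; ring
    rw [h6, re_ofReal_mul]
    unfold dYf dph3
    rw [exp_eq, zero_mul, zero_re, Eh_zero]
    have h7 : conj (w3 0 θ) * (v * conj (e 2)) =
        (v * conj (w3 0 θ) ^ 2) * conj (conj (w3 0 θ) * e 2) := by
      calc _ = v * (conj (w3 0 θ) * conj (e 2)) := by ring
        _ = _ := by rw [w3_conj]; ring
    rw [h7]
    have h8 : (-((ε l : ℂ) * I)).im = -ε l := by simp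
    rw [h8, div_eq_iff (by rw [neg_ne_zero]; rintro h9; rw [h9] at h4; norm_num at h4)]
    set q := conj (w3 0 θ) * e 2 with hq
    set R := v * conj (w3 0 θ) ^ 2 with hR
    set Z := v * Xc e ν ε θ l with hZ
    rw [mul_re R, conj_re, conj_im]
    have h10 : (I * Z).re = -Z.im := by simp
    rw [h10]
    linear_combination R.re * h3 - (ν l * q.im * τ) * h4

/-! ### second derivatives -/

/-- the real and imaginary parts of `v X̄_l` -/
noncomputable def Rr (e : Fin 3 → ℂ) (ν ε : Fin 3 → ℝ) (θ : ℝ) (v : ℂ) (l : Fin 3) : ℝ :=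
  (v * Xc e ν ε θ l).re

/-- the real and imaginary parts of `v X̄_l` -/
noncomputable def Ri (e : Fin 3 → ℂ) (ν ε : Fin 3 → ℝ) (θ : ℝ) (v : ℂ) (l : Fin 3) : ℝ :=
  (v * Xc e ν ε θ l).im

/-- the coefficient of the defect -/
noncomputable def Kk (e : Fin 3 → ℂ) (ν ε : Fin 3 → ℝ) (θ : ℝ) (u : ℂ) (σ : ℝ) (v : ℂ) (τ : ℝ) :
    ℝ :=
  σ * Rr e ν ε θ v 2 + τ * Rr e ν ε θ u 2 + Ri e ν ε θ v 2 * Rr e ν ε θ u 2 +
    Ri e ν ε θ u 2 * Rr e ν ε θ v 2

/-- the second derivatives of the angles -/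
noncomputable def ddph (e : Fin 3 → ℂ) (ν ε : Fin 3 → ℝ) (θ : ℝ) (u : ℂ) (σ : ℝ) (v : ℂ) (τ : ℝ)
    (l : Fin 3) : ℝ :=
  Nn e ν ε θ l * Kk e ν ε θ u σ v τ + H58.dph e ν ε 0 θ u σ l * Rr e ν ε θ v l +
    H58.dph e ν ε 0 θ v τ l * Rr e ν ε θ u l

theorem hasDerivAt_dph3 (μ : ℂ) (θ : ℝ) (u : ℂ) (σ : ℝ) (v : ℂ) (τ s : ℝ) :
    HasDerivAt (fun s : ℝ => dph3 (μ + (s : ℂ) * u) (θ + s * σ) v τ)
      (2 * σ * (v * cexp (((-2 * (θ + s * σ) : ℝ) : ℂ) * I)).re +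
        2 * τ * (u * cexp (((-2 * (θ + s * σ) : ℝ) : ℂ) * I)).re +
        4 * τ * σ * ((μ + (s : ℂ) * u) * cexp (((-2 * (θ + s * σ) : ℝ) : ℂ) * I)).im) s := by
  unfold dph3
  have h1 := hasDerivAt_e2 θ σ s
  have h2 := hasDerivAt_im (h1.const_mul v)
  have h3 := (hasDerivAt_re ((hasDerivAt_mu μ u s).mul h1)).const_mul (2 * τ)
  have h4 := ((hasDerivAt_const s τ).sub h2).add h3
  refine h4.congr_deriv ?_
  simp only [add_re, mul_im, mul_re, I_re, I_im, ofReal_re, ofReal_im]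
  ring

/-- the derivative of `dYf` at a base point -/
theorem hasDerivAt_dYf (e₃ : ℂ) (θ : ℝ) (u : ℂ) (σ : ℝ) (v : ℂ) (τ : ℝ) :
    HasDerivAt (fun s : ℝ => dYf e₃ (0 + (s : ℂ) * u) (θ + s * σ) v τ)
      ((2 * σ * (v * conj (w3 0 θ) ^ 2).re + 2 * τ * (u * conj (w3 0 θ) ^ 2).re) *
          (conj (w3 0 θ) * e₃).im +
        (τ - (v * conj (w3 0 θ) ^ 2).im) *
          (-((σ - (u * conj (w3 0 θ) ^ 2).im) * (conj (w3 0 θ) * e₃).re) +
            (u * conj (w3 0 θ) ^ 2 * conj (conj (w3 0 θ) * e₃)).im) +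
        (σ - (u * conj (w3 0 θ) ^ 2).im) *
          (v * conj (w3 0 θ) ^ 2 * conj (conj (w3 0 θ) * e₃)).im) 0 := by
  unfold dYf
  have h1 := hasDerivAt_dph3 0 θ u σ v τ 0
  have h2 := hasDerivAt_conj (hasDerivAt_w3 0 θ u σ 0)
  have h3 := hasDerivAt_im (h2.fun_mul (hasDerivAt_Eh e₃ 0 u 0))
  have h4 := hasDerivAt_re (h2.mul_const (v * conj e₃))
  have h5 := (h1.fun_mul h3).fun_add h4
  refine h5.congr_deriv ?_
  simp only [ofReal_zero, zero_mul, add_zero, mul_zero, zero_im]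
  have a1 : dph3 0 θ u σ = σ - (u * conj (w3 0 θ) ^ 2).im := by
    unfold dph3; rw [exp_eq, zero_mul, zero_re]; ring
  have a2 : dph3 0 θ v τ = τ - (v * conj (w3 0 θ) ^ 2).im := by
    unfold dph3; rw [exp_eq, zero_mul, zero_re]; ring
  rw [a1, a2, exp_eq, Eh_zero]
  have a3 : ∀ z : ℂ, conj (w3 0 θ) * (z * conj e₃) =
      z * conj (w3 0 θ) ^ 2 * conj (conj (w3 0 θ) * e₃) := by
    intro z
    calc _ = z * (conj (w3 0 θ) * conj e₃) := by ring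
      _ = _ := by rw [w3_conj]; ring
  have hc : ∀ a : ℝ, conj ((a : ℂ) * I * w3 0 θ) = (a : ℂ) * -I * conj (w3 0 θ) := by
    intro a
    simp only [map_mul, conj_ofReal, conj_I]
  rw [hc, a3 u]
  have a4 : ((σ - (u * conj (w3 0 θ) ^ 2).im : ℝ) : ℂ) * -I * conj (w3 0 θ) * (v * conj e₃) =
      ((σ - (u * conj (w3 0 θ) ^ 2).im : ℝ) : ℂ) * (-I *
        (v * conj (w3 0 θ) ^ 2 * conj (conj (w3 0 θ) * e₃))) := by
    rw [← a3 v]; ring
  have a5 : ((σ - (u * conj (w3 0 θ) ^ 2).im : ℝ) : ℂ) * -I * conj (w3 0 θ) * e₃ =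
      ((σ - (u * conj (w3 0 θ) ^ 2).im : ℝ) : ℂ) * (-I * (conj (w3 0 θ) * e₃)) := by ring
  rw [a4, a5, add_im, re_ofReal_mul, im_ofReal_mul]
  have a6 : ∀ z : ℂ, (-I * z).re = z.im := by intro z; simp
  have a7 : ∀ z : ℂ, (-I * z).im = -z.re := by intro z; simp
  rw [a6, a7]
  ring

/-- P2 -/
theorem Base.hasDerivAt_dph {θ : ℝ} (h : Base e ν ε θ) (u : ℂ) (σ : ℝ) (v : ℂ) (τ : ℝ)
    (l : Fin 3) :
    HasDerivAt (fun s : ℝ => H58.dph e ν ε (0 + (s : ℂ) * u) (θ + s * σ) v τ l)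
      (ddph e ν ε θ u σ v τ l) 0 := by
  by_cases hl : l = 2
  · subst hl
    have h1 := hasDerivAt_dph3 0 θ u σ v τ 0
    have h2 : (fun s : ℝ => H58.dph e ν ε (0 + (s : ℂ) * u) (θ + s * σ) v τ 2) =
        fun s : ℝ => dph3 (0 + (s : ℂ) * u) (θ + s * σ) v τ := by
      funext s
      unfold H58.dph
      rw [if_pos rfl]
    rw [h2]
    refine h1.congr_deriv ?_
    unfold ddph Kk
    rw [h.dph, h.dph]
    unfold Nn Rr Ri
    rw [if_pos rfl, Xc_two]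
    simp only [ofReal_zero, zero_mul, add_zero, zero_im, mul_zero]
    rw [exp_eq]
    ring
  · have hd : Dom e ν ε (0 + ((0 : ℝ) : ℂ) * u) (θ + 0 * σ) := by
      simpa using h.dom
    have hw := hasDerivAt_ww (v := u) (τ := σ) (s := 0) (μ := 0) (θ := θ) hd l
    have hww : ∀ μ θ, ww e ν ε μ θ l = wl (e l) (e 2) (ν l) (ε l) μ θ := by
      intro μ θ; unfold ww; rw [if_neg hl]
    have h2 : (fun s : ℝ => H58.dph e ν ε (0 + (s : ℂ) * u) (θ + s * σ) v τ l) =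
        fun s : ℝ => (ν l * dYf (e 2) (0 + (s : ℂ) * u) (θ + s * σ) v τ -
          (conj (ww e ν ε (0 + (s : ℂ) * u) (θ + s * σ) l) * (v * conj (e l))).re) /
          (conj (ww e ν ε (0 + (s : ℂ) * u) (θ + s * σ) l) * Eh (e l) (0 + (s : ℂ) * u)).im := by
      funext s
      unfold H58.dph dphl
      rw [if_neg hl, hww]
    rw [h2]
    have hc := hasDerivAt_conj hw
    have n1 := ((hasDerivAt_dYf (e 2) θ u σ v τ).const_mul (ν l)).fun_sub
      (hasDerivAt_re (hc.mul_const (v * conj (e l))))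
    have n2 := hasDerivAt_im (hc.fun_mul (hasDerivAt_Eh (e l) 0 u 0))
    have h4 := h.e2 l hl
    have hε0 : ε l ≠ 0 := by rintro h9; rw [h9] at h4; norm_num at h4
    have n0 : (conj (ww e ν ε (0 + ((0 : ℝ) : ℂ) * u) (θ + 0 * σ) l) *
        Eh (e l) (0 + ((0 : ℝ) : ℂ) * u)).im = -ε l := by
      simp only [ofReal_zero, zero_mul, add_zero]
      rw [Eh_zero, h.conj_mul hl]
      simp
    have n3 := n1.fun_div n2 (by rw [n0]; exact neg_ne_zero.2 hε0)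
    refine n3.congr_deriv ?_
    rw [n0]
    simp only [ofReal_zero, zero_mul, add_zero]
    rw [Eh_zero]
    have hcc : ∀ (a : ℝ) (z : ℂ), conj ((a : ℂ) * I * z) = (a : ℂ) * -I * conj z := by
      intro a z
      simp only [map_mul, conj_ofReal, conj_I]
    rw [hcc]
    have b1 := h.conj_mul hl
    have b2 := h.conj_mul' hl
    have b3 : ∀ z : ℂ, conj (ww e ν ε 0 θ l) * (z * conj (e l)) =
        (ε l : ℂ) * (I * (z * Xc e ν ε θ l)) := by
      intro z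
      calc _ = z * (conj (ww e ν ε 0 θ l) * conj (e l)) := by ring
        _ = _ := by rw [b2]; ring
    have b4 : ∀ (a : ℝ) (z : ℂ), (a : ℂ) * -I * conj (ww e ν ε 0 θ l) * (z * conj (e l)) =
        ((a * ε l : ℝ) : ℂ) * (z * Xc e ν ε θ l) := by
      intro a z
      calc _ = (a : ℂ) * -I * (conj (ww e ν ε 0 θ l) * (z * conj (e l))) := by ring
        _ = _ := by
          rw [b3]
          push_cast
          linear_combination (-(a : ℂ) * ε l * (z * Xc e ν ε θ l)) * I_sq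
    have b5 : ∀ (a : ℝ), (a : ℂ) * -I * conj (ww e ν ε 0 θ l) * e l = ((-(a * ε l) : ℝ) : ℂ) := by
      intro a
      calc _ = (a : ℂ) * -I * (conj (ww e ν ε 0 θ l) * e l) := by ring
        _ = _ := by
          rw [b1]
          push_cast
          linear_combination ((a : ℂ) * ε l) * I_sq
    rw [b3, b3, b4, b5, add_im, re_ofReal_mul, im_ofReal_mul, ofReal_im, re_ofReal_mul]
    have b6 : ∀ z : ℂ, (I * z).re = -z.im := by intro z; simp
    have b7 : ∀ z : ℂ, (I * z).im = z.re := by intro z; simp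
    rw [b6, b7]
    have h3 := h.e3 l hl
    unfold ddph Kk
    have hpu := h.dph u σ l
    have hpv := h.dph v τ l
    rw [hpu, hpv]
    unfold Nn Rr Ri
    rw [if_neg hl, Xc_two]
    have hdY : dYf (e 2) 0 θ v τ = (τ - (v * conj (w3 0 θ) ^ 2).im) * (conj (w3 0 θ) * e 2).im +
        (v * conj (w3 0 θ) ^ 2 * conj (conj (w3 0 θ) * e 2)).re := by
      unfold dYf dph3
      rw [exp_eq, zero_mul, zero_re, Eh_zero]
      have h7 : conj (w3 0 θ) * (v * conj (e 2)) =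
          (v * conj (w3 0 θ) ^ 2) * conj (conj (w3 0 θ) * e 2) := by
        calc _ = v * (conj (w3 0 θ) * conj (e 2)) := by ring
          _ = _ := by rw [w3_conj]; ring
      rw [h7]
      ring
    rw [hdY]
    set q := conj (w3 0 θ) * e 2 with hq
    set P := v * conj (w3 0 θ) ^ 2 with hP
    set Q := u * conj (w3 0 θ) ^ 2 with hQ
    set Z := v * Xc e ν ε θ l with hZ
    set T := u * Xc e ν ε θ l with hT
    simp only [mul_re P, mul_im P, mul_im Q, conj_re, conj_im]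
    rw [div_eq_iff (by rw [neg_sq, h4]; norm_num)]
    linear_combination
      (-ε l * ((τ - P.im) * (-(σ - Q.im) + Q.im) + (σ - Q.im) * P.im + P.re * T.re)) * h3 +
      (ε l * ν l * q.im * (σ * P.re + τ * Q.re + P.im * Q.re + Q.im * P.re + τ * T.re)) * h4

/-- the radial components of `k` -/
noncomputable def Ak (e : Fin 3 → ℂ) (ν ε : Fin 3 → ℝ) (θ : ℝ) (k : Fin 3 → ℂ) (l : Fin 3) : ℝ :=
  (k l * conj (ww e ν ε 0 θ l)).re

/-- the tangential components of `k` -/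
noncomputable def Bk (e : Fin 3 → ℂ) (ν ε : Fin 3 → ℝ) (θ : ℝ) (k : Fin 3 → ℂ) (l : Fin 3) : ℝ :=
  (k l * conj (ww e ν ε 0 θ l)).im

/-- the matrix of second derivatives at a base point -/
noncomputable def SS (e : Fin 3 → ℂ) (ν ε : Fin 3 → ℝ) (θ : ℝ) (k : Fin 3 → ℂ) (u : ℂ) (σ : ℝ)
    (v : ℂ) (τ : ℝ) : ℝ :=
  s2 (Bk e ν ε θ k) (Nn e ν ε θ) * Kk e ν ε θ u σ v τ +
    ∑ l, (2 * (Bk e ν ε θ k l * Nn e ν ε θ l) * (σ * Rr e ν ε θ v l + τ * Rr e ν ε θ u l) -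
      2 * Bk e ν ε θ k l * (Ri e ν ε θ u l * Rr e ν ε θ v l + Ri e ν ε θ v l * Rr e ν ε θ u l) -
      Ak e ν ε θ k l * Nn e ν ε θ l ^ 2 * (σ * τ) +
      Ak e ν ε θ k l * (Ri e ν ε θ u l * Ri e ν ε θ v l))

/-- D3: the second derivatives at a base point -/
theorem Base.hasDerivAt_G {θ : ℝ} (h : Base e ν ε θ) (k : Fin 3 → ℂ) (u : ℂ) (σ : ℝ) (v : ℂ)
    (τ : ℝ) : HasDerivAt (fun s : ℝ => sp k (bb e ν ε (0 + (s : ℂ) * u) (θ + s * σ) v τ))
      (SS e ν ε θ k u σ v τ) 0 := by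
  have hd : Dom e ν ε (0 + ((0 : ℝ) : ℂ) * u) (θ + 0 * σ) := by
    simpa using h.dom
  have h1 : ∀ l, HasDerivAt (fun s : ℝ => bb e ν ε (0 + (s : ℂ) * u) (θ + s * σ) v τ l)
      ((ddph e ν ε θ u σ v τ l : ℂ) * I * ww e ν ε 0 θ l +
        (H58.dph e ν ε 0 θ v τ l : ℂ) * I * ((H58.dph e ν ε 0 θ u σ l : ℂ) * I * ww e ν ε 0 θ l +
          u * conj (ww e ν ε 0 θ l)) -
        v * ((H58.dph e ν ε 0 θ u σ l : ℂ) * -I * conj (ww e ν ε 0 θ l))) 0 := by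
    intro l
    unfold bb
    have hw := hasDerivAt_ww (v := u) (τ := σ) (s := 0) (μ := 0) (θ := θ) hd l
    have hc := hasDerivAt_conj hw
    have hp := (h.hasDerivAt_dph u σ v τ l).ofReal_comp
    have h2 := (((hp.mul_const I).fun_mul (hw.fun_add ((hasDerivAt_mu 0 u 0).fun_mul hc))).fun_sub
      (hc.const_mul v))
    refine h2.congr_deriv ?_
    simp only [ofReal_zero, zero_mul, add_zero, map_mul, conj_ofReal, conj_I]
  refine (hasDerivAt_sp (k := k) h1).congr_deriv ?_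
  unfold SS sp s2
  rw [Finset.sum_mul, ← Finset.sum_add_distrib]
  refine Finset.sum_congr rfl fun l _ => ?_
  have hu := unit_mul_conj (norm_ww h.dom l)
  set w := ww e ν ε 0 θ l with hw
  have c1 : conj (k l) * w = (Ak e ν ε θ k l : ℂ) - (Bk e ν ε θ k l : ℂ) * I := by
    have : conj (k l) * w = conj (k l * conj w) := by rw [map_mul, conj_conj]
    rw [this]
    apply Complex.ext
    · simp [Ak, ← hw]
    · simp [Bk, ← hw]
      ring
  have c2 : conj (k l) * conj w = ((Ak e ν ε θ k l : ℂ) - (Bk e ν ε θ k l : ℂ) * I) *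
      Xc e ν ε θ l := by
    rw [← c1]
    unfold Xc
    rw [← hw]
    calc conj (k l) * conj w = conj (k l) * conj w * (w * conj w) := by rw [hu, mul_one]
      _ = _ := by ring
  have hpu := h.dph u σ l
  have hpv := h.dph v τ l
  set A := Ak e ν ε θ k l
  set B := Bk e ν ε θ k l
  have c3 : conj (k l) * ((ddph e ν ε θ u σ v τ l : ℂ) * I * w +
      (H58.dph e ν ε 0 θ v τ l : ℂ) * I * ((H58.dph e ν ε 0 θ u σ l : ℂ) * I * w + u * conj w) -
        v * ((H58.dph e ν ε 0 θ u σ l : ℂ) * -I * conj w)) =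
      (ddph e ν ε θ u σ v τ l : ℂ) * (I * (A - B * I)) +
      ((-(H58.dph e ν ε 0 θ v τ l * H58.dph e ν ε 0 θ u σ l) : ℝ) : ℂ) * (A - B * I) +
      (H58.dph e ν ε 0 θ v τ l : ℂ) * (I * ((A - B * I) * (u * Xc e ν ε θ l))) +
      (H58.dph e ν ε 0 θ u σ l : ℂ) * (I * ((A - B * I) * (v * Xc e ν ε θ l))) := by
    push_cast
    linear_combination ((ddph e ν ε θ u σ v τ l : ℂ) * I +
      (H58.dph e ν ε 0 θ v τ l : ℂ) * I * ((H58.dph e ν ε 0 θ u σ l : ℂ) * I)) * c1 +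
      ((H58.dph e ν ε 0 θ v τ l : ℂ) * I * u + v * (H58.dph e ν ε 0 θ u σ l : ℂ) * I) * c2 +
      ((H58.dph e ν ε 0 θ v τ l : ℂ) * (H58.dph e ν ε 0 θ u σ l : ℂ) * (A - B * I)) * I_sq
  rw [c3]
  simp only [add_re, re_ofReal_mul]
  have r1 : (I * ((A : ℂ) - B * I)).re = B := by simp
  have r2 : ((A : ℂ) - B * I).re = A := by simp
  have r3 : ∀ z : ℂ, (I * (((A : ℂ) - B * I) * z)).re = -(A * z.im) + B * z.re := by
    intro z
    simp [mul_re, mul_im]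
    ring
  rw [r1, r2, r3, r3]
  unfold ddph
  rw [hpu, hpv]
  unfold Rr Ri
  ring

end Pool.Agent.F5.H58
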