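import Pool.Agent.Helper58_F5.LinkC

/-!
# LINK, part D: duality
-/

set_option autoImplicit false

namespace Pool.Agent.F5.H58

open Complex ComplexConjugate MeasureTheory Pool.Agent.F5H.BC
open Pool.Agent.Helper68_F5 (bf)

/-- the two dual triples are the same functional -/
def Du (K k : Fin 3 → ℂ) (ω : ℂ) (lam : ℝ) (μ : ℂ) : Prop :=
  ∀ X : Fin 3 → ℂ, sp K (fun l => ω * ((√lam : ℝ) : ℂ) * (X l + μ * conj (X l))) = sp k X

theorem sp_single (k : Fin 3 → ℂ) (l : Fin 3) (x : ℂ) :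
    sp k (Pi.single l x) = (conj (k l) * x).re := by
  unfold sp
  rw [Finset.sum_eq_single l]
  · rw [Pi.single_eq_same]
  · intro m _ hm
    rw [Pi.single_eq_of_ne hm, mul_zero, zero_re]
  · intro h
    exact absurd (Finset.mem_univ l) h

theorem Du.one {K k : Fin 3 → ℂ} {ω : ℂ} {lam : ℝ} {μ : ℂ} (h : Du K k ω lam μ) (l : Fin 3)
    (x : ℂ) : (conj (K l) * (ω * ((√lam : ℝ) : ℂ) * (x + μ * conj x))).re =
      (conj (k l) * x).re := by
  have h1 := h (Pi.single l x)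
  rw [sp_single] at h1
  rw [← h1, ← sp_single K l]
  congr 1
  funext m
  by_cases hm : m = l
  · subst hm
    rw [Pi.single_eq_same, Pi.single_eq_same]
  · rw [Pi.single_eq_of_ne hm, Pi.single_eq_of_ne hm, map_zero, mul_zero, add_zero, mul_zero]

/-- the angular part, at any point -/
noncomputable def TA (q : XX) (l : Fin 3) : ℂ := I * (wp q l + mu q.1 * conj (wp q l))

/-- the slope of the angle, at any point -/
noncomputable def gq (q : XX) (l : Fin 3) : ℝ :=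
  q.1.2.2.1 l * Yf (q.1.2.1 2) (mu q.1) (th q.1) / (conj (wp q l) * Eh (q.1.2.1 l) (mu q.1)).im

/-- the vector of `kappa` -/
noncomputable def KQ (q : XX) (l : Fin 3) : ℂ :=
  (bw q l : ℂ) * (wp q l - mu q.1 * conj (wp q l)) -
    ((if l = 2 then 0 else gq q l * (bw q l - bw q 2) : ℝ) : ℂ) * TA q l

theorem wp_zero {q : XX} (h : q.2.1 = 0) (l : Fin 3) :
    wp q l = ww q.1.2.1 q.1.2.2.1 q.1.2.2.2 (mu q.1) (th q.1) l := by
  unfold wp
  rw [Ps_zero h]

theorem KQ_zero {q : XX} (h : q.2.1 = 0) (k : Fin 3 → ℂ) : sp k (KQ q) = kh q k := by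
  unfold sp kh
  refine Finset.sum_congr rfl fun l _ => ?_
  have e1 : wp q l - mu q.1 * conj (wp q l) = MM q.1 l := by
    rw [wp_zero h]
    rfl
  have e2 : TA q l = ta q.1 l := by
    unfold TA
    rw [wp_zero h]
    rfl
  have e3 : (if l = 2 then 0 else gq q l * (bw q l - bw q 2) : ℝ) =
      gs q.1 l * (bw q l - bw q 2) := by
    split_ifs with hl
    · rw [hl]; ring
    · unfold gq
      rw [wp_zero h]
      rfl
  unfold KQ
  rw [e1, e2, e3]
  have e4 : conj (k l) * ((bw q l : ℂ) * MM q.1 l -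
      ((gs q.1 l * (bw q l - bw q 2) : ℝ) : ℂ) * ta q.1 l) =
      ((bw q l : ℝ) : ℂ) * (conj (k l) * MM q.1 l) -
      ((gs q.1 l * (bw q l - bw q 2) : ℝ) : ℂ) * (conj (k l) * ta q.1 l) := by
    ring
  rw [e4, sub_re, re_ofReal_mul, re_ofReal_mul]

section

variable {T : ℝ} {H : Fin 3 → ℂ} {ep : Fin 3 → ℝ} {tA : ℝ} {q : XX} {ω : ℂ} {lam V : ℝ}
  {K k : Fin 3 → ℂ}

theorem Fr.sp_W (F : Fr T H ep tA q ω lam V) (D : Du K k ω lam (mu q.1)) (u : Fin 3 → ℝ)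
    (ζ : ℝ) : sp K (Wv T ω q u ζ) = T / √lam * sp k (dN q u ζ) := by
  have h0 : √lam ≠ 0 := (Real.sqrt_pos.2 F.hlam).ne'
  have h1 := D ((T / √lam) • dN q u ζ)
  rw [sp_smul] at h1
  rw [← h1]
  congr 1
  funext l
  unfold Wv
  rw [Pi.smul_apply, real_smul, map_mul, conj_ofReal]
  have h2 : ((√lam : ℝ) : ℂ) * ((T / √lam : ℝ) : ℂ) = (T : ℂ) := by
    rw [← ofReal_mul]
    congr 1
    field_simp
  linear_combination (-(ω * (dN q u ζ l + mu q.1 * conj (dN q u ζ l)))) * h2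

theorem Fr.sp_R (F : Fr T H ep tA q ω lam V) (D : Du K k ω lam (mu q.1)) :
    sp K (Rv T ω q) = T / √lam * (sp k (NM q) - 2 * q.2.1 * sp k (dN q 0 1)) := by
  have h0 : √lam ≠ 0 := (Real.sqrt_pos.2 F.hlam).ne'
  have h1 := D ((T / √lam) • (NM q - (2 * q.2.1) • dN q 0 1))
  rw [sp_smul, sp_sub, sp_smul] at h1
  rw [← h1]
  congr 1
  funext l
  unfold Rv Zn
  rw [Pi.smul_apply, Pi.sub_apply, Pi.smul_apply, real_smul, real_smul, map_mul, map_sub, map_mul,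
    conj_ofReal, conj_ofReal]
  have h2 : ((√lam : ℝ) : ℂ) * ((T / √lam : ℝ) : ℂ) = (T : ℂ) := by
    rw [← ofReal_mul]
    congr 1
    field_simp
  push_cast at h2 ⊢
  linear_combination (-(ω * (NM q l + mu q.1 * conj (NM q l) -
    2 * (q.2.1 : ℂ) * (dN q 0 1 l + mu q.1 * conj (dN q 0 1 l))))) * h2

theorem sp_GM (hμ : normSq (mu q.1) < 1) (k : Fin 3 → ℂ) :
    sp k (GM q) = (1 - normSq (mu q.1)) * sp k (NM q) := by
  rw [← sp_smul]
  congr 1
  funext l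
  rw [Pi.smul_apply, real_smul]
  exact GM_NM hμ l

theorem sp_Z1' (hq : q ∈ UX) (hμ : normSq (mu q.1) < 1) (k : Fin 3 → ℂ) :
    sp k (Z1 q) = (1 - normSq (mu q.1)) * sp k (dN q 0 1) := by
  rw [← sp_smul]
  congr 1
  funext l
  rw [Pi.smul_apply, real_smul]
  exact Z1_dN hq hμ l

/-- the coefficient of `NM` -/
noncomputable def cj (q : XX) (j : Fin 3) : ℝ :=
  2 * (conj (mu q.1) * (((Pi.single j (1 : ℝ) : Fin 3 → ℝ) 0 : ℂ) +
    ((Pi.single j (1 : ℝ) : Fin 3 → ℝ) 1 : ℂ) * I)).re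

theorem sp_DG (hq : q ∈ UX) (hμ : normSq (mu q.1) < 1) (k : Fin 3 → ℂ) (j : Fin 3) :
    sp k (DG q j) = (1 - normSq (mu q.1)) * sp k (dN q (Pi.single j 1) 0) -
      cj q j * sp k (NM q) := by
  rw [← sp_smul, ← sp_smul, ← sp_sub]
  congr 1
  funext l
  rw [Pi.sub_apply, Pi.smul_apply, Pi.smul_apply, real_smul, real_smul]
  exact dG_dN (Pi.single j 1) 0 hq hμ l

theorem abs_vj (j : Fin 3) : ‖(((Pi.single j (1 : ℝ) : Fin 3 → ℝ) 0 : ℂ) +
    ((Pi.single j (1 : ℝ) : Fin 3 → ℝ) 1 : ℂ) * I)‖ ≤ 1 := by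
  fin_cases j <;> simp

theorem abs_cj (q : XX) (j : Fin 3) : |cj q j| ≤ 2 * ‖mu q.1‖ := by
  unfold cj
  rw [abs_mul, abs_two]
  refine mul_le_mul_of_nonneg_left ((abs_re_le_norm _).trans ?_) (by norm_num)
  rw [norm_mul, norm_conj]
  calc _ ≤ ‖mu q.1‖ * 1 := mul_le_mul_of_nonneg_left (abs_vj j) (norm_nonneg _)
    _ = _ := mul_one _

/-- the radial window -/
theorem Fr.phi_eq (F : Fr T H ep tA q ω lam V) (D : Du K k ω lam (mu q.1)) :
    phi k q = -(2 * (1 - normSq (mu q.1)) * (√lam / T) *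
      (sp K (tv T H ep tA (1, 0, 0) 0) + sp K (tv T H ep tA (0, 0, 1) 0))) := by
  have h0 : √lam ≠ 0 := (Real.sqrt_pos.2 F.hlam).ne'
  have hT := F.hT.ne'
  have h1 := F.sp_R D
  have h2 : sp K (Rv T ω q) = -2 * sp K (tv T H ep tA (1, 0, 0) 0) -
      2 * sp K (tv T H ep tA (0, 0, 1) 0) := by
    have h3 : Rv T ω q = tv T H ep tA (-2, 0, -2) 0 := by
      funext l
      exact (F.tv_rad l).symm
    rw [h3, sp_tv_dec]
    ring
  unfold phi
  rw [sp_GM F.hμ, sp_Z1' F.hq F.hμ]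
  have h4 : sp k (NM q) - 2 * q.2.1 * sp k (dN q 0 1) = √lam / T * sp K (Rv T ω q) := by
    rw [h1]
    field_simp
  have h5 : (1 - normSq (mu q.1)) * sp k (NM q) -
      2 * q.2.1 * ((1 - normSq (mu q.1)) * sp k (dN q 0 1)) =
      (1 - normSq (mu q.1)) * (sp k (NM q) - 2 * q.2.1 * sp k (dN q 0 1)) := by ring
  rw [h5, h4, h2]
  ring

/-- the tangential component at the index 2 -/
noncomputable def yj (T : ℝ) (H : Fin 3 → ℂ) (ep : Fin 3 → ℝ) (tA : ℝ) (ω : ℂ) (q : XX)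
    (j : Fin 3) : ℝ :=
  (conj (wG T H ep tA 2) * Wv T ω q (Pi.single j 1) 0 2).im

theorem Fr.abs_yj (F : Fr T H ep tA q ω lam V) {CN : ℝ} (hμ8 : ‖mu q.1‖ ≤ 1 / 8) {j : Fin 3}
    (hN : ‖dN q (Pi.single j 1) 0‖ ≤ CN) : |yj T H ep tA ω q j| ≤ T * (9 / 8 * CN) := by
  unfold yj
  refine (abs_im_le_norm _).trans ?_
  have hCN : 0 ≤ CN := (norm_nonneg _).trans hN
  rw [norm_mul, norm_conj, F.norm_wG, one_mul]
  unfold Wv
  rw [norm_mul, norm_mul, F.hω, one_mul, norm_real, Real.norm_eq_abs, abs_of_pos F.hT]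
  refine mul_le_mul_of_nonneg_left ?_ F.hT.le
  refine (norm_add_le _ _).trans ?_
  rw [norm_mul, norm_conj]
  have h1 : ‖dN q (Pi.single j 1) 0 2‖ ≤ CN := (norm_le_pi_norm _ 2).trans hN
  have h2 := mul_le_mul hμ8 h1 (norm_nonneg _) (by norm_num)
  linarith

/-- the values on the three directions of the chart -/
theorem Fr.sp_tv (F : Fr T H ep tA q ω lam V) (D : Du K k ω lam (mu q.1)) (j : Fin 3) :
    (Bv (mu q.1) ω (((Pi.single j (1 : ℝ) : Fin 3 → ℝ) 0 : ℂ) +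
      ((Pi.single j (1 : ℝ) : Fin 3 → ℝ) 1 : ℂ) * I)).1 * sp K (tv T H ep tA (1, 0, 0) 0) +
    (Bv (mu q.1) ω (((Pi.single j (1 : ℝ) : Fin 3 → ℝ) 0 : ℂ) +
      ((Pi.single j (1 : ℝ) : Fin 3 → ℝ) 1 : ℂ) * I)).2.1 * sp K (tv T H ep tA (0, 1, 0) 0) +
    (Bv (mu q.1) ω (((Pi.single j (1 : ℝ) : Fin 3 → ℝ) 0 : ℂ) +
      ((Pi.single j (1 : ℝ) : Fin 3 → ℝ) 1 : ℂ) * I)).2.2 * sp K (tv T H ep tA (0, 0, 1) 0) +
    yj T H ep tA ω q j * sp K (tv T H ep tA 0 1) =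
      T / √lam * sp k (dN q (Pi.single j 1) 0) := by
  rw [← F.sp_W D, ← sp_tv_dec]
  congr 1
  funext l
  exact F.tv_u (Pi.single j 1) l

theorem abs_Bv {mu om v : ℂ} (hom : ‖om‖ = 1) (hμ8 : ‖mu‖ ≤ 1 / 8) (hv : ‖v‖ ≤ 1) :
    |(Bv mu om v).1| ≤ 3 ∧ |(Bv mu om v).2.1| ≤ 3 ∧ |(Bv mu om v).2.2| ≤ 3 := by
  have hN : normSq mu ≤ 1 / 64 := by
    rw [normSq_eq_norm_sq]
    have := norm_nonneg mu
    nlinarith
  have hN0 := normSq_nonneg mu
  have h0 : 0 < 1 - normSq mu := by linarith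
  have h1 : |2 / (1 - normSq mu)| ≤ 128 / 63 := by
    rw [abs_of_pos (by positivity), div_le_div_iff₀ h0 (by norm_num)]
    linarith
  have h2 : ‖v * om ^ 2‖ ≤ 1 := by
    rw [norm_mul, norm_pow, hom, one_pow, mul_one]
    exact hv
  have h3 : ‖v * conj mu‖ ≤ 1 / 8 := by
    rw [norm_mul, norm_conj]
    calc ‖v‖ * ‖mu‖ ≤ 1 * (1 / 8) := mul_le_mul hv hμ8 (norm_nonneg _) (by norm_num)
      _ = 1 / 8 := one_mul _
  have r1 := (abs_re_le_norm (v * om ^ 2)).trans h2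
  have r2 := (abs_im_le_norm (v * om ^ 2)).trans h2
  have r3 := (abs_re_le_norm (v * conj mu)).trans h3
  have key : ∀ x : ℝ, |x| ≤ 9 / 8 → |2 / (1 - normSq mu) * x| ≤ 3 := by
    intro x hx
    rw [abs_mul]
    calc _ ≤ 128 / 63 * (9 / 8) := mul_le_mul h1 hx (abs_nonneg _) (by norm_num)
      _ ≤ 3 := by norm_num
  rw [abs_le] at r1 r2 r3
  refine ⟨key _ ?_, key _ ?_, key _ ?_⟩ <;> rw [abs_le] <;> constructor <;> linarith [r1.1, r1.2,
    r2.1, r2.2, r3.1, r3.2]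

theorem normSq_le {μ : ℂ} (h : ‖μ‖ ≤ 1 / 8) : normSq μ ≤ 1 / 64 := by
  rw [normSq_eq_norm_sq]
  have := norm_nonneg μ
  nlinarith

/-- (A): from the body to the chart -/
theorem Fr.chartA (F : Fr T H ep tA q ω lam V) (D : Du K k ω lam (mu q.1)) {c₁ c₂ CN e : ℝ}
    (hμ8 : ‖mu q.1‖ ≤ 1 / 8) (hl : lam ≤ 4) (hc₁ : 0 ≤ c₁)
    (hN : ∀ j, ‖dN q (Pi.single j 1) 0‖ ≤ CN) (he : |q.2.1 * sp k (Z1 q)| ≤ e)
    (h1 : |sp K (tv T H ep tA (1, 0, 0) 0)| ≤ c₁ * T)
    (h2 : |sp K (tv T H ep tA (0, 1, 0) 0)| ≤ c₁ * T)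
    (h3 : |sp K (tv T H ep tA (0, 0, 1) 0)| ≤ c₁ * T)
    (h4 : |sp K (tv T H ep tA 0 1)| ≤ c₁)
    (h5 : |sp K (tv T H ep tA (1, 0, 1) 0)| ≤ c₂ * T) :
    |phi k q| ≤ 4 * c₂ ∧ ∀ j, |sp k (DG q j)| ≤ (18 + 3 * CN) * c₁ + 2 * c₂ + e := by
  have hT := F.hT
  have hN8 := normSq_le hμ8
  have hN0 := normSq_nonneg (mu q.1)
  have hs2 : √lam ≤ 2 := by
    rw [Real.sqrt_le_left (by norm_num)]
    linarith
  have hs0 : 0 < √lam := Real.sqrt_pos.2 F.hlam
  have h13 : sp K (tv T H ep tA (1, 0, 1) 0) =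
      sp K (tv T H ep tA (1, 0, 0) 0) + sp K (tv T H ep tA (0, 0, 1) 0) := by
    rw [sp_tv_dec K (1, 0, 1) 0]
    ring
  have hc₂ : 0 ≤ c₂ := by
    by_contra hcon
    have : c₂ * T < 0 := mul_neg_of_neg_of_pos (not_le.1 hcon) hT
    linarith [abs_nonneg (sp K (tv T H ep tA (1, 0, 1) 0))]
  have hCN : 0 ≤ CN := (norm_nonneg _).trans (hN 0)
  have hphi : |phi k q| ≤ 4 * c₂ := by
    rw [F.phi_eq D, ← h13, abs_neg, abs_mul, abs_of_nonneg (by
      have : 0 ≤ √lam / T := by positivity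
      have h0 : 0 ≤ 1 - normSq (mu q.1) := by linarith
      positivity)]
    have e1 : 2 * (1 - normSq (mu q.1)) * (√lam / T) ≤ 4 / T := by
      rw [mul_div_assoc', div_le_div_iff_of_pos_right hT]
      nlinarith
    have e2 : 4 / T * (c₂ * T) = 4 * c₂ := by field_simp
    rw [← e2]
    exact mul_le_mul e1 h5 (abs_nonneg _) (by positivity)
  refine ⟨hphi, fun j => ?_⟩
  have hNM : |sp k (NM q)| ≤ 64 / 63 * (4 * c₂ + 2 * e) := by
    have e1 : (1 - normSq (mu q.1)) * sp k (NM q) = phi k q + 2 * (q.2.1 * sp k (Z1 q)) := by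
      rw [← sp_GM F.hμ]
      unfold phi
      ring
    have e2 : |(1 - normSq (mu q.1)) * sp k (NM q)| ≤ 4 * c₂ + 2 * e := by
      rw [e1]
      refine (abs_add_le _ _).trans ?_
      rw [abs_mul, abs_two]
      linarith
    rw [abs_mul, abs_of_nonneg (by linarith)] at e2
    have e3 : 63 / 64 * |sp k (NM q)| ≤ (1 - normSq (mu q.1)) * |sp k (NM q)| :=
      mul_le_mul_of_nonneg_right (by linarith) (abs_nonneg _)
    linarith
  have hdN : |sp k (dN q (Pi.single j 1) 0)| ≤ (18 + 9 / 4 * CN) * c₁ := by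
    have e1 := F.sp_tv D j
    obtain ⟨b1, b2, b3⟩ := abs_Bv (mu := mu q.1) F.hω hμ8 (abs_vj j)
    set B := Bv (mu q.1) ω (((Pi.single j (1 : ℝ) : Fin 3 → ℝ) 0 : ℂ) +
      ((Pi.single j (1 : ℝ) : Fin 3 → ℝ) 1 : ℂ) * I)
    have b4 := F.abs_yj hμ8 (hN j)
    have e2 : |T / √lam * sp k (dN q (Pi.single j 1) 0)| ≤
        3 * (c₁ * T) + 3 * (c₁ * T) + 3 * (c₁ * T) + T * (9 / 8 * CN) * c₁ := by
      rw [← e1]
      have hcT : 0 ≤ c₁ * T := by positivity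
      refine (abs_add_le _ _).trans (add_le_add ((abs_add_le _ _).trans (add_le_add
        ((abs_add_le _ _).trans (add_le_add ?_ ?_)) ?_)) ?_)
      · rw [abs_mul]; exact mul_le_mul b1 h1 (abs_nonneg _) (by norm_num)
      · rw [abs_mul]; exact mul_le_mul b2 h2 (abs_nonneg _) (by norm_num)
      · rw [abs_mul]; exact mul_le_mul b3 h3 (abs_nonneg _) (by norm_num)
      · rw [abs_mul]; exact mul_le_mul b4 h4 (abs_nonneg _) (by positivity)
    rw [abs_mul, abs_of_pos (by positivity : 0 < T / √lam), div_mul_eq_mul_div,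
      div_le_iff₀ hs0] at e2
    have e3 : T * |sp k (dN q (Pi.single j 1) 0)| ≤ T * ((18 + 9 / 4 * CN) * c₁) := by
      refine e2.trans ?_
      have e4 : (3 * (c₁ * T) + 3 * (c₁ * T) + 3 * (c₁ * T) + T * (9 / 8 * CN) * c₁) * √lam ≤
          (3 * (c₁ * T) + 3 * (c₁ * T) + 3 * (c₁ * T) + T * (9 / 8 * CN) * c₁) * 2 :=
        mul_le_mul_of_nonneg_left hs2 (by positivity)
      linarith
    exact le_of_mul_le_mul_left e3 hT
  rw [sp_DG F.hq F.hμ]
  refine (abs_sub _ _).trans ?_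
  rw [abs_mul, abs_mul, abs_of_nonneg (by linarith : 0 ≤ 1 - normSq (mu q.1))]
  have e1 : (1 - normSq (mu q.1)) * |sp k (dN q (Pi.single j 1) 0)| ≤ (18 + 9 / 4 * CN) * c₁ := by
    refine le_trans ?_ hdN
    exact mul_le_of_le_one_left (abs_nonneg _) (by linarith)
  have e2 : |cj q j| ≤ 1 / 4 := (abs_cj q j).trans (by linarith)
  have e3 : |cj q j| * |sp k (NM q)| ≤ 1 / 4 * (64 / 63 * (4 * c₂ + 2 * e)) :=
    mul_le_mul e2 hNM (abs_nonneg _) (by norm_num)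
  have he0 : 0 ≤ e := (abs_nonneg _).trans he
  have e4 : 0 ≤ CN * c₁ := by positivity
  linarith

theorem dph3_ge {μ : ℂ} {θ : ℝ} (h : ‖μ‖ ≤ 1 / 8) : 3 / 4 ≤ dph3 μ θ 0 1 := by
  unfold dph3
  have h1 : |(μ * cexp (((-2 * θ : ℝ) : ℂ) * I)).re| ≤ 1 / 8 := by
    refine (abs_re_le_norm _).trans ?_
    rw [norm_mul, norm_exp_ofReal_mul_I, mul_one]
    exact h
  rw [abs_le] at h1
  simp only [zero_mul, zero_im, sub_zero, mul_one]
  linarith [h1.1]

/-- (B): from the chart to the body -/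
theorem Fr.chartB (F : Fr T H ep tA q ω lam V) (D : Du K k ω lam (mu q.1)) {a p CN e : ℝ}
    (hμ8 : ‖mu q.1‖ ≤ 1 / 8) (hl : 1 / 4 ≤ lam) (hbz : bz q 2 ≤ 1 / 4)
    (hN : ∀ j, ‖dN q (Pi.single j 1) 0‖ ≤ CN) (he : |q.2.1 * sp k (Z1 q)| ≤ e)
    (hp : |phi k q| ≤ p) (ha : ∀ j, |sp k (DG q j)| ≤ a) :
    |sp K (tv T H ep tA (1, 0, 0) 0)| ≤ (4 + 5 * CN) * (2 * a + p + e) * T ∧
    |sp K (tv T H ep tA (0, 1, 0) 0)| ≤ (4 + 5 * CN) * (2 * a + p + e) * T ∧
    |sp K (tv T H ep tA (0, 0, 1) 0)| ≤ (4 + 5 * CN) * (2 * a + p + e) * T ∧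
    |sp K (tv T H ep tA 0 1)| ≤ 4 * (2 * a + p + e) ∧
    |sp K (tv T H ep tA (1, 0, 1) 0)| ≤ 2 * p * T := by
  have hT := F.hT
  have hN8 := normSq_le hμ8
  have hN0 := normSq_nonneg (mu q.1)
  have hs2 : 1 / 2 ≤ √lam := by
    rw [Real.le_sqrt' (by norm_num)]
    linarith
  have hs0 : 0 < √lam := Real.sqrt_pos.2 F.hlam
  have hp0 : 0 ≤ p := (abs_nonneg _).trans hp
  have ha0 : 0 ≤ a := (abs_nonneg _).trans (ha 0)
  have he0 : 0 ≤ e := (abs_nonneg _).trans he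
  have hCN : 0 ≤ CN := (norm_nonneg _).trans (hN 0)
  have h13 : sp K (tv T H ep tA (1, 0, 1) 0) =
      sp K (tv T H ep tA (1, 0, 0) 0) + sp K (tv T H ep tA (0, 0, 1) 0) := by
    rw [sp_tv_dec K (1, 0, 1) 0]
    ring
  set t1 := sp K (tv T H ep tA (1, 0, 0) 0) with ht1
  set t2 := sp K (tv T H ep tA (0, 1, 0) 0) with ht2
  set t3 := sp K (tv T H ep tA (0, 0, 1) 0) with ht3
  set t4 := sp K (tv T H ep tA 0 1) with ht4
  have hNM : |sp k (NM q)| ≤ 64 / 63 * (p + 2 * e) := by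
    have e1 : (1 - normSq (mu q.1)) * sp k (NM q) = phi k q + 2 * (q.2.1 * sp k (Z1 q)) := by
      rw [← sp_GM F.hμ]
      unfold phi
      ring
    have e2 : |(1 - normSq (mu q.1)) * sp k (NM q)| ≤ p + 2 * e := by
      rw [e1]
      refine (abs_add_le _ _).trans ?_
      rw [abs_mul, abs_two]
      linarith
    rw [abs_mul, abs_of_nonneg (by linarith)] at e2
    have e3 : 63 / 64 * |sp k (NM q)| ≤ (1 - normSq (mu q.1)) * |sp k (NM q)| :=
      mul_le_mul_of_nonneg_right (by linarith) (abs_nonneg _)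
    linarith
  have hdN : ∀ j, |sp k (dN q (Pi.single j 1) 0)| ≤ 2 * a + p + e := by
    intro j
    have e1 : (1 - normSq (mu q.1)) * sp k (dN q (Pi.single j 1) 0) =
        sp k (DG q j) + cj q j * sp k (NM q) := by
      rw [sp_DG F.hq F.hμ]
      ring
    have e2 : |(1 - normSq (mu q.1)) * sp k (dN q (Pi.single j 1) 0)| ≤
        a + 1 / 4 * (64 / 63 * (p + 2 * e)) := by
      rw [e1]
      refine (abs_add_le _ _).trans (add_le_add (ha j) ?_)
      rw [abs_mul]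
      exact mul_le_mul ((abs_cj q j).trans (by linarith)) hNM (abs_nonneg _) (by norm_num)
    rw [abs_mul, abs_of_nonneg (by linarith)] at e2
    have e3 : 63 / 64 * |sp k (dN q (Pi.single j 1) 0)| ≤
        (1 - normSq (mu q.1)) * |sp k (dN q (Pi.single j 1) 0)| :=
      mul_le_mul_of_nonneg_right (by linarith) (abs_nonneg _)
    linarith
  set s := 2 * a + p + e with hs
  have hs00 : 0 ≤ s := by positivity
  -- the direction of the angle
  have hh4 : |t4| ≤ 4 * s := by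
    have e1 := F.tv_th
    have e2 : sp K (tv T H ep tA 0 (T * (√(1 - bz q 2) * dph3 (mu q.1) (th q.1) 0 1))) =
        T / √lam * sp k (dN q (Pi.single 2 1) 0) := by
      rw [← F.sp_W D]
      congr 1
      funext l
      exact e1 l
    rw [sp_tv_dec] at e2
    simp only [Prod.fst_zero, Prod.snd_zero, zero_mul, zero_add] at e2
    rw [← ht4] at e2
    have e3 : |t4| * (T * (√(1 - bz q 2) * dph3 (mu q.1) (th q.1) 0 1)) ≤ T / √lam * s := by
      have e4 := congrArg abs e2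
      have d1 := dph3_ge (θ := th q.1) hμ8
      have d0 : 0 ≤ dph3 (mu q.1) (th q.1) 0 1 := by linarith
      rw [abs_mul (T * (√(1 - bz q 2) * dph3 (mu q.1) (th q.1) 0 1)) t4,
        abs_mul (T / √lam), abs_of_nonneg (by positivity : 0 ≤ T * (√(1 - bz q 2) *
        dph3 (mu q.1) (th q.1) 0 1)), abs_of_pos (by positivity : 0 < T / √lam)] at e4
      rw [mul_comm, e4]
      exact mul_le_mul_of_nonneg_left (hdN 2) (by positivity)
    have d1 := dph3_ge (θ := th q.1) hμ8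
    have d2 : 2 / 3 ≤ √(1 - bz q 2) := by
      rw [Real.le_sqrt' (by norm_num)]
      linarith
    have d3 : 1 / 2 ≤ √(1 - bz q 2) * dph3 (mu q.1) (th q.1) 0 1 := by
      calc (1 / 2 : ℝ) = 2 / 3 * (3 / 4) := by norm_num
        _ ≤ _ := mul_le_mul d2 d1 (by norm_num) (by positivity)
    have d4 : T / √lam * s ≤ T * (2 * s) := by
      rw [div_mul_eq_mul_div, div_le_iff₀ hs0]
      have : 0 ≤ T * s := by positivity
      nlinarith
    have d5 : |t4| * (T * (1 / 2)) ≤ |t4| * (T * (√(1 - bz q 2) *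
        dph3 (mu q.1) (th q.1) 0 1)) :=
      mul_le_mul_of_nonneg_left (mul_le_mul_of_nonneg_left d3 hT.le) (abs_nonneg _)
    have d6 : T * |t4| ≤ T * (4 * s) := by linarith
    exact le_of_mul_le_mul_left d6 hT
  -- the radial direction
  have hh13 : |t1 + t3| ≤ 2 * p * T := by
    have e1 := F.phi_eq D
    rw [← ht1, ← ht3] at e1
    have e2 : 2 * (1 - normSq (mu q.1)) * √lam * |t1 + t3| ≤ p * T := by
      rw [e1, abs_neg, abs_mul, abs_of_nonneg (by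
        have : 0 ≤ √lam / T := by positivity
        have h0 : 0 ≤ 1 - normSq (mu q.1) := by linarith
        positivity)] at hp
      have e3 : 2 * (1 - normSq (mu q.1)) * (√lam / T) * |t1 + t3| =
          2 * (1 - normSq (mu q.1)) * √lam * |t1 + t3| / T := by ring
      rw [e3, div_le_iff₀ hT] at hp
      exact hp
    have e4 : 63 / 64 ≤ 2 * (1 - normSq (mu q.1)) * √lam := by nlinarith
    have e5 := mul_le_mul_of_nonneg_right e4 (abs_nonneg (t1 + t3))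
    have e6 : 0 ≤ p * T := by positivity
    linarith
  -- the two other directions
  have hL : ∀ j, |(Bv (mu q.1) ω (((Pi.single j (1 : ℝ) : Fin 3 → ℝ) 0 : ℂ) +
      ((Pi.single j (1 : ℝ) : Fin 3 → ℝ) 1 : ℂ) * I)).1 * t1 +
    (Bv (mu q.1) ω (((Pi.single j (1 : ℝ) : Fin 3 → ℝ) 0 : ℂ) +
      ((Pi.single j (1 : ℝ) : Fin 3 → ℝ) 1 : ℂ) * I)).2.1 * t2 +
    (Bv (mu q.1) ω (((Pi.single j (1 : ℝ) : Fin 3 → ℝ) 0 : ℂ) +
      ((Pi.single j (1 : ℝ) : Fin 3 → ℝ) 1 : ℂ) * I)).2.2 * t3| ≤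
      T * ((2 + 9 / 2 * CN) * s) := by
    intro j
    have e1 := F.sp_tv D j
    rw [← ht1, ← ht2, ← ht3, ← ht4] at e1
    have e2 := eq_sub_of_add_eq e1
    rw [e2]
    refine (abs_sub _ _).trans ?_
    rw [abs_mul, abs_mul, abs_of_pos (by positivity : 0 < T / √lam)]
    have d4 : T / √lam * |sp k (dN q (Pi.single j 1) 0)| ≤ T * (2 * s) := by
      rw [div_mul_eq_mul_div, div_le_iff₀ hs0]
      have d7 := mul_le_mul_of_nonneg_left (hdN j) hT.le
      have : 0 ≤ T * s := by positivity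
      nlinarith
    have d5 := mul_le_mul (F.abs_yj hμ8 (hN j)) hh4 (abs_nonneg _)
      (by positivity : 0 ≤ T * (9 / 8 * CN))
    linarith
  have hL0 := hL 0
  have hL1 := hL 1
  have s00 : (Pi.single (0 : Fin 3) (1 : ℝ) : Fin 3 → ℝ) 0 = 1 := by simp
  have s01 : (Pi.single (0 : Fin 3) (1 : ℝ) : Fin 3 → ℝ) 1 = 0 := by simp
  have s10 : (Pi.single (1 : Fin 3) (1 : ℝ) : Fin 3 → ℝ) 0 = 0 := by simp
  have s11 : (Pi.single (1 : Fin 3) (1 : ℝ) : Fin 3 → ℝ) 1 = 1 := by simp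
  rw [s00, s01] at hL0
  rw [s10, s11] at hL1
  have v0 : ((1 : ℝ) : ℂ) + ((0 : ℝ) : ℂ) * I = 1 := by simp
  have v1 : ((0 : ℝ) : ℂ) + ((1 : ℝ) : ℂ) * I = I := by simp
  rw [v0] at hL0
  rw [v1] at hL1
  have hn0 : (0 : ℝ) < 1 - normSq (mu q.1) := by linarith
  have hω2 : (ω ^ 2).re ^ 2 + (ω ^ 2).im ^ 2 = 1 := by
    rw [← norm_sq_eq, norm_pow, F.hω]
    norm_num
  set α := (ω ^ 2).re with hα
  set β := (ω ^ 2).im with hβ
  have m0 : |α * (t1 - t3) + β * t2 - (mu q.1).re * (t1 + t3)| ≤ T * ((1 + 9 / 4 * CN) * s) := by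
    have e1 : (Bv (mu q.1) ω 1).1 * t1 + (Bv (mu q.1) ω 1).2.1 * t2 + (Bv (mu q.1) ω 1).2.2 * t3 =
        2 / (1 - normSq (mu q.1)) * (α * (t1 - t3) + β * t2 - (mu q.1).re * (t1 + t3)) := by
      unfold Bv
      simp only [one_mul, conj_re]
      rw [← hα, ← hβ]
      ring
    rw [e1, abs_mul, abs_of_pos (by positivity), div_mul_eq_mul_div, div_le_iff₀ hn0] at hL0
    have e2 : T * ((2 + 9 / 2 * CN) * s) * (1 - normSq (mu q.1)) ≤ T * ((2 + 9 / 2 * CN) * s) :=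
      mul_le_of_le_one_right (by positivity) (by linarith)
    linarith
  have m1 : |α * t2 - β * (t1 - t3) - (mu q.1).im * (t1 + t3)| ≤ T * ((1 + 9 / 4 * CN) * s) := by
    have e1 : (Bv (mu q.1) ω I).1 * t1 + (Bv (mu q.1) ω I).2.1 * t2 + (Bv (mu q.1) ω I).2.2 * t3 =
        2 / (1 - normSq (mu q.1)) * (α * t2 - β * (t1 - t3) - (mu q.1).im * (t1 + t3)) := by
      unfold Bv
      simp only [mul_re, mul_im, I_re, I_im, conj_re, conj_im, zero_mul, one_mul, zero_sub,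
        zero_add]
      rw [← hα, ← hβ]
      ring
    rw [e1, abs_mul, abs_of_pos (by positivity), div_mul_eq_mul_div, div_le_iff₀ hn0] at hL1
    have e2 : T * ((2 + 9 / 2 * CN) * s) * (1 - normSq (mu q.1)) ≤ T * ((2 + 9 / 2 * CN) * s) :=
      mul_le_of_le_one_right (by positivity) (by linarith)
    linarith
  have hre : |(mu q.1).re * (t1 + t3)| ≤ 1 / 8 * (2 * p * T) := by
    rw [abs_mul]
    exact mul_le_mul ((abs_re_le_norm _).trans hμ8) hh13 (abs_nonneg _) (by norm_num)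
  have him : |(mu q.1).im * (t1 + t3)| ≤ 1 / 8 * (2 * p * T) := by
    rw [abs_mul]
    exact mul_le_mul ((abs_im_le_norm _).trans hμ8) hh13 (abs_nonneg _) (by norm_num)
  have hpT : 0 ≤ p * T := by positivity
  have hps : p * T ≤ s * T := mul_le_mul_of_nonneg_right (by rw [hs]; linarith) hT.le
  set M := T * ((1 + 9 / 4 * CN) * s) + 1 / 4 * (p * T) with hM
  have n0 : |α * (t1 - t3) + β * t2| ≤ M := by
    have e1 : α * (t1 - t3) + β * t2 = (α * (t1 - t3) + β * t2 - (mu q.1).re * (t1 + t3)) +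
      (mu q.1).re * (t1 + t3) := by ring
    rw [e1]
    exact (abs_add_le _ _).trans (by linarith)
  have n1 : |α * t2 - β * (t1 - t3)| ≤ M := by
    have e1 : α * t2 - β * (t1 - t3) = (α * t2 - β * (t1 - t3) - (mu q.1).im * (t1 + t3)) +
      (mu q.1).im * (t1 + t3) := by ring
    rw [e1]
    exact (abs_add_le _ _).trans (by linarith)
  have hα1 : |α| ≤ 1 := by
    rw [abs_le]
    constructor <;> nlinarith [sq_nonneg β, sq_nonneg (α - 1), sq_nonneg (α + 1)]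
  have hβ1 : |β| ≤ 1 := by
    rw [abs_le]
    constructor <;> nlinarith [sq_nonneg α, sq_nonneg (β - 1), sq_nonneg (β + 1)]
  have hM0 : 0 ≤ M := (abs_nonneg _).trans n0
  have q1 : |t1 - t3| ≤ 2 * M := by
    have e1 : t1 - t3 = α * (α * (t1 - t3) + β * t2) - β * (α * t2 - β * (t1 - t3)) := by
      linear_combination (-(t1 - t3)) * hω2
    rw [e1]
    refine (abs_sub _ _).trans ?_
    rw [abs_mul, abs_mul]
    have := mul_le_mul hα1 n0 (abs_nonneg _) (by norm_num)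
    have := mul_le_mul hβ1 n1 (abs_nonneg _) (by norm_num)
    linarith
  have q2 : |t2| ≤ 2 * M := by
    have e1 : t2 = β * (α * (t1 - t3) + β * t2) + α * (α * t2 - β * (t1 - t3)) := by
      linear_combination (-t2) * hω2
    rw [e1]
    refine (abs_add_le _ _).trans ?_
    rw [abs_mul, abs_mul]
    have := mul_le_mul hβ1 n0 (abs_nonneg _) (by norm_num)
    have := mul_le_mul hα1 n1 (abs_nonneg _) (by norm_num)
    linarith
  have hfin : 2 * M ≤ (3 + 5 * CN) * s * T := by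
    have : 0 ≤ CN * s * T := by positivity
    rw [hM]
    linarith
  have hst : 0 ≤ s * T := by positivity
  have e1 : t1 = ((t1 + t3) + (t1 - t3)) / 2 := by ring
  have e3 : t3 = ((t1 + t3) - (t1 - t3)) / 2 := by ring
  refine ⟨?_, ?_, ?_, hh4, ?_⟩
  · rw [e1, abs_div, abs_two]
    have := abs_add_le (t1 + t3) (t1 - t3)
    linarith
  · linarith
  · rw [e3, abs_div, abs_two]
    have := abs_sub (t1 + t3) (t1 - t3)
    linarith
  · rw [h13]; exact hh13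

/-- the tangential window -/
theorem Fr.tan_eq (F : Fr T H ep tA q ω lam V) (D : Du K k ω lam (mu q.1)) (l : Fin 3) :
    (conj (K l) * (I * wG T H ep tA l)).re =
      (conj (k l) * TA q l).re / (√lam * (1 - normSq (mu q.1))) := by
  have h0 : √lam ≠ 0 := (Real.sqrt_pos.2 F.hlam).ne'
  have h1 : (1 - normSq (mu q.1)) ≠ 0 := by linarith [F.hμ]
  have h2 := D.one l (((1 / (√lam * (1 - normSq (mu q.1))) : ℝ) : ℂ) * TA q l)
  have e1 : conj (k l) * (((1 / (√lam * (1 - normSq (mu q.1))) : ℝ) : ℂ) * TA q l) =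
      ((1 / (√lam * (1 - normSq (mu q.1))) : ℝ) : ℂ) * (conj (k l) * TA q l) := by ring
  rw [e1, re_ofReal_mul] at h2
  rw [div_eq_mul_one_div, mul_comm (conj (k l) * TA q l).re, ← h2]
  congr 2
  rw [F.wG_eq l]
  unfold TA
  simp only [map_mul, map_add, conj_ofReal, conj_I, conj_conj]
  have e2 : mu q.1 * conj (mu q.1) = ((normSq (mu q.1) : ℝ) : ℂ) := mul_conj _
  have e3 : ((√lam : ℝ) : ℂ) * ((1 / (√lam * (1 - normSq (mu q.1))) : ℝ) : ℂ) *
      ((1 - normSq (mu q.1) : ℝ) : ℂ) = 1 := by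
    rw [← ofReal_mul, ← ofReal_mul, ← ofReal_one]
    congr 1
    field_simp
  push_cast at e3 ⊢
  linear_combination (-(I * ω * wp q l)) * e3 +
    (ω * (√lam : ℂ) * (1 / ((√lam : ℂ) * (1 - (normSq (mu q.1) : ℂ)))) * I * wp q l) * e2

/-- the radial component -/
theorem Fr.rad_eq (F : Fr T H ep tA q ω lam V) (D : Du K k ω lam (mu q.1)) (l : Fin 3) :
    (conj (K l) * wG T H ep tA l).re =
      (conj (k l) * (wp q l - mu q.1 * conj (wp q l))).re / (√lam * (1 - normSq (mu q.1))) := by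
  have h0 : √lam ≠ 0 := (Real.sqrt_pos.2 F.hlam).ne'
  have h1 : (1 - normSq (mu q.1)) ≠ 0 := by linarith [F.hμ]
  have h2 := D.one l (((1 / (√lam * (1 - normSq (mu q.1))) : ℝ) : ℂ) *
    (wp q l - mu q.1 * conj (wp q l)))
  have e1 : conj (k l) * (((1 / (√lam * (1 - normSq (mu q.1))) : ℝ) : ℂ) *
      (wp q l - mu q.1 * conj (wp q l))) =
      ((1 / (√lam * (1 - normSq (mu q.1))) : ℝ) : ℂ) *
        (conj (k l) * (wp q l - mu q.1 * conj (wp q l))) := by ring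
  rw [e1, re_ofReal_mul] at h2
  rw [div_eq_mul_one_div, mul_comm (conj (k l) * (wp q l - mu q.1 * conj (wp q l))).re, ← h2]
  congr 2
  rw [F.wG_eq l]
  simp only [map_mul, map_sub, conj_ofReal, conj_conj]
  have e2 : mu q.1 * conj (mu q.1) = ((normSq (mu q.1) : ℝ) : ℂ) := mul_conj _
  have e3 : ((√lam : ℝ) : ℂ) * ((1 / (√lam * (1 - normSq (mu q.1))) : ℝ) : ℂ) *
      ((1 - normSq (mu q.1) : ℝ) : ℂ) = 1 := by
    rw [← ofReal_mul, ← ofReal_mul, ← ofReal_one]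
    congr 1
    field_simp
  push_cast at e3 ⊢
  linear_combination (-(ω * wp q l)) * e3 +
    (ω * (√lam : ℂ) * (1 / ((√lam : ℂ) * (1 - (normSq (mu q.1) : ℂ)))) * wp q l) * e2

theorem Fr.cwH (F : Fr T H ep tA q ω lam V) (l : Fin 3) :
    conj (wG T H ep tA l) * H l = ((√lam * (q.2.2 l * V) : ℝ) : ℂ) *
      (conj (wp q l) * Eh (q.1.2.1 l) (mu q.1)) := by
  rw [F.wG_eq l, F.hH l, map_mul]
  have h2 := unit_mul_conj F.hω
  calc _ = (ω * conj ω) * (((√lam * (q.2.2 l * V) : ℝ) : ℂ) *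
      (conj (wp q l) * Eh (q.1.2.1 l) (mu q.1))) := by ring
    _ = _ := by rw [h2, one_mul]

/-- `kappa` -/
theorem Fr.kph_eq (F : Fr T H ep tA q ω lam V) (D : Du K k ω lam (mu q.1)) :
    kph T H ep tA K = √lam * V ^ 2 / (1 - normSq (mu q.1)) * sp k (KQ q) := by
  have h0 : √lam ≠ 0 := (Real.sqrt_pos.2 F.hlam).ne'
  have h1 : (1 - normSq (mu q.1)) ≠ 0 := by linarith [F.hμ]
  have hs : √lam ^ 2 = lam := Real.sq_sqrt F.hlam.le
  have hV := F.hV.ne'
  have hH2 : ∀ l, ‖H l‖ ^ 2 = lam * V ^ 2 * bw q l := by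
    intro l
    rw [F.norm_H l]
    unfold bw
    rw [normSq_eq_norm_sq]
    linear_combination (q.2.2 l ^ 2 * V ^ 2 * ‖Eh (q.1.2.1 l) (mu q.1)‖ ^ 2) * hs
  unfold kph sp
  rw [Finset.mul_sum]
  refine Finset.sum_congr rfl fun l _ => ?_
  rw [F.rad_eq D, F.tan_eq D, hH2, hH2]
  unfold KQ
  have e1 : (conj (k l) * ((bw q l : ℂ) * (wp q l - mu q.1 * conj (wp q l)) -
      ((if l = 2 then 0 else gq q l * (bw q l - bw q 2) : ℝ) : ℂ) * TA q l)).re =
      bw q l * (conj (k l) * (wp q l - mu q.1 * conj (wp q l))).re -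
      (if l = 2 then 0 else gq q l * (bw q l - bw q 2)) * (conj (k l) * TA q l).re := by
    have : conj (k l) * ((bw q l : ℂ) * (wp q l - mu q.1 * conj (wp q l)) -
      ((if l = 2 then 0 else gq q l * (bw q l - bw q 2) : ℝ) : ℂ) * TA q l) =
      ((bw q l : ℝ) : ℂ) * (conj (k l) * (wp q l - mu q.1 * conj (wp q l))) -
      ((if l = 2 then 0 else gq q l * (bw q l - bw q 2) : ℝ) : ℂ) * (conj (k l) * TA q l) := by
      ring
    rw [this, sub_re, re_ofReal_mul, re_ofReal_mul]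
  rw [e1]
  set A := (conj (k l) * (wp q l - mu q.1 * conj (wp q l))).re
  set B := (conj (k l) * TA q l).re
  by_cases hl : l = 2
  · rw [if_pos hl, hl]
    field_simp
    rw [hs]
    ring
  · rw [if_neg hl]
    have e2 : tG T H ep tA 2 / nG T H ep tA l = gq q l := by
      unfold tG nG
      rw [F.cwH 2, F.cwH l, re_ofReal_mul, im_ofReal_mul]
      unfold gq
      have e3 : (conj (wp q 2) * Eh (q.1.2.1 2) (mu q.1)).re =
          Yf (q.1.2.1 2) (mu q.1) (th q.1) := rfl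
      rw [e3]
      have e4 : (conj (wp q l) * Eh (q.1.2.1 l) (mu q.1)).im ≠ 0 := by
        have h4 : wp q l = wl (q.1.2.1 l) (q.1.2.1 2) (q.1.2.2.1 l * sl q l) (q.1.2.2.2 l)
            (mu q.1) (th q.1) := by
          unfold wp ww
          rw [if_neg hl]
          rfl
        rw [h4]
        obtain ⟨a, b, c⟩ := F.hq.2 l hl
        exact im_ne (x := Ps q) (l := l) a b c
      have e5 := (F.hβ l).ne'
      have e6 := F.hν l
      rw [← e6]
      field_simp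
    rw [e2]
    field_simp
    rw [hs]

end

end Pool.Agent.F5.H58
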