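import Pool.Agent.F5H.StmtsG

/-!
# MAT: from the body to the chart
-/

set_option autoImplicit false

namespace Pool.Agent.F5.H58

open Complex ComplexConjugate MeasureTheory Pool.Agent.F5H.BC Pool.Agent.BTL Pool.Agent.F5S
  Pool.Agent.F5H

theorem unit_sq {a b : ℂ} (ha : ‖a‖ = 1) (hb : ‖b‖ = 1) :
    2 * |(conj a * b).im| ≤ ‖a ^ 2 - b ^ 2‖ := by
  have h1 : ‖a ^ 2 - b ^ 2‖ = ‖1 - (conj a * b) ^ 2‖ := by
    have h2 := unit_mul_conj ha
    have h3 : a ^ 2 - b ^ 2 = a ^ 2 * (1 - (conj a * b) ^ 2) := by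
      have h4 : a ^ 2 * (1 - (conj a * b) ^ 2) = a ^ 2 - (a * conj a) ^ 2 * b ^ 2 := by ring
      rw [h4, h2]; ring
    rw [h3, norm_mul, norm_pow, ha, one_pow, one_mul]
  rw [h1]
  set u := conj a * b with hu
  have hn : ‖u‖ = 1 := by rw [hu, norm_mul, norm_conj, ha, hb, one_mul]
  have h2 : u.re ^ 2 + u.im ^ 2 = 1 := by rw [← norm_sq_eq, hn]; norm_num
  refine (pow_le_pow_iff_left₀ (by positivity) (norm_nonneg _) (two_ne_zero)).1 ?_
  rw [norm_sq_eq]
  have e1 : (1 - u ^ 2).re = 2 * u.im ^ 2 := by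
    rw [sub_re, one_re, pow_two, mul_re]
    linear_combination (-1 : ℝ) * h2
  have e2 : (1 - u ^ 2).im = -(2 * u.re * u.im) := by
    rw [sub_im, one_im, pow_two, mul_im]
    ring
  rw [e1, e2, mul_pow, sq_abs]
  have e3 : (2 * u.im ^ 2) ^ 2 + (-(2 * u.re * u.im)) ^ 2 =
      4 * u.im ^ 2 * (u.re ^ 2 + u.im ^ 2) := by ring
  rw [e3, h2]
  linarith

theorem class_ex {Q k0 x : ℝ} {N : ℕ} (hQ : 0 < Q) (hk : 1 ≤ k0) (hx0 : 0 ≤ x)
    (hx : x ≤ Q ^ 4 * k0) (hN1 : 1 ≤ N) (hN : (1 / 2 : ℝ) ^ (N - 1) < k0⁻¹) :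
    ∃ j ∈ Finset.range N, A1j Q k0 j ≤ x ∧ x ≤ A2j Q k0 j := by
  classical
  have hk0 : 0 < k0 := by linarith
  have hP0 : x ≤ A2j Q k0 0 := by
    unfold A2j dl
    rw [pow_zero, max_eq_left (inv_le_one_of_one_le₀ hk), mul_one]
    exact hx
  by_cases hall : ∀ j < N, x ≤ A2j Q k0 j
  · refine ⟨N - 1, Finset.mem_range.2 (by omega), ?_, hall _ (by omega)⟩
    unfold A1j
    rw [if_neg (not_le.2 hN)]
    exact hx0
  · push Not at hall
    have hex : ∃ j, j < N ∧ A2j Q k0 j < x := hall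
    have hf := Nat.find_spec hex
    have hmin := fun m (hm : m < Nat.find hex) => Nat.find_min hex hm
    set j1 := Nat.find hex with hj1
    have hj1pos : 1 ≤ j1 := by
      by_contra hc
      have h0 : j1 = 0 := by omega
      rw [h0] at hf
      exact absurd hP0 (not_le.2 hf.2)
    refine ⟨j1 - 1, Finset.mem_range.2 (by omega), ?_, ?_⟩
    · unfold A1j
      split_ifs with hc
      · have e1 : dl k0 (j1 - 1) = (1 / 2) ^ (j1 - 1) := max_eq_left hc
        have e2 : (1 / 2 : ℝ) ^ j1 = (1 / 2) ^ (j1 - 1) / 2 := by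
          have : j1 = (j1 - 1) + 1 := by omega
          conv_lhs => rw [this]
          rw [pow_succ]
          ring
        have e3 : (1 / 2 : ℝ) ^ j1 ≤ dl k0 j1 := le_max_left _ _
        have e4 : A2j Q k0 (j1 - 1) / 2 ≤ A2j Q k0 j1 := by
          unfold A2j
          rw [e1]
          have e5 : Q ^ 4 * k0 * (1 / 2) ^ (j1 - 1) / 2 = Q ^ 4 * k0 * ((1 / 2) ^ j1) := by
            rw [e2]; ring
          rw [e5]
          exact mul_le_mul_of_nonneg_left e3 (by positivity)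
        linarith [hf.2]
      · exact hx0
    · by_contra hc
      exact hmin (j1 - 1) (by omega) ⟨by omega, not_le.1 hc⟩

theorem i1 : I1Stmt := by
  intro cha frm T Q V k0 s h k A X hN w hl hμ hθ hw
  obtain ⟨hKM, hIoc, hSrt, hGd, b1, b2, b3, b4, b5, b6⟩ := hw
  obtain ⟨g1, g2, g3, g4⟩ := id hGd
  have hQ := X.Q0
  have hQ3 := X.hQ
  have hT := X.T0
  have hS := X.S0
  have hpw : (1 : ℝ) / Q ^ 50 ≤ 1 / 64 := by
    rw [div_le_div_iff₀ (by positivity) (by norm_num)]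
    have h1 : Q ^ 1 ≤ Q ^ 50 := X.pw (by norm_num)
    rw [pow_one] at h1
    linarith
  obtain ⟨hD, hY⟩ := X.dom cha hl hμ hθ (by
    have e1 : T * |(conj (cexp (((Psi A w).2 : ℂ) * I)) * hG (Psi A w).1 h 2).re| ≤ Q * Rx T := g3
    exact e1)
  have hl' := abs_le.1 hl
  have hw0 : 0 < w.1 := by linarith [hl'.1]
  have hμ8 : ‖mw w‖ ≤ 1 / 8 := hμ.trans (hpw.trans (by norm_num))
  have hμ1 : ‖mw w‖ < 1 := by linarith
  set z := sF T A h * w.1 with hz
  have hz0 : 0 ≤ z := by positivity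
  have hz2 : z ≤ 2 * sF T A h := by
    rw [hz]; nlinarith [hl'.2]
  set P := Pc A s h with hP
  set β := bc A h with hβ
  set v : ℝ × (Fin 3 → ℝ) := (z, w.2) with hv
  have hKK : xw P v ∈ KK := D0_KK X.std hpw (by norm_num) hD
  obtain ⟨a1, a2, a3, a4, a5, a6, a7, a8⟩ := X.ac (xw P v) hKK β X.bc_le z hz0 (X.zz hz2)
  have hqe : Qp T A s h w = ((xw P v, z, β) : XX) := rfl
  obtain ⟨F, D⟩ := frm cha T Q A s h k w hT X.Q1 X.hA X.neH hw0 hμ1 a1
  set K := kG A k with hK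
  have hmu : mu (Qp T A s h w).1 = mw w := rfl
  have hKz := X.Kz hz0 hz2
  rw [← hK] at hKz
  have hKz0 : 0 ≤ ‖K‖ * z := mul_nonneg (norm_nonneg _) hz0
  have hKz1 : Q * (‖K‖ * z) ≤ kap T (V 0) := by
    refine le_trans ?_ hKz
    refine mul_le_mul_of_nonneg_right ?_ hKz0
    have h1 : Q ^ 1 ≤ Q ^ 90 := X.pw (by norm_num)
    rwa [pow_one] at h1
  have hκ := X.p0
  have hκr := X.p2
  have hκκ := X.p3
  -- the body in the chart
  have hcA := F.chartA (k := K) (c₁ := Q * kap T (V 0)) (c₂ := Q * kpr T (V 0)) (CN := Q)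
    (e := Q * (‖K‖ * z)) D (by rw [hmu]; exact hμ8) (by linarith [hl'.2]) (by positivity)
    a2 (by
      have h1 := a4 K
      show |z * sp K (Z1 ((xw P v, z, β) : XX))| ≤ Q * (‖K‖ * z)
      rw [abs_mul, abs_of_nonneg hz0]
      have h2 := mul_le_mul_of_nonneg_left h1 hz0
      linarith)
    b1 b2 b3 b4 b5
  obtain ⟨hphi, hDG⟩ := hcA
  have hFF : ∀ j, |sp K (FF (xw P v) j)| ≤ Q ^ 4 * kap T (V 0) := by
    intro j
    have h1 := hDG j
    have h2 := a5 K j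
    have h3 : |sp K (FF (xw P v) j)| ≤ |sp K (DG ((xw P v, z, β) : XX) j)| +
        |sp K (DG ((xw P v, z, β) : XX) j) - sp K (FF (xw P v) j)| := by
      have h4 : sp K (FF (xw P v) j) = sp K (DG ((xw P v, z, β) : XX) j) -
          (sp K (DG ((xw P v, z, β) : XX) j) - sp K (FF (xw P v) j)) := by ring
      calc |sp K (FF (xw P v) j)| = |sp K (DG ((xw P v, z, β) : XX) j) -
          (sp K (DG ((xw P v, z, β) : XX) j) - sp K (FF (xw P v) j))| := by rw [← h4]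
        _ ≤ _ := abs_sub _ _
    have h5 : |sp K (DG ((xw P v, z, β) : XX) j)| ≤
        (18 + 3 * Q) * (Q * kap T (V 0)) + 2 * (Q * kpr T (V 0)) + Q * (‖K‖ * z) := h1
    have h6 : (18 + 3 * Q) * (Q * kap T (V 0)) + 2 * (Q * kap T (V 0)) + 2 * kap T (V 0) ≤
        Q ^ 4 * kap T (V 0) := by
      have h7 : (18 + 3 * Q) * (Q * kap T (V 0)) + 2 * (Q * kap T (V 0)) + 2 * kap T (V 0) =
        (20 * Q + 3 * Q ^ 2 + 2) * kap T (V 0) := by ring
      rw [h7]
      refine mul_le_mul_of_nonneg_right ?_ hκ.le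
      have h8 : Q ^ 3 ≤ Q ^ 4 := X.pw (by norm_num)
      have h9 : 1000 * Q ^ 2 ≤ Q ^ 3 := by
        have : Q ^ 3 = Q * Q ^ 2 := by ring
        rw [this]
        exact mul_le_mul_of_nonneg_right hQ3 (by positivity)
      nlinarith
    have h7 : Q * kpr T (V 0) ≤ Q * kap T (V 0) := mul_le_mul_of_nonneg_left hκκ hQ.le
    linarith
  have hphi' : |phi K ((xw P v, z, β) : XX)| ≤ Q ^ 2 * kpr T (V 0) := by
    refine hphi.trans ?_
    have h1 : 4 * (Q * kpr T (V 0)) = (4 * Q) * kpr T (V 0) := by ring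
    rw [h1]
    refine mul_le_mul_of_nonneg_right ?_ hκr.le
    nlinarith
  -- the separation
  have hu : ∀ l, ‖wp (Qp T A s h w) l‖ = 1 := fun l => norm_wp a1 (fun l => X.std.p1 l) l
  have hsep : ∀ l m, l ≠ m → 1 / Q ≤ ‖Xq P.1 P.2.1 P.2.2 (mu (xw P v)) (th (xw P v)) l -
      Xq P.1 P.2.1 P.2.2 (mu (xw P v)) (th (xw P v)) m‖ := by
    intro l m hlm
    have h1 : 1 ≤ Q * |(conj (wG T (hG (Psi A w).1 h) (sg s) (Psi A w).2 l) *
        wG T (hG (Psi A w).1 h) (sg s) (Psi A w).2 m).im| := g4 l m hlm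
    have e1 := F.wG_eq l
    have e2 := F.wG_eq m
    have e3 : conj (wG T (hG (Psi A w).1 h) (sg s) (Psi A w).2 l) *
        wG T (hG (Psi A w).1 h) (sg s) (Psi A w).2 m =
        conj (wp (Qp T A s h w) l) * wp (Qp T A s h w) m := by
      have e4 : wG T (hG (Psi A w).1 h) (sg s) (Psi A w).2 l = om (mw w) * wp (Qp T A s h w) l := e1
      have e5 : wG T (hG (Psi A w).1 h) (sg s) (Psi A w).2 m = om (mw w) * wp (Qp T A s h w) m := e2
      have e6 := unit_mul_conj (norm_om hμ1)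
      rw [e4, e5, map_mul]
      calc _ = (om (mw w) * conj (om (mw w))) * (conj (wp (Qp T A s h w) l) *
          wp (Qp T A s h w) m) := by ring
        _ = _ := by rw [e6, one_mul]
    rw [e3] at h1
    have h2 := unit_sq (hu l) (hu m)
    have h3 : ∀ l, ‖wp (Qp T A s h w) l ^ 2 - Xq P.1 P.2.1 P.2.2 (mu (xw P v)) (th (xw P v)) l‖ ≤
        3 * (Q * z) := by
      intro l
      have c1 := a3 l
      have c2 : wp ((xw P v, 0, β) : XX) l ^ 2 =
          Xq P.1 P.2.1 P.2.2 (mu (xw P v)) (th (xw P v)) l := by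
        rw [wp_zero (q := ((xw P v, 0, β) : XX)) rfl]
        rfl
      rw [← c2]
      have c3 : wp (Qp T A s h w) l ^ 2 - wp ((xw P v, 0, β) : XX) l ^ 2 =
          (wp (Qp T A s h w) l - wp ((xw P v, 0, β) : XX) l) *
          (2 * wp (Qp T A s h w) l - (wp (Qp T A s h w) l - wp ((xw P v, 0, β) : XX) l)) := by
        ring
      rw [c3, norm_mul]
      have c4 : ‖wp (Qp T A s h w) l - wp ((xw P v, 0, β) : XX) l‖ ≤ Q * z := c1
      have c5 : ‖2 * wp (Qp T A s h w) l -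
          (wp (Qp T A s h w) l - wp ((xw P v, 0, β) : XX) l)‖ ≤ 3 := by
        refine (norm_sub_le _ _).trans ?_
        rw [norm_mul, hu l, Complex.norm_ofNat]
        have := X.zz hz2
        linarith
      calc _ ≤ Q * z * 3 := mul_le_mul c4 c5 (norm_nonneg _) (by positivity)
        _ = 3 * (Q * z) := by ring
    have h4 := h3 l
    have h5 := h3 m
    set a := wp (Qp T A s h w) l
    set b := wp (Qp T A s h w) m
    set xl := Xq P.1 P.2.1 P.2.2 (mu (xw P v)) (th (xw P v)) l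
    set xm := Xq P.1 P.2.1 P.2.2 (mu (xw P v)) (th (xw P v)) m
    have h6 : ‖a ^ 2 - b ^ 2‖ ≤ ‖a ^ 2 - xl‖ + ‖xl - xm‖ + ‖b ^ 2 - xm‖ := by
      have : a ^ 2 - b ^ 2 = (a ^ 2 - xl) + (xl - xm) - (b ^ 2 - xm) := by ring
      rw [this]
      exact (norm_sub_le _ _).trans (add_le_add (norm_add_le _ _) le_rfl)
    have h7 : 6 * (Q * z) ≤ 1 / Q := by
      rw [le_div_iff₀ hQ]
      have d1 := X.S3
      have d2 : 6 * (Q * z) * Q ≤ 12 * Q ^ 2 * sF T A h := by
        have : 6 * (Q * z) * Q = 6 * Q ^ 2 * z := by ring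
        rw [this]
        have := mul_le_mul_of_nonneg_left hz2 (by positivity : 0 ≤ 6 * Q ^ 2)
        linarith
      have d3 : 12 * Q ^ 2 ≤ Q ^ 94 := by
        have d4 : Q ^ 3 ≤ Q ^ 94 := X.pw (by norm_num)
        have d5 : Q ^ 3 = Q * Q ^ 2 := by ring
        have d6 : 12 * Q ^ 2 ≤ Q * Q ^ 2 := mul_le_mul_of_nonneg_right (by linarith) (by positivity)
        linarith
      have d7 := mul_le_mul_of_nonneg_right d3 hS.le
      linarith
    have h8 : 1 / Q ≤ |(conj a * b).im| := by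
      rw [div_le_iff₀ hQ]
      linarith
    have h9 : 2 * (1 / Q) ≤ ‖a ^ 2 - b ^ 2‖ := by linarith
    linarith
  -- kappa
  have hkh := a6 K
  have hkh' : |kh (q0 P β v) K| ≤ Q ^ 4 * k0 := by
    refine hkh.trans ?_
    have h1 : Q * ‖K‖ ≤ Q * (Q ^ 2 * k0) := mul_le_mul_of_nonneg_left X.kA2 hQ.le
    have h2 : Q * (Q ^ 2 * k0) = Q ^ 3 * k0 := by ring
    have h3 : Q ^ 3 * k0 ≤ Q ^ 4 * k0 := mul_le_mul_of_nonneg_right (X.pw (by norm_num)) X.k00.le
    linarith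
  have hN1 : 1 ≤ ⌈3 * Q⌉₊ := Nat.one_le_iff_ne_zero.2 (by
    have : 0 < ⌈3 * Q⌉₊ := Nat.ceil_pos.2 (by positivity)
    omega)
  obtain ⟨j, hj, j1, j2⟩ := class_ex hQ X.k1 (abs_nonneg _) hkh' hN1 hN
  refine ⟨j, hj, ⟨⟨⟨?_, hY, hsep⟩, hFF, hphi', j1, j2⟩, hD, fun l => ?_⟩⟩
  · obtain ⟨c1, c2, c3, c4, c5, c6⟩ := hD
    refine ⟨?_, ?_, c3, c4, c5, c6⟩
    · linarith
    · linarith
  · have h1 := F.tan_eq D l
    have h2 := b6 l
    have h3 : |(conj (K l) * TA (Qp T A s h w) l).re / (√w.1 *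
        (1 - normSq (mw w)))| ≤ Q * V l := by
      rw [← hmu, ← h1]
      exact h2
    have hs2 : √w.1 ≤ 2 := by
      rw [Real.sqrt_le_left (by norm_num)]
      linarith [hl'.2]
    have hs0 : 0 < √w.1 := Real.sqrt_pos.2 hw0
    have hn := normSq_le hμ8
    have hn0 := normSq_nonneg (mw w)
    have hd : 0 < √w.1 * (1 - normSq (mw w)) := mul_pos hs0 (by linarith)
    rw [abs_div, abs_of_pos hd, div_le_iff₀ hd] at h3
    have hV := X.Vl l
    have h4 : √w.1 * (1 - normSq (mw w)) ≤ 2 := by nlinarith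
    have h5 : Q * V l * (√w.1 * (1 - normSq (mw w))) ≤ Q * V l * 2 :=
      mul_le_mul_of_nonneg_left h4 (by positivity)
    have h6 : Q * V l * 2 ≤ Q ^ 2 * V l := by
      have : Q * V l * 2 = (2 * Q) * V l := by ring
      rw [this]
      exact mul_le_mul_of_nonneg_right (by nlinarith) (by positivity)
    exact (h3.trans h5).trans h6

end Pool.Agent.F5.H58
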