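import Mathlib

/-!
# The averaging lemma and the radial lemma
-/

set_option autoImplicit false

namespace Pool.Agent.F5.H58

open MeasureTheory Set

/-- the box -/
def bx (a ρ : ℝ) (q : ℝ × (Fin 3 → ℝ)) : Set (ℝ × (Fin 3 → ℝ)) :=
  {w | |w.1 - q.1| ≤ a ∧ ∀ i, |w.2 i - q.2 i| ≤ ρ}

theorem bx_eq (a ρ : ℝ) (q : ℝ × (Fin 3 → ℝ)) :
    bx a ρ q = (Icc (q.1 - a) (q.1 + a)) ×ˢ (univ.pi fun i => Icc (q.2 i - ρ) (q.2 i + ρ)) := by
  ext w
  simp only [bx, mem_ofPred_eq, mem_prod, mem_Icc, mem_univ_pi, abs_le]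
  constructor
  · rintro ⟨⟨h1, h2⟩, h3⟩
    exact ⟨⟨by linarith, by linarith⟩, fun i => ⟨by linarith [(h3 i).1], by linarith [(h3 i).2]⟩⟩
  · rintro ⟨⟨h1, h2⟩, h3⟩
    exact ⟨⟨by linarith, by linarith⟩, fun i => ⟨by linarith [(h3 i).1], by linarith [(h3 i).2]⟩⟩

theorem vol_bx {a ρ : ℝ} (ha : 0 ≤ a) (hρ : 0 ≤ ρ) (q : ℝ × (Fin 3 → ℝ)) :
    volume (bx a ρ q) = ENNReal.ofReal (2 * a * (2 * ρ) ^ 3) := by
  rw [bx_eq, Measure.volume_eq_prod, Measure.prod_prod, Real.volume_Icc, volume_pi_pi]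
  have h1 : q.1 + a - (q.1 - a) = 2 * a := by ring
  have h2 : ∀ i : Fin 3, q.2 i + ρ - (q.2 i - ρ) = 2 * ρ := fun i => by ring
  simp only [Real.volume_Icc, h1, h2, Finset.prod_const, Finset.card_univ, Fintype.card_fin]
  rw [← ENNReal.ofReal_pow (by linarith), ← ENNReal.ofReal_mul (by linarith)]

/-- AVERAGING: a set which has density at most `g` in every box around its points, all these boxes
being contained in `K`, has measure at most `g |K|` -/
theorem average {B K : Set (ℝ × (Fin 3 → ℝ))} (hB : MeasurableSet B) {a ρ g : ℝ} (ha : 0 < a)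
    (hρ : 0 < ρ) (hg : 0 ≤ g)
    (h1 : ∀ q ∈ B, volume (B ∩ bx a ρ q) ≤ ENNReal.ofReal (g * (a * ρ ^ 3)))
    (h2 : ∀ q ∈ B, bx a ρ q ⊆ K) : volume B ≤ ENNReal.ofReal g * volume K := by
  -- the half box around `w`
  have hS : MeasurableSet {p : (ℝ × (Fin 3 → ℝ)) × (ℝ × (Fin 3 → ℝ)) |
      p.1 ∈ B ∧ p.1 ∈ bx (a / 2) (ρ / 2) p.2} := by
    refine MeasurableSet.inter (measurable_fst hB) ?_
    have e0 : {p : (ℝ × (Fin 3 → ℝ)) × (ℝ × (Fin 3 → ℝ)) | p.1 ∈ bx (a / 2) (ρ / 2) p.2} =
        {p | |p.1.1 - p.2.1| ≤ a / 2} ∩ ⋂ i, {p | |p.1.2 i - p.2.2 i| ≤ ρ / 2} := by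
      ext p
      simp only [bx, mem_ofPred_eq, mem_inter_iff, mem_iInter]
    have : IsClosed {p : (ℝ × (Fin 3 → ℝ)) × (ℝ × (Fin 3 → ℝ)) | p.1 ∈ bx (a / 2) (ρ / 2) p.2} := by
      rw [e0]
      exact (isClosed_le (by fun_prop) continuous_const).inter
        (isClosed_iInter fun i => isClosed_le (by fun_prop) continuous_const)
    exact this.measurableSet
  set S := {p : (ℝ × (Fin 3 → ℝ)) × (ℝ × (Fin 3 → ℝ)) |
      p.1 ∈ B ∧ p.1 ∈ bx (a / 2) (ρ / 2) p.2} with hSdef
  have hvol : 2 * (a / 2) * (2 * (ρ / 2)) ^ 3 = a * ρ ^ 3 := by ring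
  have hpos : 0 < a * ρ ^ 3 := by positivity
  -- first evaluation
  have e1 : (volume.prod volume) S = volume B * ENNReal.ofReal (a * ρ ^ 3) := by
    rw [Measure.prod_apply hS]
    have h3 : ∀ y, volume (Prod.mk y ⁻¹' S) =
        B.indicator (fun _ => ENNReal.ofReal (a * ρ ^ 3)) y := by
      intro y
      by_cases hy : y ∈ B
      · rw [indicator_of_mem hy]
        have h4 : Prod.mk y ⁻¹' S = bx (a / 2) (ρ / 2) y := by
          ext w
          simp only [hSdef, mem_preimage, mem_ofPred_eq, hy, true_and, bx]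
          constructor
          · rintro ⟨c1, c2⟩
            exact ⟨by rw [abs_sub_comm]; exact c1, fun i => by rw [abs_sub_comm]; exact c2 i⟩
          · rintro ⟨c1, c2⟩
            exact ⟨by rw [abs_sub_comm]; exact c1, fun i => by rw [abs_sub_comm]; exact c2 i⟩
        rw [h4, vol_bx (by linarith) (by linarith), hvol]
      · rw [indicator_of_notMem hy]
        have h4 : Prod.mk y ⁻¹' S = ∅ := by
          ext w
          simp only [hSdef, mem_preimage, mem_ofPred_eq, hy, false_and, mem_empty_iff_false]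
        rw [h4, measure_empty]
    rw [lintegral_congr h3, lintegral_indicator hB, setLIntegral_const, mul_comm]
  -- second evaluation
  have e2 : (volume.prod volume) S ≤ ENNReal.ofReal (g * (a * ρ ^ 3)) * volume K := by
    rw [Measure.prod_apply_symm hS]
    have h3 : ∀ w, volume ((fun y => (y, w)) ⁻¹' S) ≤
        (toMeasurable volume K).indicator (fun _ => ENNReal.ofReal (g * (a * ρ ^ 3))) w := by
      intro w
      by_cases hne : ((fun y => (y, w)) ⁻¹' S).Nonempty
      · obtain ⟨q, hq1, hq2⟩ := hne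
        have hw : w ∈ K := by
          apply h2 q hq1
          refine ⟨?_, fun i => ?_⟩
          · rw [abs_sub_comm]
            exact hq2.1.trans (by linarith)
          · rw [abs_sub_comm]
            exact (hq2.2 i).trans (by linarith)
        rw [indicator_of_mem (subset_toMeasurable _ _ hw)]
        refine (measure_mono ?_).trans (h1 q hq1)
        rintro y ⟨hy1, hy2⟩
        refine ⟨hy1, ?_, fun i => ?_⟩
        · have c1 := hy2.1
          have c2 := hq2.1
          have c3 : y.1 - q.1 = (y.1 - w.1) - (q.1 - w.1) := by ring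
          rw [c3]
          exact (abs_sub _ _).trans (by linarith)
        · have c1 := hy2.2 i
          have c2 := hq2.2 i
          have c3 : y.2 i - q.2 i = (y.2 i - w.2 i) - (q.2 i - w.2 i) := by ring
          rw [c3]
          exact (abs_sub _ _).trans (by linarith)
      · rw [not_nonempty_iff_eq_empty] at hne
        rw [hne, measure_empty]
        exact zero_le
    refine (lintegral_mono h3).trans ?_
    rw [lintegral_indicator (measurableSet_toMeasurable _ _), setLIntegral_const,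
      measure_toMeasurable]
  rw [e1] at e2
  have e3 : ENNReal.ofReal (g * (a * ρ ^ 3)) * volume K =
      ENNReal.ofReal g * volume K * ENNReal.ofReal (a * ρ ^ 3) := by
    rw [ENNReal.ofReal_mul hg]
    ring
  rw [e3] at e2
  exact (ENNReal.mul_le_mul_iff_left (ENNReal.ofReal_pos.2 hpos).ne' ENNReal.ofReal_ne_top).1 e2

/-- RADIAL: a function with derivative near `b ≠ 0` is small on a short set only -/
theorem radial {f f' : ℝ → ℝ} {s t b c : ℝ} (hb : b ≠ 0)
    (hf : ∀ z ∈ Icc s t, HasDerivAt f (f' z) z) (hf' : ∀ z ∈ Icc s t, |f' z - b| ≤ |b| / 2) :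
    volume {z : ℝ | z ∈ Icc s t ∧ |f z| ≤ c} ≤ ENNReal.ofReal (4 * c / |b|) := by
  have hb0 : 0 < |b| := abs_pos.2 hb
  refine (Real.volume_le_diam _).trans ?_
  refine Metric.ediam_le fun x hx y hy => ?_
  rw [edist_dist, Real.dist_eq]
  apply ENNReal.ofReal_le_ofReal
  -- the mean value theorem for `f z - b z`
  have h1 : |(f x - b * x) - (f y - b * y)| ≤ |b| / 2 * |x - y| := by
    have := (convex_Icc s t).norm_image_sub_le_of_norm_hasDerivWithin_le
      (f := fun z => f z - b * z) (f' := fun z => f' z - b) (C := |b| / 2)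
      (fun z hz => by
        have h2 := (hf z hz).sub ((hasDerivAt_id z).const_mul b)
        rw [mul_one] at h2
        exact h2.hasDerivWithinAt)
      (fun z hz => by rw [Real.norm_eq_abs]; exact hf' z hz) hy.1 hx.1
    rwa [Real.norm_eq_abs, Real.norm_eq_abs] at this
  have h2 : |b| * |x - y| ≤ |f x - f y| + |b| / 2 * |x - y| := by
    have h3 : b * (x - y) = (f x - f y) - ((f x - b * x) - (f y - b * y)) := by ring
    rw [← abs_mul, h3]
    exact (abs_sub _ _).trans (by linarith)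
  have h4 : |f x - f y| ≤ 2 * c := (abs_sub _ _).trans (by linarith [hx.2, hy.2])
  rw [le_div_iff₀ hb0]
  nlinarith

end Pool.Agent.F5.H58
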