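import Pool.Agent.Helper58_F5.Hess

/-!
# The nondegeneracy at the base points
-/

set_option autoImplicit false

namespace Pool.Agent.F5.H58

open Complex ComplexConjugate

variable {e : Fin 3 → ℂ} {ν ε : Fin 3 → ℝ}

/-- the basis of the directions -/
noncomputable def vb : Fin 3 → ℂ := ![1, I, 0]

/-- the basis of the directions -/
noncomputable def tb : Fin 3 → ℝ := ![0, 0, 1]

/-- the matrix of the second derivatives -/
noncomputable def SM (e : Fin 3 → ℂ) (ν ε : Fin 3 → ℝ) (θ : ℝ) (k : Fin 3 → ℂ) :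
    Matrix (Fin 3) (Fin 3) ℝ :=
  Matrix.of fun j i => SS e ν ε θ k (vb i) (tb i) (vb j) (tb j)

/-- the squares of the points -/
noncomputable def Xq (e : Fin 3 → ℂ) (ν ε : Fin 3 → ℝ) (μ : ℂ) (θ : ℝ) (l : Fin 3) : ℂ :=
  ww e ν ε μ θ l ^ 2

theorem Xq_conj (θ : ℝ) (l : Fin 3) : conj (Xq e ν ε 0 θ l) = Xc e ν ε θ l := by
  unfold Xq Xc
  rw [map_pow]

/-- the value at a base point -/
theorem Base.val {θ : ℝ} (k : Fin 3 → ℂ) :
    sp k (Mm e ν ε 0 θ) = s0 (Ak e ν ε θ k) := by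
  unfold sp s0 Mm Ak
  refine Finset.sum_congr rfl fun l _ => ?_
  rw [zero_mul, sub_zero]
  simp [mul_re]

/-- the gradient at a base point -/
theorem Base.grad {θ : ℝ} (h : Base e ν ε θ) (k : Fin 3 → ℂ) (v : ℂ) (τ : ℝ) :
    sp k (bb e ν ε 0 θ v τ) = s2 (Bk e ν ε θ k) (Nn e ν ε θ) * τ -
      (v * conj (s1 (Ak e ν ε θ k) (Bk e ν ε θ k) (Xq e ν ε 0 θ))).re := by
  unfold sp s2 s1
  rw [map_sum, Finset.mul_sum, re_sum, Finset.sum_mul, ← Finset.sum_sub_distrib]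
  refine Finset.sum_congr rfl fun l _ => ?_
  have hu := unit_mul_conj (norm_ww h.dom l)
  rw [map_mul, Xq_conj, map_add, map_mul, map_mul, conj_ofReal, conj_ofReal, conj_I, map_ofNat]
  unfold bb
  rw [h.dph]
  set w := ww e ν ε 0 θ l with hw
  have c1 : conj (k l) * w = (Ak e ν ε θ k l : ℂ) - (Bk e ν ε θ k l : ℂ) * I := by
    have : conj (k l) * w = conj (k l * conj w) := by rw [map_mul, conj_conj]
    rw [this]
    apply Complex.ext
    · simp [Ak, ← hw]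
    · simp [Bk, ← hw]
      ring
  have c2 : conj (k l) * conj w = ((Ak e ν ε θ k l : ℂ) - (Bk e ν ε θ k l : ℂ) * I) *
      Xc e ν ε θ l := by
    rw [← c1]
    unfold Xc
    rw [← hw]
    calc conj (k l) * conj w = conj (k l) * conj w * (w * conj w) := by rw [hu, mul_one]
      _ = _ := by ring
  set A := Ak e ν ε θ k l
  set B := Bk e ν ε θ k l
  have c3 : conj (k l) * (((Nn e ν ε θ l * τ - (v * Xc e ν ε θ l).im : ℝ) : ℂ) * I *
      (w + 0 * conj w) - v * conj w) =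
      ((Nn e ν ε θ l * τ - (v * Xc e ν ε θ l).im : ℝ) : ℂ) * (I * (A - B * I)) -
        (A - B * I) * (v * Xc e ν ε θ l) := by
    linear_combination (((Nn e ν ε θ l * τ - (v * Xc e ν ε θ l).im : ℝ) : ℂ) * I) * c1 - v * c2
  rw [c3, sub_re, re_ofReal_mul]
  have r1 : (I * ((A : ℂ) - B * I)).re = B := by simp
  have r3 : ∀ z : ℂ, (((A : ℂ) - B * I) * z).re = A * z.re + B * z.im := by
    intro z
    simp [mul_re, mul_im]
  have r4 : (v * (((A : ℂ) + 2 * -I * B) * Xc e ν ε θ l)).re =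
      A * (v * Xc e ν ε θ l).re + 2 * B * (v * Xc e ν ε θ l).im := by
    have : v * (((A : ℂ) + 2 * -I * B) * Xc e ν ε θ l) =
        (A : ℂ) * (v * Xc e ν ε θ l) + ((2 * B : ℝ) : ℂ) * (-I * (v * Xc e ν ε θ l)) := by
      push_cast; ring
    rw [this, add_re, re_ofReal_mul, re_ofReal_mul]
    congr 2
    simp
  rw [r1, r3, r4]
  ring

/-- the entries of the matrix -/
theorem entries {θ : ℝ} (k : Fin 3 → ℂ) :
    let A := Ak e ν ε θ k
    let B := Bk e ν ε θ k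
    let N := Nn e ν ε θ
    let X := Xq e ν ε 0 θ
    let K := fun i j : Fin 3 => Kk e ν ε θ (vb i) (tb i) (vb j) (tb j)
    (∀ l, ‖X l‖ = 1) →
    SM e ν ε θ k 0 0 = -((Cq A B X).re / 2) + s0 A / 2 + s2 B N * K 0 0 ∧
    SM e ν ε θ k 1 1 = (Cq A B X).re / 2 + s0 A / 2 + s2 B N * K 1 1 ∧
    SM e ν ε θ k 0 1 = -((Cq A B X).im / 2) + s2 B N * K 1 0 ∧
    SM e ν ε θ k 1 0 = -((Cq A B X).im / 2) + s2 B N * K 0 1 ∧
    SM e ν ε θ k 0 2 = 2 * (Pq B N X).re + s2 B N * K 2 0 ∧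
    SM e ν ε θ k 2 0 = 2 * (Pq B N X).re + s2 B N * K 0 2 ∧
    SM e ν ε θ k 1 2 = 2 * (Pq B N X).im + s2 B N * K 2 1 ∧
    SM e ν ε θ k 2 1 = 2 * (Pq B N X).im + s2 B N * K 1 2 ∧
    SM e ν ε θ k 2 2 = -Eq' A N + s2 B N * K 2 2 := by
  intro A B N X K hX
  have hr1 : ∀ l, Rr e ν ε θ (vb 0) l = (X l).re := by
    intro l; simp [Rr, vb, ← Xq_conj, X]
  have hi1 : ∀ l, Ri e ν ε θ (vb 0) l = -(X l).im := by
    intro l; simp [Ri, vb, ← Xq_conj, X]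
  have hr2 : ∀ l, Rr e ν ε θ (vb 1) l = (X l).im := by
    intro l; simp [Rr, vb, ← Xq_conj, X]
  have hi2 : ∀ l, Ri e ν ε θ (vb 1) l = (X l).re := by
    intro l; simp [Ri, vb, ← Xq_conj, X]
  have hr3 : ∀ l, Rr e ν ε θ (vb 2) l = 0 := by
    intro l; simp [Rr, vb]
  have hi3 : ∀ l, Ri e ν ε θ (vb 2) l = 0 := by
    intro l; simp [Ri, vb]
  have t1 : tb 0 = 0 := rfl
  have t2 : tb 1 = 0 := rfl
  have t3 : tb 2 = 1 := rfl
  have hx : ∀ l, (X l).re ^ 2 + (X l).im ^ 2 = 1 := by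
    intro l; rw [← norm_sq_eq, hX l]; norm_num
  have hC : (Cq A B X).re = ∑ l, (A l * ((X l).re ^ 2 - (X l).im ^ 2) -
      8 * B l * ((X l).re * (X l).im)) := by
    unfold Cq
    rw [re_sum]
    refine Finset.sum_congr rfl fun l _ => ?_
    simp [pow_two, mul_re, mul_im]
    ring
  have hC' : (Cq A B X).im = ∑ l, (2 * A l * ((X l).re * (X l).im) +
      4 * B l * ((X l).re ^ 2 - (X l).im ^ 2)) := by
    unfold Cq
    rw [im_sum]
    refine Finset.sum_congr rfl fun l _ => ?_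
    simp [pow_two, mul_re, mul_im]
    ring
  have hP : (Pq B N X).re = ∑ l, B l * N l * (X l).re := by
    unfold Pq
    rw [re_sum]
    refine Finset.sum_congr rfl fun l _ => ?_
    rw [re_ofReal_mul]
  have hP' : (Pq B N X).im = ∑ l, B l * N l * (X l).im := by
    unfold Pq
    rw [im_sum]
    refine Finset.sum_congr rfl fun l _ => ?_
    rw [im_ofReal_mul]
  have hS : ∀ i j, SM e ν ε θ k j i = s2 B N * K i j +
    ∑ l, (2 * (B l * N l) * (tb i * Rr e ν ε θ (vb j) l + tb j * Rr e ν ε θ (vb i) l) -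
      2 * B l * (Ri e ν ε θ (vb i) l * Rr e ν ε θ (vb j) l +
        Ri e ν ε θ (vb j) l * Rr e ν ε θ (vb i) l) -
      A l * N l ^ 2 * (tb i * tb j) +
      A l * (Ri e ν ε θ (vb i) l * Ri e ν ε θ (vb j) l)) := by
    intro i j
    rfl
  refine ⟨?_, ?_, ?_, ?_, ?_, ?_, ?_, ?_, ?_⟩ <;> rw [hS]
  · simp only [hr1, hi1, t1, hC, s0, Fin.sum_univ_three]
    linear_combination (A 0 / 2) * hx 0 + (A 1 / 2) * hx 1 + (A 2 / 2) * hx 2
  · simp only [hr2, hi2, t2, hC, s0, Fin.sum_univ_three]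
    linear_combination (A 0 / 2) * hx 0 + (A 1 / 2) * hx 1 + (A 2 / 2) * hx 2
  · simp only [hr1, hi1, hr2, hi2, t1, t2, hC', Fin.sum_univ_three]
    ring
  · simp only [hr1, hi1, hr2, hi2, t1, t2, hC', Fin.sum_univ_three]
    ring
  · simp only [hr1, hi1, hr3, hi3, t1, t3, hP, Fin.sum_univ_three]
    ring
  · simp only [hr1, hi1, hr3, hi3, t1, t3, hP, Fin.sum_univ_three]
    ring
  · simp only [hr2, hi2, hr3, hi3, t2, t3, hP', Fin.sum_univ_three]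
    ring
  · simp only [hr2, hi2, hr3, hi3, t2, t3, hP', Fin.sum_univ_three]
    ring
  · simp only [hr3, hi3, t3, Eq', Fin.sum_univ_three]
    ring

theorem Base.norm_Xc {θ : ℝ} (h : Base e ν ε θ) (l : Fin 3) : ‖Xc e ν ε θ l‖ = 1 := by
  unfold Xc
  rw [norm_pow, norm_conj, norm_ww h.dom, one_pow]

theorem Base.norm_Xq {θ : ℝ} (h : Base e ν ε θ) (l : Fin 3) : ‖Xq e ν ε 0 θ l‖ = 1 := by
  unfold Xq
  rw [norm_pow, norm_ww h.dom, one_pow]

theorem Base.abs_Nn {θ : ℝ} (h : Base e ν ε θ) (hν : ∀ l, |ν l| ≤ 1) (l : Fin 3) :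
    |Nn e ν ε θ l| ≤ 1 := by
  unfold Nn
  split_ifs with hl
  · norm_num
  · rw [abs_neg, abs_mul, abs_mul]
    have h1 : |ε l| = 1 := by
      have := h.e2 l hl
      rw [← sq_abs] at this
      have h0 := abs_nonneg (ε l)
      nlinarith
    have h2 : |(conj (w3 0 θ) * e 2).im| ≤ 1 := by
      refine (abs_im_le_norm _).trans ?_
      rw [norm_mul, norm_conj, norm_w3, h.e1, one_mul]
    rw [h1, one_mul]
    calc |ν l| * |(conj (w3 0 θ) * e 2).im| ≤ 1 * 1 :=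
          mul_le_mul (hν l) h2 (abs_nonneg _) (by norm_num)
      _ = 1 := one_mul 1

theorem norm_vb (i : Fin 3) : ‖vb i‖ ≤ 1 := by
  fin_cases i <;> simp [vb]

theorem abs_tb (i : Fin 3) : |tb i| ≤ 1 := by
  fin_cases i <;> simp [tb]

theorem Base.abs_Kk {θ : ℝ} (h : Base e ν ε θ) (i j : Fin 3) :
    |Kk e ν ε θ (vb i) (tb i) (vb j) (tb j)| ≤ 4 := by
  have h1 : ∀ i, |Rr e ν ε θ (vb i) 2| ≤ 1 := by
    intro i
    refine (abs_re_le_norm _).trans ?_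
    rw [norm_mul, h.norm_Xc, mul_one]
    exact norm_vb i
  have h2 : ∀ i, |Ri e ν ε θ (vb i) 2| ≤ 1 := by
    intro i
    refine (abs_im_le_norm _).trans ?_
    rw [norm_mul, h.norm_Xc, mul_one]
    exact norm_vb i
  unfold Kk
  have m : ∀ a b : ℝ, |a| ≤ 1 → |b| ≤ 1 → |a * b| ≤ 1 := by
    intro a b ha hb
    rw [abs_mul]
    calc |a| * |b| ≤ 1 * 1 := mul_le_mul ha hb (abs_nonneg _) (by norm_num)
      _ = 1 := one_mul 1
  have m1 := m _ _ (abs_tb i) (h1 j)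
  have m2 := m _ _ (abs_tb j) (h1 i)
  have m3 := m _ _ (h2 j) (h1 i)
  have m4 := m _ _ (h2 i) (h1 j)
  rw [abs_le] at m1 m2 m3 m4 ⊢
  constructor <;> linarith [m1.1, m1.2, m2.1, m2.2, m3.1, m3.2, m4.1, m4.2]

theorem Base.AB {θ : ℝ} (h : Base e ν ε θ) (k : Fin 3 → ℂ) (l : Fin 3) :
    Ak e ν ε θ k l ^ 2 + Bk e ν ε θ k l ^ 2 = ‖k l‖ ^ 2 := by
  unfold Ak Bk
  rw [← norm_sq_eq, norm_mul, norm_conj, norm_ww h.dom, mul_one]

/-- a perturbation of a product -/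
theorem prod_pert {x y x' y' d M : ℝ} (hx : |x - x'| ≤ d) (hy : |y - y'| ≤ d) (hx' : |x'| ≤ M)
    (hy' : |y'| ≤ M) (hd1 : d ≤ M) : |x * y - x' * y'| ≤ 3 * M * d := by
  have h0 : 0 ≤ d := (abs_nonneg _).trans hx
  have e : x * y - x' * y' = (x - x') * (y - y') + x' * (y - y') + (x - x') * y' := by ring
  rw [e]
  have a1 : |(x - x') * (y - y')| ≤ d * M := by
    rw [abs_mul]; exact mul_le_mul hx (hy.trans hd1) (abs_nonneg _) h0
  have a2 : |x' * (y - y')| ≤ M * d := by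
    rw [abs_mul]; exact mul_le_mul hx' hy (abs_nonneg _) ((abs_nonneg _).trans hx')
  have a3 : |(x - x') * y'| ≤ d * M := by
    rw [abs_mul]; exact mul_le_mul hx hy' (abs_nonneg _) h0
  have := abs_add_three ((x - x') * (y - y')) (x' * (y - y')) ((x - x') * y')
  linarith

theorem minor_pert {a b c d a' b' c' d' δ : ℝ} (ha : |a - a'| ≤ 5 * δ) (hb : |b - b'| ≤ 5 * δ)
    (hc : |c - c'| ≤ 5 * δ) (hd : |d - d'| ≤ 5 * δ) (ha' : |a'| ≤ 15) (hb' : |b'| ≤ 15)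
    (hc' : |c'| ≤ 15) (hd' : |d'| ≤ 15) (hδ : 5 * δ ≤ 15) :
    |(a * b - c * d) - (a' * b' - c' * d')| ≤ 450 * δ := by
  have e1 := prod_pert ha hb ha' hb' hδ
  have e2 := prod_pert hc hd hc' hd' hδ
  have e3 : (a * b - c * d) - (a' * b' - c' * d') = (a * b - a' * b') - (c * d - c' * d') := by ring
  rw [e3]
  have := abs_sub (a * b - a' * b') (c * d - c' * d')
  linarith

theorem add_pert {x y s t δ : ℝ} (hx : x = y + s / 2 + t) (hs : |s| ≤ δ) (ht : |t| ≤ 4 * δ) :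
    |x - y| ≤ 5 * δ := by
  have h0 := (abs_nonneg _).trans hs
  rw [hx, show y + s / 2 + t - y = s / 2 + t by ring]
  refine (abs_add_le _ _).trans ?_
  rw [abs_div]
  norm_num
  linarith

theorem final_pert {m2 m1 m0 t2 t1 t0 δ a g : ℝ} (f2 : |m2 - t2| ≤ 450 * δ)
    (f1 : |m1 - t1| ≤ 450 * δ) (f0 : |m0 - t0| ≤ 450 * δ) (g2 : |m2| < a) (g1 : |m1| < a)
    (g0 : |m0| < a) (h : g ≤ 4 * (|t2| + |t1| + |t0|)) : g < 4 * (3 * a + 1350 * δ) := by
  have h2 := abs_sub_abs_le_abs_sub t2 m2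
  have h1 := abs_sub_abs_le_abs_sub t1 m1
  have h0 := abs_sub_abs_le_abs_sub t0 m0
  rw [abs_sub_comm] at h2 h1 h0
  linarith

/-- the nondegeneracy at a base point -/
theorem base_nondeg {θ η δ : ℝ} (h : Base e ν ε θ) (hν : ∀ l, |ν l| ≤ 1) (hη : 0 < η)
    (hs : ∀ l m, l ≠ m → η ≤ ‖Xq e ν ε 0 θ l - Xq e ν ε 0 θ m‖) {k : Fin 3 → ℂ}
    (hk : ∀ l, ‖k l‖ ≤ 1) (hk1 : ∃ l, ‖k l‖ = 1) (h0 : |s0 (Ak e ν ε θ k)| ≤ δ)
    (h1 : ‖s1 (Ak e ν ε θ k) (Bk e ν ε θ k) (Xq e ν ε 0 θ)‖ ≤ δ)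
    (h2 : |s2 (Bk e ν ε θ k) (Nn e ν ε θ)| ≤ δ) (hδ : δ ≤ η ^ 20 / 10 ^ 13) :
    ∃ l : Fin 3, η ^ 20 / 10 ^ 11 ≤
      |((SM e ν ε θ k).submatrix l.succAbove l.succAbove).det| := by
  set A := Ak e ν ε θ k with hA
  set B := Bk e ν ε θ k with hB
  set N := Nn e ν ε θ with hN
  set X := Xq e ν ε 0 θ with hXdef
  have hX : ∀ l, ‖X l‖ = 1 := h.norm_Xq
  have hAB : ∀ l, A l ^ 2 + B l ^ 2 = ‖k l‖ ^ 2 := h.AB k
  have hδ0 : 0 ≤ δ := (abs_nonneg _).trans h0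
  have hη2 : η ≤ 2 := by
    refine (hs 0 1 (by decide)).trans ((norm_sub_le _ _).trans ?_)
    rw [hX, hX]; norm_num
  have p3 : η ^ 3 ≤ 8 := by
    have := pow_le_pow_left₀ hη.le hη2 3
    norm_num at this; exact this
  have p10 : η ^ 10 ≤ 1024 := by
    have := pow_le_pow_left₀ hη.le hη2 10
    norm_num at this; exact this
  have p10' : 0 < η ^ 10 := by positivity
  have p20 : η ^ 20 = η ^ 10 * η ^ 10 := by ring
  have hA1 : ∀ l, |A l| ≤ 1 := by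
    intro l
    have h3 := hAB l
    have h4 := hk l
    have h5 := norm_nonneg (k l)
    apply abs_le_of_sq_le_sq' |> fun f => abs_le.2 (f ?_ (by norm_num))
    nlinarith [sq_nonneg (B l)]
  have hB1 : ∀ l, |B l| ≤ 1 := by
    intro l
    have h3 := hAB l
    have h4 := hk l
    have h5 := norm_nonneg (k l)
    apply abs_le_of_sq_le_sq' |> fun f => abs_le.2 (f ?_ (by norm_num))
    nlinarith [sq_nonneg (A l)]
  have hN1 : ∀ l, |N l| ≤ 1 := h.abs_Nn hν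
  -- the lower bound for `C`, `P`
  have hCP : η ^ 10 / 26624 ≤ max ‖Cq A B X‖ ‖Pq B N X‖ := by
    by_contra hcon
    rw [not_le, max_lt_iff] at hcon
    have hδ' : δ ≤ η ^ 10 / 26624 := by
      refine hδ.trans ?_
      rw [p20]
      rw [div_le_div_iff₀ (by norm_num) (by norm_num)]
      nlinarith
    have hN2 : N 2 = 1 := by simp [hN, Nn]
    obtain ⟨l, hl⟩ := hk1
    -- a strict version
    set ε0 := max (max ‖Cq A B X‖ ‖Pq B N X‖) δ with hε0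
    have hε0' : ε0 < η ^ 10 / 26624 := by
      refine max_lt (max_lt hcon.1 hcon.2) (hδ.trans_lt ?_)
      rw [p20, div_lt_div_iff₀ (by norm_num) (by norm_num)]
      nlinarith
    have hε00 : 0 ≤ ε0 := hδ0.trans (le_max_right _ _)
    obtain ⟨g1, g2⟩ := ndg hη hX hs hN2 (h0.trans (le_max_right _ _)) (h1.trans (le_max_right _ _))
      (h2.trans (le_max_right _ _)) ((le_max_left _ _).trans (le_max_left _ _))
      ((le_max_right _ _).trans (le_max_left _ _)) l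
    have g3 : 13312 * ε0 / η ^ 10 < 1 / 2 := by
      rw [div_lt_iff₀ p10']
      linarith
    have g4 : 256 * ε0 / η ^ 7 ≤ 13312 * ε0 / η ^ 10 := by
      rw [div_le_div_iff₀ (by positivity) p10']
      have e1 : η ^ 10 = η ^ 7 * η ^ 3 := by ring
      rw [e1]
      have : 0 ≤ ε0 * η ^ 7 := by positivity
      nlinarith
    have g5 : |A l| < 1 / 2 := g2.trans_lt g3
    have g6 : |B l| < 1 / 2 := g1.trans_lt (g4.trans_lt g3)
    have g7 := hAB l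
    rw [hl] at g7
    have g8 : A l ^ 2 ≤ 1 / 4 := by
      rw [← sq_abs]
      nlinarith [abs_nonneg (A l)]
    have g9 : B l ^ 2 ≤ 1 / 4 := by
      rw [← sq_abs]
      nlinarith [abs_nonneg (B l)]
    linarith
  -- the minors
  obtain ⟨m00, m11, m01, m10, m02, m20, m12, m21, m22⟩ := entries (e := e) (ν := ν) (ε := ε)
    (θ := θ) k hX
  set c₁ := (Cq A B X).re with hc1
  set c₂ := (Cq A B X).im with hc2
  set p₁ := (Pq B N X).re with hp1
  set p₂ := (Pq B N X).im with hp2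
  set E := Eq' A N with hE
  have hmin := minors c₁ c₂ p₁ p₂ E
  have hCn : ‖Cq A B X‖ ≤ 15 := by
    unfold Cq
    refine (norm_sum_le _ _).trans ?_
    rw [Fin.sum_univ_three]
    have : ∀ l, ‖((A l : ℂ) + 4 * I * (B l : ℂ)) * X l ^ 2‖ ≤ 5 := by
      intro l
      rw [norm_mul, norm_pow, hX, one_pow, mul_one]
      refine (norm_add_le _ _).trans ?_
      rw [norm_mul, norm_mul, norm_I, norm_real, norm_real, Real.norm_eq_abs, Real.norm_eq_abs,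
        Complex.norm_ofNat]
      linarith only [hA1 l, hB1 l]
    linarith only [this 0, this 1, this 2]
  have hPn : ‖Pq B N X‖ ≤ 3 := by
    unfold Pq
    refine (norm_sum_le _ _).trans ?_
    rw [Fin.sum_univ_three]
    have : ∀ l, ‖((B l * N l : ℝ) : ℂ) * X l‖ ≤ 1 := by
      intro l
      rw [norm_mul, hX, mul_one, norm_real, Real.norm_eq_abs, abs_mul]
      calc |B l| * |N l| ≤ 1 * 1 := mul_le_mul (hB1 l) (hN1 l) (abs_nonneg _) (by norm_num)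
        _ = 1 := one_mul 1
    linarith only [this 0, this 1, this 2]
  have hEn : |E| ≤ 3 := by
    rw [hE]
    unfold Eq'
    refine (Finset.abs_sum_le_sum_abs _ _).trans ?_
    rw [Fin.sum_univ_three]
    have : ∀ l, |A l * N l ^ 2| ≤ 1 := by
      intro l
      rw [abs_mul, abs_pow]
      have : |N l| ^ 2 ≤ 1 := pow_le_one₀ (abs_nonneg _) (hN1 l)
      calc |A l| * |N l| ^ 2 ≤ 1 * 1 := mul_le_mul (hA1 l) this (by positivity) (by norm_num)
        _ = 1 := one_mul 1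
    linarith only [this 0, this 1, this 2]
  have b1 : |c₁| ≤ 15 := (abs_re_le_norm _).trans hCn
  have b2 : |c₂| ≤ 15 := (abs_im_le_norm _).trans hCn
  have b3 : |p₁| ≤ 3 := (abs_re_le_norm _).trans hPn
  have b4 : |p₂| ≤ 3 := (abs_im_le_norm _).trans hPn
  have hd : 5 * δ ≤ 15 := by
    have : η ^ 20 / 10 ^ 13 ≤ 1 := by
      rw [div_le_one (by norm_num), p20]
      nlinarith only [p10, p10']
    linarith only [this, hδ]
  have hK : ∀ i j, |s2 B N * Kk e ν ε θ (vb i) (tb i) (vb j) (tb j)| ≤ 4 * δ := by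
    intro i j
    rw [abs_mul]
    calc _ ≤ δ * 4 := mul_le_mul h2 (h.abs_Kk i j) (abs_nonneg _) hδ0
      _ = 4 * δ := by ring
  have z0 : |(0 : ℝ)| ≤ δ := by rw [abs_zero]; exact hδ0
  have d00 : |SM e ν ε θ k 0 0 - -(c₁ / 2)| ≤ 5 * δ := add_pert m00 h0 (hK 0 0)
  have d11 : |SM e ν ε θ k 1 1 - c₁ / 2| ≤ 5 * δ := add_pert m11 h0 (hK 1 1)
  have d01 : |SM e ν ε θ k 0 1 - -(c₂ / 2)| ≤ 5 * δ := by
    refine add_pert (s := 0) ?_ z0 (hK 1 0); rw [m01]; ring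
  have d10 : |SM e ν ε θ k 1 0 - -(c₂ / 2)| ≤ 5 * δ := by
    refine add_pert (s := 0) ?_ z0 (hK 0 1); rw [m10]; ring
  have d02 : |SM e ν ε θ k 0 2 - 2 * p₁| ≤ 5 * δ := by
    refine add_pert (s := 0) ?_ z0 (hK 2 0); rw [m02]; ring
  have d20 : |SM e ν ε θ k 2 0 - 2 * p₁| ≤ 5 * δ := by
    refine add_pert (s := 0) ?_ z0 (hK 0 2); rw [m20]; ring
  have d12 : |SM e ν ε θ k 1 2 - 2 * p₂| ≤ 5 * δ := by
    refine add_pert (s := 0) ?_ z0 (hK 2 1); rw [m12]; ring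
  have d21 : |SM e ν ε θ k 2 1 - 2 * p₂| ≤ 5 * δ := by
    refine add_pert (s := 0) ?_ z0 (hK 1 2); rw [m21]; ring
  have d22 : |SM e ν ε θ k 2 2 - -E| ≤ 5 * δ := by
    refine add_pert (s := 0) ?_ z0 (hK 2 2); rw [m22]; ring
  have B15 : ∀ x : ℝ, |x| ≤ 15 → |x / 2| ≤ 15 := by
    intro x hx
    rw [abs_div, abs_two]; linarith only [abs_nonneg x, hx]
  have B15' : ∀ x : ℝ, |x| ≤ 15 → |-(x / 2)| ≤ 15 := by
    intro x hx
    rw [abs_neg]; exact B15 x hx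
  have B3 : ∀ x : ℝ, |x| ≤ 3 → |2 * x| ≤ 15 := by
    intro x hx
    rw [abs_mul, abs_two]; linarith only [hx]
  have B3' : |-E| ≤ 15 := by rw [abs_neg]; linarith only [hEn]
  have q01 := minor_pert d00 d11 d01 d10 (B15' _ b1) (B15 _ b1) (B15' _ b2) (B15' _ b2) hd
  have q02 := minor_pert d00 d22 d02 d20 (B15' _ b1) B3' (B3 _ b3) (B3 _ b3) hd
  have q12 := minor_pert d11 d22 d12 d21 (B15 _ b1) B3' (B3 _ b4) (B3 _ b4) hd
  -- the sum of squares
  have hsum : (η ^ 10 / 26624) ^ 2 ≤ c₁ ^ 2 + c₂ ^ 2 + p₁ ^ 2 + p₂ ^ 2 := by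
    have e1 : c₁ ^ 2 + c₂ ^ 2 = ‖Cq A B X‖ ^ 2 := (norm_sq_eq _).symm
    have e2 : p₁ ^ 2 + p₂ ^ 2 = ‖Pq B N X‖ ^ 2 := (norm_sq_eq _).symm
    have e3 : c₁ ^ 2 + c₂ ^ 2 + p₁ ^ 2 + p₂ ^ 2 = ‖Cq A B X‖ ^ 2 + ‖Pq B N X‖ ^ 2 := by
      rw [← e1, ← e2]; ring
    rw [e3]
    have e4 := sq_nonneg ‖Pq B N X‖
    have e5 := sq_nonneg ‖Cq A B X‖
    rcases le_max_iff.1 hCP with h3 | h3
    · have := pow_le_pow_left₀ (by positivity) h3 2
      linarith only [this, e4]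
    · have := pow_le_pow_left₀ (by positivity) h3 2
      linarith only [this, e5]
  have hdet2 : ((SM e ν ε θ k).submatrix (Fin.succAbove 2) (Fin.succAbove 2)).det =
      SM e ν ε θ k 0 0 * SM e ν ε θ k 1 1 - SM e ν ε θ k 0 1 * SM e ν ε θ k 1 0 := by
    rw [Matrix.det_fin_two]
    rfl
  have hdet1 : ((SM e ν ε θ k).submatrix (Fin.succAbove 1) (Fin.succAbove 1)).det =
      SM e ν ε θ k 0 0 * SM e ν ε θ k 2 2 - SM e ν ε θ k 0 2 * SM e ν ε θ k 2 0 := by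
    rw [Matrix.det_fin_two]
    rfl
  have hdet0 : ((SM e ν ε θ k).submatrix (Fin.succAbove 0) (Fin.succAbove 0)).det =
      SM e ν ε θ k 1 1 * SM e ν ε θ k 2 2 - SM e ν ε θ k 1 2 * SM e ν ε θ k 2 1 := by
    rw [Matrix.det_fin_two]
    rfl
  by_contra hcon
  push Not at hcon
  have g2 := hcon 2
  have g1 := hcon 1
  have g0 := hcon 0
  rw [hdet2] at g2
  rw [hdet1] at g1
  rw [hdet0] at g0
  have hmin' : c₁ ^ 2 + c₂ ^ 2 + p₁ ^ 2 + p₂ ^ 2 ≤
      4 * (|(-(c₁ / 2)) * (c₁ / 2) - (-(c₂ / 2)) * (-(c₂ / 2))| +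
        |(-(c₁ / 2)) * (-E) - (2 * p₁) * (2 * p₁)| + |(c₁ / 2) * (-E) - (2 * p₂) * (2 * p₂)|) := by
    refine hmin.trans (le_of_eq ?_)
    rw [show (-(c₁ / 2)) * (c₁ / 2) - (c₂ / 2) ^ 2 =
      (-(c₁ / 2)) * (c₁ / 2) - (-(c₂ / 2)) * (-(c₂ / 2)) by ring, sq (2 * p₁), sq (2 * p₂)]
  have hfin := final_pert q01 q02 q12 g2 g1 g0 hmin'
  have hsq : (η ^ 10 / 26624) ^ 2 = η ^ 20 / 708837376 := by
    rw [div_pow, ← pow_mul]; norm_num
  rw [hsq] at hsum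
  have hη20 : 0 < η ^ 20 := by positivity
  linarith only [hη20, hsum, hfin, hδ]

end Pool.Agent.F5.H58
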