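import Pool.Agent.Helper36_F5H.F2i
import Pool.Agent.Helper68_F5.Kc2
import Pool.Agent.Helper67_F5H.CKV
import Pool.Agent.Helper92_F5H.NUM
import Pool.Agent.Helper33_F5H.Mea
import Pool.Agent.Helper33_F5H.Int
import Pool.Agent.Helper90_F5H.C_ASM
import Pool.Agent.Helper3_F5H.C_CHA
import Pool.Agent.Helper94_F5H.C_CHE
import Pool.Agent.Helper81_F5H.C_COV
import Pool.Agent.Helper65_F5H.C_SCL
import Pool.Agent.Helper39_F5H.PER
import Pool.Agent.Helper94_F5H.C_CVR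
import Pool.Agent.Helper9_F5H.Lpx
import Pool.Agent.Helper17_F5H.C_FRM
import Pool.Agent.Helper96_F5H.MN
import Pool.Agent.Helper96_F5H.KR
import Pool.Agent.Helper85_F5H.MG
import Pool.Agent.Helper58_F5.I1
import Pool.Agent.Helper9_F5H.C_I2
import Pool.Agent.Helper48_F5H.C_I3
import Pool.Agent.Helper38_F5H.C_I4
import Pool.Agent.Helper20_F5H.C_I5
import Pool.Agent.Helper90_F5H.C_I6
import Pool.Agent.Helper67_F5H.CKV30

/-!
MP_f5cbfa_nt, squad F5H, block C: assembly.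
-/

set_option autoImplicit false

namespace Pool.Agent.F5H.BC.H58

open Pool.Agent.F5H.BC

/-- MAT -/
theorem mat : MATStmt :=
  Pool.Agent.F5H.BC.H90.i6 Pool.Agent.F5H.BC.H3.cha Pool.Agent.F5H.BC.H94.c_che
    Pool.Agent.F5H.BC.H81.cov Pool.Agent.F5H.BC.H65.scl Pool.Agent.F5H.H39.per
    Pool.Agent.F5H.BC.H94.c_cvr Pool.Agent.F5H.BC.H67.kv30 Pool.Agent.F5H.BC.H96.kr
    Pool.Agent.F5H.BC.H96.mn Pool.Agent.F5H.H9.lpx Pool.Agent.F5H.BC.H17.frm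
    Pool.Agent.F5.H58.i1 Pool.Agent.F5H.H9.i2 Pool.Agent.F5H.BC.H48.i3
    Pool.Agent.F5H.BC.H85.mg Pool.Agent.F5H.BC.H38.i4 Pool.Agent.F5H.BC.H20.i5

/-- CNT -/
theorem cnt_of (kc2 : KC2Stmt) : CNTStmt :=
  Pool.Agent.F5H.BC.H90.asm Pool.Agent.F5H.F2.f2 Pool.Agent.F5H.BC.H67.kv mat
    Pool.Agent.Helper68_F5.kc1stmt kc2 Pool.Agent.F5H.BC.H92.num Pool.Agent.F5H.BC.H33.int

end Pool.Agent.F5H.BC.H58
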