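import Mathlib

/-!
# The chart of the cone `V_h`

`A_μ (z) = |z + μ z̄|²`.  For unit vectors `e₁, e₂, e₃`, ratios `ν₁, ν₂` and signs `ε₁, ε₂` the
points `M_l = w_l - μ w̄_l` are on one `A_μ`-circle and have the same `A_μ`-product with
`e_l / ν_l` (`ν₃ = 1`).
-/

set_option autoImplicit false

namespace Pool.Agent.F5.H58

open Complex ComplexConjugate

/-- `e + μ ē` -/
noncomputable def Eh (e μ : ℂ) : ℂ := e + μ * conj e

/-- the angle of the third point -/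
noncomputable def ph3 (μ : ℂ) (θ : ℝ) : ℝ := θ - (μ * cexp (((-2 * θ : ℝ) : ℂ) * I)).im

/-- the third point -/
noncomputable def w3 (μ : ℂ) (θ : ℝ) : ℂ := cexp (((ph3 μ θ : ℝ) : ℂ) * I)

/-- the common product -/
noncomputable def Yf (e₃ μ : ℂ) (θ : ℝ) : ℝ := (conj (w3 μ θ) * Eh e₃ μ).re

/-- the cosine -/
noncomputable def cf (e e₃ : ℂ) (ν : ℝ) (μ : ℂ) (θ : ℝ) : ℝ := ν * Yf e₃ μ θ / ‖Eh e μ‖

/-- the first two points -/
noncomputable def wl (e e₃ : ℂ) (ν ε : ℝ) (μ : ℂ) (θ : ℝ) : ℂ :=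
  Eh e μ / (‖Eh e μ‖ : ℂ) *
    ((cf e e₃ ν μ θ : ℂ) + ((ε * √(1 - cf e e₃ ν μ θ ^ 2) : ℝ) : ℂ) * I)

theorem norm_w3 (μ : ℂ) (θ : ℝ) : ‖w3 μ θ‖ = 1 := by
  unfold w3
  exact norm_exp_ofReal_mul_I _

theorem norm_sq_eq (z : ℂ) : ‖z‖ ^ 2 = z.re ^ 2 + z.im ^ 2 := by
  rw [← normSq_eq_norm_sq, normSq_apply]; ring

theorem norm_wl {e e₃ μ : ℂ} {ν ε θ : ℝ} (h0 : Eh e μ ≠ 0) (h1 : cf e e₃ ν μ θ ^ 2 ≤ 1)
    (hε : ε ^ 2 = 1) : ‖wl e e₃ ν ε μ θ‖ = 1 := by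
  have h2 : ‖Eh e μ‖ ≠ 0 := norm_ne_zero_iff.2 h0
  unfold wl
  rw [norm_mul, norm_div, norm_real, Real.norm_eq_abs, abs_norm, div_self h2, one_mul]
  have h3 : ‖(cf e e₃ ν μ θ : ℂ) + ((ε * √(1 - cf e e₃ ν μ θ ^ 2) : ℝ) : ℂ) * I‖ ^ 2 = 1 := by
    rw [norm_sq_eq]
    simp only [add_re, add_im, ofReal_re, ofReal_im, mul_re, mul_im, I_re, I_im]
    have h4 : √(1 - cf e e₃ ν μ θ ^ 2) ^ 2 = 1 - cf e e₃ ν μ θ ^ 2 := Real.sq_sqrt (by linarith)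
    have : (ε * √(1 - cf e e₃ ν μ θ ^ 2)) ^ 2 = 1 - cf e e₃ ν μ θ ^ 2 := by
      rw [mul_pow, h4, hε, one_mul]
    simp only [mul_zero, mul_one, sub_zero, add_zero, zero_add]
    linarith
  have h5 := norm_nonneg ((cf e e₃ ν μ θ : ℂ) + ((ε * √(1 - cf e e₃ ν μ θ ^ 2) : ℝ) : ℂ) * I)
  nlinarith

/-- `w̄ E` for the first two points -/
theorem conj_wl_mul {e e₃ μ : ℂ} {ν ε θ : ℝ} (h0 : Eh e μ ≠ 0) :
    conj (wl e e₃ ν ε μ θ) * Eh e μ =
      ((ν * Yf e₃ μ θ : ℝ) : ℂ) - ((ε * ‖Eh e μ‖ * √(1 - cf e e₃ ν μ θ ^ 2) : ℝ) : ℂ) * I := by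
  have h2 : ‖Eh e μ‖ ≠ 0 := norm_ne_zero_iff.2 h0
  have h2' : (‖Eh e μ‖ : ℂ) ≠ 0 := by exact_mod_cast h2
  have h3 : conj (Eh e μ) * Eh e μ = (‖Eh e μ‖ : ℂ) ^ 2 := by
    rw [mul_comm, mul_conj, normSq_eq_norm_sq]; push_cast; ring
  unfold wl
  rw [map_mul, map_div₀, map_add, map_mul, conj_ofReal, conj_ofReal, conj_ofReal, conj_I]
  have h4 : ((ν * Yf e₃ μ θ : ℝ) : ℂ) = (cf e e₃ ν μ θ : ℂ) * (‖Eh e μ‖ : ℂ) := by
    unfold cf
    push_cast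
    field_simp
  rw [h4]
  have h5 : conj (Eh e μ) / (‖Eh e μ‖ : ℂ) * ((cf e e₃ ν μ θ : ℂ) +
      ((ε * √(1 - cf e e₃ ν μ θ ^ 2) : ℝ) : ℂ) * -I) * Eh e μ =
      (conj (Eh e μ) * Eh e μ) / (‖Eh e μ‖ : ℂ) * ((cf e e₃ ν μ θ : ℂ) +
      ((ε * √(1 - cf e e₃ ν μ θ ^ 2) : ℝ) : ℂ) * -I) := by ring
  rw [h5, h3]
  push_cast
  field_simp
  ring

/-- a curve on the unit circle with a prescribed product -/
theorem deriv_circle {W E : ℝ → ℂ} {y : ℝ → ℝ} {W' E' : ℂ} {y' s : ℝ} (hW : HasDerivAt W W' s)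
    (hE : HasDerivAt E E' s) (hy : HasDerivAt y y' s) (h1 : ∀ᶠ t in nhds s, ‖W t‖ = 1)
    (h2 : ∀ᶠ t in nhds s, (conj (W t) * E t).re = y t) (h3 : (conj (W s) * E s).im ≠ 0) :
    W' = (((y' - (conj (W s) * E').re) / (conj (W s) * E s).im : ℝ) : ℂ) * I * W s := by
  have hs1 : ‖W s‖ = 1 := h1.self_of_nhds
  have hWc : HasDerivAt (fun t => conj (W t)) (conj W') s := by
    have := (conjCLE.toContinuousLinearMap.hasFDerivAt (x := W s)).comp_hasDerivAt s hW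
    exact this
  -- the derivative of `W W̄ = 1`
  have e1 : W' * conj (W s) + W s * conj W' = 0 := by
    have h4 : HasDerivAt (fun t => W t * conj (W t)) (W' * conj (W s) + W s * conj W') s :=
      hW.mul hWc
    have h5 : (fun t => W t * conj (W t)) =ᶠ[nhds s] fun _ => (1 : ℂ) := by
      filter_upwards [h1] with t ht
      rw [mul_conj, normSq_eq_norm_sq, ht]; norm_num
    exact (h4.congr_of_eventuallyEq h5.symm).unique (hasDerivAt_const s (1 : ℂ))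
  -- hence `W' W̄` is purely imaginary
  have e2 : (W' * conj (W s)).re = 0 := by
    have h6 : W s * conj W' = conj (W' * conj (W s)) := by
      rw [map_mul, conj_conj]; ring
    rw [h6, add_conj] at e1
    have : (2 * (W' * conj (W s)).re : ℝ) = 0 := by exact_mod_cast e1
    linarith
  set f : ℝ := (W' * conj (W s)).im with hf
  have e3 : W' * conj (W s) = (f : ℂ) * I := by
    apply Complex.ext
    · rw [e2]; simp
    · simp [hf]
  have e4 : conj (W s) * W s = 1 := by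
    rw [mul_comm, mul_conj, normSq_eq_norm_sq, hs1]; norm_num
  have e5 : W' = (f : ℂ) * I * W s := by
    calc W' = W' * (conj (W s) * W s) := by rw [e4, mul_one]
      _ = (W' * conj (W s)) * W s := by ring
      _ = _ := by rw [e3]
  -- the derivative of the product
  have e6 : (conj W' * E s + conj (W s) * E').re = y' := by
    have h7 : HasDerivAt (fun t => conj (W t) * E t) (conj W' * E s + conj (W s) * E') s :=
      hWc.mul hE
    have h8 : HasDerivAt (fun t => (conj (W t) * E t).re)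
        ((conj W' * E s + conj (W s) * E').re) s := by
      have := (reCLM.hasFDerivAt (x := conj (W s) * E s)).comp_hasDerivAt s h7
      exact this
    exact (h8.congr_of_eventuallyEq (h2.mono fun t ht => ht.symm)).unique hy
  have e7 : (conj W' * E s).re = f * (conj (W s) * E s).im := by
    rw [e5]
    simp only [map_mul, conj_ofReal, conj_I]
    have : (f : ℂ) * -I * conj (W s) * E s = (f : ℂ) * (-I * (conj (W s) * E s)) := by ring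
    rw [this, re_ofReal_mul]
    congr 1
    simp only [neg_mul, neg_re, mul_re, I_re, I_im]
    ring
  rw [add_re, e7] at e6
  have e8 : f = (y' - (conj (W s) * E').re) / (conj (W s) * E s).im := by
    rw [eq_div_iff h3]
    linarith
  rw [← e8]
  exact e5

/-! ### first derivatives along the line `(μ + s v, θ + s τ)` -/

/-- the derivative of the angle of the third point -/
noncomputable def dph3 (μ : ℂ) (θ : ℝ) (v : ℂ) (τ : ℝ) : ℝ :=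
  τ - (v * cexp (((-2 * θ : ℝ) : ℂ) * I)).im + 2 * τ * (μ * cexp (((-2 * θ : ℝ) : ℂ) * I)).re

/-- the derivative of the common product -/
noncomputable def dYf (e₃ μ : ℂ) (θ : ℝ) (v : ℂ) (τ : ℝ) : ℝ :=
  dph3 μ θ v τ * (conj (w3 μ θ) * Eh e₃ μ).im + (conj (w3 μ θ) * (v * conj e₃)).re

/-- the derivative of the angle of the first two points -/
noncomputable def dphl (e e₃ : ℂ) (ν ε : ℝ) (μ : ℂ) (θ : ℝ) (v : ℂ) (τ : ℝ) : ℝ :=
  (ν * dYf e₃ μ θ v τ - (conj (wl e e₃ ν ε μ θ) * (v * conj e)).re) /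
    (conj (wl e e₃ ν ε μ θ) * Eh e μ).im

theorem hasDerivAt_mu (μ v : ℂ) (s : ℝ) : HasDerivAt (fun s : ℝ => μ + (s : ℂ) * v) v s := by
  have h1 : HasDerivAt (fun s : ℝ => (s : ℂ)) 1 s := ofRealCLM.hasDerivAt
  simpa using (h1.mul_const v).const_add μ

theorem hasDerivAt_theta (θ τ s : ℝ) : HasDerivAt (fun s : ℝ => θ + s * τ) τ s := by
  simpa using ((hasDerivAt_id s).mul_const τ).const_add θ

theorem hasDerivAt_Eh (e μ v : ℂ) (s : ℝ) :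
    HasDerivAt (fun s : ℝ => Eh e (μ + (s : ℂ) * v)) (v * conj e) s := by
  unfold Eh
  exact ((hasDerivAt_mu μ v s).mul_const (conj e)).const_add e

theorem hasDerivAt_cexp {a : ℝ → ℝ} {a' s : ℝ} (h : HasDerivAt a a' s) :
    HasDerivAt (fun s => cexp (((a s : ℝ) : ℂ) * I)) ((a' : ℂ) * I * cexp (((a s : ℝ) : ℂ) * I)) s := by
  have h1 : HasDerivAt (fun s => ((a s : ℝ) : ℂ) * I) ((a' : ℂ) * I) s :=
    (h.ofReal_comp).mul_const I
  have h2 := h1.cexp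
  rwa [mul_comm] at h2

theorem hasDerivAt_im {f : ℝ → ℂ} {f' : ℂ} {s : ℝ} (h : HasDerivAt f f' s) :
    HasDerivAt (fun s => (f s).im) f'.im s :=
  (imCLM.hasFDerivAt (x := f s)).comp_hasDerivAt s h

theorem hasDerivAt_re {f : ℝ → ℂ} {f' : ℂ} {s : ℝ} (h : HasDerivAt f f' s) :
    HasDerivAt (fun s => (f s).re) f'.re s :=
  (reCLM.hasFDerivAt (x := f s)).comp_hasDerivAt s h

theorem hasDerivAt_conj {f : ℝ → ℂ} {f' : ℂ} {s : ℝ} (h : HasDerivAt f f' s) :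
    HasDerivAt (fun s => conj (f s)) (conj f') s :=
  (conjCLE.toContinuousLinearMap.hasFDerivAt (x := f s)).comp_hasDerivAt s h

theorem hasDerivAt_e2 (θ τ s : ℝ) :
    HasDerivAt (fun s : ℝ => cexp (((-2 * (θ + s * τ) : ℝ) : ℂ) * I))
      (((-2 * τ : ℝ) : ℂ) * I * cexp (((-2 * (θ + s * τ) : ℝ) : ℂ) * I)) s :=
  hasDerivAt_cexp ((hasDerivAt_theta θ τ s).const_mul (-2))

theorem hasDerivAt_ph3 (μ : ℂ) (θ : ℝ) (v : ℂ) (τ s : ℝ) :
    HasDerivAt (fun s : ℝ => ph3 (μ + (s : ℂ) * v) (θ + s * τ))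
      (dph3 (μ + (s : ℂ) * v) (θ + s * τ) v τ) s := by
  unfold ph3 dph3
  have h1 := (hasDerivAt_mu μ v s).mul (hasDerivAt_e2 θ τ s)
  have h2 := (hasDerivAt_theta θ τ s).sub (hasDerivAt_im h1)
  refine h2.congr_deriv ?_
  simp only [add_im, mul_im, mul_re, I_re, I_im, ofReal_re, ofReal_im]
  ring

theorem hasDerivAt_w3 (μ : ℂ) (θ : ℝ) (v : ℂ) (τ s : ℝ) :
    HasDerivAt (fun s : ℝ => w3 (μ + (s : ℂ) * v) (θ + s * τ))
      ((dph3 (μ + (s : ℂ) * v) (θ + s * τ) v τ : ℂ) * I * w3 (μ + (s : ℂ) * v) (θ + s * τ)) s := by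
  unfold w3
  exact hasDerivAt_cexp (hasDerivAt_ph3 μ θ v τ s)

theorem hasDerivAt_Yf (e₃ μ : ℂ) (θ : ℝ) (v : ℂ) (τ s : ℝ) :
    HasDerivAt (fun s : ℝ => Yf e₃ (μ + (s : ℂ) * v) (θ + s * τ))
      (dYf e₃ (μ + (s : ℂ) * v) (θ + s * τ) v τ) s := by
  unfold Yf dYf
  have h1 := hasDerivAt_re ((hasDerivAt_conj (hasDerivAt_w3 μ θ v τ s)).mul
    (hasDerivAt_Eh e₃ μ v s))
  refine h1.congr_deriv ?_
  simp only [map_mul, conj_ofReal, conj_I]
  set a := dph3 (μ + (s : ℂ) * v) (θ + s * τ) v τ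
  set w := conj (w3 (μ + (s : ℂ) * v) (θ + s * τ))
  set E := Eh e₃ (μ + (s : ℂ) * v)
  have : (a : ℂ) * -I * w * E = (a : ℂ) * (-I * (w * E)) := by ring
  rw [add_re, this, re_ofReal_mul]
  congr 1
  simp only [neg_mul, neg_re, mul_re, I_re, I_im]
  ring

/-- D1 -/
theorem hasDerivAt_wl {e e₃ μ : ℂ} {ν ε θ : ℝ} {v : ℂ} {τ s : ℝ} (hε : ε ^ 2 = 1)
    (h0 : Eh e (μ + (s : ℂ) * v) ≠ 0) (h1 : cf e e₃ ν (μ + (s : ℂ) * v) (θ + s * τ) ^ 2 < 1) :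
    HasDerivAt (fun s : ℝ => wl e e₃ ν ε (μ + (s : ℂ) * v) (θ + s * τ))
      ((dphl e e₃ ν ε (μ + (s : ℂ) * v) (θ + s * τ) v τ : ℂ) * I *
        wl e e₃ ν ε (μ + (s : ℂ) * v) (θ + s * τ)) s := by
  have hE := hasDerivAt_Eh e μ v s
  have hY := hasDerivAt_Yf e₃ μ θ v τ s
  have hn : DifferentiableAt ℝ (fun s : ℝ => ‖Eh e (μ + (s : ℂ) * v)‖) s :=
    hE.differentiableAt.norm ℝ h0
  have hn0 : ‖Eh e (μ + (s : ℂ) * v)‖ ≠ 0 := norm_ne_zero_iff.2 h0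
  have hc : DifferentiableAt ℝ (fun s : ℝ => cf e e₃ ν (μ + (s : ℂ) * v) (θ + s * τ)) s := by
    unfold cf
    exact (hY.differentiableAt.const_mul ν).div hn hn0
  have hq0 : DifferentiableAt ℝ
      (fun s : ℝ => 1 - cf e e₃ ν (μ + (s : ℂ) * v) (θ + s * τ) ^ 2) s :=
    (differentiableAt_const (1 : ℝ)).sub (hc.pow 2)
  have hq : DifferentiableAt ℝ
      (fun s : ℝ => √(1 - cf e e₃ ν (μ + (s : ℂ) * v) (θ + s * τ) ^ 2)) s :=
    hq0.sqrt (by linarith)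
  have hof : ∀ {f : ℝ → ℝ}, DifferentiableAt ℝ f s →
      DifferentiableAt ℝ (fun s => ((f s : ℝ) : ℂ)) s := fun {f} hf =>
    (hf.hasDerivAt.ofReal_comp).differentiableAt
  have hW : DifferentiableAt ℝ
      (fun s : ℝ => wl e e₃ ν ε (μ + (s : ℂ) * v) (θ + s * τ)) s := by
    unfold wl
    refine DifferentiableAt.mul (hE.differentiableAt.div (hof hn) (by exact_mod_cast hn0)) ?_
    exact (hof hc).add ((hof (hq.const_mul ε)).mul_const I)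
  have ev0 : ∀ᶠ t : ℝ in nhds s, Eh e (μ + (t : ℂ) * v) ≠ 0 :=
    hE.continuousAt.eventually_ne h0
  have ev1 : ∀ᶠ t : ℝ in nhds s, cf e e₃ ν (μ + (t : ℂ) * v) (θ + t * τ) ^ 2 < 1 :=
    (hc.continuousAt.pow 2).eventually_lt continuousAt_const h1
  have k1 : ∀ᶠ t : ℝ in nhds s, ‖wl e e₃ ν ε (μ + (t : ℂ) * v) (θ + t * τ)‖ = 1 := by
    filter_upwards [ev0, ev1] with t ht ht'
    exact norm_wl ht ht'.le hε
  have k2 : ∀ᶠ t : ℝ in nhds s, (conj (wl e e₃ ν ε (μ + (t : ℂ) * v) (θ + t * τ)) *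
      Eh e (μ + (t : ℂ) * v)).re = ν * Yf e₃ (μ + (t : ℂ) * v) (θ + t * τ) := by
    filter_upwards [ev0] with t ht
    rw [conj_wl_mul ht]
    simp
  have k3 : (conj (wl e e₃ ν ε (μ + (s : ℂ) * v) (θ + s * τ)) * Eh e (μ + (s : ℂ) * v)).im ≠ 0 := by
    rw [conj_wl_mul h0]
    simp only [sub_im, ofReal_im, mul_im, ofReal_re, I_im, I_re, mul_one, mul_zero, add_zero,
      zero_sub, ne_eq, neg_eq_zero, mul_eq_zero, not_or]
    refine ⟨⟨?_, hn0⟩, ?_⟩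
    · rintro rfl
      norm_num at hε
    · exact (Real.sqrt_pos.2 (by linarith)).ne'
  have k4 := deriv_circle hW.hasDerivAt hE (hY.const_mul ν) k1 k2 k3
  have k5 := hW.hasDerivAt
  rw [k4] at k5
  exact k5

end Pool.Agent.F5.H58
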