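import Pool.Agent.Helper58_F5.LavC

/-!
# The true cone in the chart: the family with the radial parameter
-/

set_option autoImplicit false

namespace Pool.Agent.F5.H58

open Complex ComplexConjugate MeasureTheory

/-- the chart variables and parameters, the radial variable `z`, and the sizes -/
abbrev XX : Type := VV × ℝ × (Fin 3 → ℝ)

/-- `A_μ(h_l) / (4 σ²)` -/
noncomputable def bz (q : XX) (l : Fin 3) : ℝ :=
  q.2.2 l ^ 2 * normSq (Eh (q.1.2.1 l) (mu q.1)) * q.2.1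

/-- the ratio of the radii -/
noncomputable def sl (q : XX) (l : Fin 3) : ℝ := √((1 - bz q 2) / (1 - bz q l))

/-- the parameters of the true cone -/
noncomputable def Ps (q : XX) : VV :=
  (q.1.1, (q.1.2.1, fun l => q.1.2.2.1 l * sl q l, q.1.2.2.2))

/-- the points of the true cone, divided by `σ / (1 - |μ|²)` -/
noncomputable def GM (q : XX) (l : Fin 3) : ℂ := ((√(1 - bz q l) : ℝ) : ℂ) * MM (Ps q) l

/-- the domain -/
def UX : Set XX := {q | (∀ l, bz q l < 1) ∧ Ps q ∈ UU}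

/-- the compact set -/
def KX : Set XX := {q | q.1 ∈ KK ∧ q.2.1 = 0 ∧ ∀ l, |q.2.2 l| ≤ 1}

theorem cdx_fst {n : WithTop ℕ∞} {E : Type*} [NormedAddCommGroup E] [NormedSpace ℝ E]
    {f : VV → E} {q : XX} (h : ContDiffAt ℝ n f q.1) : ContDiffAt ℝ n (fun p : XX => f p.1) q :=
  h.comp q contDiffAt_fst

theorem cd_bz (n : WithTop ℕ∞) (q : XX) (l : Fin 3) :
    ContDiffAt ℝ n (fun p : XX => bz p l) q := by
  unfold bz
  have h1 : ContDiffAt ℝ n (fun p : XX => p.2.2 l) q := by fun_prop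
  have h2 : ContDiffAt ℝ n (fun p : XX => p.2.1) q := by fun_prop
  have h3 := cdx_fst (cd_Eh n q.1 l)
  have h4 : ContDiffAt ℝ n (fun p : XX => normSq (Eh (p.1.2.1 l) (mu p.1))) q := by
    have h5 := ((cd_re h3).mul (cd_re h3)).add ((cd_im h3).mul (cd_im h3))
    exact h5.congr_of_eventuallyEq (Filter.Eventually.of_forall fun p => normSq_apply _)
  exact ((h1.pow 2).mul h4).mul h2

theorem cd_sl (n : WithTop ℕ∞) {q : XX} (hq : ∀ l, bz q l < 1) (l : Fin 3) :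
    ContDiffAt ℝ n (fun p : XX => sl p l) q := by
  unfold sl
  have h1 : ContDiffAt ℝ n (fun p : XX => 1 - bz p 2) q := contDiffAt_const.sub (cd_bz n q 2)
  have h2 : ContDiffAt ℝ n (fun p : XX => 1 - bz p l) q := contDiffAt_const.sub (cd_bz n q l)
  have e2 : 0 < 1 - bz q 2 := by linarith [hq 2]
  have el : 0 < 1 - bz q l := by linarith [hq l]
  exact (h1.div h2 el.ne').sqrt (div_pos e2 el).ne'

theorem cd_Ps (n : WithTop ℕ∞) {q : XX} (hq : ∀ l, bz q l < 1) : ContDiffAt ℝ n Ps q := by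
  unfold Ps
  refine ContDiffAt.prodMk (by fun_prop) (ContDiffAt.prodMk (by fun_prop)
    (ContDiffAt.prodMk ?_ (by fun_prop)))
  rw [contDiffAt_pi]
  intro l
  exact (by fun_prop : ContDiffAt ℝ n (fun p : XX => p.1.2.2.1 l) q).mul (cd_sl n hq l)

theorem cd_GM (n : WithTop ℕ∞) {q : XX} (hq : q ∈ UX) : ContDiffAt ℝ n GM q := by
  rw [contDiffAt_pi]
  intro l
  unfold GM
  have h1 : ContDiffAt ℝ n (fun p : XX => MM (Ps p)) q :=
    (cd_MM n hq.2).comp q (cd_Ps n hq.1)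
  have h2 := (contDiffAt_pi.1 h1) l
  have h3 : ContDiffAt ℝ n (fun p : XX => √(1 - bz p l)) q :=
    (contDiffAt_const.sub (cd_bz n q l)).sqrt (by
      have := hq.1 l
      show 1 - bz q l ≠ 0
      linarith)
  exact (cd_of h3).mul h2

theorem isOpen_UX : IsOpen UX := by
  rw [isOpen_iff_eventually]
  intro q hq
  have h1 : ∀ᶠ p in nhds q, ∀ l, bz p l < 1 :=
    Filter.eventually_all.2 fun l => (cd_bz 0 q l).continuousAt.eventually_lt continuousAt_const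
      (hq.1 l)
  have h2 : ∀ᶠ p in nhds q, Ps p ∈ UU :=
    (cd_Ps 0 hq.1).continuousAt.eventually (isOpen_UU.eventually_mem hq.2)
  filter_upwards [h1, h2] with p a b
  exact ⟨a, b⟩

theorem bz_zero {q : XX} (h : q.2.1 = 0) (l : Fin 3) : bz q l = 0 := by
  unfold bz; rw [h, mul_zero]

theorem sl_zero {q : XX} (h : q.2.1 = 0) (l : Fin 3) : sl q l = 1 := by
  unfold sl; rw [bz_zero h, bz_zero h]; norm_num

theorem Ps_zero {q : XX} (h : q.2.1 = 0) : Ps q = q.1 := by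
  unfold Ps
  refine Prod.ext rfl (Prod.ext rfl (Prod.ext ?_ rfl))
  funext l
  show q.1.2.2.1 l * sl q l = _
  rw [sl_zero h, mul_one]

theorem GM_zero {q : XX} (h : q.2.1 = 0) : GM q = MM q.1 := by
  funext l
  unfold GM
  rw [Ps_zero h, bz_zero h, sub_zero, Real.sqrt_one, ofReal_one, one_mul]

theorem KX_sub : KX ⊆ UX := by
  intro q hq
  refine ⟨fun l => ?_, ?_⟩
  · rw [bz_zero hq.2.1]; norm_num
  · rw [Ps_zero hq.2.1]; exact KK_sub hq.1

theorem isCompact_KX : IsCompact KX := by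
  have h1 : KX = KK ×ˢ (({0} : Set ℝ) ×ˢ (Set.univ.pi fun _ : Fin 3 => Set.Icc (-1 : ℝ) 1)) := by
    ext q
    simp only [KX, Set.mem_ofPred_eq, Set.mem_prod, Set.mem_singleton_iff, Set.mem_univ_pi,
      Set.mem_Icc, abs_le]
  rw [h1]
  exact isCompact_KK.prod (isCompact_singleton.prod (isCompact_univ_pi fun _ => isCompact_Icc))

/-- the radial derivative -/
noncomputable def Z1 (q : XX) : Fin 3 → ℂ := fderiv ℝ GM q (0, 1, 0)

/-- the uniform expansions -/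
theorem taylor_GM : ∃ C r : ℝ, 1 ≤ C ∧ 0 < r ∧ ∀ q ∈ KX, ∀ u : XX, ‖u‖ ≤ r → q + u ∈ UX ∧
    ‖fderiv ℝ GM (q + u)‖ ≤ C ∧ ‖fderiv ℝ GM (q + u) - fderiv ℝ GM q‖ ≤ C * ‖u‖ ∧
    ‖GM (q + u) - GM q‖ ≤ C * ‖u‖ ∧ ‖fderiv ℝ Z1 (q + u)‖ ≤ C ∧ ‖Z1 (q + u)‖ ≤ C ∧
    ‖Z1 (q + u) - Z1 q‖ ≤ C * ‖u‖ ∧ DifferentiableAt ℝ Z1 (q + u) := by
  have hGM : ContDiffOn ℝ 3 GM UX := fun q hq => (cd_GM 3 hq).contDiffWithinAt
  have hZ1 : ContDiffOn ℝ 2 Z1 UX := by
    have h1 : ContDiffOn ℝ 2 (fderiv ℝ GM) UX := hGM.fderiv_of_isOpen isOpen_UX (by norm_num)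
    exact h1.clm_apply contDiffOn_const
  obtain ⟨C1, r1, hC1, hr1, h1⟩ := taylor_compact isOpen_UX isCompact_KX KX_sub
    (f := GM) (hGM.of_le (by norm_num))
  obtain ⟨C2, r2, hC2, hr2, h2⟩ := taylor_compact isOpen_UX isCompact_KX KX_sub
    (f := Z1) hZ1
  refine ⟨max (max C1 C2) 1, min r1 r2, le_max_right _ _, lt_min hr1 hr2, fun x hx u hu => ?_⟩
  obtain ⟨a1, a2, a3, a4, a5, a6⟩ := h1 x hx u (hu.trans (min_le_left _ _))
  obtain ⟨b1, b2, b3, b4, b5, b6⟩ := h2 x hx u (hu.trans (min_le_right _ _))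
  have c1 : C1 ≤ max (max C1 C2) 1 := (le_max_left _ _).trans (le_max_left _ _)
  have c2 : C2 ≤ max (max C1 C2) 1 := (le_max_right _ _).trans (le_max_left _ _)
  have n0 := norm_nonneg u
  refine ⟨a1, a2.trans c1, a6.trans ?_, a4.trans ?_, b2.trans c2, b3.trans c2, b4.trans ?_,
    (hZ1.differentiableOn (by norm_num)).differentiableAt (isOpen_UX.mem_nhds a1)⟩
  · exact mul_le_mul_of_nonneg_right c1 n0
  · exact mul_le_mul_of_nonneg_right c1 n0
  · exact mul_le_mul_of_nonneg_right c2 n0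

end Pool.Agent.F5.H58
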