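import Pool.Agent.Helper58_F5.Ext

/-!
# The radial derivative at `z = 0`
-/

set_option autoImplicit false

namespace Pool.Agent.F5.H58

open Complex ComplexConjugate MeasureTheory

/-- the slope of the angle -/
noncomputable def gs (x : VV) (l : Fin 3) : ℝ :=
  x.2.2.1 l * Yf (x.2.1 2) (mu x) (th x) /
    (conj (ww x.2.1 x.2.2.1 x.2.2.2 (mu x) (th x) l) * Eh (x.2.1 l) (mu x)).im

/-- `u_l / V²` -/
noncomputable def bw (q : XX) (l : Fin 3) : ℝ :=
  q.2.2 l ^ 2 * normSq (Eh (q.1.2.1 l) (mu q.1))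

theorem cf_mul (e e₃ : ℂ) (ν s : ℝ) (μ : ℂ) (θ : ℝ) : cf e e₃ (ν * s) μ θ = cf e e₃ ν μ θ * s := by
  unfold cf; ring

theorem hasDerivAt_wl_s {e e₃ μ : ℂ} {ν ε θ : ℝ} {s : ℝ → ℝ} {s' : ℝ} (h0 : Eh e μ ≠ 0)
    (h1 : cf e e₃ ν μ θ ^ 2 < 1) (hε : ε ^ 2 = 1) (hs : HasDerivAt s s' 0) (hs1 : s 0 = 1) :
    HasDerivAt (fun t => wl e e₃ (ν * s t) ε μ θ)
      (((ν * Yf e₃ μ θ / (conj (wl e e₃ ν ε μ θ) * Eh e μ).im * s' : ℝ) : ℂ) * I *
        wl e e₃ ν ε μ θ) 0 := by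
  set c := cf e e₃ ν μ θ with hc
  have hpos : 0 < 1 - c ^ 2 := by linarith
  set r := √(1 - c ^ 2) with hr
  have hr0 : 0 < r := Real.sqrt_pos.2 hpos
  have hr2 : r ^ 2 = 1 - c ^ 2 := Real.sq_sqrt hpos.le
  have hn : ‖Eh e μ‖ ≠ 0 := norm_ne_zero_iff.2 h0
  have hε0 : ε ≠ 0 := by intro h; rw [h] at hε; norm_num at hε
  have hg : ν * Yf e₃ μ θ / (conj (wl e e₃ ν ε μ θ) * Eh e μ).im = -(ε * c / r) := by
    rw [conj_wl_mul h0]
    simp only [sub_im, ofReal_im, mul_im, ofReal_re, I_im, I_re, mul_one, mul_zero, add_zero,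
      zero_sub]
    have e1 : ν * Yf e₃ μ θ = c * ‖Eh e μ‖ := by
      rw [hc]; unfold cf; field_simp
    rw [e1, ← hc, ← hr]
    rw [div_eq_iff (neg_ne_zero.2 (mul_ne_zero (mul_ne_zero hε0 hn) hr0.ne'))]
    have e2 : -(ε * c / r) * -(ε * ‖Eh e μ‖ * r) = ε ^ 2 * (c * ‖Eh e μ‖) := by
      field_simp
    rw [e2, hε, one_mul]
  rw [hg]
  have h2 : HasDerivAt (fun t => c * s t) (c * s') 0 := hs.const_mul c
  have h3 : HasDerivAt (fun t => 1 - (c * s t) ^ 2) (-(2 * c * (c * s'))) 0 := by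
    have := (h2.pow 2).const_sub 1
    refine this.congr_deriv ?_
    rw [hs1]
    push_cast
    ring
  have h4 : HasDerivAt (fun t => √(1 - (c * s t) ^ 2)) (-(c * (c * s')) / r) 0 := by
    have := h3.sqrt (by rw [hs1, mul_one]; exact hpos.ne')
    refine this.congr_deriv ?_
    rw [hs1, mul_one, ← hr]
    field_simp
  have h5 := ((h2.ofReal_comp).add (((h4.const_mul ε).ofReal_comp).mul_const I)).const_mul
    (Eh e μ / (‖Eh e μ‖ : ℂ))
  have h6 : (fun t => wl e e₃ (ν * s t) ε μ θ) = fun t => Eh e μ / (‖Eh e μ‖ : ℂ) *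
      (((c * s t : ℝ) : ℂ) + ((ε * √(1 - (c * s t) ^ 2) : ℝ) : ℂ) * I) := by
    funext t
    unfold wl
    rw [cf_mul]
  rw [h6]
  refine h5.congr_deriv ?_
  unfold wl
  rw [← hc, ← hr]
  have key : ((c * s' : ℝ) : ℂ) + ((ε * (-(c * (c * s')) / r) : ℝ) : ℂ) * I =
      ((-(ε * c / r) * s' : ℝ) : ℂ) * I * ((c : ℂ) + ((ε * r : ℝ) : ℂ) * I) := by
    apply Complex.ext
    · simp only [add_re, ofReal_re, mul_re, ofReal_im, I_re, I_im, mul_zero, zero_mul, sub_zero,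
        mul_one, mul_im, add_im, zero_add, add_zero, sub_self]
      have : -(-(ε * c / r) * s' * (ε * r)) = ε ^ 2 * (c * s') := by
        field_simp
      linarith [this, hε, show ε ^ 2 * (c * s') = c * s' by rw [hε, one_mul]]
    · simp only [add_re, ofReal_re, mul_re, ofReal_im, I_re, I_im, mul_zero, zero_mul, sub_zero,
        mul_one, mul_im, add_im, zero_add, add_zero, sub_self]
      ring
  rw [key]
  ring

theorem bz_line {q : XX} (h : q.2.1 = 0) (t : ℝ) (l : Fin 3) :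
    bz (q + t • ((0, 1, 0) : XX)) l = bw q l * t := by
  unfold bz bw
  simp only [Prod.fst_add, Prod.snd_add, Prod.smul_fst, Prod.smul_snd, smul_zero, add_zero,
    smul_eq_mul, mul_one, h, zero_add]

theorem sl_line {q : XX} (h : q.2.1 = 0) (l : Fin 3) :
    HasDerivAt (fun t : ℝ => sl (q + t • ((0, 1, 0) : XX)) l) ((bw q l - bw q 2) / 2) 0 := by
  unfold sl
  simp only [bz_line h]
  have h1 : HasDerivAt (fun t : ℝ => 1 - bw q 2 * t) (-(bw q 2)) 0 := by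
    simpa using ((hasDerivAt_id (0 : ℝ)).const_mul (bw q 2)).const_sub 1
  have h2 : HasDerivAt (fun t : ℝ => 1 - bw q l * t) (-(bw q l)) 0 := by
    simpa using ((hasDerivAt_id (0 : ℝ)).const_mul (bw q l)).const_sub 1
  have h3 := (h1.div h2 (by norm_num)).sqrt (by norm_num)
  refine h3.congr_deriv ?_
  norm_num
  ring

/-- the angular part of the derivative -/
noncomputable def ta (x : VV) (l : Fin 3) : ℂ :=
  I * (ww x.2.1 x.2.2.1 x.2.2.2 (mu x) (th x) l +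
    mu x * conj (ww x.2.1 x.2.2.1 x.2.2.2 (mu x) (th x) l))

theorem hasDerivAt_ww_s {q : XX} (hS : Std q.1.2.1 q.1.2.2.1 q.1.2.2.2) (hU : q.1 ∈ UU)
    (h : q.2.1 = 0) (l : Fin 3) :
    HasDerivAt (fun t : ℝ => ww (Ps (q + t • ((0, 1, 0) : XX))).2.1
      (Ps (q + t • ((0, 1, 0) : XX))).2.2.1 (Ps (q + t • ((0, 1, 0) : XX))).2.2.2
      (mu (Ps (q + t • ((0, 1, 0) : XX)))) (th (Ps (q + t • ((0, 1, 0) : XX)))) l)
      (((gs q.1 l * ((bw q l - bw q 2) / 2) : ℝ) : ℂ) * I *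
        ww q.1.2.1 q.1.2.2.1 q.1.2.2.2 (mu q.1) (th q.1) l) 0 := by
  have e1 : ∀ t : ℝ, (Ps (q + t • ((0, 1, 0) : XX))).1 = q.1.1 := by
    intro t
    simp only [Ps, Prod.fst_add, Prod.smul_fst, smul_zero, add_zero]
  have e2 : ∀ t : ℝ, (Ps (q + t • ((0, 1, 0) : XX))).2.1 = q.1.2.1 := by
    intro t
    simp only [Ps, Prod.fst_add, Prod.smul_fst, smul_zero, add_zero]
  have e3 : ∀ t : ℝ, (Ps (q + t • ((0, 1, 0) : XX))).2.2.2 = q.1.2.2.2 := by
    intro t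
    simp only [Ps, Prod.fst_add, Prod.smul_fst, smul_zero, add_zero]
  have e4 : ∀ t : ℝ, (Ps (q + t • ((0, 1, 0) : XX))).2.2.1 =
      fun l => q.1.2.2.1 l * sl (q + t • ((0, 1, 0) : XX)) l := by
    intro t
    simp only [Ps, Prod.fst_add, Prod.smul_fst, smul_zero, add_zero]
  have e5 : ∀ t : ℝ, mu (Ps (q + t • ((0, 1, 0) : XX))) = mu q.1 := by
    intro t
    unfold mu
    rw [e1]
  have e6 : ∀ t : ℝ, th (Ps (q + t • ((0, 1, 0) : XX))) = th q.1 := by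
    intro t
    unfold th
    rw [e1]
  simp only [e2, e3, e4, e5, e6]
  unfold gs ww
  by_cases hl : l = 2
  · subst hl
    simp only [if_true, sub_self, zero_div, mul_zero, ofReal_zero, zero_mul]
    exact hasDerivAt_const _ _
  · simp only [if_neg hl]
    have hsl : sl (q + (0 : ℝ) • ((0, 1, 0) : XX)) l = 1 := by
      rw [zero_smul, add_zero]
      exact sl_zero h l
    exact hasDerivAt_wl_s (hU l hl).1 (hU l hl).2.1 (hS.p1 l) (sl_line h l) hsl

/-- E5: the radial derivative at `z = 0` -/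
theorem Z1_eq {q : XX} (hS : Std q.1.2.1 q.1.2.2.1 q.1.2.2.2) (hU : q.1 ∈ UU) (h : q.2.1 = 0)
    (l : Fin 3) : Z1 q l = -((bw q l / 2 : ℝ) : ℂ) * MM q.1 l +
      ((gs q.1 l * ((bw q l - bw q 2) / 2) : ℝ) : ℂ) * ta q.1 l := by
  have hUX : q ∈ UX := by
    refine ⟨fun l => ?_, ?_⟩
    · rw [bz_zero h]; norm_num
    · rw [Ps_zero h]; exact hU
  have hf : HasFDerivAt GM (fderiv ℝ GM q) q :=
    ((cd_GM 1 hUX).differentiableAt (by norm_num)).hasFDerivAt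
  have hl : HasDerivAt (fun s : ℝ => q + s • ((0, 1, 0) : XX)) ((0, 1, 0) : XX) 0 := by
    have := ((hasDerivAt_id (0 : ℝ)).smul_const ((0, 1, 0) : XX)).const_add q
    simpa using this
  have hf' : HasFDerivAt GM (fderiv ℝ GM q) (q + (0 : ℝ) • ((0, 1, 0) : XX)) := by
    simpa using hf
  have hc := hf'.comp_hasDerivAt (0 : ℝ) hl
  have h1 : HasDerivAt (fun t : ℝ => GM (q + t • ((0, 1, 0) : XX)) l) (Z1 q l) 0 :=
    (hasDerivAt_pi.1 hc) l
  -- the explicit derivative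
  have hw := hasDerivAt_ww_s hS hU h l
  have hmu : ∀ t : ℝ, mu (Ps (q + t • ((0, 1, 0) : XX))) = mu q.1 := by
    intro t
    unfold mu
    simp only [Ps, Prod.fst_add, Prod.smul_fst, smul_zero, add_zero]
  have hM : HasDerivAt (fun t : ℝ => MM (Ps (q + t • ((0, 1, 0) : XX))) l)
      (((gs q.1 l * ((bw q l - bw q 2) / 2) : ℝ) : ℂ) * ta q.1 l) 0 := by
    unfold MM Mm
    simp only [hmu]
    simp only [hmu] at hw
    have h2 := hw.sub ((hasDerivAt_conj hw).const_mul (mu q.1))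
    refine h2.congr_deriv ?_
    unfold ta
    simp only [map_mul, conj_ofReal, conj_I]
    ring
  have hs : HasDerivAt (fun t : ℝ => √(1 - bz (q + t • ((0, 1, 0) : XX)) l)) (-(bw q l / 2)) 0 := by
    simp only [bz_line h]
    have h2 : HasDerivAt (fun t : ℝ => 1 - bw q l * t) (-(bw q l)) 0 := by
      simpa using ((hasDerivAt_id (0 : ℝ)).const_mul (bw q l)).const_sub 1
    have h3 := h2.sqrt (by norm_num)
    refine h3.congr_deriv ?_
    norm_num
    ring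
  have h2 := hs.ofReal_comp.mul hM
  have h3 : (fun t : ℝ => GM (q + t • ((0, 1, 0) : XX)) l) = fun t : ℝ =>
      ((√(1 - bz (q + t • ((0, 1, 0) : XX)) l) : ℝ) : ℂ) * MM (Ps (q + t • ((0, 1, 0) : XX))) l := by
    funext t
    rfl
  rw [h3] at h1
  rw [h1.unique h2]
  rw [zero_smul, add_zero, Ps_zero h, bz_zero h, sub_zero, Real.sqrt_one]
  push_cast
  ring

/-- `κ / V²` -/
noncomputable def kh (q : XX) (k : Fin 3 → ℂ) : ℝ :=
  ∑ l, (bw q l * (conj (k l) * MM q.1 l).re -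
    gs q.1 l * (bw q l - bw q 2) * (conj (k l) * ta q.1 l).re)

theorem sp_Z1 {q : XX} (hS : Std q.1.2.1 q.1.2.2.1 q.1.2.2.2) (hU : q.1 ∈ UU) (h : q.2.1 = 0)
    (k : Fin 3 → ℂ) : sp k (Z1 q) = -(kh q k / 2) := by
  unfold sp kh
  rw [Finset.sum_div, ← Finset.sum_neg_distrib]
  refine Finset.sum_congr rfl fun l _ => ?_
  rw [Z1_eq hS hU h]
  have e : conj (k l) * (-((bw q l / 2 : ℝ) : ℂ) * MM q.1 l +
      ((gs q.1 l * ((bw q l - bw q 2) / 2) : ℝ) : ℂ) * ta q.1 l) =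
      ((-(bw q l / 2) : ℝ) : ℂ) * (conj (k l) * MM q.1 l) +
      ((gs q.1 l * ((bw q l - bw q 2) / 2) : ℝ) : ℂ) * (conj (k l) * ta q.1 l) := by
    push_cast
    ring
  rw [e, add_re, re_ofReal_mul, re_ofReal_mul]
  ring

end Pool.Agent.F5.H58
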