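import Pool.Agent.Helper58_F5.ExtB

/-!
# Bounds for the true cone in the chart
-/

set_option autoImplicit false

namespace Pool.Agent.F5.H58

open Complex ComplexConjugate MeasureTheory

/-- the derivative of the points of the true cone in the direction of the chart variables -/
noncomputable def DG (q : XX) (j : Fin 3) : Fin 3 → ℂ :=
  fderiv ℝ GM q (ins (Pi.single j 1), 0, 0)

theorem sp_self_eq_zero {m : Fin 3 → ℂ} (h : ∀ k, sp k m = 0) : m = 0 := by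
  have h1 := h m
  unfold sp at h1
  have h2 : ∀ l, (conj (m l) * m l).re = ‖m l‖ ^ 2 := by
    intro l
    rw [← normSq_eq_conj_mul_self, ofReal_re, normSq_eq_norm_sq]
  simp only [h2] at h1
  have h3 := (Finset.sum_eq_zero_iff_of_nonneg (fun l _ => sq_nonneg ‖m l‖)).1 h1
  funext l
  have h4 := h3 l (Finset.mem_univ l)
  exact norm_eq_zero.1 (pow_eq_zero_iff (two_ne_zero) |>.1 h4)

/-- the derivative of the points of the true cone along a line -/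
theorem hasDerivAt_GM {x : VV} {z : ℝ} {β : Fin 3 → ℝ} {u : Fin 3 → ℝ} {s : ℝ}
    (hq : ((x + s • ins u, z, β) : XX) ∈ UX) (k : Fin 3 → ℂ) :
    HasDerivAt (fun s : ℝ => sp k (GM ((x + s • ins u, z, β) : XX)))
      (∑ j, u j * sp k (DG ((x + s • ins u, z, β) : XX) j)) s := by
  have hf : HasFDerivAt GM (fderiv ℝ GM ((x + s • ins u, z, β) : XX)) ((x + s • ins u, z, β) : XX) :=
    ((cd_GM 1 hq).differentiableAt (by norm_num)).hasFDerivAt
  have hl : HasDerivAt (fun s : ℝ => ((x + s • ins u, z, β) : XX)) ((ins u, 0, 0) : XX) s := by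
    have h1 : HasDerivAt (fun s : ℝ => x + s • ins u) (ins u) s := by
      simpa using ((hasDerivAt_id s).smul_const (ins u)).const_add x
    exact h1.prodMk (hasDerivAt_const s ((z, β) : ℝ × (Fin 3 → ℝ)))
  have hc := hf.comp_hasDerivAt s hl
  have h2 : ∀ l, HasDerivAt (fun s : ℝ => GM ((x + s • ins u, z, β) : XX) l)
      (fderiv ℝ GM ((x + s • ins u, z, β) : XX) (ins u, 0, 0) l) s := fun l =>
    (hasDerivAt_pi.1 hc) l
  refine (hasDerivAt_sp (k := k) h2).congr_deriv ?_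
  have h3 : ((ins u, 0, 0) : XX) = ∑ j, u j • ((ins (Pi.single j 1), 0, 0) : XX) := by
    refine Prod.ext ?_ ?_
    · rw [Prod.fst_sum]
      unfold ins
      refine Prod.ext ?_ ?_
      · simp only [Prod.fst_sum, Prod.smul_fst]
        exact (pi_eq_sum_univ' u)
      · simp only [Prod.snd_sum, Prod.smul_fst, Prod.smul_snd, smul_zero, Finset.sum_const_zero]
    · rw [Prod.snd_sum]
      simp
  have h4 : fderiv ℝ GM ((x + s • ins u, z, β) : XX) (ins u, 0, 0) =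
      ∑ j, u j • DG ((x + s • ins u, z, β) : XX) j := by
    rw [h3, map_sum]
    refine Finset.sum_congr rfl fun j _ => ?_
    rw [map_smul]
    rfl
  rw [h4]
  have h5 : sp k (∑ j, u j • DG ((x + s • ins u, z, β) : XX) j) =
      ∑ j, sp k (u j • DG ((x + s • ins u, z, β) : XX) j) := map_sum (spL k) _ _
  rw [h5]
  refine Finset.sum_congr rfl fun j _ => ?_
  rw [sp_smul]

theorem DG_zero {x : VV} (hS : Std x.2.1 x.2.2.1 x.2.2.2) (hU : x ∈ UU) (β : Fin 3 → ℝ)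
    (j : Fin 3) : DG ((x, 0, β) : XX) j = FF x j := by
  rw [← sub_eq_zero]
  refine sp_self_eq_zero fun k => ?_
  rw [sp_sub, sub_eq_zero]
  have hq : ((x, 0, β) : XX) ∈ UX := by
    refine ⟨fun l => ?_, ?_⟩
    · rw [bz_zero rfl]; norm_num
    · rw [Ps_zero rfl]; exact hU
  have h1 := hasDerivAt_GM (x := x) (z := 0) (β := β) (u := Pi.single j 1) (s := 0)
    (by simpa using hq) k
  have h2 := hasDerivAt_MM hS (u := Pi.single j 1) (s := 0) (x := x) (by simpa using hU) k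
  have h3 : (fun s : ℝ => sp k (GM ((x + s • ins (Pi.single j 1), 0, β) : XX))) =
      fun s : ℝ => sp k (MM (x + s • ins (Pi.single j 1))) := by
    funext s
    rw [GM_zero rfl]
  rw [h3] at h1
  have h4 := h1.unique h2
  simp only [zero_smul, add_zero] at h4
  have h5 : ∀ f : Fin 3 → ℝ, ∑ i, (Pi.single j (1 : ℝ) : Fin 3 → ℝ) i * f i = f j := by
    intro f
    rw [Finset.sum_eq_single j]
    · rw [Pi.single_eq_same, one_mul]
    · intro i _ hi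
      rw [Pi.single_eq_of_ne hi, zero_mul]
    · intro h
      exact absurd (Finset.mem_univ j) h
  rw [h5, h5] at h4
  exact h4

/-- the bounds for the true cone -/
theorem ext_bounds : ∃ C r : ℝ, 1 ≤ C ∧ 0 < r ∧ ∀ x ∈ KK, ∀ β : Fin 3 → ℝ, (∀ l, |β l| ≤ 1) →
    ∀ z : ℝ, 0 ≤ z → z ≤ r → ((x, z, β) : XX) ∈ UX ∧
      (∀ j, ‖DG ((x, z, β) : XX) j - FF x j‖ ≤ C * z) ∧ ‖GM ((x, z, β) : XX) - MM x‖ ≤ C * z ∧
      ‖Z1 ((x, z, β) : XX)‖ ≤ C ∧ ‖Z1 ((x, z, β) : XX) - Z1 ((x, 0, β) : XX)‖ ≤ C * z ∧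
      ‖fderiv ℝ Z1 ((x, z, β) : XX)‖ ≤ C ∧ DifferentiableAt ℝ Z1 ((x, z, β) : XX) := by
  obtain ⟨C, r, hC, hr, hT⟩ := taylor_GM
  refine ⟨C, r, hC, hr, fun x hx β hβ z hz0 hz => ?_⟩
  have hq : ((x, 0, β) : XX) ∈ KX := ⟨hx, rfl, hβ⟩
  have hu : ‖((0, z, 0) : XX)‖ = z := by
    show max ‖(0 : VV)‖ (max ‖z‖ ‖(0 : Fin 3 → ℝ)‖) = z
    rw [norm_zero, norm_zero, Real.norm_eq_abs, abs_of_nonneg hz0, max_eq_left hz0,
      max_eq_right hz0]
  have he : ((x, 0, β) : XX) + (0, z, 0) = (x, z, β) := by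
    simp
  obtain ⟨a1, a2, a3, a4, a5, a6, a7, a8⟩ := hT _ hq (0, z, 0) (by rw [hu]; exact hz)
  rw [he, hu] at a3 a4 a7
  rw [he] at a1 a2 a5 a6 a8
  refine ⟨a1, fun j => ?_, ?_, a6, a7, a5, a8⟩
  · rw [← DG_zero hx.1 (KK_sub hx) β j]
    unfold DG
    rw [← sub_apply]
    refine ((fderiv ℝ GM (x, z, β) - fderiv ℝ GM (x, 0, β)).le_opNorm _).trans ?_
    have h1 : ‖((ins (Pi.single j 1), 0, 0) : XX)‖ ≤ 1 := by
      rw [Prod.norm_def]
      exact max_le (norm_ins_single j) (by simp)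
    have h2 := norm_nonneg (fderiv ℝ GM (x, z, β) - fderiv ℝ GM (x, 0, β))
    calc _ ≤ ‖fderiv ℝ GM (x, z, β) - fderiv ℝ GM (x, 0, β)‖ * 1 :=
          mul_le_mul_of_nonneg_left h1 h2
      _ ≤ C * z := by rw [mul_one]; exact a3
  · rw [GM_zero (q := ((x, 0, β) : XX)) rfl] at a4
    exact a4

/-- the radial derivative of `k` on the true cone -/
noncomputable def phi (k : Fin 3 → ℂ) (q : XX) : ℝ := sp k (GM q) - 2 * q.2.1 * sp k (Z1 q)

theorem Yf_lip {e μ μ' : ℂ} {θ θ' ρ : ℝ} (he : ‖e‖ = 1) (hμ : ‖μ‖ ≤ 1 / 8) (hμ' : ‖μ'‖ ≤ 1 / 8)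
    (h1 : ‖μ' - μ‖ ≤ 2 * ρ) (h2 : |θ' - θ| ≤ ρ) : |Yf e μ' θ' - Yf e μ θ| ≤ 6 * ρ := by
  have hρ : 0 ≤ ρ := (abs_nonneg _).trans h2
  have e1 : ‖cexp (((-2 * θ' : ℝ) : ℂ) * I) - cexp (((-2 * θ : ℝ) : ℂ) * I)‖ ≤ 2 * ρ := by
    refine (norm_exp_sub _ _).trans ?_
    rw [show -2 * θ' - -2 * θ = -(2 * (θ' - θ)) by ring, abs_neg, abs_mul, abs_two]
    linarith
  have e2 : |ph3 μ' θ' - ph3 μ θ| ≤ 13 / 4 * ρ := by
    have e3 : ph3 μ' θ' - ph3 μ θ = (θ' - θ) -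
        ((μ' - μ) * cexp (((-2 * θ' : ℝ) : ℂ) * I) +
          μ * (cexp (((-2 * θ' : ℝ) : ℂ) * I) - cexp (((-2 * θ : ℝ) : ℂ) * I))).im := by
      unfold ph3
      simp only [add_im, sub_im, mul_im, sub_re]
      ring
    rw [e3]
    refine (abs_sub _ _).trans ?_
    have e4 : |((μ' - μ) * cexp (((-2 * θ' : ℝ) : ℂ) * I) +
          μ * (cexp (((-2 * θ' : ℝ) : ℂ) * I) - cexp (((-2 * θ : ℝ) : ℂ) * I))).im| ≤
        2 * ρ + 1 / 8 * (2 * ρ) := by
      refine (abs_im_le_norm _).trans ((norm_add_le _ _).trans (add_le_add ?_ ?_))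
      · rw [norm_mul, norm_exp_ofReal_mul_I, mul_one]
        exact h1
      · rw [norm_mul]
        exact mul_le_mul hμ e1 (norm_nonneg _) (by norm_num)
    linarith
  have e5 : ‖w3 μ' θ' - w3 μ θ‖ ≤ 13 / 4 * ρ := by
    unfold w3
    exact (norm_exp_sub _ _).trans e2
  have e6 : Yf e μ' θ' - Yf e μ θ =
      ((conj (w3 μ' θ') - conj (w3 μ θ)) * Eh e μ' + conj (w3 μ θ) * ((μ' - μ) * conj e)).re := by
    unfold Yf Eh
    rw [← sub_re]
    congr 1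
    ring
  rw [e6]
  refine (abs_re_le_norm _).trans ((norm_add_le _ _).trans ?_)
  rw [norm_mul, norm_mul, norm_mul, norm_conj, norm_conj, norm_w3, he, mul_one, one_mul,
    ← map_sub, norm_conj]
  have e7 : ‖Eh e μ'‖ ≤ 9 / 8 := by
    unfold Eh
    refine (norm_add_le _ _).trans ?_
    rw [norm_mul, norm_conj, he, mul_one]
    linarith
  have e8 := mul_le_mul e5 e7 (norm_nonneg _) (by positivity)
  linarith

theorem mu_ins (x : VV) (u : Fin 3 → ℝ) :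
    mu (x + ins u) = mu x + ((u 0 : ℂ) + (u 1 : ℂ) * I) := by
  unfold mu ins
  simp only [Prod.fst_add, Pi.add_apply]
  push_cast
  ring

theorem th_ins (x : VV) (u : Fin 3 → ℝ) : th (x + ins u) = th x + u 2 := by
  unfold th ins
  simp only [Prod.fst_add, Pi.add_apply]

theorem snd_ins (x : VV) (u : Fin 3 → ℝ) : (x + ins u).2 = x.2 := by
  unfold ins
  simp

theorem Yf_shift {x : VV} {ρ : ℝ} {u : Fin 3 → ℝ} (he : ‖x.2.1 2‖ = 1) (h0 : |x.1 0| ≤ 1 / 32)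
    (h1 : |x.1 1| ≤ 1 / 32) (hu : ∀ i, |u i| ≤ ρ) (hρ : ρ ≤ 1 / 64) :
    |Yf ((x + ins u).2.1 2) (mu (x + ins u)) (th (x + ins u)) -
      Yf (x.2.1 2) (mu x) (th x)| ≤ 6 * ρ := by
  have hμ : ‖mu x‖ ≤ 1 / 16 := by linarith [norm_mu_le x]
  have hd : ‖((u 0 : ℂ) + (u 1 : ℂ) * I)‖ ≤ 2 * ρ := by
    refine (norm_add_le _ _).trans ?_
    rw [norm_mul, norm_I, norm_real, norm_real, Real.norm_eq_abs, Real.norm_eq_abs, mul_one]
    linarith [hu 0, hu 1]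
  rw [snd_ins, mu_ins, th_ins]
  refine Yf_lip he (by linarith) ?_ ?_ ?_
  · refine (norm_add_le _ _).trans ?_
    linarith
  · rw [add_sub_cancel_left]; exact hd
  · rw [add_sub_cancel_left]; exact hu 2

theorem KK_shift {x : VV} {ρ : ℝ} {u : Fin 3 → ℝ} (hS : Std x.2.1 x.2.2.1 x.2.2.2)
    (h0 : |x.1 0| ≤ 1 / 32) (h1 : |x.1 1| ≤ 1 / 32) (h2 : |x.1 2| ≤ 4)
    (hY : ∀ l : Fin 3, l ≠ 2 → |x.2.2.1 l * Yf (x.2.1 2) (mu x) (th x)| ≤ 1 / 8)
    (hu : ∀ i, |u i| ≤ ρ) (hρ : ρ ≤ 1 / 64) : x + ins u ∈ KK := by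
  have e1 : (x + ins u).1 = x.1 + u := by unfold ins; rfl
  have a0 : |(x + ins u).1 0| ≤ 1 / 16 := by
    rw [e1, Pi.add_apply]
    exact (abs_add_le _ _).trans (by linarith [hu 0])
  have a1 : |(x + ins u).1 1| ≤ 1 / 16 := by
    rw [e1, Pi.add_apply]
    exact (abs_add_le _ _).trans (by linarith [hu 1])
  have hμ : ‖mu (x + ins u)‖ ≤ 1 / 8 := by linarith [norm_mu_le (x + ins u)]
  refine ⟨by rw [snd_ins]; exact hS, a0, a1, ?_, fun l hl => ?_⟩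
  · rw [e1, Pi.add_apply]
    exact (abs_add_le _ _).trans (by linarith [hu 2])
  · have h3 := Yf_shift (hS.e1 2) h0 h1 hu hρ
    have h4 : ‖Eh ((x + ins u).2.1 l) (mu (x + ins u))‖ ≥ 7 / 8 :=
      norm_Eh_ge (by rw [snd_ins]; exact hS.e1 l) hμ
    have h5 : (x + ins u).2.2.1 l * Yf ((x + ins u).2.1 2) (mu (x + ins u)) (th (x + ins u)) =
        x.2.2.1 l * Yf (x.2.1 2) (mu x) (th x) + x.2.2.1 l *
        (Yf ((x + ins u).2.1 2) (mu (x + ins u)) (th (x + ins u)) -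
          Yf (x.2.1 2) (mu x) (th x)) := by
      rw [snd_ins]; ring
    rw [h5]
    refine (abs_add_le _ _).trans ?_
    rw [abs_mul (x.2.2.1 l) (Yf ((x + ins u).2.1 2) (mu (x + ins u)) (th (x + ins u)) -
          Yf (x.2.1 2) (mu x) (th x))]
    have h6 := mul_le_mul (hS.n1 l) h3 (abs_nonneg _) (by norm_num)
    linarith [hY l hl]

end Pool.Agent.F5.H58
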