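import Pool.Agent.Helper58_F5.ExtC

/-!
# Facts on the radial derivative
-/

set_option autoImplicit false

namespace Pool.Agent.F5.H58

open Complex ComplexConjugate MeasureTheory

theorem hasDerivAt_line (x : VV) (β : Fin 3 → ℝ) (z : ℝ) :
    HasDerivAt (fun t : ℝ => ((x, t, β) : XX)) ((0, 1, 0) : XX) z :=
  (hasDerivAt_const z x).prodMk ((hasDerivAt_id z).prodMk (hasDerivAt_const z β))

/-- mean value along a shift -/
theorem shift_mv {f : VV → ℝ} {D : VV → ℝ} {x : VV} {u : Fin 3 → ℝ} {B : ℝ}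
    (hd : ∀ s ∈ Set.Icc (0 : ℝ) 1, HasDerivAt (fun s : ℝ => f (x + s • ins u))
      (D (x + s • ins u)) s) (hB : ∀ s ∈ Set.Icc (0 : ℝ) 1, |D (x + s • ins u)| ≤ B) :
    |f (x + ins u) - f x| ≤ B := by
  have hmv := (convex_Icc (0 : ℝ) 1).norm_image_sub_le_of_norm_hasDerivWithin_le
    (fun s hs => (hd s hs).hasDerivWithinAt) (fun s hs => by
      rw [Real.norm_eq_abs]; exact hB s hs)
    (Set.left_mem_Icc.2 zero_le_one) (Set.right_mem_Icc.2 zero_le_one)
  rwa [sub_zero, norm_one, mul_one, one_smul, zero_smul, add_zero, Real.norm_eq_abs] at hmv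

theorem phi_facts : ∃ C r : ℝ, 1 ≤ C ∧ 0 < r ∧ ∀ x ∈ KK, ∀ β : Fin 3 → ℝ, (∀ l, |β l| ≤ 1) →
    ∀ z : ℝ, 0 ≤ z → z ≤ r → ∀ k : Fin 3 → ℂ,
      (∃ p' : ℝ, HasDerivAt (fun t : ℝ => phi k ((x, t, β) : XX)) p' z ∧
        |p' - kh ((x, 0, β) : XX) k / 2| ≤ C * (‖k‖ * z)) ∧
      |phi k ((x, z, β) : XX) - sp k (MM x)| ≤ C * (‖k‖ * z) ∧
      (∀ j, |sp k (DG ((x, z, β) : XX) j) - sp k (FF x j)| ≤ C * (‖k‖ * z)) ∧
      |kh ((x, 0, β) : XX) k| ≤ C * ‖k‖ ∧
      |sp k (GM ((x, z, β) : XX)) - sp k (MM x)| ≤ C * (‖k‖ * z) ∧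
      (∀ (u : Fin 3 → ℝ) (ρ : ℝ), (∀ i, |u i| ≤ ρ) →
        (∀ s ∈ Set.Icc (0 : ℝ) 1, x + s • ins u ∈ KK) →
        |phi k ((x + ins u, z, β) : XX) - phi k ((x, z, β) : XX)| ≤
          |sp k (MM (x + ins u)) - sp k (MM x)| + C * (‖k‖ * z * ρ) ∧
        |kh ((x + ins u, 0, β) : XX) k - kh ((x, 0, β) : XX) k| ≤ C * (‖k‖ * ρ)) := by
  obtain ⟨C, r, hC, hr, hE⟩ := ext_bounds
  refine ⟨20 * C, r, by linarith, hr, fun x hx β hβ z hz0 hz k => ?_⟩
  obtain ⟨a1, a2, a3, a4, a5, a6, a7⟩ := hE x hx β hβ z hz0 hz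
  have hk0 := norm_nonneg k
  have hkz : 0 ≤ ‖k‖ * z := mul_nonneg hk0 hz0
  have hZ0 : sp k (Z1 ((x, 0, β) : XX)) = -(kh ((x, 0, β) : XX) k / 2) :=
    sp_Z1 hx.1 (KK_sub hx) rfl k
  refine ⟨?_, ?_, ?_, ?_, ?_, ?_⟩
  · -- the derivative in z
    have hG : HasFDerivAt GM (fderiv ℝ GM ((x, z, β) : XX)) ((x, z, β) : XX) :=
      ((cd_GM 1 a1).differentiableAt (by norm_num)).hasFDerivAt
    have h1 := hG.comp_hasDerivAt z (hasDerivAt_line x β z)
    have h2 : ∀ l, HasDerivAt (fun t : ℝ => GM ((x, t, β) : XX) l) (Z1 ((x, z, β) : XX) l) z :=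
      fun l => (hasDerivAt_pi.1 h1) l
    have h3 := hasDerivAt_sp (k := k) h2
    have h4 := a7.hasFDerivAt.comp_hasDerivAt z (hasDerivAt_line x β z)
    have h5 : ∀ l, HasDerivAt (fun t : ℝ => Z1 ((x, t, β) : XX) l)
        (fderiv ℝ Z1 ((x, z, β) : XX) (0, 1, 0) l) z := fun l => (hasDerivAt_pi.1 h4) l
    have h6 := hasDerivAt_sp (k := k) h5
    have h7 := h3.sub (((hasDerivAt_id z).const_mul 2).mul h6)
    refine ⟨_, h7, ?_⟩
    have h8 : |sp k (fderiv ℝ Z1 ((x, z, β) : XX) (0, 1, 0))| ≤ 3 * ‖k‖ * C := by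
      refine (abs_sp_le _ _).trans (mul_le_mul_of_nonneg_left ?_ (by positivity))
      refine ((fderiv ℝ Z1 ((x, z, β) : XX)).le_opNorm _).trans ?_
      have h9 : ‖((0, 1, 0) : XX)‖ ≤ 1 := by
        show max ‖(0 : VV)‖ (max ‖(1 : ℝ)‖ ‖(0 : Fin 3 → ℝ)‖) ≤ 1
        simp
      calc _ ≤ C * 1 := mul_le_mul a6 h9 (norm_nonneg _) (by linarith)
        _ = C := mul_one C
    have h9 : |sp k (Z1 ((x, z, β) : XX)) - sp k (Z1 ((x, 0, β) : XX))| ≤ 3 * ‖k‖ * (C * z) := by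
      rw [← sp_sub]
      exact (abs_sp_le _ _).trans (mul_le_mul_of_nonneg_left a5 (by positivity))
    have h10 : sp k (Z1 ((x, z, β) : XX)) - (2 * 1 * sp k (Z1 ((x, z, β) : XX)) +
        2 * z * sp k (fderiv ℝ Z1 ((x, z, β) : XX) (0, 1, 0))) - kh ((x, 0, β) : XX) k / 2 =
        -(sp k (Z1 ((x, z, β) : XX)) - sp k (Z1 ((x, 0, β) : XX))) -
        2 * z * sp k (fderiv ℝ Z1 ((x, z, β) : XX) (0, 1, 0)) := by
      rw [hZ0]; ring
    show |sp k (Z1 ((x, z, β) : XX)) - (2 * 1 * sp k (Z1 ((x, z, β) : XX)) +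
        2 * z * sp k (fderiv ℝ Z1 ((x, z, β) : XX) (0, 1, 0))) - kh ((x, 0, β) : XX) k / 2| ≤ _
    rw [h10]
    refine (abs_sub _ _).trans ?_
    rw [abs_neg, abs_mul, abs_mul, abs_two, abs_of_nonneg hz0]
    have h11 : 2 * z * |sp k (fderiv ℝ Z1 ((x, z, β) : XX) (0, 1, 0))| ≤
        2 * z * (3 * ‖k‖ * C) := mul_le_mul_of_nonneg_left h8 (by linarith)
    have h12 : 0 ≤ C * (‖k‖ * z) := by positivity
    linarith
  · unfold phi
    have h1 : |sp k (GM ((x, z, β) : XX)) - sp k (MM x)| ≤ 3 * ‖k‖ * (C * z) := by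
      rw [← sp_sub]
      exact (abs_sp_le _ _).trans (mul_le_mul_of_nonneg_left a3 (by positivity))
    have h2 : |sp k (Z1 ((x, z, β) : XX))| ≤ 3 * ‖k‖ * C :=
      (abs_sp_le _ _).trans (mul_le_mul_of_nonneg_left a4 (by positivity))
    have h3 : sp k (GM ((x, z, β) : XX)) - 2 * z * sp k (Z1 ((x, z, β) : XX)) - sp k (MM x) =
        (sp k (GM ((x, z, β) : XX)) - sp k (MM x)) - 2 * z * sp k (Z1 ((x, z, β) : XX)) := by ring
    show |sp k (GM ((x, z, β) : XX)) - 2 * z * sp k (Z1 ((x, z, β) : XX)) - sp k (MM x)| ≤ _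
    rw [h3]
    refine (abs_sub _ _).trans ?_
    rw [abs_mul, abs_mul, abs_two, abs_of_nonneg hz0]
    have h11 : 2 * z * |sp k (Z1 ((x, z, β) : XX))| ≤
        2 * z * (3 * ‖k‖ * C) := mul_le_mul_of_nonneg_left h2 (by linarith)
    have h12 : 0 ≤ C * (‖k‖ * z) := by positivity
    linarith
  · intro j
    rw [← sp_sub]
    refine (abs_sp_le _ _).trans ?_
    have h1 := mul_le_mul_of_nonneg_left (a2 j) (by positivity : 0 ≤ 3 * ‖k‖)
    have h12 : 0 ≤ C * (‖k‖ * z) := by positivity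
    linarith
  · obtain ⟨-, -, -, b4, -, -, -⟩ := hE x hx β hβ 0 le_rfl hr.le
    have h1 : |sp k (Z1 ((x, 0, β) : XX))| ≤ 3 * ‖k‖ * C :=
      (abs_sp_le _ _).trans (mul_le_mul_of_nonneg_left b4 (by positivity))
    rw [hZ0, abs_neg, abs_div, abs_two] at h1
    have h12 : 0 ≤ C * ‖k‖ := by positivity
    linarith
  · rw [← sp_sub]
    refine (abs_sp_le _ _).trans ?_
    have h1 := mul_le_mul_of_nonneg_left a3 (by positivity : 0 ≤ 3 * ‖k‖)
    have h12 : 0 ≤ C * (‖k‖ * z) := by positivity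
    linarith
  · intro u ρ hu hK
    have hρ : 0 ≤ ρ := (abs_nonneg _).trans (hu 0)
    have hun : ‖u‖ ≤ ρ := (pi_norm_le_iff_of_nonneg hρ).2 fun i => by
      rw [Real.norm_eq_abs]; exact hu i
    -- the derivative of Z1 along the shift
    have hZ : ∀ t : ℝ, 0 ≤ t → t ≤ r →
        |sp k (Z1 ((x + ins u, t, β) : XX)) - sp k (Z1 ((x, t, β) : XX))| ≤ 3 * ‖k‖ * (C * ρ) := by
      intro t ht0 ht
      refine shift_mv (f := fun y => sp k (Z1 ((y, t, β) : XX)))
        (D := fun y => sp k (fderiv ℝ Z1 ((y, t, β) : XX) (ins u, 0, 0))) ?_ ?_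
      · intro s hs
        obtain ⟨b1, b2, b3, b4, b5, b6, b7⟩ := hE _ (hK s hs) β hβ t ht0 ht
        have hl : HasDerivAt (fun s : ℝ => ((x + s • ins u, t, β) : XX)) ((ins u, 0, 0) : XX) s := by
          have h1 : HasDerivAt (fun s : ℝ => x + s • ins u) (ins u) s := by
            simpa using ((hasDerivAt_id s).smul_const (ins u)).const_add x
          exact h1.prodMk (hasDerivAt_const s ((t, β) : ℝ × (Fin 3 → ℝ)))
        have hc := b7.hasFDerivAt.comp_hasDerivAt s hl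
        exact hasDerivAt_sp (k := k) fun l => (hasDerivAt_pi.1 hc) l
      · intro s hs
        obtain ⟨b1, b2, b3, b4, b5, b6, b7⟩ := hE _ (hK s hs) β hβ t ht0 ht
        refine (abs_sp_le _ _).trans (mul_le_mul_of_nonneg_left ?_ (by positivity))
        refine ((fderiv ℝ Z1 ((x + s • ins u, t, β) : XX)).le_opNorm _).trans ?_
        have h9 : ‖((ins u, 0, 0) : XX)‖ ≤ ρ := by
          show max ‖ins u‖ (max ‖(0 : ℝ)‖ ‖(0 : Fin 3 → ℝ)‖) ≤ ρ
          rw [norm_ins, norm_zero, norm_zero, max_self]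
          exact max_le hun hρ
        exact mul_le_mul b6 h9 (norm_nonneg _) (by linarith)
    have hCkρ : 0 ≤ C * (‖k‖ * ρ) := by positivity
    refine ⟨?_, ?_⟩
    · have h1 := hZ z hz0 hz
      have h2 : |(sp k (GM ((x + ins u, z, β) : XX)) - sp k (MM (x + ins u))) -
          (sp k (GM ((x, z, β) : XX)) - sp k (MM x))| ≤ 3 * (ρ * (3 * ‖k‖ * (C * z))) := by
        refine shift_mv (f := fun y => sp k (GM ((y, z, β) : XX)) - sp k (MM y))
          (D := fun y => ∑ j, u j * (sp k (DG ((y, z, β) : XX) j) - sp k (FF y j))) ?_ ?_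
        · intro s hs
          obtain ⟨b1, b2, b3, b4, b5, b6, b7⟩ := hE _ (hK s hs) β hβ z hz0 hz
          have h3 := (hasDerivAt_GM b1 k).sub (hasDerivAt_MM hx.1 (KK_sub (hK s hs)) k)
          refine h3.congr_deriv ?_
          rw [← Finset.sum_sub_distrib]
          refine Finset.sum_congr rfl fun j _ => ?_
          ring
        · intro s hs
          obtain ⟨b1, b2, b3, b4, b5, b6, b7⟩ := hE _ (hK s hs) β hβ z hz0 hz
          refine (Finset.abs_sum_le_sum_abs _ _).trans ?_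
          have h3 : ∀ j ∈ (Finset.univ : Finset (Fin 3)),
              |u j * (sp k (DG ((x + s • ins u, z, β) : XX) j) - sp k (FF (x + s • ins u) j))| ≤
              ρ * (3 * ‖k‖ * (C * z)) := by
            intro j _
            rw [abs_mul, ← sp_sub]
            refine mul_le_mul (hu j) ?_ (abs_nonneg _) hρ
            exact (abs_sp_le _ _).trans (mul_le_mul_of_nonneg_left (b2 j) (by positivity))
          refine (Finset.sum_le_card_nsmul _ _ _ h3).trans ?_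
          rw [Finset.card_univ, Fintype.card_fin, nsmul_eq_mul]
          push_cast
          linarith
      have h4 : phi k ((x + ins u, z, β) : XX) - phi k ((x, z, β) : XX) =
          (sp k (MM (x + ins u)) - sp k (MM x)) +
          ((sp k (GM ((x + ins u, z, β) : XX)) - sp k (MM (x + ins u))) -
          (sp k (GM ((x, z, β) : XX)) - sp k (MM x))) -
          2 * z * (sp k (Z1 ((x + ins u, z, β) : XX)) - sp k (Z1 ((x, z, β) : XX))) := by
        unfold phi; ring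
      rw [h4]
      refine (abs_sub _ _).trans ?_
      rw [abs_mul, abs_mul, abs_two, abs_of_nonneg hz0]
      have h5 := abs_add_le (sp k (MM (x + ins u)) - sp k (MM x))
        ((sp k (GM ((x + ins u, z, β) : XX)) - sp k (MM (x + ins u))) -
          (sp k (GM ((x, z, β) : XX)) - sp k (MM x)))
      have h6 : 2 * z * |sp k (Z1 ((x + ins u, z, β) : XX)) - sp k (Z1 ((x, z, β) : XX))| ≤
          2 * z * (3 * ‖k‖ * (C * ρ)) := mul_le_mul_of_nonneg_left h1 (by linarith)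
      have h7 : 0 ≤ C * (‖k‖ * z * ρ) := by positivity
      linarith
    · have h1 := hZ 0 le_rfl hr.le
      have h2 : x + ins u ∈ KK := by
        have := hK 1 (Set.right_mem_Icc.2 zero_le_one)
        rwa [one_smul] at this
      have h3 : sp k (Z1 ((x + ins u, 0, β) : XX)) = -(kh ((x + ins u, 0, β) : XX) k / 2) :=
        sp_Z1 h2.1 (KK_sub h2) rfl k
      rw [h3, hZ0] at h1
      have h4 : -(kh ((x + ins u, 0, β) : XX) k / 2) - -(kh ((x, 0, β) : XX) k / 2) =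
          -((kh ((x + ins u, 0, β) : XX) k - kh ((x, 0, β) : XX) k) / 2) := by ring
      rw [h4, abs_neg, abs_div, abs_two] at h1
      linarith

end Pool.Agent.F5.H58
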