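import Mathlib

/-!
# Local averaging: the abstract form
-/

set_option autoImplicit false

namespace Pool.Agent.F5.H58

open MeasureTheory Matrix

/-- AREA -/
theorem area_le {S : Matrix (Fin 2) (Fin 2) ℝ} {D κ : ℝ} (hD : 0 < D) (hS : D ≤ |S.det|)
    (hκ : 0 ≤ κ) (v : Fin 2 → ℝ) :
    volume {u : Fin 2 → ℝ | ∀ i, |v i + (S *ᵥ u) i| ≤ κ} ≤ ENNReal.ofReal ((2 * κ) ^ 2 / D) := by
  have hdet : LinearMap.det (Matrix.toLin' S) ≠ 0 := by
    rw [LinearMap.det_toLin']
    intro h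
    rw [h, abs_zero] at hS
    linarith
  have h1 : {u : Fin 2 → ℝ | ∀ i, |v i + (S *ᵥ u) i| ≤ κ} =
      (Matrix.toLin' S) ⁻¹' (Set.Icc (fun i => -v i - κ) (fun i => -v i + κ)) := by
    ext u
    simp only [Set.mem_setOf_eq, Set.mem_preimage, Matrix.toLin'_apply, Set.mem_Icc, Pi.le_def,
      abs_le]
    constructor
    · intro h
      exact ⟨fun i => by linarith [(h i).1], fun i => by linarith [(h i).2]⟩
    · rintro ⟨h, h'⟩ i
      exact ⟨by linarith [h i], by linarith [h' i]⟩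
  rw [h1, Measure.addHaar_preimage_linearMap volume hdet, Real.volume_Icc_pi]
  simp only [add_sub_sub_cancel, Finset.prod_const, Finset.card_univ, Fintype.card_fin]
  rw [LinearMap.det_toLin', ← ENNReal.ofReal_pow (by linarith), ← ENNReal.ofReal_mul (abs_nonneg _)]
  apply ENNReal.ofReal_le_ofReal
  rw [abs_inv, ← two_mul, inv_mul_eq_div]
  exact div_le_div_of_nonneg_left (by positivity) hD hS

/-- the local averaging on a cube of `ℝ³` -/
theorem lav0 {G : (Fin 3 → ℝ) → Fin 3 → ℝ} {g : Fin 3 → ℝ} {S : Matrix (Fin 3) (Fin 3) ℝ}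
    {ρ κ D : ℝ} (hρ : 0 ≤ ρ) (hκ : 0 ≤ κ) (hD : 0 < D)
    (hG : ∀ u : Fin 3 → ℝ, (∀ i, |u i| ≤ ρ) → ∀ i, |G u i - (g i + (S *ᵥ u) i)| ≤ κ) (l : Fin 3)
    (hS : D ≤ |(S.submatrix l.succAbove l.succAbove).det|) :
    volume {u : Fin 3 → ℝ | (∀ i, |u i| ≤ ρ) ∧ ∀ i, |G u i| ≤ κ} ≤
      ENNReal.ofReal (2 * ρ * ((4 * κ) ^ 2 / D)) := by
  set T : Set (ℝ × (Fin 2 → ℝ)) := {p | |p.1| ≤ ρ ∧ ∀ i, |(g (l.succAbove i) +
    S (l.succAbove i) l * p.1) + ((S.submatrix l.succAbove l.succAbove) *ᵥ p.2) i| ≤ 2 * κ}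
    with hT
  have hTm : MeasurableSet T := by
    have : IsClosed T := by
      rw [hT]
      simp only [Set.setOf_and, Set.setOf_forall]
      refine IsClosed.inter (isClosed_le (by fun_prop) continuous_const)
        (isClosed_iInter fun i => isClosed_le ?_ continuous_const)
      simp only [Matrix.mulVec, dotProduct]
      fun_prop
    exact this.measurableSet
  have hsub : {u : Fin 3 → ℝ | (∀ i, |u i| ≤ ρ) ∧ ∀ i, |G u i| ≤ κ} ⊆
      (MeasurableEquiv.piFinSuccAbove (fun _ : Fin 3 => ℝ) l) ⁻¹' T := by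
    rintro u ⟨h1, h2⟩
    rw [Set.mem_preimage, hT, Set.mem_setOf_eq]
    refine ⟨h1 l, fun i => ?_⟩
    have h3 := hG u h1 (l.succAbove i)
    have h4 := h2 (l.succAbove i)
    have h5 : (S *ᵥ u) (l.succAbove i) = S (l.succAbove i) l * u l +
        ((S.submatrix l.succAbove l.succAbove) *ᵥ (fun j => u (l.succAbove j))) i := by
      simp only [Matrix.mulVec, dotProduct, Matrix.submatrix_apply]
      rw [Fin.sum_univ_succAbove _ l]
    have h6 : (MeasurableEquiv.piFinSuccAbove (fun _ : Fin 3 => ℝ) l u).1 = u l := rfl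
    have h7 : (MeasurableEquiv.piFinSuccAbove (fun _ : Fin 3 => ℝ) l u).2 =
      fun j => u (l.succAbove j) := rfl
    rw [h6, h7]
    rw [h5] at h3
    rw [abs_le] at h3 h4 ⊢
    constructor <;> linarith [h3.1, h3.2, h4.1, h4.2]
  refine (measure_mono hsub).trans ?_
  rw [(volume_preserving_piFinSuccAbove (fun _ : Fin 3 => ℝ) l).measure_preimage
    hTm.nullMeasurableSet]
  rw [Measure.volume_eq_prod, Measure.prod_apply hTm]
  have h8 : ∀ a : ℝ, volume (Prod.mk a ⁻¹' T) ≤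
      (Set.Icc (-ρ) ρ).indicator (fun _ => ENNReal.ofReal ((4 * κ) ^ 2 / D)) a := by
    intro a
    by_cases ha : |a| ≤ ρ
    · rw [Set.indicator_of_mem (show a ∈ Set.Icc (-ρ) ρ from abs_le.1 ha)]
      have h9 : Prod.mk a ⁻¹' T ⊆ {u : Fin 2 → ℝ | ∀ i, |(g (l.succAbove i) +
          S (l.succAbove i) l * a) + ((S.submatrix l.succAbove l.succAbove) *ᵥ u) i| ≤ 2 * κ} :=
        fun u hu => hu.2
      refine (measure_mono h9).trans ?_
      have := area_le hD hS (κ := 2 * κ) (by linarith)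
        (fun i => g (l.succAbove i) + S (l.succAbove i) l * a)
      rwa [show 2 * (2 * κ) = 4 * κ by ring] at this
    · have h9 : Prod.mk a ⁻¹' T = ∅ := by
        ext u
        simp only [Set.mem_preimage, Set.mem_empty_iff_false, iff_false]
        intro hu
        exact ha hu.1
      rw [h9, measure_empty]
      exact bot_le
  refine (lintegral_mono h8).trans ?_
  rw [lintegral_indicator measurableSet_Icc, setLIntegral_const, Real.volume_Icc,
    ← ENNReal.ofReal_mul (by positivity)]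
  apply ENNReal.ofReal_le_ofReal
  rw [mul_comm]
  apply le_of_eq
  ring

end Pool.Agent.F5.H58
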