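import Pool.Agent.Helper58_F5.NearB
import Pool.Agent.Helper58_F5.Lav

/-!
# Local averaging in the chart, part A: the Hessian at a point near the base points
-/

set_option autoImplicit false

namespace Pool.Agent.F5.H58

open Complex ComplexConjugate MeasureTheory

/-- the shift of the variables -/
noncomputable def ins (u : Fin 3 → ℝ) : VV := (u, 0)

theorem norm_ins (u : Fin 3 → ℝ) : ‖ins u‖ = ‖u‖ := by
  unfold ins
  rw [Prod.norm_def, norm_zero, max_eq_left (norm_nonneg _)]

theorem sp_add (k m m' : Fin 3 → ℂ) : sp k (m + m') = sp k m + sp k m' := by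
  unfold sp
  rw [← Finset.sum_add_distrib]
  refine Finset.sum_congr rfl fun l _ => ?_
  rw [Pi.add_apply, mul_add, add_re]

theorem sp_sub (k m m' : Fin 3 → ℂ) : sp k (m - m') = sp k m - sp k m' := by
  unfold sp
  rw [← Finset.sum_sub_distrib]
  refine Finset.sum_congr rfl fun l _ => ?_
  rw [Pi.sub_apply, mul_sub, sub_re]

theorem sp_smul (k m : Fin 3 → ℂ) (t : ℝ) : sp k (t • m) = t * sp k m := by
  unfold sp
  rw [Finset.mul_sum]
  refine Finset.sum_congr rfl fun l _ => ?_
  rw [Pi.smul_apply, real_smul, ← re_ofReal_mul]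
  congr 1
  ring

theorem abs_sp_le (k m : Fin 3 → ℂ) : |sp k m| ≤ 3 * ‖k‖ * ‖m‖ := by
  unfold sp
  refine (Finset.abs_sum_le_sum_abs _ _).trans ?_
  have : ∀ l ∈ (Finset.univ : Finset (Fin 3)), |(conj (k l) * m l).re| ≤ ‖k‖ * ‖m‖ := by
    intro l _
    refine (abs_re_le_norm _).trans ?_
    rw [norm_mul, norm_conj]
    exact mul_le_mul (norm_le_pi_norm k l) (norm_le_pi_norm m l) (norm_nonneg _) (norm_nonneg _)
  refine (Finset.sum_le_card_nsmul _ _ _ this).trans ?_
  rw [Finset.card_univ, Fintype.card_fin, nsmul_eq_mul]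
  push_cast
  linarith

/-- `sp k` as a linear map -/
noncomputable def spL (k : Fin 3 → ℂ) : (Fin 3 → ℂ) →ₗ[ℝ] ℝ where
  toFun := sp k
  map_add' := sp_add k
  map_smul' t m := by rw [sp_smul]; rfl

/-- the matrix of the second derivatives at any point -/
noncomputable def HM (k : Fin 3 → ℂ) (x : VV) : Matrix (Fin 3) (Fin 3) ℝ :=
  Matrix.of fun j i => sp k (fderiv ℝ FF x (ins (Pi.single i 1)) j)

theorem HM_mulVec (k : Fin 3 → ℂ) (x : VV) (u : Fin 3 → ℝ) (j : Fin 3) :
    (HM k x).mulVec u j = sp k (fderiv ℝ FF x (ins u) j) := by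
  have h1 : ins u = ∑ i, u i • ins (Pi.single i 1) := by
    unfold ins
    refine Prod.ext ?_ ?_
    · simp only [Prod.fst_sum, Prod.smul_fst]
      exact (pi_eq_sum_univ' u)
    · rw [Prod.snd_sum]
      simp
  rw [h1, map_sum, Finset.sum_apply]
  have h2 : sp k (∑ i, (fderiv ℝ FF x (u i • ins (Pi.single i 1))) j) =
      ∑ i, sp k ((fderiv ℝ FF x (u i • ins (Pi.single i 1))) j) :=
    map_sum (spL k) _ _
  rw [h2]
  rw [Matrix.mulVec, dotProduct]
  refine Finset.sum_congr rfl fun i _ => ?_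
  have h3 : HM k x j i = sp k (fderiv ℝ FF x (ins (Pi.single i 1)) j) := rfl
  rw [map_smul, Pi.smul_apply, sp_smul, h3, mul_comm]

/-- at a base point the matrix is `SM` -/
theorem HM_base {x : VV} (hx : x ∈ UU) (h0 : x.1 0 = 0) (h1 : x.1 1 = 0)
    (hb : Base x.2.1 x.2.2.1 x.2.2.2 (th x)) (k : Fin 3 → ℂ) :
    HM k x = SM x.2.1 x.2.2.1 x.2.2.2 (th x) k := by
  ext j i
  unfold HM SM
  rw [Matrix.of_apply, Matrix.of_apply]
  have hd := hb.hasDerivAt_G k (vb i) (tb i) (vb j) (tb j)
  have hf : HasFDerivAt FF (fderiv ℝ FF x) x := ((cd_FF 1 hx).differentiableAt (by norm_num)).hasFDerivAt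
  have hl : HasDerivAt (fun s : ℝ => x + s • ins (Pi.single i 1)) (ins (Pi.single i 1)) 0 := by
    have := ((hasDerivAt_id (0 : ℝ)).smul_const (ins (Pi.single i (1 : ℝ)))).const_add x
    simpa using this
  have hf' : HasFDerivAt FF (fderiv ℝ FF x) (x + (0 : ℝ) • ins (Pi.single i 1)) := by
    simpa using hf
  have hc := hf'.comp_hasDerivAt (0 : ℝ) hl
  have hj : ∀ l, HasDerivAt (fun s : ℝ => FF (x + s • ins (Pi.single i 1)) j l)
      (fderiv ℝ FF x (ins (Pi.single i 1)) j l) 0 := by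
    intro l
    have h2 := (hasDerivAt_pi.1 hc) j
    exact (hasDerivAt_pi.1 h2) l
  have hs := hasDerivAt_sp (k := k) hj
  have he : (fun s : ℝ => sp k (FF (x + s • ins (Pi.single i 1)) j)) = fun s : ℝ =>
      sp k (bb x.2.1 x.2.2.1 x.2.2.2 (0 + (s : ℂ) * vb i) (th x + s * tb i) (vb j) (tb j)) := by
    funext s
    congr 1
    funext l
    unfold FF
    have e1 : mu (x + s • ins (Pi.single i 1)) = 0 + (s : ℂ) * vb i := by
      unfold mu ins vb
      simp only [Prod.fst_add, Prod.smul_fst, Pi.add_apply, Pi.smul_apply, smul_eq_mul, h0, h1]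
      fin_cases i <;> simp
    have e2 : th (x + s • ins (Pi.single i 1)) = th x + s * tb i := by
      unfold th ins tb
      simp only [Prod.fst_add, Prod.smul_fst, Pi.add_apply, Pi.smul_apply, smul_eq_mul]
      fin_cases i <;> simp
    have e3 : (x + s • ins (Pi.single i 1)).2 = x.2 := by
      unfold ins
      simp
    rw [e1, e2, e3]
  rw [he] at hs
  exact hs.unique hd

end Pool.Agent.F5.H58
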