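import Pool.Agent.Helper58_F5.LavA

/-!
# Local averaging in the chart, part B: nondegeneracy near the base points
-/

set_option autoImplicit false

namespace Pool.Agent.F5.H58

open Complex ComplexConjugate MeasureTheory

/-- determinants of perturbed matrices -/
theorem det_pert {A B : Matrix (Fin 2) (Fin 2) ℝ} {M δ : ℝ} (hA : ∀ i j, |A i j| ≤ M)
    (hB : ∀ i j, |B i j| ≤ M) (hd : ∀ i j, |A i j - B i j| ≤ δ) :
    |A.det - B.det| ≤ 4 * M * δ := by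
  have hM : 0 ≤ M := (abs_nonneg _).trans (hA 0 0)
  have key : ∀ a b a' b' : ℝ, |a| ≤ M → |b'| ≤ M → |a - a'| ≤ δ → |b - b'| ≤ δ →
      |a * b - a' * b'| ≤ 2 * M * δ := by
    intro a b a' b' h1 h2 h3 h4
    have : a * b - a' * b' = a * (b - b') + (a - a') * b' := by ring
    rw [this]
    refine (abs_add_le _ _).trans ?_
    rw [abs_mul, abs_mul]
    have e1 : |a| * |b - b'| ≤ M * δ := mul_le_mul h1 h4 (abs_nonneg _) hM
    have e2 : |a - a'| * |b'| ≤ δ * M :=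
      mul_le_mul h3 h2 (abs_nonneg _) ((abs_nonneg _).trans h3)
    linarith
  rw [Matrix.det_fin_two, Matrix.det_fin_two]
  have k1 := key (A 0 0) (A 1 1) (B 0 0) (B 1 1) (hA 0 0) (hB 1 1) (hd 0 0) (hd 1 1)
  have k2 := key (A 0 1) (A 1 0) (B 0 1) (B 1 0) (hA 0 1) (hB 1 0) (hd 0 1) (hd 1 0)
  have : A 0 0 * A 1 1 - A 0 1 * A 1 0 - (B 0 0 * B 1 1 - B 0 1 * B 1 0) =
      (A 0 0 * A 1 1 - B 0 0 * B 1 1) - (A 0 1 * A 1 0 - B 0 1 * B 1 0) := by ring
  rw [this]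
  refine (abs_sub _ _).trans ?_
  linarith

theorem KK_of {x : VV} {d : ℝ} (hS : Std x.2.1 x.2.2.1 x.2.2.2) (h0 : |x.1 0| ≤ d)
    (h1 : |x.1 1| ≤ d) (h2 : |x.1 2| ≤ 4) (hd1 : d ≤ 1 / 64)
    (hY : ∀ l : Fin 3, l ≠ 2 → |x.2.2.1 l * Yf (x.2.1 2) (mu x) (th x)| ≤ d) : x ∈ KK := by
  have hμ : ‖mu x‖ ≤ 1 / 8 := by linarith [norm_mu_le x]
  refine ⟨hS, by linarith, by linarith, by linarith, fun l hl => ?_⟩
  have := norm_Eh_ge (hS.e1 l) hμ
  linarith [hY l hl]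

theorem dom_of {x : VV} (hS : Std x.2.1 x.2.2.1 x.2.2.2) (hx : x ∈ UU) :
    Dom x.2.1 x.2.2.1 x.2.2.2 (mu x) (th x) := fun l hl =>
  ⟨hS.p1 l, (hx l hl).1, (hx l hl).2.1⟩

theorem norm_ins_single (i : Fin 3) : ‖ins (Pi.single i (1 : ℝ))‖ ≤ 1 := by
  rw [norm_ins, pi_norm_le_iff_of_nonneg (by norm_num)]
  intro j
  by_cases h : j = i
  · subst h
    rw [Pi.single_eq_same]
    norm_num
  · rw [Pi.single_eq_of_ne h, norm_zero]
    norm_num

theorem HM_bound {x : VV} {C : ℝ} (h : ‖fderiv ℝ FF x‖ ≤ C) (k : Fin 3 → ℂ) (i j : Fin 3) :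
    |HM k x i j| ≤ 3 * ‖k‖ * C := by
  have h1 : HM k x i j = sp k (fderiv ℝ FF x (ins (Pi.single j 1)) i) := rfl
  rw [h1]
  refine (abs_sp_le _ _).trans ?_
  have h2 : ‖fderiv ℝ FF x (ins (Pi.single j 1)) i‖ ≤ C := by
    refine (norm_le_pi_norm _ i).trans ?_
    refine ((fderiv ℝ FF x).le_opNorm _).trans ?_
    have := norm_ins_single j
    have h3 := norm_nonneg (ins (Pi.single j (1 : ℝ)))
    have h4 := norm_nonneg (fderiv ℝ FF x)
    nlinarith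
  exact mul_le_mul_of_nonneg_left h2 (by positivity)

theorem HM_sub {x y : VV} {C : ℝ} (h : ‖fderiv ℝ FF x - fderiv ℝ FF y‖ ≤ C) (k : Fin 3 → ℂ)
    (i j : Fin 3) : |HM k x i j - HM k y i j| ≤ 3 * ‖k‖ * C := by
  have h1 : HM k x i j - HM k y i j =
      sp k ((fderiv ℝ FF x - fderiv ℝ FF y) (ins (Pi.single j 1)) i) := by
    have e1 : HM k x i j = sp k (fderiv ℝ FF x (ins (Pi.single j 1)) i) := rfl
    have e2 : HM k y i j = sp k (fderiv ℝ FF y (ins (Pi.single j 1)) i) := rfl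
    rw [e1, e2, ← sp_sub]
    rfl
  rw [h1]
  refine (abs_sp_le _ _).trans ?_
  have h2 : ‖(fderiv ℝ FF x - fderiv ℝ FF y) (ins (Pi.single j 1)) i‖ ≤ C := by
    refine (norm_le_pi_norm _ i).trans ?_
    refine ((fderiv ℝ FF x - fderiv ℝ FF y).le_opNorm _).trans ?_
    have := norm_ins_single j
    have h3 := norm_nonneg (ins (Pi.single j (1 : ℝ)))
    have h4 := norm_nonneg (fderiv ℝ FF x - fderiv ℝ FF y)
    nlinarith
  exact mul_le_mul_of_nonneg_left h2 (by positivity)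

/-- nondegeneracy near the base points -/
theorem nondeg_near : ∃ C : ℝ, 1 ≤ C ∧ ∀ (x : VV) (d η δ : ℝ) (k : Fin 3 → ℂ),
    Std x.2.1 x.2.2.1 x.2.2.2 → |x.1 0| ≤ d → |x.1 1| ≤ d → |x.1 2| ≤ 4 → 0 < d → 0 < η →
    η ≤ 1 →
    (∀ l : Fin 3, l ≠ 2 → |x.2.2.1 l * Yf (x.2.1 2) (mu x) (th x)| ≤ d) →
    (∀ l m, l ≠ m → η ≤ ‖Xq x.2.1 x.2.2.1 x.2.2.2 (mu x) (th x) l -
      Xq x.2.1 x.2.2.1 x.2.2.2 (mu x) (th x) m‖) →
    ‖k‖ = 1 → |sp k (MM x)| ≤ δ → (∀ j, |sp k (FF x j)| ≤ δ) → C * (√d + δ) ≤ η ^ 20 →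
    ∃ l : Fin 3, η ^ 20 / 10 ^ 18 ≤ |((HM k x).submatrix l.succAbove l.succAbove).det| := by
  obtain ⟨C, r, hC, hr, hT⟩ := taylor_FF
  refine ⟨10 ^ 30 * C ^ 2 * (1 + 1 / r), ?_, ?_⟩
  · have h1 : 1 ≤ C ^ 2 := one_le_pow₀ hC
    have h2 : 0 < 1 / r := by positivity
    nlinarith
  intro x d η δ k hS h0 h1 h2 hd hη hη1 hY hsep hk hM hG hsmall
  have hδ0 : 0 ≤ δ := (abs_nonneg _).trans hM
  have hC2 : 1 ≤ C ^ 2 := one_le_pow₀ hC
  have hr' : 0 < 1 / r := by positivity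
  have sd0 : 0 < √d := Real.sqrt_pos.2 hd
  have sd2 : √d * √d = d := Real.mul_self_sqrt hd.le
  have hη20 : η ^ 20 ≤ 1 := pow_le_one₀ hη.le hη1
  have hη20' : 0 < η ^ 20 := by positivity
  set K : ℝ := 10 ^ 30 * C ^ 2 * (1 + 1 / r) with hK
  have hK1 : 10 ^ 30 * C ^ 2 ≤ K := by
    rw [hK]; nlinarith
  have hK2 : 10 ^ 30 * (1 / r) ≤ K := by
    rw [hK]; nlinarith
  have hK3 : C ≤ C ^ 2 := by nlinarith
  -- consequences of the smallness
  have hs1 : 10 ^ 30 * (C ^ 2 * (√d + δ)) ≤ η ^ 20 := by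
    refine le_trans ?_ hsmall
    have := mul_le_mul_of_nonneg_right hK1 (add_nonneg sd0.le hδ0)
    linarith
  have hs2 : 10 ^ 30 * √d ≤ r := by
    have h3 : 10 ^ 30 * (1 / r) * √d ≤ 1 := by
      refine le_trans ?_ (hsmall.trans hη20)
      have h4 := mul_le_mul_of_nonneg_right hK2 sd0.le
      have hK0 : 0 ≤ K := by linarith
      have h5 : K * √d ≤ K * (√d + δ) := mul_le_mul_of_nonneg_left (by linarith) hK0
      linarith
    have h6 : 10 ^ 30 * (1 / r) * √d * r = 10 ^ 30 * √d := by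
      field_simp
    have h7 := mul_le_mul_of_nonneg_right h3 hr.le
    rw [h6] at h7
    linarith
  have hs3 : 10 ^ 30 * (√d + δ) ≤ η ^ 20 := by
    have : (√d + δ) ≤ C ^ 2 * (√d + δ) := by nlinarith [add_nonneg sd0.le hδ0]
    linarith
  have hs4 : 10 ^ 30 * (C * (√d + δ)) ≤ η ^ 20 := by
    have : C * (√d + δ) ≤ C ^ 2 * (√d + δ) :=
      mul_le_mul_of_nonneg_right hK3 (add_nonneg sd0.le hδ0)
    linarith
  have hdd : √d ≤ 1 / 64 := by linarith
  have hd1 : d ≤ √d := by nlinarith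
  obtain ⟨x', hx', e0, e1, ee, ep, hb, hxx⟩ := near_base hS h0 h1 h2 hd (by linarith) hY
  have hxK := KK_of hS h0 h1 h2 (by linarith) hY
  set v : VV := x - x' with hv
  have hxv : x' + v = x := by rw [hv]; abel
  have hvr : ‖v‖ ≤ r := by linarith
  obtain ⟨t1, t2, t3, t4, t5, t6, t7⟩ := hT x' hx' v hvr
  rw [hxv] at t1 t2 t3 t4 t5 t6 t7
  obtain ⟨q1, q2, q3, -⟩ := hT x' hx' 0 (by rw [norm_zero]; exact hr.le)
  rw [add_zero] at q1 q2 q3
  have hCv : C * ‖v‖ ≤ 8 * (C * √d) := by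
    have := mul_le_mul_of_nonneg_left hxx (by linarith : (0 : ℝ) ≤ C)
    linarith
  set δ' : ℝ := δ + 24 * (C * √d) with hδ'
  have hCs : 0 ≤ C * √d := by positivity
  -- values and gradients at the base point
  have hM' : |sp k (MM x')| ≤ δ' := by
    have e : sp k (MM x') = sp k (MM x) - sp k (MM x - MM x') := by rw [sp_sub]; ring
    rw [e]
    refine (abs_sub _ _).trans ?_
    have := abs_sp_le k (MM x - MM x')
    rw [hk] at this
    rw [hδ']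
    linarith
  have hG' : ∀ j, |sp k (FF x' j)| ≤ δ' := by
    intro j
    have e : sp k (FF x' j) = sp k (FF x j) - sp k ((FF x - FF x') j) := by
      rw [Pi.sub_apply, sp_sub]; ring
    rw [e]
    refine (abs_sub _ _).trans ?_
    have h3 := abs_sp_le k ((FF x - FF x') j)
    have h4 := norm_le_pi_norm (FF x - FF x') j
    have h5 := hG j
    rw [hk] at h3
    rw [hδ']
    linarith
  have hmu0 : mu x' = 0 := by unfold mu; rw [e0, e1]; simp
  -- s0, s1, s2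
  have hs0 : |s0 (Ak x'.2.1 x'.2.2.1 x'.2.2.2 (th x') k)| ≤ δ' := by
    have h3 : MM x' = Mm x'.2.1 x'.2.2.1 x'.2.2.2 0 (th x') := by
      funext l
      unfold MM
      rw [hmu0]
    rw [h3, Base.val] at hM'
    exact hM'
  have hF : ∀ j, FF x' j = bb x'.2.1 x'.2.2.1 x'.2.2.2 0 (th x') (vb j) (tb j) := by
    intro j
    funext l
    unfold FF
    rw [hmu0]
  have hg : ∀ j, |s2 (Bk x'.2.1 x'.2.2.1 x'.2.2.2 (th x') k) (Nn x'.2.1 x'.2.2.1 x'.2.2.2 (th x'))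
      * tb j - (vb j * conj (s1 (Ak x'.2.1 x'.2.2.1 x'.2.2.2 (th x') k)
        (Bk x'.2.1 x'.2.2.1 x'.2.2.2 (th x') k)
        (Xq x'.2.1 x'.2.2.1 x'.2.2.2 0 (th x')))).re| ≤ δ' := by
    intro j
    rw [← hb.grad k (vb j) (tb j), ← hF j]
    exact hG' j
  have hss2 := hg 2
  have hss0 := hg 0
  have hss1 := hg 1
  simp only [vb, tb, Matrix.cons_val_zero, Matrix.cons_val_one, Matrix.cons_val, zero_mul,
    zero_re, sub_zero, mul_one, mul_zero, zero_sub, abs_neg, one_mul, conj_re, mul_re, I_re, I_im,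
    conj_im, mul_neg, sub_neg_eq_add, zero_add] at hss2 hss0 hss1
  have hs1' : ‖s1 (Ak x'.2.1 x'.2.2.1 x'.2.2.2 (th x') k) (Bk x'.2.1 x'.2.2.1 x'.2.2.2 (th x') k)
      (Xq x'.2.1 x'.2.2.1 x'.2.2.2 0 (th x'))‖ ≤ 2 * δ' := by
    refine (Complex.norm_le_abs_re_add_abs_im _).trans ?_
    linarith
  -- separation at the base point
  have hw : ∀ l, ‖Xq x'.2.1 x'.2.2.1 x'.2.2.2 0 (th x') l -
      Xq x.2.1 x.2.2.1 x.2.2.2 (mu x) (th x) l‖ ≤ 20 * (C * √d) := by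
    intro l
    have n1 := norm_ww (dom_of hS t1) l
    have n2 := norm_ww hb.dom l
    have n3 : ww x.2.1 x.2.2.1 x.2.2.2 (mu x) (th x) l - ww x'.2.1 x'.2.2.1 x'.2.2.2 0 (th x') l =
        (MM x - MM x') l + mu x * conj (ww x.2.1 x.2.2.1 x.2.2.2 (mu x) (th x) l) := by
      rw [Pi.sub_apply]
      unfold MM Mm
      rw [hmu0]
      ring
    have n4 : ‖ww x.2.1 x.2.2.1 x.2.2.2 (mu x) (th x) l -
        ww x'.2.1 x'.2.2.1 x'.2.2.2 0 (th x') l‖ ≤ 10 * (C * √d) := by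
      rw [n3]
      refine (norm_add_le _ _).trans ?_
      rw [norm_mul, norm_conj, n1, mul_one]
      have n5 := norm_le_pi_norm (MM x - MM x') l
      have n6 := norm_mu_le x
      have n7 : √d ≤ C * √d := by nlinarith
      linarith
    unfold Xq
    have n5 : ww x'.2.1 x'.2.2.1 x'.2.2.2 0 (th x') l ^ 2 -
        ww x.2.1 x.2.2.1 x.2.2.2 (mu x) (th x) l ^ 2 =
        -((ww x.2.1 x.2.2.1 x.2.2.2 (mu x) (th x) l - ww x'.2.1 x'.2.2.1 x'.2.2.2 0 (th x') l) *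
        (ww x.2.1 x.2.2.1 x.2.2.2 (mu x) (th x) l + ww x'.2.1 x'.2.2.1 x'.2.2.2 0 (th x') l)) := by
      ring
    rw [n5, norm_neg, norm_mul]
    have n6 : ‖ww x.2.1 x.2.2.1 x.2.2.2 (mu x) (th x) l +
        ww x'.2.1 x'.2.2.1 x'.2.2.2 0 (th x') l‖ ≤ 2 := by
      refine (norm_add_le _ _).trans ?_
      rw [n1, n2]; norm_num
    have n7 := mul_le_mul n4 n6 (norm_nonneg _) (by positivity)
    linarith
  have hηs : η ^ 20 ≤ η := by
    calc η ^ 20 ≤ η ^ 1 := pow_le_pow_of_le_one hη.le hη1 (by norm_num)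
      _ = η := pow_one η
  have hCd : C * √d ≤ C * (√d + δ) := mul_le_mul_of_nonneg_left (by linarith) (by linarith)
  have hsep' : ∀ l m, l ≠ m → η / 2 ≤ ‖Xq x'.2.1 x'.2.2.1 x'.2.2.2 0 (th x') l -
      Xq x'.2.1 x'.2.2.1 x'.2.2.2 0 (th x') m‖ := by
    intro l m hlm
    have h3 := hsep l m hlm
    have h4 := hw l
    have h5 := hw m
    have h6 : Xq x.2.1 x.2.2.1 x.2.2.2 (mu x) (th x) l - Xq x.2.1 x.2.2.1 x.2.2.2 (mu x) (th x) m =
        (Xq x'.2.1 x'.2.2.1 x'.2.2.2 0 (th x') l - Xq x'.2.1 x'.2.2.1 x'.2.2.2 0 (th x') m) -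
        (Xq x'.2.1 x'.2.2.1 x'.2.2.2 0 (th x') l - Xq x.2.1 x.2.2.1 x.2.2.2 (mu x) (th x) l) +
        (Xq x'.2.1 x'.2.2.1 x'.2.2.2 0 (th x') m - Xq x.2.1 x.2.2.1 x.2.2.2 (mu x) (th x) m) := by
      ring
    have h7 : ‖Xq x.2.1 x.2.2.1 x.2.2.2 (mu x) (th x) l -
        Xq x.2.1 x.2.2.1 x.2.2.2 (mu x) (th x) m‖ ≤
        ‖Xq x'.2.1 x'.2.2.1 x'.2.2.2 0 (th x') l - Xq x'.2.1 x'.2.2.1 x'.2.2.2 0 (th x') m‖ +
        20 * (C * √d) + 20 * (C * √d) := by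
      rw [h6]
      refine (norm_add_le _ _).trans (add_le_add ((norm_sub_le _ _).trans (add_le_add le_rfl h4)) h5)
    linarith
  have hk1 : ∀ l, ‖k l‖ ≤ 1 := fun l => by rw [← hk]; exact norm_le_pi_norm k l
  have hk2 : ∃ l, ‖k l‖ = 1 := by
    by_contra h
    push Not at h
    have h3 : ‖k‖ < 1 := (pi_norm_lt_iff one_pos).2 fun l => lt_of_le_of_ne (hk1 l) (h l)
    rw [hk] at h3
    exact lt_irrefl _ h3
  have hν' : ∀ l, |x'.2.2.1 l| ≤ 1 := hx'.1.n1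
  have p20 : (η / 2) ^ 20 = η ^ 20 / 1048576 := by ring
  obtain ⟨l, hl⟩ := base_nondeg hb hν' (by positivity : 0 < η / 2) hsep' hk1 hk2
    (hs0.trans (by linarith [(abs_nonneg _).trans hs0])) hs1' (hss2.trans (by
      linarith [(abs_nonneg _).trans hs0])) (by rw [p20, hδ']; linarith)
  refine ⟨l, ?_⟩
  rw [← HM_base q1 e0 e1 hb k] at hl
  have b1 : ∀ i j, |((HM k x).submatrix l.succAbove l.succAbove) i j| ≤ 3 * C := by
    intro i j
    have := HM_bound t2 k (l.succAbove i) (l.succAbove j)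
    rw [hk, mul_one] at this
    exact this
  have b2 : ∀ i j, |((HM k x').submatrix l.succAbove l.succAbove) i j| ≤ 3 * C := by
    intro i j
    have := HM_bound q2 k (l.succAbove i) (l.succAbove j)
    rw [hk, mul_one] at this
    exact this
  have b3 : ∀ i j, |((HM k x).submatrix l.succAbove l.succAbove) i j -
      ((HM k x').submatrix l.succAbove l.succAbove) i j| ≤ 24 * (C * √d) := by
    intro i j
    have := HM_sub t6 k (l.succAbove i) (l.succAbove j)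
    rw [hk, mul_one] at this
    refine this.trans ?_
    linarith
  have b4 := det_pert b1 b2 b3
  have b5 : |((HM k x').submatrix l.succAbove l.succAbove).det| ≤
      |((HM k x).submatrix l.succAbove l.succAbove).det| + 4 * (3 * C) * (24 * (C * √d)) := by
    have := abs_sub_abs_le_abs_sub ((HM k x').submatrix l.succAbove l.succAbove).det
      ((HM k x).submatrix l.succAbove l.succAbove).det
    rw [abs_sub_comm] at this
    linarith
  have b6 : 4 * (3 * C) * (24 * (C * √d)) = 288 * (C ^ 2 * √d) := by ring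
  have b7 : C ^ 2 * √d ≤ C ^ 2 * (√d + δ) := mul_le_mul_of_nonneg_left (by linarith) (by linarith)
  rw [p20] at hl
  rw [b6] at b5
  linarith

end Pool.Agent.F5.H58
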