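import Pool.Agent.Helper58_F5.LavB

/-!
# Local averaging in the chart, part C
-/

set_option autoImplicit false

namespace Pool.Agent.F5.H58

open Complex ComplexConjugate MeasureTheory

theorem dph3_lin (μ : ℂ) (θ : ℝ) (u : Fin 3 → ℝ) :
    dph3 μ θ ((u 0 : ℂ) + (u 1 : ℂ) * I) (u 2) = ∑ j, u j * dph3 μ θ (vb j) (tb j) := by
  rw [Fin.sum_univ_three]
  unfold dph3 vb tb
  simp only [Matrix.cons_val_zero, Matrix.cons_val_one, Matrix.cons_val, add_mul, mul_im, mul_re,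
    add_im, add_re, ofReal_re, ofReal_im, I_re, I_im, one_re, one_im, zero_re, zero_im]
  ring

theorem dYf_lin (e₃ μ : ℂ) (θ : ℝ) (u : Fin 3 → ℝ) :
    dYf e₃ μ θ ((u 0 : ℂ) + (u 1 : ℂ) * I) (u 2) = ∑ j, u j * dYf e₃ μ θ (vb j) (tb j) := by
  have h := dph3_lin μ θ u
  rw [Fin.sum_univ_three] at h ⊢
  unfold dYf
  rw [h]
  simp only [vb, Matrix.cons_val_zero, Matrix.cons_val_one, Matrix.cons_val, add_mul, mul_im,
    mul_re, add_im, add_re, ofReal_re, ofReal_im, I_re, I_im, one_re, one_im, zero_re, zero_im]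
  ring

theorem dph_lin (e : Fin 3 → ℂ) (ν ε : Fin 3 → ℝ) (μ : ℂ) (θ : ℝ) (u : Fin 3 → ℝ) (l : Fin 3) :
    dph e ν ε μ θ ((u 0 : ℂ) + (u 1 : ℂ) * I) (u 2) l =
      ∑ j, u j * dph e ν ε μ θ (vb j) (tb j) l := by
  unfold dph
  split_ifs with hl
  · exact dph3_lin μ θ u
  · unfold dphl
    rw [dYf_lin, Fin.sum_univ_three, Fin.sum_univ_three]
    simp only [← mul_div_assoc, ← add_div]
    congr 1
    simp only [vb, Matrix.cons_val_zero, Matrix.cons_val_one, Matrix.cons_val, add_mul, mul_im,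
      mul_re, add_im, add_re, ofReal_re, ofReal_im, I_re, I_im, one_re, one_im, zero_re, zero_im]
    ring

theorem bb_lin (e : Fin 3 → ℂ) (ν ε : Fin 3 → ℝ) (μ : ℂ) (θ : ℝ) (u : Fin 3 → ℝ) (l : Fin 3) :
    bb e ν ε μ θ ((u 0 : ℂ) + (u 1 : ℂ) * I) (u 2) l =
      ∑ j, (u j : ℂ) * bb e ν ε μ θ (vb j) (tb j) l := by
  unfold bb
  rw [dph_lin, Fin.sum_univ_three, Fin.sum_univ_three]
  simp only [vb, Matrix.cons_val_zero, Matrix.cons_val_one, Matrix.cons_val]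
  push_cast
  ring

/-- the derivative of the points -/
theorem hasDerivAt_MM {x : VV} (hS : Std x.2.1 x.2.2.1 x.2.2.2) {u : Fin 3 → ℝ} {s : ℝ}
    (hx : x + s • ins u ∈ UU) (k : Fin 3 → ℂ) :
    HasDerivAt (fun s : ℝ => sp k (MM (x + s • ins u)))
      (∑ j, u j * sp k (FF (x + s • ins u) j)) s := by
  have e1 : ∀ s : ℝ, mu (x + s • ins u) = mu x + (s : ℂ) * ((u 0 : ℂ) + (u 1 : ℂ) * I) := by
    intro s
    unfold mu ins
    simp only [Prod.fst_add, Prod.smul_fst, Pi.add_apply, Pi.smul_apply, smul_eq_mul]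
    push_cast
    ring
  have e2 : ∀ s : ℝ, th (x + s • ins u) = th x + s * u 2 := by
    intro s
    unfold th ins
    simp only [Prod.fst_add, Prod.smul_fst, Pi.add_apply, Pi.smul_apply, smul_eq_mul]
  have e3 : ∀ s : ℝ, (x + s • ins u).2 = x.2 := by
    intro s
    unfold ins
    simp
  have hd : Dom x.2.1 x.2.2.1 x.2.2.2 (mu x + (s : ℂ) * ((u 0 : ℂ) + (u 1 : ℂ) * I))
      (th x + s * u 2) := by
    have h1 := dom_of (x := x + s • ins u) (by rw [e3]; exact hS) hx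
    rw [e1, e2, e3] at h1
    exact h1
  have h2 := hasDerivAt_sp (k := k) (fun l => hasDerivAt_Mm hd l)
  have h3 : (fun s : ℝ => sp k (MM (x + s • ins u))) = fun s : ℝ =>
      sp k (Mm x.2.1 x.2.2.1 x.2.2.2 (mu x + (s : ℂ) * ((u 0 : ℂ) + (u 1 : ℂ) * I))
        (th x + s * u 2)) := by
    funext t
    congr 1
    funext l
    unfold MM
    rw [e1, e2, e3]
  rw [h3]
  refine h2.congr_deriv ?_
  have h4 : bb x.2.1 x.2.2.1 x.2.2.2 (mu x + (s : ℂ) * ((u 0 : ℂ) + (u 1 : ℂ) * I))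
      (th x + s * u 2) ((u 0 : ℂ) + (u 1 : ℂ) * I) (u 2) =
      ∑ j, u j • FF (x + s • ins u) j := by
    funext l
    rw [bb_lin, Finset.sum_apply]
    refine Finset.sum_congr rfl fun j _ => ?_
    rw [Pi.smul_apply, real_smul]
    unfold FF
    rw [e1, e2, e3]
  rw [h4]
  have h5 : sp k (∑ j, u j • FF (x + s • ins u) j) = ∑ j, sp k (u j • FF (x + s • ins u) j) :=
    map_sum (spL k) _ _
  rw [h5]
  refine Finset.sum_congr rfl fun j _ => ?_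
  rw [sp_smul]

theorem sp_smul_left (k m : Fin 3 → ℂ) (t : ℝ) : sp (t • k) m = t * sp k m := by
  unfold sp
  rw [Finset.mul_sum]
  refine Finset.sum_congr rfl fun l _ => ?_
  rw [Pi.smul_apply, real_smul, map_mul, conj_ofReal, ← re_ofReal_mul]
  congr 1
  ring

/-- the local averaging in the chart: one cube -/
theorem lav1 : ∃ C : ℝ, 1 ≤ C ∧ ∀ (x : VV) (d η δ ρ κ : ℝ) (k : Fin 3 → ℂ),
    Std x.2.1 x.2.2.1 x.2.2.2 → |x.1 0| ≤ d → |x.1 1| ≤ d → |x.1 2| ≤ 4 → 0 < d → 0 < η →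
    η ≤ 1 →
    (∀ l : Fin 3, l ≠ 2 → |x.2.2.1 l * Yf (x.2.1 2) (mu x) (th x)| ≤ d) →
    (∀ l m, l ≠ m → η ≤ ‖Xq x.2.1 x.2.2.1 x.2.2.2 (mu x) (th x) l -
      Xq x.2.1 x.2.2.1 x.2.2.2 (mu x) (th x) m‖) →
    k ≠ 0 → |sp k (MM x)| ≤ δ * ‖k‖ → (∀ j, |sp k (FF x j)| ≤ δ * ‖k‖) →
    C * (√d + δ) ≤ η ^ 20 → 0 ≤ ρ → C * ρ ≤ 1 → C * (‖k‖ * ρ ^ 2) ≤ κ →
    volume {u : Fin 3 → ℝ | (∀ i, |u i| ≤ ρ) ∧ ∀ j, |sp k (FF (x + ins u) j)| ≤ κ} ≤
      ENNReal.ofReal (C * (ρ * κ ^ 2) / (η ^ 20 * ‖k‖ ^ 2)) := by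
  obtain ⟨C1, hC1, hN⟩ := nondeg_near
  obtain ⟨C2, r, hC2, hr, hT⟩ := taylor_FF
  have hr' : 0 < 1 / r := by positivity
  refine ⟨C1 + 3 * C2 + 1 / r + 10 ^ 20, by linarith, ?_⟩
  intro x d η δ ρ κ k hS h0 h1 h2 hd hη hη1 hY hsep hk hM hG hsmall hρ hρ1 hκ
  have hk0 : 0 < ‖k‖ := norm_pos_iff.2 hk
  have sd0 : 0 < √d := Real.sqrt_pos.2 hd
  have sd2 : √d * √d = d := Real.mul_self_sqrt hd.le
  have hη20 : η ^ 20 ≤ 1 := pow_le_one₀ hη.le hη1
  have hη20' : 0 < η ^ 20 := by positivity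
  have hδ0 : 0 ≤ δ := by
    by_contra h
    have h3 := (abs_nonneg _).trans hM
    have h4 : δ * ‖k‖ < 0 := mul_neg_of_neg_of_pos (not_le.1 h) hk0
    linarith
  have hsum : 0 ≤ √d + δ := by linarith
  have hC1' : C1 * (√d + δ) ≤ η ^ 20 := by
    refine le_trans (mul_le_mul_of_nonneg_right ?_ hsum) hsmall
    linarith
  have hdd : √d ≤ 1 / 64 := by
    have h3 : (10 ^ 20 : ℝ) * (√d + δ) ≤ η ^ 20 := by
      refine le_trans (mul_le_mul_of_nonneg_right ?_ hsum) hsmall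
      linarith
    linarith
  have hd1 : d ≤ 1 / 64 := by nlinarith
  have hxK := KK_of hS h0 h1 h2 hd1 hY
  have hρr : ρ ≤ r := by
    have h3 : 1 / r * ρ ≤ 1 := by
      refine le_trans (mul_le_mul_of_nonneg_right ?_ hρ) hρ1
      linarith
    have h4 : 1 / r * ρ * r = ρ := by field_simp
    have h5 := mul_le_mul_of_nonneg_right h3 hr.le
    rw [h4] at h5
    linarith
  set k' : Fin 3 → ℂ := ‖k‖⁻¹ • k with hk'
  have hk'1 : ‖k'‖ = 1 := by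
    rw [hk', norm_smul, norm_inv, norm_norm, inv_mul_cancel₀ hk0.ne']
  have hsc : ∀ m, |sp k' m| = |sp k m| / ‖k‖ := by
    intro m
    rw [hk', sp_smul_left, abs_mul, abs_inv, abs_norm]
    field_simp
  have hM' : |sp k' (MM x)| ≤ δ := by rw [hsc, div_le_iff₀ hk0]; exact hM
  have hG' : ∀ j, |sp k' (FF x j)| ≤ δ := fun j => by rw [hsc, div_le_iff₀ hk0]; exact hG j
  obtain ⟨l, hl⟩ := hN x d η δ k' hS h0 h1 h2 hd hη hη1 hY hsep hk'1 hM' hG' hC1'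
  have hset : {u : Fin 3 → ℝ | (∀ i, |u i| ≤ ρ) ∧ ∀ j, |sp k (FF (x + ins u) j)| ≤ κ} =
      {u : Fin 3 → ℝ | (∀ i, |u i| ≤ ρ) ∧ ∀ j, |sp k' (FF (x + ins u) j)| ≤ κ / ‖k‖} := by
    ext u
    simp only [Set.mem_ofPred_eq]
    refine and_congr_right fun _ => forall_congr' fun j => ?_
    rw [hsc, div_le_div_iff_of_pos_right hk0]
  have hκ0 : 0 ≤ κ := by
    refine le_trans ?_ hκ
    positivity
  rw [hset]
  refine (lav0 (G := fun u j => sp k' (FF (x + ins u) j)) (g := fun j => sp k' (FF x j))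
    (S := HM k' x) hρ (by positivity) (by positivity : 0 < η ^ 20 / 10 ^ 18) ?_ l hl).trans ?_
  · intro u hu i
    rw [HM_mulVec]
    have hun : ‖u‖ ≤ ρ := (pi_norm_le_iff_of_nonneg hρ).2 fun i => by
      rw [Real.norm_eq_abs]; exact hu i
    obtain ⟨-, -, -, -, t5, -, -⟩ := hT x hxK (ins u) (by rw [norm_ins]; linarith)
    have e : sp k' (FF (x + ins u) i) - (sp k' (FF x i) + sp k' (fderiv ℝ FF x (ins u) i)) =
        sp k' ((FF (x + ins u) - FF x - fderiv ℝ FF x (ins u)) i) := by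
      rw [Pi.sub_apply, Pi.sub_apply, sp_sub, sp_sub]
      ring
    rw [e]
    refine (abs_sp_le _ _).trans ?_
    rw [hk'1, mul_one]
    have h3 := norm_le_pi_norm (FF (x + ins u) - FF x - fderiv ℝ FF x (ins u)) i
    rw [norm_ins] at t5
    have h4 : ‖u‖ ^ 2 ≤ ρ ^ 2 := pow_le_pow_left₀ (norm_nonneg _) hun 2
    rw [le_div_iff₀ hk0]
    have h5 : 3 * C2 * (‖k‖ * ρ ^ 2) ≤ κ := by
      refine le_trans (mul_le_mul_of_nonneg_right ?_ (by positivity)) hκ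
      linarith
    have h6 : C2 * ‖u‖ ^ 2 ≤ C2 * ρ ^ 2 := mul_le_mul_of_nonneg_left h4 (by linarith)
    have h7 : 3 * ‖(FF (x + ins u) - FF x - fderiv ℝ FF x (ins u)) i‖ ≤ 3 * (C2 * ρ ^ 2) := by
      linarith
    calc _ ≤ 3 * (C2 * ρ ^ 2) * ‖k‖ := mul_le_mul_of_nonneg_right h7 hk0.le
      _ = 3 * C2 * (‖k‖ * ρ ^ 2) := by ring
      _ ≤ κ := h5
  · apply ENNReal.ofReal_le_ofReal
    have e : 2 * ρ * ((4 * (κ / ‖k‖)) ^ 2 / (η ^ 20 / 10 ^ 18)) =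
        (32 * 10 ^ 18) * (ρ * κ ^ 2) / (η ^ 20 * ‖k‖ ^ 2) := by
      field_simp
      ring
    rw [e]
    refine div_le_div_of_nonneg_right ?_ (by positivity)
    refine mul_le_mul_of_nonneg_right ?_ (by positivity)
    linarith

/-- the values on the cube -/
theorem incl1 : ∃ C : ℝ, 1 ≤ C ∧ ∀ (x : VV) (ρ : ℝ) (k : Fin 3 → ℂ), x ∈ KK → 0 ≤ ρ → C * ρ ≤ 1 →
    ∀ u : Fin 3 → ℝ, (∀ i, |u i| ≤ ρ) → x + ins u ∈ UU ∧
      (∀ j, |sp k (FF (x + ins u) j) - sp k (FF x j)| ≤ C * (‖k‖ * ρ)) ∧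
      (∀ κ : ℝ, (∀ j, |sp k (FF x j)| ≤ κ) →
        |sp k (MM (x + ins u)) - sp k (MM x)| ≤ 3 * ρ * (κ + C * (‖k‖ * ρ))) ∧
      ‖MM (x + ins u) - MM x‖ ≤ C * ρ := by
  obtain ⟨C2, r, hC2, hr, hT⟩ := taylor_FF
  have hr' : 0 < 1 / r := by positivity
  refine ⟨3 * C2 + 1 / r, by linarith, ?_⟩
  intro x ρ k hx hρ hρ1 u hu
  have hρr : ρ ≤ r := by
    have h3 : 1 / r * ρ ≤ 1 := by
      refine le_trans (mul_le_mul_of_nonneg_right ?_ hρ) hρ1
      linarith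
    have h4 : 1 / r * ρ * r = ρ := by field_simp
    have h5 := mul_le_mul_of_nonneg_right h3 hr.le
    rw [h4] at h5
    linarith
  have hun : ‖u‖ ≤ ρ := (pi_norm_le_iff_of_nonneg hρ).2 fun i => by
    rw [Real.norm_eq_abs]; exact hu i
  have hFv : ∀ s : ℝ, 0 ≤ s → s ≤ 1 → x + s • ins u ∈ UU ∧
      ∀ j, |sp k (FF (x + s • ins u) j) - sp k (FF x j)| ≤ 3 * C2 * (‖k‖ * ρ) := by
    intro s hs0 hs1
    have h3 : ‖s • ins u‖ ≤ ρ := by
      rw [norm_smul, norm_ins, Real.norm_eq_abs, abs_of_nonneg hs0]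
      nlinarith [norm_nonneg u]
    obtain ⟨t1, -, -, t4, -, -, -⟩ := hT x hx (s • ins u) (h3.trans hρr)
    refine ⟨t1, fun j => ?_⟩
    rw [← sp_sub, ← Pi.sub_apply]
    refine (abs_sp_le _ _).trans ?_
    have h4 := norm_le_pi_norm (FF (x + s • ins u) - FF x) j
    have h5 : ‖(FF (x + s • ins u) - FF x) j‖ ≤ C2 * ρ := by
      refine h4.trans (t4.trans ?_)
      exact mul_le_mul_of_nonneg_left h3 (by linarith)
    calc 3 * ‖k‖ * ‖(FF (x + s • ins u) - FF x) j‖ ≤ 3 * ‖k‖ * (C2 * ρ) :=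
          mul_le_mul_of_nonneg_left h5 (by positivity)
      _ = 3 * C2 * (‖k‖ * ρ) := by ring
  have hw : 3 * C2 * (‖k‖ * ρ) ≤ (3 * C2 + 1 / r) * (‖k‖ * ρ) := by
    have : 0 ≤ 1 / r * (‖k‖ * ρ) := by positivity
    linarith
  have h1 := hFv 1 zero_le_one le_rfl
  rw [one_smul] at h1
  refine ⟨h1.1, fun j => (h1.2 j).trans hw, ?_, ?_⟩
  · intro κ hκ
    -- mean value inequality
    have hd : ∀ s ∈ Set.Icc (0 : ℝ) 1, HasDerivWithinAt (fun s : ℝ => sp k (MM (x + s • ins u)))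
        (∑ j, u j * sp k (FF (x + s • ins u) j)) (Set.Icc 0 1) s := fun s hs =>
      (hasDerivAt_MM hx.1 (hFv s hs.1 hs.2).1 k).hasDerivWithinAt
    have hb : ∀ s ∈ Set.Icc (0 : ℝ) 1, ‖∑ j, u j * sp k (FF (x + s • ins u) j)‖ ≤
        3 * ρ * (κ + (3 * C2 + 1 / r) * (‖k‖ * ρ)) := by
      intro s hs
      have h3 : ∀ j ∈ (Finset.univ : Finset (Fin 3)), ‖u j * sp k (FF (x + s • ins u) j)‖ ≤
          ρ * (κ + (3 * C2 + 1 / r) * (‖k‖ * ρ)) := by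
        intro j _
        rw [norm_mul, Real.norm_eq_abs, Real.norm_eq_abs]
        have h4 := (hFv s hs.1 hs.2).2 j
        have h5 := hκ j
        have h6 : |sp k (FF (x + s • ins u) j)| ≤ κ + (3 * C2 + 1 / r) * (‖k‖ * ρ) := by
          have h7 := abs_sub_abs_le_abs_sub (sp k (FF (x + s • ins u) j)) (sp k (FF x j))
          linarith
        exact mul_le_mul (hu j) h6 (abs_nonneg _) hρ
      refine (norm_sum_le_of_le _ h3).trans ?_
      rw [Finset.sum_const, Finset.card_univ, Fintype.card_fin, nsmul_eq_mul]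
      push_cast
      linarith
    have hmv := (convex_Icc (0 : ℝ) 1).norm_image_sub_le_of_norm_hasDerivWithin_le hd hb
      (Set.left_mem_Icc.2 zero_le_one) (Set.right_mem_Icc.2 zero_le_one)
    rw [sub_zero, norm_one, mul_one, one_smul, zero_smul, add_zero, Real.norm_eq_abs] at hmv
    exact hmv
  · obtain ⟨-, -, -, -, -, -, t7⟩ := hT x hx (ins u) (by rw [norm_ins]; linarith)
    refine t7.trans ?_
    rw [norm_ins]
    have h8 : C2 * ‖u‖ ≤ C2 * ρ := mul_le_mul_of_nonneg_left hun (by linarith)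
    have h9 : 0 ≤ 1 / r * ρ := by positivity
    have h10 : 0 ≤ C2 * ρ := by positivity
    linarith

end Pool.Agent.F5.H58
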