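import Pool.Agent.Helper58_F5.Tan
import Pool.Agent.F5H.StmtsC

/-!
# LINK, part A: the tangent vectors in the frame
-/

set_option autoImplicit false

namespace Pool.Agent.F5.H58

open Complex ComplexConjugate MeasureTheory Pool.Agent.F5H.BC
open Pool.Agent.Helper68_F5 (bf)

section

variable {T : ℝ} {H : Fin 3 → ℂ} {ep : Fin 3 → ℝ} {tA : ℝ}

theorem unit_dec {w v : ℂ} (hw : ‖w‖ = 1) :
    (((conj w * v).re : ℂ) + ((conj w * v).im : ℂ) * I) * w = v := by
  rw [re_add_im]
  have h := unit_mul_conj hw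
  calc conj w * v * w = (w * conj w) * v := by ring
    _ = v := by rw [h, one_mul]

theorem tv_unique {B : ℝ × ℝ × ℝ} {y : ℝ} {v : Fin 3 → ℂ}
    (hn : ∀ l : Fin 3, l ≠ 2 → nG T H ep tA l ≠ 0) (hw : ∀ l, ‖wG T H ep tA l‖ = 1)
    (hr : ∀ l, rh T (H l) ≠ 0)
    (h1 : ∀ l, bf B (mG T H ep tA l) (mG T H ep tA l) + bf B (H l) (H l) / 4 =
      -(2 * (conj (mG T H ep tA l) * v l).re))
    (h2 : ∀ l, (conj (v l) * H l).re + bf B (mG T H ep tA l) (H l) =
      (conj (v 2) * H 2).re + bf B (mG T H ep tA 2) (H 2))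
    (h3 : y = (conj (wG T H ep tA 2) * v 2).im) (l : Fin 3) :
    tv T H ep tA B y l = v l := by
  have ha : ∀ l, muG T H ep tA B l = (conj (wG T H ep tA l) * v l).re := by
    intro l
    unfold muG
    rw [h1 l]
    have e1 : (conj (mG T H ep tA l) * v l).re =
        rh T (H l) * (conj (wG T H ep tA l) * v l).re := by
      unfold mG
      rw [map_mul, conj_ofReal, mul_assoc, re_ofReal_mul]
    rw [e1]
    have := hr l
    field_simp
  have hvH : ∀ l, (conj (v l) * H l).re = (conj (wG T H ep tA l) * v l).re * tG T H ep tA l +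
      (conj (wG T H ep tA l) * v l).im * nG T H ep tA l := by
    intro l
    have e1 := unit_mul_conj (hw l)
    have e2 : conj (v l) * H l = conj (conj (wG T H ep tA l) * v l) *
        (conj (wG T H ep tA l) * H l) := by
      rw [map_mul, conj_conj]
      calc conj (v l) * H l = (wG T H ep tA l * conj (wG T H ep tA l)) * (conj (v l) * H l) := by
            rw [e1, one_mul]
        _ = _ := by ring
    rw [e2, mul_re, conj_re, conj_im]
    unfold tG nG
    ring
  have hG : GG T H ep tA B y = (conj (v 2) * H 2).re + bf B (mG T H ep tA 2) (H 2) := by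
    unfold GG
    rw [ha, h3, hvH]
  have hy : yG T H ep tA B y l = (conj (wG T H ep tA l) * v l).im := by
    unfold yG
    by_cases hl : l = 2
    · rw [if_pos hl, h3, hl]
    · rw [if_neg hl, hG, ← h2 l, hvH, ha]
      have := hn l hl
      field_simp
      ring
  unfold tv
  rw [ha, hy]
  exact unit_dec (hw l)

theorem bf_dec (B : ℝ × ℝ × ℝ) (z w : ℂ) : bf B z w = B.1 * bf (1, 0, 0) z w +
    B.2.1 * bf (0, 1, 0) z w + B.2.2 * bf (0, 0, 1) z w := by
  simp only [bf]; ring

theorem muG_dec (B : ℝ × ℝ × ℝ) (l : Fin 3) : muG T H ep tA B l =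
    B.1 * muG T H ep tA (1, 0, 0) l + B.2.1 * muG T H ep tA (0, 1, 0) l +
      B.2.2 * muG T H ep tA (0, 0, 1) l := by
  unfold muG
  rw [bf_dec B (mG T H ep tA l), bf_dec B (H l)]
  ring

theorem GG_dec (B : ℝ × ℝ × ℝ) (y : ℝ) : GG T H ep tA B y =
    B.1 * GG T H ep tA (1, 0, 0) 0 + B.2.1 * GG T H ep tA (0, 1, 0) 0 +
      B.2.2 * GG T H ep tA (0, 0, 1) 0 + y * nG T H ep tA 2 := by
  unfold GG
  rw [bf_dec B, muG_dec B]
  ring

theorem muG_zero (l : Fin 3) : muG T H ep tA 0 l = 0 := by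
  unfold muG
  have : ∀ z w : ℂ, bf 0 z w = 0 := by
    intro z w
    simp [bf]
  rw [this, this]
  simp

theorem GG_zero : GG T H ep tA 0 1 = nG T H ep tA 2 := by
  unfold GG
  have : ∀ z w : ℂ, bf 0 z w = 0 := by
    intro z w
    simp [bf]
  rw [muG_zero, this]
  ring

theorem yG_dec (B : ℝ × ℝ × ℝ) (y : ℝ) (l : Fin 3) : yG T H ep tA B y l =
    B.1 * yG T H ep tA (1, 0, 0) 0 l + B.2.1 * yG T H ep tA (0, 1, 0) 0 l +
      B.2.2 * yG T H ep tA (0, 0, 1) 0 l + y * yG T H ep tA 0 1 l := by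
  unfold yG
  by_cases hl : l = 2
  · simp only [if_pos hl]
    ring
  · simp only [if_neg hl]
    have h0 : ∀ z w : ℂ, bf 0 z w = 0 := by
      intro z w
      simp [bf]
    rw [GG_dec B, GG_zero, muG_zero, h0, bf_dec B, muG_dec B]
    ring

theorem tv_dec (B : ℝ × ℝ × ℝ) (y : ℝ) : tv T H ep tA B y =
    B.1 • tv T H ep tA (1, 0, 0) 0 + B.2.1 • tv T H ep tA (0, 1, 0) 0 +
      B.2.2 • tv T H ep tA (0, 0, 1) 0 + y • tv T H ep tA 0 1 := by
  funext l
  simp only [Pi.add_apply, Pi.smul_apply, real_smul]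
  unfold tv
  rw [muG_dec B, yG_dec B, muG_zero]
  push_cast
  ring

/-- linearity of `k` on the tangent vectors -/
theorem sp_tv_dec (K : Fin 3 → ℂ) (B : ℝ × ℝ × ℝ) (y : ℝ) : sp K (tv T H ep tA B y) =
    B.1 * sp K (tv T H ep tA (1, 0, 0) 0) + B.2.1 * sp K (tv T H ep tA (0, 1, 0) 0) +
      B.2.2 * sp K (tv T H ep tA (0, 0, 1) 0) + y * sp K (tv T H ep tA 0 1) := by
  rw [tv_dec, sp_add, sp_add, sp_add, sp_smul, sp_smul, sp_smul, sp_smul]

end

/-- the form of the direction `v` of the chart -/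
noncomputable def Bv (mu om v : ℂ) : ℝ × ℝ × ℝ :=
  (2 / (1 - normSq mu) * ((v * om ^ 2).re - (v * conj mu).re),
    2 / (1 - normSq mu) * (v * om ^ 2).im,
    2 / (1 - normSq mu) * (-(v * om ^ 2).re - (v * conj mu).re))

theorem Bv_bf (mu om v z w : ℂ) : bf (Bv mu om v) z w =
    2 / (1 - normSq mu) * ((v * om ^ 2 * conj (z * w)).re - (v * conj mu).re * (conj z * w).re) := by
  unfold Bv bf
  simp only [mul_re, mul_im, conj_re, conj_im]
  ring

/-- the form in the frame -/
theorem Bv_eq {mu om v x y : ℂ} {s : ℝ} (hom : ‖om‖ = 1) (hμ : normSq mu ≠ 1) :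
    bf (Bv mu om v) (om * s * (x + mu * conj x)) (om * s * (y + mu * conj y)) =
      s ^ 2 * ((conj (x + mu * conj x) * (v * conj y)).re +
        (conj (y + mu * conj y) * (v * conj x)).re) := by
  rw [Bv_bf]
  have h1 := unit_mul_conj hom
  have hne : 1 - normSq mu ≠ 0 := fun h => hμ (by linarith)
  have e1 : v * om ^ 2 * conj (om * s * (x + mu * conj x) * (om * s * (y + mu * conj y))) =
      ((s ^ 2 : ℝ) : ℂ) * (v * conj ((x + mu * conj x) * (y + mu * conj y))) := by
    simp only [map_mul, conj_ofReal]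
    push_cast
    calc _ = (om * conj om) ^ 2 * ((s : ℂ) ^ 2 * (v * (conj (x + mu * conj x) *
        conj (y + mu * conj y)))) := by ring
      _ = _ := by rw [h1]; ring
  have e2 : conj (om * s * (x + mu * conj x)) * (om * s * (y + mu * conj y)) =
      ((s ^ 2 : ℝ) : ℂ) * (conj (x + mu * conj x) * (y + mu * conj y)) := by
    simp only [map_mul, conj_ofReal]
    push_cast
    calc _ = (om * conj om) * ((s : ℂ) ^ 2 * (conj (x + mu * conj x) * (y + mu * conj y))) := by
          ring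
      _ = _ := by rw [h1]; ring
  rw [e1, e2, re_ofReal_mul, re_ofReal_mul]
  have e3 : (v * conj ((x + mu * conj x) * (y + mu * conj y))).re - (v * conj mu).re *
      (conj (x + mu * conj x) * (y + mu * conj y)).re = (1 - normSq mu) / 2 *
      ((conj (x + mu * conj x) * (v * conj y)).re +
        (conj (y + mu * conj y) * (v * conj x)).re) := by
    rw [normSq_apply]
    simp only [mul_re, mul_im, conj_re, conj_im, add_re, add_im]
    ring
  have e4 : s ^ 2 * (v * conj ((x + mu * conj x) * (y + mu * conj y))).re - (v * conj mu).re *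
      (s ^ 2 * (conj (x + mu * conj x) * (y + mu * conj y)).re) =
      s ^ 2 * ((v * conj ((x + mu * conj x) * (y + mu * conj y))).re - (v * conj mu).re *
      (conj (x + mu * conj x) * (y + mu * conj y)).re) := by ring
  rw [e4, e3]
  field_simp

end Pool.Agent.F5.H58
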