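import Pool.Agent.Helper58_F5.LinkA

/-!
# LINK, part B: the dictionary between the frame and the chart
-/

set_option autoImplicit false

namespace Pool.Agent.F5.H58

open Complex ComplexConjugate MeasureTheory Pool.Agent.F5H.BC
open Pool.Agent.Helper68_F5 (bf)

/-- `H`, `tA` in the frame of `A` and `q` in the chart are the same point -/
structure Fr (T : ℝ) (H : Fin 3 → ℂ) (ep : Fin 3 → ℝ) (tA : ℝ) (q : XX) (ω : ℂ) (lam V : ℝ) :
    Prop where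
  hω : ‖ω‖ = 1
  hlam : 0 < lam
  hT : 0 < T
  hV : 0 < V
  hβ : ∀ l, 0 < q.2.2 l
  hH : ∀ l, H l = ω * ((√lam * (q.2.2 l * V) : ℝ) : ℂ) * Eh (q.1.2.1 l) (mu q.1)
  hν : ∀ l, q.1.2.2.1 l * q.2.2 l = q.2.2 2
  hε : ∀ l, q.1.2.2.2 l ^ 2 = 1
  hep : ep = q.1.2.2.2
  hz : q.2.1 * (4 * T ^ 2) = V ^ 2 * lam
  hq : q ∈ UX
  hμ : normSq (mu q.1) < 1
  ht : cexp ((tA : ℂ) * I) = ω * w3 (mu q.1) (th q.1)

section

variable {T : ℝ} {H : Fin 3 → ℂ} {ep : Fin 3 → ℝ} {tA : ℝ} {q : XX} {ω : ℂ} {lam V : ℝ}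

theorem Fr.S0 (F : Fr T H ep tA q ω lam V) (l : Fin 3) : 0 < √lam * (q.2.2 l * V) :=
  mul_pos (Real.sqrt_pos.2 F.hlam) (mul_pos (F.hβ l) F.hV)

theorem Fr.ν2 (F : Fr T H ep tA q ω lam V) : q.1.2.2.1 2 = 1 := by
  have := F.hν 2
  have h := (F.hβ 2).ne'
  field_simp at this
  exact this

theorem Fr.norm_H (F : Fr T H ep tA q ω lam V) (l : Fin 3) :
    ‖H l‖ = √lam * (q.2.2 l * V) * ‖Eh (q.1.2.1 l) (mu q.1)‖ := by
  rw [F.hH l, norm_mul, norm_mul, F.hω, one_mul, norm_real, Real.norm_eq_abs,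
    abs_of_pos (F.S0 l)]

theorem Fr.sq_H (F : Fr T H ep tA q ω lam V) (l : Fin 3) :
    ‖H l‖ ^ 2 = bz q l * (4 * T ^ 2) := by
  rw [F.norm_H l]
  unfold bz
  rw [mul_pow, mul_pow, Real.sq_sqrt F.hlam.le, normSq_eq_norm_sq]
  have := F.hz
  linear_combination (-(q.2.2 l ^ 2 * ‖Eh (q.1.2.1 l) (mu q.1)‖ ^ 2)) * this

theorem Fr.rh_eq (F : Fr T H ep tA q ω lam V) (l : Fin 3) :
    rh T (H l) = T * √(1 - bz q l) := by
  unfold rh
  have h1 : T ^ 2 - ‖H l‖ ^ 2 / 4 = T ^ 2 * (1 - bz q l) := by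
    rw [F.sq_H l]; ring
  rw [h1, Real.sqrt_mul (sq_nonneg T), Real.sqrt_sq F.hT.le]

theorem Fr.rh_pos (F : Fr T H ep tA q ω lam V) (l : Fin 3) : 0 < rh T (H l) := by
  rw [F.rh_eq l]
  exact mul_pos F.hT (Real.sqrt_pos.2 (by linarith [F.hq.1 l]))

theorem Fr.Y_eq (F : Fr T H ep tA q ω lam V) :
    (conj (cexp ((tA : ℂ) * I)) * H 2).re =
      √lam * (q.2.2 2 * V) * Yf (q.1.2.1 2) (mu q.1) (th q.1) := by
  rw [F.ht, F.hH 2]
  have h1 := unit_mul_conj F.hω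
  have h2 : conj (ω * w3 (mu q.1) (th q.1)) *
      (ω * ((√lam * (q.2.2 2 * V) : ℝ) : ℂ) * Eh (q.1.2.1 2) (mu q.1)) =
      ((√lam * (q.2.2 2 * V) : ℝ) : ℂ) *
        (conj (w3 (mu q.1) (th q.1)) * Eh (q.1.2.1 2) (mu q.1)) := by
    rw [map_mul]
    calc _ = (ω * conj ω) * (((√lam * (q.2.2 2 * V) : ℝ) : ℂ) *
        (conj (w3 (mu q.1) (th q.1)) * Eh (q.1.2.1 2) (mu q.1))) := by ring
      _ = _ := by rw [h1, one_mul]
  rw [h2, re_ofReal_mul]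
  rfl

theorem Fr.c_eq (F : Fr T H ep tA q ω lam V) {l : Fin 3} (hl : l ≠ 2) :
    rh T (H 2) / rh T (H l) * (conj (cexp ((tA : ℂ) * I)) * H 2).re / ‖H l‖ =
      cf (q.1.2.1 l) (q.1.2.1 2) (q.1.2.2.1 l * sl q l) (mu q.1) (th q.1) := by
  rw [F.Y_eq, F.norm_H l, F.rh_eq 2, F.rh_eq l]
  have h0 : ‖Eh (q.1.2.1 l) (mu q.1)‖ ≠ 0 := norm_ne_zero_iff.2 (F.hq.2 l hl).1
  have h1 : √(1 - bz q l) ≠ 0 := (Real.sqrt_pos.2 (by linarith [F.hq.1 l])).ne'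
  have h2 : √lam ≠ 0 := (Real.sqrt_pos.2 F.hlam).ne'
  have h3 := F.hT.ne'
  have h4 := F.hV.ne'
  have h5 := (F.hβ l).ne'
  unfold cf sl
  rw [Real.sqrt_div (by linarith [F.hq.1 2])]
  have h6 := F.hν l
  rw [← h6]
  field_simp

/-- L1 -/
theorem Fr.wG_eq (F : Fr T H ep tA q ω lam V) (l : Fin 3) :
    wG T H ep tA l = ω * wp q l := by
  by_cases hl : l = 2
  · subst hl
    unfold wG
    rw [if_pos rfl, F.ht]
    rfl
  · have h0 : Eh (q.1.2.1 l) (mu q.1) ≠ 0 := (F.hq.2 l hl).1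
    have h1 : (‖Eh (q.1.2.1 l) (mu q.1)‖ : ℂ) ≠ 0 := by exact_mod_cast norm_ne_zero_iff.2 h0
    have h2 : H l / (‖H l‖ : ℂ) = ω * (Eh (q.1.2.1 l) (mu q.1) /
        (‖Eh (q.1.2.1 l) (mu q.1)‖ : ℂ)) := by
      have h3 : ((√lam * (q.2.2 l * V) : ℝ) : ℂ) ≠ 0 := by exact_mod_cast (F.S0 l).ne'
      rw [F.norm_H l, F.hH l, ofReal_mul (√lam * (q.2.2 l * V))]
      generalize ((√lam * (q.2.2 l * V) : ℝ) : ℂ) = S at h3 ⊢
      field_simp
    have h4 : wp q l = wl (q.1.2.1 l) (q.1.2.1 2) (q.1.2.2.1 l * sl q l) (q.1.2.2.2 l) (mu q.1)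
        (th q.1) := by
      unfold wp ww
      rw [if_neg hl]
      rfl
    unfold wG
    rw [if_neg hl, F.c_eq hl, h2, h4, F.hep]
    unfold wl
    ring

theorem Fr.norm_wG (F : Fr T H ep tA q ω lam V) (l : Fin 3) : ‖wG T H ep tA l‖ = 1 := by
  rw [F.wG_eq l, norm_mul, F.hω, one_mul, norm_wp F.hq F.hε]

/-- L3 -/
theorem Fr.mG_eq (F : Fr T H ep tA q ω lam V) (l : Fin 3) :
    mG T H ep tA l = ω * (T : ℂ) * (NM q l + mu q.1 * conj (NM q l)) := by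
  have h1 : NM q l + mu q.1 * conj (NM q l) = Zn q l := rfl
  unfold mG
  rw [h1, F.wG_eq l, F.rh_eq l, Zn_eq F.hμ]
  push_cast
  ring

theorem Fr.nG_ne (F : Fr T H ep tA q ω lam V) {l : Fin 3} (hl : l ≠ 2) :
    nG T H ep tA l ≠ 0 := by
  have h1 : conj (wG T H ep tA l) * H l = ((√lam * (q.2.2 l * V) : ℝ) : ℂ) *
      (conj (wp q l) * Eh (q.1.2.1 l) (mu q.1)) := by
    rw [F.wG_eq l, F.hH l, map_mul]
    have h2 := unit_mul_conj F.hω
    calc _ = (ω * conj ω) * (((√lam * (q.2.2 l * V) : ℝ) : ℂ) *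
        (conj (wp q l) * Eh (q.1.2.1 l) (mu q.1))) := by ring
      _ = _ := by rw [h2, one_mul]
  unfold nG
  rw [h1, im_ofReal_mul]
  refine mul_ne_zero (F.S0 l).ne' ?_
  have h4 : wp q l = wl (q.1.2.1 l) (q.1.2.1 2) (q.1.2.2.1 l * sl q l) (q.1.2.2.2 l) (mu q.1)
      (th q.1) := by
    unfold wp ww
    rw [if_neg hl]
    rfl
  rw [h4]
  obtain ⟨a, b, c⟩ := F.hq.2 l hl
  exact im_ne (x := Ps q) (l := l) a b c

theorem bf_smul_left (B : ℝ × ℝ × ℝ) (t : ℝ) (z w : ℂ) : bf B ((t : ℂ) * z) w = t * bf B z w := by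
  simp only [bf, mul_re, mul_im, ofReal_re, ofReal_im]
  ring

theorem bf_smul_right (B : ℝ × ℝ × ℝ) (t : ℝ) (z w : ℂ) : bf B z ((t : ℂ) * w) = t * bf B z w := by
  simp only [bf, mul_re, mul_im, ofReal_re, ofReal_im]
  ring

/-- the form in the frame, two scales -/
theorem Bv_eq' {mu ω v x y : ℂ} {s t : ℝ} (hω : ‖ω‖ = 1) (hμ : normSq mu ≠ 1) :
    bf (Bv mu ω v) (ω * (s : ℂ) * (x + mu * conj x)) (ω * (t : ℂ) * (y + mu * conj y)) =
      s * t * ((conj (x + mu * conj x) * (v * conj y)).re +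
        (conj (y + mu * conj y) * (v * conj x)).re) := by
  have h := Bv_eq (mu := mu) (om := ω) (v := v) (x := x) (y := y) (s := 1) hω hμ
  have e1 : ω * (s : ℂ) * (x + mu * conj x) = (s : ℂ) * (ω * ((1 : ℝ) : ℂ) * (x + mu * conj x)) := by
    push_cast; ring
  have e2 : ω * (t : ℂ) * (y + mu * conj y) = (t : ℂ) * (ω * ((1 : ℝ) : ℂ) * (y + mu * conj y)) := by
    push_cast; ring
  rw [e1, e2, bf_smul_left, bf_smul_right, h]
  ring

/-- the tangent vector of the direction `(u, ζ)` in the frame -/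
noncomputable def Wv (T : ℝ) (ω : ℂ) (q : XX) (u : Fin 3 → ℝ) (ζ : ℝ) (l : Fin 3) : ℂ :=
  ω * (T : ℂ) * (dN q u ζ l + mu q.1 * conj (dN q u ζ l))

theorem Fr.cW (F : Fr T H ep tA q ω lam V) (a b : ℂ) :
    conj (ω * (T : ℂ) * a) * (ω * (T : ℂ) * b) = ((T ^ 2 : ℝ) : ℂ) * (conj a * b) := by
  have h1 := unit_mul_conj F.hω
  rw [map_mul, map_mul, conj_ofReal]
  push_cast
  calc _ = (ω * conj ω) * ((T : ℂ) ^ 2 * (conj a * b)) := by ring
    _ = _ := by rw [h1, one_mul]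

theorem Fr.cH (F : Fr T H ep tA q ω lam V) (a : ℂ) (l : Fin 3) :
    conj (ω * (T : ℂ) * a) * H l = ((T * (√lam * (q.2.2 l * V)) : ℝ) : ℂ) *
      (conj a * Eh (q.1.2.1 l) (mu q.1)) := by
  have h1 := unit_mul_conj F.hω
  rw [F.hH l, map_mul, map_mul, conj_ofReal]
  push_cast
  calc _ = (ω * conj ω) * ((T : ℂ) * ((√lam : ℂ) * ((q.2.2 l : ℂ) * (V : ℂ))) *
      (conj a * Eh (q.1.2.1 l) (mu q.1))) := by ring
    _ = _ := by rw [h1, one_mul]

/-- L4: the directions of the chart -/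
theorem Fr.tv_u (F : Fr T H ep tA q ω lam V) (u : Fin 3 → ℝ) (l : Fin 3) :
    tv T H ep tA (Bv (mu q.1) ω ((u 0 : ℂ) + (u 1 : ℂ) * I))
      (conj (wG T H ep tA 2) * Wv T ω q u 0 2).im l = Wv T ω q u 0 l := by
  have hμ1 : normSq (mu q.1) ≠ 1 := F.hμ.ne
  set v : ℂ := (u 0 : ℂ) + (u 1 : ℂ) * I with hv
  refine tv_unique (fun l hl => F.nG_ne hl) F.norm_wG (fun l => (F.rh_pos l).ne') (fun l => ?_)
    (fun l => ?_) rfl l
  · have h1 := did1 u 0 F.hq F.hε F.hμ l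
    rw [← hv] at h1
    have e1 : bf (Bv (mu q.1) ω v) (mG T H ep tA l) (mG T H ep tA l) =
        T * T * ((conj (Zn q l) * (v * conj (NM q l))).re +
          (conj (Zn q l) * (v * conj (NM q l))).re) := by
      rw [F.mG_eq l]
      exact Bv_eq' F.hω hμ1
    have e2 : bf (Bv (mu q.1) ω v) (H l) (H l) = √lam * (q.2.2 l * V) * (√lam * (q.2.2 l * V)) *
        ((conj (Eh (q.1.2.1 l) (mu q.1)) * (v * conj (q.1.2.1 l))).re +
          (conj (Eh (q.1.2.1 l) (mu q.1)) * (v * conj (q.1.2.1 l))).re) := by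
      rw [F.hH l]
      exact Bv_eq' F.hω hμ1
    have e3 : (conj (mG T H ep tA l) * Wv T ω q u 0 l).re =
        T ^ 2 * (conj (Zn q l) * (dN q u 0 l + mu q.1 * conj (dN q u 0 l))).re := by
      have h2 : mG T H ep tA l = ω * (T : ℂ) * Zn q l := F.mG_eq l
      rw [h2]
      unfold Wv
      rw [F.cW, re_ofReal_mul]
    have e4 : (conj (Zn q l) * dZ q u 0 l).re =
        (conj (Zn q l) * (dN q u 0 l + mu q.1 * conj (dN q u 0 l))).re +
          (conj (Zn q l) * (v * conj (NM q l))).re := by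
      unfold dZ
      rw [← add_re, hv]
      congr 1
      ring
    have e5 : √lam * √lam = lam := Real.mul_self_sqrt F.hlam.le
    have e6 := F.hz
    rw [e1, e2, e3]
    rw [e4] at h1
    set a := (conj (Zn q l) * (dN q u 0 l + mu q.1 * conj (dN q u 0 l))).re
    set b := (conj (Zn q l) * (v * conj (NM q l))).re
    set c := (conj (Eh (q.1.2.1 l) (mu q.1)) * (v * conj (q.1.2.1 l))).re
    linear_combination T ^ 2 * h1 - (q.2.2 l ^ 2 * c / 2) * e6 +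
      (q.2.2 l ^ 2 * V ^ 2 * c / 2) * e5
  · have h1 := did2 u 0 F.hq F.hμ F.ν2 l
    rw [← hv] at h1
    have e1 : ∀ m, bf (Bv (mu q.1) ω v) (mG T H ep tA m) (H m) =
        T * (√lam * (q.2.2 m * V)) * ((conj (Zn q m) * (v * conj (q.1.2.1 m))).re +
          (conj (Eh (q.1.2.1 m) (mu q.1)) * (v * conj (NM q m))).re) := by
      intro m
      rw [F.mG_eq m, F.hH m]
      exact Bv_eq' F.hω hμ1
    have e2 : ∀ m, (conj (Wv T ω q u 0 m) * H m).re = T * (√lam * (q.2.2 m * V)) *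
        (conj (dN q u 0 m + mu q.1 * conj (dN q u 0 m)) * Eh (q.1.2.1 m) (mu q.1)).re := by
      intro m
      unfold Wv
      rw [F.cH, re_ofReal_mul]
    have e3 : ∀ m, (conj (dZ q u 0 m) * Eh (q.1.2.1 m) (mu q.1)).re =
        (conj (dN q u 0 m + mu q.1 * conj (dN q u 0 m)) * Eh (q.1.2.1 m) (mu q.1)).re +
          (conj (Eh (q.1.2.1 m) (mu q.1)) * (v * conj (NM q m))).re := by
      intro m
      unfold dZ
      rw [← hv]
      simp only [mul_re, conj_re, conj_im, add_re, add_im, map_add, map_mul, mul_im]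
      ring
    rw [e1 l, e1 2, e2 l, e2 2]
    rw [e3 l, e3 2] at h1
    have e4 := F.hν l
    set a := (conj (dN q u 0 l + mu q.1 * conj (dN q u 0 l)) * Eh (q.1.2.1 l) (mu q.1)).re
    set a2 := (conj (dN q u 0 2 + mu q.1 * conj (dN q u 0 2)) * Eh (q.1.2.1 2) (mu q.1)).re
    set b := (conj (Eh (q.1.2.1 l) (mu q.1)) * (v * conj (NM q l))).re
    set b2 := (conj (Eh (q.1.2.1 2) (mu q.1)) * (v * conj (NM q 2))).re
    set c := (conj (Zn q l) * (v * conj (q.1.2.1 l))).re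
    set c2 := (conj (Zn q 2) * (v * conj (q.1.2.1 2))).re
    linear_combination (T * (√lam * (q.2.2 l * V))) * h1 +
      (T * √lam * V * (a2 + b2 + c2)) * e4

end

end Pool.Agent.F5.H58
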