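import Pool.Agent.Helper58_F5.LinkB

/-!
# LINK, part C: the direction of the angle, the radial direction, duality
-/

set_option autoImplicit false

namespace Pool.Agent.F5.H58

open Complex ComplexConjugate MeasureTheory Pool.Agent.F5H.BC
open Pool.Agent.Helper68_F5 (bf)

section

variable {q : XX} (u : Fin 3 → ℝ) (ζ : ℝ)

theorem line_th (t : ℝ) : th (q + t • dr' u ζ).1 = th q.1 + t * u 2 := by
  unfold th dr' ins
  simp only [Prod.fst_add, Prod.smul_fst, Pi.add_apply, Pi.smul_apply, smul_eq_mul]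

theorem wp_two (q : XX) : wp q 2 = w3 (mu q.1) (th q.1) := rfl

theorem Zn_two {q : XX} (hμ : normSq (mu q.1) < 1) :
    Zn q 2 = ((√(1 - bz q 2) : ℝ) : ℂ) * w3 (mu q.1) (th q.1) := by
  rw [Zn_eq hμ, wp_two]

/-- the third component in the direction of the angle -/
theorem dN_th (hq : q ∈ UX) (hμ : normSq (mu q.1) < 1) :
    dN q (Pi.single 2 1) 0 2 + mu q.1 * conj (dN q (Pi.single 2 1) 0 2) =
      ((√(1 - bz q 2) * dph3 (mu q.1) (th q.1) 0 1 : ℝ) : ℂ) * I * w3 (mu q.1) (th q.1) := by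
  have u0 : (Pi.single 2 (1 : ℝ) : Fin 3 → ℝ) 0 = 0 := by simp
  have u1 : (Pi.single 2 (1 : ℝ) : Fin 3 → ℝ) 1 = 0 := by simp
  have u2 : (Pi.single 2 (1 : ℝ) : Fin 3 → ℝ) 2 = 1 := by simp
  have h1 := hd_Zn (Pi.single 2 1) 0 hq hμ 2
  have hmu : ∀ t : ℝ, mu (q + t • dr' (Pi.single 2 1) 0).1 = mu q.1 := by
    intro t
    rw [line_mu, u0, u1]
    simp
  have hth : ∀ t : ℝ, th (q + t • dr' (Pi.single 2 1) 0).1 = th q.1 + t * 1 := by
    intro t
    rw [line_th, u2]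
  have hbz : ∀ t : ℝ, bz (q + t • dr' (Pi.single 2 1) 0) 2 = bz q 2 := by
    intro t
    unfold bz
    rw [line_β, line_P, hmu, line_z]
    ring
  have h2 : (fun t : ℝ => Zn (q + t • dr' (Pi.single 2 1) 0) 2) = fun t : ℝ =>
      ((√(1 - bz q 2) : ℝ) : ℂ) * w3 (mu q.1 + (t : ℂ) * 0) (th q.1 + t * 1) := by
    funext t
    rw [Zn_two (by rw [hmu]; exact hμ), hmu, hth, hbz, mul_zero, add_zero]
  have h3 := (hasDerivAt_w3 (mu q.1) (th q.1) 0 1 0).const_mul ((√(1 - bz q 2) : ℝ) : ℂ)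
  rw [h2] at h1
  have h4 := h1.unique h3
  have h5 : dZ q (Pi.single 2 1) 0 2 =
      dN q (Pi.single 2 1) 0 2 + mu q.1 * conj (dN q (Pi.single 2 1) 0 2) := by
    unfold dZ
    rw [u0, u1]
    simp
  rw [← h5, h4]
  simp only [ofReal_zero, zero_mul, add_zero]
  push_cast
  ring

/-- the third component in the radial direction -/
theorem dN_z (hq : q ∈ UX) (hμ : normSq (mu q.1) < 1) :
    (conj (w3 (mu q.1) (th q.1)) * (dN q 0 1 2 + mu q.1 * conj (dN q 0 1 2))).im = 0 := by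
  have h1 := hd_Zn (q := q) 0 1 hq hμ 2
  have hmu : ∀ t : ℝ, mu (q + t • dr' 0 1).1 = mu q.1 := by
    intro t
    rw [line_mu]
    simp
  have hth : ∀ t : ℝ, th (q + t • dr' 0 1).1 = th q.1 := by
    intro t
    rw [line_th]
    simp
  have h2 : (fun t : ℝ => (conj (w3 (mu q.1) (th q.1)) * Zn (q + t • dr' 0 1) 2).im) =
      fun _ => (0 : ℝ) := by
    funext t
    rw [Zn_two (by rw [hmu]; exact hμ), hmu, hth]
    have h3 := unit_mul_conj (norm_w3 (mu q.1) (th q.1))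
    have h4 : conj (w3 (mu q.1) (th q.1)) *
        (((√(1 - bz (q + t • dr' 0 1) 2) : ℝ) : ℂ) * w3 (mu q.1) (th q.1)) =
        ((√(1 - bz (q + t • dr' 0 1) 2) : ℝ) : ℂ) := by
      calc _ = ((√(1 - bz (q + t • dr' 0 1) 2) : ℝ) : ℂ) *
          (w3 (mu q.1) (th q.1) * conj (w3 (mu q.1) (th q.1))) := by ring
        _ = _ := by rw [h3, mul_one]
    rw [h4, ofReal_im]
  have h3 := hasDerivAt_im (h1.const_mul (conj (w3 (mu q.1) (th q.1))))
  rw [h2] at h3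
  have h4 := h3.unique (hasDerivAt_const (0 : ℝ) (0 : ℝ))
  have h5 : dZ q 0 1 2 = dN q 0 1 2 + mu q.1 * conj (dN q 0 1 2) := by
    unfold dZ
    simp
  rw [h5] at h4
  exact h4

end

section

variable {T : ℝ} {H : Fin 3 → ℂ} {ep : Fin 3 → ℝ} {tA : ℝ} {q : XX} {ω : ℂ} {lam V : ℝ}

theorem Bv_zero (mu om : ℂ) : Bv mu om 0 = 0 := by
  unfold Bv
  simp

/-- the direction of the angle -/
theorem Fr.tv_th (F : Fr T H ep tA q ω lam V) (l : Fin 3) :
    tv T H ep tA 0 (T * (√(1 - bz q 2) * dph3 (mu q.1) (th q.1) 0 1)) l =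
      Wv T ω q (Pi.single 2 1) 0 l := by
  have h1 := F.tv_u (Pi.single 2 1) l
  have u0 : (Pi.single 2 (1 : ℝ) : Fin 3 → ℝ) 0 = 0 := by simp
  have u1 : (Pi.single 2 (1 : ℝ) : Fin 3 → ℝ) 1 = 0 := by simp
  rw [u0, u1] at h1
  have h2 : ((0 : ℝ) : ℂ) + ((0 : ℝ) : ℂ) * I = 0 := by simp
  rw [h2, Bv_zero] at h1
  have h3 : (conj (wG T H ep tA 2) * Wv T ω q (Pi.single 2 1) 0 2).im =
      T * (√(1 - bz q 2) * dph3 (mu q.1) (th q.1) 0 1) := by
    unfold Wv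
    rw [dN_th F.hq F.hμ, F.wG_eq 2, wp_two, map_mul]
    have e1 := unit_mul_conj F.hω
    have e2 := unit_mul_conj (norm_w3 (mu q.1) (th q.1))
    have e3 : conj ω * conj (w3 (mu q.1) (th q.1)) * (ω * (T : ℂ) *
        (((√(1 - bz q 2) * dph3 (mu q.1) (th q.1) 0 1 : ℝ) : ℂ) * I * w3 (mu q.1) (th q.1))) =
        ((T * (√(1 - bz q 2) * dph3 (mu q.1) (th q.1) 0 1) : ℝ) : ℂ) * I := by
      push_cast
      calc _ = (ω * conj ω) * (w3 (mu q.1) (th q.1) * conj (w3 (mu q.1) (th q.1))) *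
          ((T : ℂ) * ((√(1 - bz q 2) : ℂ) * (dph3 (mu q.1) (th q.1) 0 1 : ℂ)) * I) := by ring
        _ = _ := by rw [e1, e2]; ring
    rw [e3, im_ofReal_mul, I_im, mul_one]
  rw [h3] at h1
  exact h1

/-- the radial direction -/
noncomputable def Rv (T : ℝ) (ω : ℂ) (q : XX) (l : Fin 3) : ℂ :=
  ω * (T : ℂ) * (Zn q l - 2 * (q.2.1 : ℂ) * (dN q 0 1 l + mu q.1 * conj (dN q 0 1 l)))

theorem Fr.tv_rad (F : Fr T H ep tA q ω lam V) (l : Fin 3) :
    tv T H ep tA (-2, 0, -2) 0 l = Rv T ω q l := by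
  have hbf : ∀ z w : ℂ, bf (-2, 0, -2) z w = -(2 * (conj z * w).re) := by
    intro z w
    simp only [bf, mul_re, conj_re, conj_im]
    ring
  have hdZ : ∀ m, dZ q 0 1 m = dN q 0 1 m + mu q.1 * conj (dN q 0 1 m) := by
    intro m
    unfold dZ
    simp
  have hR : ∀ m, Rv T ω q m = ω * (T : ℂ) * (Zn q m - 2 * (q.2.1 : ℂ) * dZ q 0 1 m) := by
    intro m
    unfold Rv
    rw [hdZ]
  have hm : ∀ m, mG T H ep tA m = ω * (T : ℂ) * Zn q m := fun m => F.mG_eq m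
  refine tv_unique (fun l hl => F.nG_ne hl) F.norm_wG (fun l => (F.rh_pos l).ne') (fun l => ?_)
    (fun l => ?_) ?_ l
  · have h1 := did1 0 1 F.hq F.hε F.hμ l
    have h2 := id1 F.hq F.hε F.hμ l
    rw [hbf, hbf, hR, hm]
    rw [F.cW, F.cW, re_ofReal_mul, re_ofReal_mul]
    have e1 : (conj (H l) * H l).re = bz q l * (4 * T ^ 2) := by
      rw [← F.sq_H l, ← normSq_eq_conj_mul_self, ofReal_re, normSq_eq_norm_sq]
    have e2 : (conj (Zn q l) * Zn q l).re = normSq (Zn q l) := by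
      rw [← normSq_eq_conj_mul_self, ofReal_re]
    have e3 : (conj (Zn q l) * (Zn q l - 2 * (q.2.1 : ℂ) * dZ q 0 1 l)).re =
        normSq (Zn q l) - 2 * q.2.1 * (conj (Zn q l) * dZ q 0 1 l).re := by
      have : conj (Zn q l) * (Zn q l - 2 * (q.2.1 : ℂ) * dZ q 0 1 l) =
          conj (Zn q l) * Zn q l - ((2 * q.2.1 : ℝ) : ℂ) * (conj (Zn q l) * dZ q 0 1 l) := by
        push_cast
        ring
      rw [this, sub_re, re_ofReal_mul, e2]
    rw [e1, e2, e3]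
    have e4 : bz q l = q.2.2 l ^ 2 * normSq (Eh (q.1.2.1 l) (mu q.1)) * q.2.1 := rfl
    simp only [Pi.zero_apply, ofReal_zero, zero_mul, add_zero, mul_zero, zero_add, zero_re,
      mul_one] at h1
    linear_combination (-2 * T ^ 2 * q.2.1) * h1 - 2 * T ^ 2 * e4
  · have h1 := did2 0 1 F.hq F.hμ F.ν2 l
    have h2 := id2' F.hq F.hμ F.ν2 l
    rw [hbf, hbf, hR, hR, hm, hm, F.cH, F.cH, F.cH, F.cH]
    simp only [re_ofReal_mul]
    have e1 : ∀ m, (conj (Zn q m - 2 * (q.2.1 : ℂ) * dZ q 0 1 m) * Eh (q.1.2.1 m) (mu q.1)).re =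
        (conj (Zn q m) * Eh (q.1.2.1 m) (mu q.1)).re -
          2 * q.2.1 * (conj (dZ q 0 1 m) * Eh (q.1.2.1 m) (mu q.1)).re := by
      intro m
      have : conj (Zn q m - 2 * (q.2.1 : ℂ) * dZ q 0 1 m) * Eh (q.1.2.1 m) (mu q.1) =
          conj (Zn q m) * Eh (q.1.2.1 m) (mu q.1) -
            ((2 * q.2.1 : ℝ) : ℂ) * (conj (dZ q 0 1 m) * Eh (q.1.2.1 m) (mu q.1)) := by
        rw [map_sub, map_mul, map_mul, conj_ofReal, map_ofNat]
        push_cast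
        ring
      rw [this, sub_re, re_ofReal_mul]
    rw [e1, e1]
    simp only [Pi.zero_apply, ofReal_zero, zero_mul, add_zero, mul_zero, zero_re] at h1
    have e4 := F.hν l
    set a := (conj (Zn q l) * Eh (q.1.2.1 l) (mu q.1)).re
    set a2 := (conj (Zn q 2) * Eh (q.1.2.1 2) (mu q.1)).re
    set b := (conj (dZ q 0 1 l) * Eh (q.1.2.1 l) (mu q.1)).re
    set b2 := (conj (dZ q 0 1 2) * Eh (q.1.2.1 2) (mu q.1)).re
    linear_combination (-(T * (√lam * (q.2.2 l * V)))) * h2 -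
      (2 * q.2.1 * (T * (√lam * (q.2.2 l * V)))) * h1 -
      (T * √lam * V * (a2 + 2 * q.2.1 * b2)) * e4
  · have h1 := dN_z F.hq F.hμ
    rw [hR, F.wG_eq 2, wp_two, map_mul]
    have e1 := unit_mul_conj F.hω
    have e2 := unit_mul_conj (norm_w3 (mu q.1) (th q.1))
    have e3 : conj ω * conj (w3 (mu q.1) (th q.1)) * (ω * (T : ℂ) *
        (Zn q 2 - 2 * (q.2.1 : ℂ) * dZ q 0 1 2)) = ((T * √(1 - bz q 2) : ℝ) : ℂ) -
        ((2 * q.2.1 * T : ℝ) : ℂ) * (conj (w3 (mu q.1) (th q.1)) * dZ q 0 1 2) := by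
      rw [Zn_two F.hμ]
      push_cast
      calc _ = (ω * conj ω) * ((w3 (mu q.1) (th q.1) * conj (w3 (mu q.1) (th q.1))) *
          ((T : ℂ) * (√(1 - bz q 2) : ℂ)) -
          (2 * (q.2.1 : ℂ) * (T : ℂ)) * (conj (w3 (mu q.1) (th q.1)) * dZ q 0 1 2)) := by ring
        _ = _ := by rw [e1, e2]; ring
    rw [e3, sub_im, ofReal_im, im_ofReal_mul, hdZ, h1]
    ring

end

/-! ### the relation of `GM` and `NM` -/

section

variable {q : XX}

theorem GM_NM (hμ : normSq (mu q.1) < 1) (l : Fin 3) :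
    GM q l = ((1 - normSq (mu q.1) : ℝ) : ℂ) * NM q l := by
  have h0 : ((1 - normSq (mu q.1) : ℝ) : ℂ) ≠ 0 := by
    exact_mod_cast (by linarith : (1 - normSq (mu q.1) : ℝ) ≠ 0)
  unfold NM
  field_simp

theorem dG_dN (u : Fin 3 → ℝ) (ζ : ℝ) (hq : q ∈ UX) (hμ : normSq (mu q.1) < 1) (l : Fin 3) :
    fderiv ℝ GM q (dr' u ζ) l = ((1 - normSq (mu q.1) : ℝ) : ℂ) * dN q u ζ l -
      ((2 * (conj (mu q.1) * ((u 0 : ℂ) + (u 1 : ℂ) * I)).re : ℝ) : ℂ) * NM q l := by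
  have hf : HasFDerivAt GM (fderiv ℝ GM q) (q + (0 : ℝ) • dr' u ζ) := by
    rw [zero_smul, add_zero]
    exact ((cd_GM 1 hq).differentiableAt (by norm_num)).hasFDerivAt
  have hl : HasDerivAt (fun s : ℝ => q + s • dr' u ζ) (dr' u ζ) 0 := by
    simpa using ((hasDerivAt_id (0 : ℝ)).smul_const (dr' u ζ)).const_add q
  have h1 : HasDerivAt (fun t : ℝ => GM (q + t • dr' u ζ) l) (fderiv ℝ GM q (dr' u ζ) l) 0 :=
    (hasDerivAt_pi.1 (hf.comp_hasDerivAt (0 : ℝ) hl)) l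
  have hn : HasDerivAt (fun t : ℝ => normSq (mu (q + t • dr' u ζ).1))
      (2 * (conj (mu q.1) * ((u 0 : ℂ) + (u 1 : ℂ) * I)).re) 0 := by
    have h2 := hd_mu (q := q) u ζ
    have h3 := (hasDerivAt_re h2).mul (hasDerivAt_re h2)
    have h4 := (hasDerivAt_im h2).mul (hasDerivAt_im h2)
    have h5 := h3.add h4
    have h6 : (fun t : ℝ => normSq (mu (q + t • dr' u ζ).1)) = fun t : ℝ =>
        (mu (q + t • dr' u ζ).1).re * (mu (q + t • dr' u ζ).1).re +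
        (mu (q + t • dr' u ζ).1).im * (mu (q + t • dr' u ζ).1).im := by
      funext t
      rw [normSq_apply]
    rw [h6]
    refine h5.congr_deriv ?_
    rw [zero_smul, add_zero]
    simp only [mul_re, conj_re, conj_im, add_re, add_im, mul_im, ofReal_re, ofReal_im, I_re, I_im]
    ring
  have h2 := ((hn.const_sub 1).ofReal_comp).mul (hd_NM u ζ hq hμ l)
  have h3 : (fun t : ℝ => GM (q + t • dr' u ζ) l) =ᶠ[nhds 0] fun t : ℝ =>
      ((1 - normSq (mu (q + t • dr' u ζ).1) : ℝ) : ℂ) * NM (q + t • dr' u ζ) l := by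
    filter_upwards [ev_UX u ζ hq hμ] with t ht
    exact GM_NM ht.2 l
  have h4 := (h1.congr_of_eventuallyEq h3.symm).unique h2
  rw [h4, zero_smul, add_zero]
  push_cast
  ring

theorem Z1_dN (hq : q ∈ UX) (hμ : normSq (mu q.1) < 1) (l : Fin 3) :
    Z1 q l = ((1 - normSq (mu q.1) : ℝ) : ℂ) * dN q 0 1 l := by
  have h := dG_dN 0 1 hq hμ l
  have h1 : dr' 0 1 = ((0, 1, 0) : XX) := by
    unfold dr' ins
    rfl
  rw [h1] at h
  unfold Z1
  rw [h]
  simp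

end

end Pool.Agent.F5.H58
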