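import Pool.Agent.Helper58_F5.ExtD
import Pool.Agent.Helper58_F5.Avg

/-!
# MAT, part A: the sets and their measurability
-/

set_option autoImplicit false

namespace Pool.Agent.F5.H58

open Complex ComplexConjugate MeasureTheory

/-- the parameters of the chart -/
abbrev PP : Type := (Fin 3 → ℂ) × (Fin 3 → ℝ) × (Fin 3 → ℝ)

/-- the point of the chart -/
def xw (P : PP) (w : ℝ × (Fin 3 → ℝ)) : VV := (w.2, P)

/-- the point of the extended chart -/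
def qw (P : PP) (β : Fin 3 → ℝ) (w : ℝ × (Fin 3 → ℝ)) : XX := ((w.2, P), w.1, β)

/-- the point with `z = 0` -/
def q0 (P : PP) (β : Fin 3 → ℝ) (w : ℝ × (Fin 3 → ℝ)) : XX := ((w.2, P), 0, β)

/-- the closed domain of the chart -/
def D0 (P : PP) (d z₁ z₂ L : ℝ) : Set (ℝ × (Fin 3 → ℝ)) :=
  {w | z₁ ≤ w.1 ∧ w.1 ≤ z₂ ∧ |w.2 0| ≤ d ∧ |w.2 1| ≤ d ∧ |w.2 2| ≤ L ∧
    ∀ l : Fin 3, l ≠ 2 → |P.2.1 l * Yf (P.1 2) (mu (xw P w)) (th (xw P w))| ≤ d}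

/-- the good part of the chart -/
def Dc (P : PP) (d y₀ η z₁ z₂ L : ℝ) : Set (ℝ × (Fin 3 → ℝ)) :=
  D0 P d z₁ z₂ L ∩ {w | |Yf (P.1 2) (mu (xw P w)) (th (xw P w))| ≤ y₀ ∧
    ∀ l m, l ≠ m → η ≤ ‖Xq P.1 P.2.1 P.2.2 (mu (xw P w)) (th (xw P w)) l -
      Xq P.1 P.2.1 P.2.2 (mu (xw P w)) (th (xw P w)) m‖}

/-- the set of the parameters for which `k` is in the body -/
def Bc (P : PP) (β : Fin 3 → ℝ) (k : Fin 3 → ℂ) (d y₀ η z₁ z₂ L c₁ c₂ A₁ A₂ : ℝ) :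
    Set (ℝ × (Fin 3 → ℝ)) :=
  Dc P d y₀ η z₁ z₂ L ∩ {w | (∀ j, |sp k (FF (xw P w) j)| ≤ c₁) ∧ |phi k (qw P β w)| ≤ c₂ ∧
    A₁ ≤ |kh (q0 P β w) k| ∧ |kh (q0 P β w) k| ≤ A₂}

theorem isClosed_D0 (P : PP) (d z₁ z₂ L : ℝ) : IsClosed (D0 P d z₁ z₂ L) := by
  have hY : Continuous fun w : ℝ × (Fin 3 → ℝ) => Yf (P.1 2) (mu (xw P w)) (th (xw P w)) := by
    have h1 : Continuous fun x : VV => Yf (x.2.1 2) (mu x) (th x) := cont_of (cd_Yf 0)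
    have h2 : Continuous fun w : ℝ × (Fin 3 → ℝ) => xw P w :=
      continuous_snd.prodMk continuous_const
    exact h1.comp h2
  have e : D0 P d z₁ z₂ L = {w | z₁ ≤ w.1} ∩ {w | w.1 ≤ z₂} ∩ {w | |w.2 0| ≤ d} ∩
      {w | |w.2 1| ≤ d} ∩ {w | |w.2 2| ≤ L} ∩ ⋂ l : Fin 3, ⋂ _ : l ≠ 2,
      {w | |P.2.1 l * Yf (P.1 2) (mu (xw P w)) (th (xw P w))| ≤ d} := by
    ext w
    simp only [D0, Set.mem_ofPred_eq, Set.mem_inter_iff, Set.mem_iInter]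
    tauto
  rw [e]
  refine IsClosed.inter (IsClosed.inter (IsClosed.inter (IsClosed.inter (IsClosed.inter ?_ ?_) ?_)
    ?_) ?_) ?_
  · exact isClosed_le continuous_const continuous_fst
  · exact isClosed_le continuous_fst continuous_const
  · exact isClosed_le (by fun_prop) continuous_const
  · exact isClosed_le (by fun_prop) continuous_const
  · exact isClosed_le (by fun_prop) continuous_const
  · exact isClosed_iInter fun l => isClosed_iInter fun _ =>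
      isClosed_le (continuous_const.mul hY).abs continuous_const

theorem D0_KK {P : PP} {d z₁ z₂ L : ℝ} (hS : Std P.1 P.2.1 P.2.2) (hd : d ≤ 1 / 64) (hL : L ≤ 5)
    {w : ℝ × (Fin 3 → ℝ)} (hw : w ∈ D0 P d z₁ z₂ L) : xw P w ∈ KK := by
  obtain ⟨h1, h2, h3, h4, h5, h6⟩ := hw
  have hμ : ‖mu (xw P w)‖ ≤ 1 / 8 := by
    have := norm_mu_le (xw P w)
    have e0 : (xw P w).1 0 = w.2 0 := rfl
    have e1 : (xw P w).1 1 = w.2 1 := rfl
    rw [e0, e1] at this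
    linarith
  refine ⟨hS, ?_, ?_, ?_, fun l hl => ?_⟩
  · show |w.2 0| ≤ _
    linarith
  · show |w.2 1| ≤ _
    linarith
  · show |w.2 2| ≤ _
    linarith
  · have := norm_Eh_ge (hS.e1 l) hμ
    show |P.2.1 l * Yf (P.1 2) (mu (xw P w)) (th (xw P w))| ≤ 1 / 2 * ‖Eh (P.1 l) (mu (xw P w))‖
    linarith [h6 l hl]

theorem cdo_Z1 : ContDiffOn ℝ 2 Z1 UX := by
  have hGM : ContDiffOn ℝ 3 GM UX := fun q hq => (cd_GM 3 hq).contDiffWithinAt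
  have h1 : ContDiffOn ℝ 2 (fderiv ℝ GM) UX := hGM.fderiv_of_isOpen isOpen_UX (by norm_num)
  exact h1.clm_apply contDiffOn_const

theorem continuous_sp (k : Fin 3 → ℂ) : Continuous (sp k) := by
  unfold sp
  fun_prop

theorem cont_xw (P : PP) : Continuous (xw P) := continuous_snd.prodMk continuous_const

theorem cont_qw (P : PP) (β : Fin 3 → ℝ) : Continuous (qw P β) :=
  (continuous_snd.prodMk continuous_const).prodMk (continuous_fst.prodMk continuous_const)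

theorem cont_q0 (P : PP) (β : Fin 3 → ℝ) : Continuous (q0 P β) :=
  (continuous_snd.prodMk continuous_const).prodMk continuous_const

theorem isClosed_Bc {P : PP} {β : Fin 3 → ℝ} {k : Fin 3 → ℂ} {d y₀ η z₁ z₂ L c₁ c₂ A₁ A₂ : ℝ}
    (hS : Std P.1 P.2.1 P.2.2) (hd : d ≤ 1 / 64) (hL : L ≤ 5)
    (hUX : ∀ w ∈ D0 P d z₁ z₂ L, qw P β w ∈ UX) :
    IsClosed (Bc P β k d y₀ η z₁ z₂ L c₁ c₂ A₁ A₂) := by
  have hc := isClosed_D0 P d z₁ z₂ L
  have hU : ∀ w ∈ D0 P d z₁ z₂ L, xw P w ∈ UU := fun w hw => KK_sub (D0_KK hS hd hL hw)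
  have hU0 : ∀ w ∈ D0 P d z₁ z₂ L, q0 P β w ∈ UX := fun w hw => by
    refine ⟨fun l => ?_, ?_⟩
    · rw [bz_zero rfl]; norm_num
    · rw [Ps_zero rfl]; exact hU w hw
  have hY : ContinuousOn (fun w : ℝ × (Fin 3 → ℝ) => |Yf (P.1 2) (mu (xw P w)) (th (xw P w))|)
      (D0 P d z₁ z₂ L) := by
    have h1 : Continuous fun x : VV => Yf (x.2.1 2) (mu x) (th x) := cont_of (cd_Yf 0)
    exact ((h1.comp (cont_xw P)).abs).continuousOn
  have hX : ∀ l, ContinuousOn (fun w : ℝ × (Fin 3 → ℝ) =>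
      Xq P.1 P.2.1 P.2.2 (mu (xw P w)) (th (xw P w)) l) (D0 P d z₁ z₂ L) := by
    intro l w hw
    have h1 : ContinuousAt (fun y : VV => ww y.2.1 y.2.2.1 y.2.2.2 (mu y) (th y) l) (xw P w) :=
      (cd_ww 0 (hU w hw) l).continuousAt
    have h2 := (h1.pow 2).comp_of_eq (cont_xw P).continuousAt rfl
    exact h2.continuousWithinAt
  have hF : ∀ j, ContinuousOn (fun w : ℝ × (Fin 3 → ℝ) => |sp k (FF (xw P w) j)|)
      (D0 P d z₁ z₂ L) := by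
    intro j w hw
    have h1 : ContinuousAt (fun y : VV => FF y j) (xw P w) :=
      (continuous_apply j).continuousAt.comp (cd_FF 0 (hU w hw)).continuousAt
    have h2 := ((continuous_sp k).continuousAt.comp h1).comp_of_eq (cont_xw P).continuousAt rfl
    exact h2.abs.continuousWithinAt
  have hphi : ContinuousOn (fun w : ℝ × (Fin 3 → ℝ) => |phi k (qw P β w)|) (D0 P d z₁ z₂ L) := by
    intro w hw
    have h1 : ContinuousAt (fun q : XX => sp k (GM q)) (qw P β w) :=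
      (continuous_sp k).continuousAt.comp (cd_GM 0 (hUX w hw)).continuousAt
    have h2 : ContinuousAt Z1 (qw P β w) :=
      (cdo_Z1.continuousOn).continuousAt (isOpen_UX.mem_nhds (hUX w hw))
    have h3 : ContinuousAt (fun q : XX => sp k (Z1 q)) (qw P β w) :=
      (continuous_sp k).continuousAt.comp h2
    have h4 : ContinuousAt (fun q : XX => 2 * q.2.1) (qw P β w) := by fun_prop
    have h5 : ContinuousAt (phi k) (qw P β w) := h1.sub (h4.mul h3)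
    exact (h5.comp_of_eq (cont_qw P β).continuousAt rfl).abs.continuousWithinAt
  have hkh : ContinuousOn (fun w : ℝ × (Fin 3 → ℝ) => |kh (q0 P β w) k|) (D0 P d z₁ z₂ L) := by
    have h0 : ∀ w ∈ D0 P d z₁ z₂ L, |kh (q0 P β w) k| = |2 * sp k (Z1 (q0 P β w))| := by
      intro w hw
      have h1 : sp k (Z1 (q0 P β w)) = -(kh (q0 P β w) k / 2) := sp_Z1 hS (hU w hw) rfl k
      rw [h1, show 2 * -(kh (q0 P β w) k / 2) = -kh (q0 P β w) k by ring, abs_neg]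
    refine ContinuousOn.congr ?_ h0
    intro w hw
    have h2 : ContinuousAt Z1 (q0 P β w) :=
      (cdo_Z1.continuousOn).continuousAt (isOpen_UX.mem_nhds (hU0 w hw))
    have h3 : ContinuousAt (fun q : XX => sp k (Z1 q)) (q0 P β w) :=
      (continuous_sp k).continuousAt.comp h2
    exact ((continuousAt_const.mul (h3.comp_of_eq (cont_q0 P β).continuousAt rfl)).abs
      ).continuousWithinAt
  have c1 := hY.preimage_isClosed_of_isClosed hc (isClosed_Iic (a := y₀))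
  have c2 := hphi.preimage_isClosed_of_isClosed hc (isClosed_Iic (a := c₂))
  have c3 := hkh.preimage_isClosed_of_isClosed hc (isClosed_Iic (a := A₂))
  have c4 := hkh.preimage_isClosed_of_isClosed hc (isClosed_Ici (a := A₁))
  have c5 : IsClosed (⋂ j, (D0 P d z₁ z₂ L ∩ (fun w : ℝ × (Fin 3 → ℝ) =>
      |sp k (FF (xw P w) j)|) ⁻¹' Set.Iic c₁)) :=
    isClosed_iInter fun j => (hF j).preimage_isClosed_of_isClosed hc isClosed_Iic
  have c6 : IsClosed (⋂ l, ⋂ m, ⋂ _ : l ≠ m, (D0 P d z₁ z₂ L ∩ (fun w : ℝ × (Fin 3 → ℝ) =>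
      ‖Xq P.1 P.2.1 P.2.2 (mu (xw P w)) (th (xw P w)) l -
        Xq P.1 P.2.1 P.2.2 (mu (xw P w)) (th (xw P w)) m‖) ⁻¹' Set.Ici η)) :=
    isClosed_iInter fun l => isClosed_iInter fun m => isClosed_iInter fun _ =>
      (((hX l).sub (hX m)).norm).preimage_isClosed_of_isClosed hc isClosed_Ici
  have e : Bc P β k d y₀ η z₁ z₂ L c₁ c₂ A₁ A₂ = D0 P d z₁ z₂ L ∩
      (D0 P d z₁ z₂ L ∩ (fun w : ℝ × (Fin 3 → ℝ) =>
        |Yf (P.1 2) (mu (xw P w)) (th (xw P w))|) ⁻¹' Set.Iic y₀) ∩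
      (D0 P d z₁ z₂ L ∩ (fun w : ℝ × (Fin 3 → ℝ) => |phi k (qw P β w)|) ⁻¹' Set.Iic c₂) ∩
      (D0 P d z₁ z₂ L ∩ (fun w : ℝ × (Fin 3 → ℝ) => |kh (q0 P β w) k|) ⁻¹' Set.Iic A₂) ∩
      (D0 P d z₁ z₂ L ∩ (fun w : ℝ × (Fin 3 → ℝ) => |kh (q0 P β w) k|) ⁻¹' Set.Ici A₁) ∩
      (⋂ j, (D0 P d z₁ z₂ L ∩ (fun w : ℝ × (Fin 3 → ℝ) =>
        |sp k (FF (xw P w) j)|) ⁻¹' Set.Iic c₁)) ∩
      (⋂ l, ⋂ m, ⋂ _ : l ≠ m, (D0 P d z₁ z₂ L ∩ (fun w : ℝ × (Fin 3 → ℝ) =>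
      ‖Xq P.1 P.2.1 P.2.2 (mu (xw P w)) (th (xw P w)) l -
        Xq P.1 P.2.1 P.2.2 (mu (xw P w)) (th (xw P w)) m‖) ⁻¹' Set.Ici η)) := by
    ext w
    simp only [Bc, Dc, Set.mem_inter_iff, Set.mem_ofPred_eq, Set.mem_preimage, Set.mem_Iic,
      Set.mem_Ici, Set.mem_iInter]
    constructor
    · rintro ⟨⟨h1, h2, h3⟩, h4, h5, h6, h7⟩
      exact ⟨⟨⟨⟨⟨⟨h1, h1, h2⟩, h1, h5⟩, h1, h7⟩, h1, h6⟩, fun j => ⟨h1, h4 j⟩⟩,
        fun l m hlm => ⟨h1, h3 l m hlm⟩⟩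
    · rintro ⟨⟨⟨⟨⟨⟨h1, _, h2⟩, _, h5⟩, _, h7⟩, _, h6⟩, h4⟩, h3⟩
      exact ⟨⟨h1, h2, fun l m hlm => (h3 l m hlm).2⟩, fun j => (h4 j).2, h5, h6, h7⟩
  rw [e]
  exact (((((hc.inter c1).inter c2).inter c3).inter c4).inter c5).inter c6

/-- the squares of the points vary slowly -/
theorem Xq_shift : ∃ C : ℝ, 1 ≤ C ∧ ∀ (x : VV) (ρ : ℝ), x ∈ KK → 0 ≤ ρ → C * ρ ≤ 1 →
    ∀ u : Fin 3 → ℝ, (∀ i, |u i| ≤ ρ) → ∀ l,
      ‖Xq x.2.1 x.2.2.1 x.2.2.2 (mu (x + ins u)) (th (x + ins u)) l -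
        Xq x.2.1 x.2.2.1 x.2.2.2 (mu x) (th x) l‖ ≤ C * ρ := by
  obtain ⟨C, hC, hI⟩ := incl1
  refine ⟨4 * (C + 2), by linarith, ?_⟩
  intro x ρ hx hρ hρ1 u hu l
  have h1 : C * ρ ≤ 1 := by
    refine le_trans (mul_le_mul_of_nonneg_right ?_ hρ) hρ1
    linarith
  obtain ⟨i1, -, -, i4⟩ := hI x ρ 0 hx hρ h1 u hu
  set w := ww x.2.1 x.2.2.1 x.2.2.2 (mu x) (th x) l with hw
  set w' := ww x.2.1 x.2.2.1 x.2.2.2 (mu (x + ins u)) (th (x + ins u)) l with hw'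
  have n1 : ‖w‖ = 1 := norm_ww (dom_of hx.1 (KK_sub hx)) l
  have n2 : ‖w'‖ = 1 := by
    have h2 := norm_ww (dom_of (x := x + ins u) (by rw [snd_ins]; exact hx.1) i1) l
    rw [snd_ins] at h2
    exact h2
  have hd : ‖((u 0 : ℂ) + (u 1 : ℂ) * I)‖ ≤ 2 * ρ := by
    refine (norm_add_le _ _).trans ?_
    rw [norm_mul, norm_I, norm_real, norm_real, Real.norm_eq_abs, Real.norm_eq_abs, mul_one]
    linarith [hu 0, hu 1]
  have h3 : w' - w = (MM (x + ins u) - MM x) l + ((u 0 : ℂ) + (u 1 : ℂ) * I) * conj w' +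
      mu x * conj (w' - w) := by
    rw [Pi.sub_apply]
    unfold MM Mm
    rw [snd_ins, mu_ins, map_sub]
    rw [← hw, ← mu_ins, ← hw', mu_ins]
    ring
  have h4 : ‖w' - w‖ ≤ C * ρ + 2 * ρ + 1 / 8 * ‖w' - w‖ := by
    have h5 : ‖w' - w‖ ≤ ‖(MM (x + ins u) - MM x) l‖ + ‖((u 0 : ℂ) + (u 1 : ℂ) * I) * conj w'‖ +
        ‖mu x * conj (w' - w)‖ := by
      calc ‖w' - w‖ = ‖(MM (x + ins u) - MM x) l + ((u 0 : ℂ) + (u 1 : ℂ) * I) * conj w' +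
            mu x * conj (w' - w)‖ := by rw [← h3]
        _ ≤ _ := (norm_add_le _ _).trans (add_le_add (norm_add_le _ _) le_rfl)
    have h6 := norm_le_pi_norm (MM (x + ins u) - MM x) l
    rw [norm_mul, norm_conj, n2, mul_one, norm_mul, norm_conj] at h5
    have h7 := mul_le_mul_of_nonneg_right (KK_mu hx) (norm_nonneg (w' - w))
    linarith
  have h8 : ‖w' - w‖ ≤ 2 * (C + 2) * ρ := by
    have : 0 ≤ ‖w' - w‖ := norm_nonneg _
    nlinarith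
  have h9 : Xq x.2.1 x.2.2.1 x.2.2.2 (mu (x + ins u)) (th (x + ins u)) l -
        Xq x.2.1 x.2.2.1 x.2.2.2 (mu x) (th x) l = (w' - w) * (w' + w) := by
    unfold Xq
    rw [← hw, ← hw']
    ring
  rw [h9, norm_mul]
  have h10 : ‖w' + w‖ ≤ 2 := (norm_add_le _ _).trans (by rw [n1, n2]; norm_num)
  calc ‖w' - w‖ * ‖w' + w‖ ≤ (2 * (C + 2) * ρ) * 2 :=
        mul_le_mul h8 h10 (norm_nonneg _) (by positivity)
    _ = 4 * (C + 2) * ρ := by ring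

end Pool.Agent.F5.H58
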