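import Pool.Agent.Helper58_F5.MatA

/-!
# MAT, part B: the local averaging on the true cone, in the chart
-/

set_option autoImplicit false

namespace Pool.Agent.F5.H58

open Complex ComplexConjugate MeasureTheory

/-- the averaging on the true cone -/
theorem matc0 : ∃ C : ℝ, 1 ≤ C ∧ ∀ (P : PP) (β : Fin 3 → ℝ) (k : Fin 3 → ℂ)
    (d y₀ η δ z₁ z₂ c₁ c₂ A₁ A₂ ρ ρz γ : ℝ),
    Std P.1 P.2.1 P.2.2 → (∀ l, |β l| ≤ 1) → 0 < d → 0 < η → η ≤ 1 → 0 < z₁ → C * z₂ ≤ 1 →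
    k ≠ 0 → 0 ≤ c₁ → 0 ≤ c₂ → 0 ≤ A₂ → c₁ ≤ δ * ‖k‖ → c₂ + C * (‖k‖ * z₂) ≤ δ * ‖k‖ →
    C * (√d + δ) ≤ η ^ 20 → 0 < ρ → C * ρ ≤ η → C * (‖k‖ * ρ ^ 2) ≤ c₁ → 0 < ρz → ρz ≤ z₁ / 2 →
    0 ≤ γ → (2 * ρz ≤ γ ∨ (0 < A₁ ∧ C * (‖k‖ * z₂) ≤ A₁ ∧ 8 * c₂ / A₁ ≤ γ)) →
    (Bc P β k d y₀ η z₁ z₂ 4 c₁ c₂ A₁ A₂).Nonempty →
    MeasurableSet (Bc P β k d y₀ η z₁ z₂ 4 c₁ c₂ A₁ A₂) ∧
    (∀ w₀ ∈ Bc P β k d y₀ η z₁ z₂ 4 c₁ c₂ A₁ A₂,
      volume (Bc P β k d y₀ η z₁ z₂ 4 c₁ c₂ A₁ A₂ ∩ bx ρz ρ w₀) ≤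
      ENNReal.ofReal (C * (c₁ ^ 2 * γ) / (η ^ 20 * ‖k‖ ^ 2 * ρ ^ 2 * ρz) * (ρz * ρ ^ 3))) ∧
    (∀ w₀ ∈ Bc P β k d y₀ η z₁ z₂ 4 c₁ c₂ A₁ A₂, bx ρz ρ w₀ ⊆
      Bc P β k (d + 6 * ρ) (y₀ + 6 * ρ) (η / 2) (z₁ / 2) (2 * z₂) (4 + ρ)
        (c₁ + C * (‖k‖ * ρ))
        (c₂ + C * (ρ * (c₁ + ‖k‖ * ρ)) + C * (‖k‖ * z₂ * ρ) + C * ((A₂ + ‖k‖ * z₂) * ρz))
        0 (A₂ + C * (‖k‖ * ρ))) := by
  obtain ⟨C1, hC1, hL⟩ := lav1
  obtain ⟨C2, hC2, hI⟩ := incl1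
  obtain ⟨C3, r, hC3, hr, hP⟩ := phi_facts
  obtain ⟨C4, hC4, hX⟩ := Xq_shift
  obtain ⟨C5, r', hC5, hr', hE⟩ := ext_bounds
  have ir : 0 < 1 / r := by positivity
  have ir' : 0 < 1 / r' := by positivity
  refine ⟨C1 + 4 * C2 + 4 * C3 + 4 * C4 + 64 + 2 * (1 / r) + 2 * (1 / r') + 3 * C2 ^ 2, by
    nlinarith [sq_nonneg C2], ?_⟩
  intro P β k d y₀ η δ z₁ z₂ c₁ c₂ A₁ A₂ ρ ρz γ hS hβ hd hη hη1 hz1 hz2 hk hc1 hc2 hA2 hδ1 hδ2 hsm
    hρ hρη hρκ hρz hρz1 hγ hcase hne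
  set C := C1 + 4 * C2 + 4 * C3 + 4 * C4 + 64 + 2 * (1 / r) + 2 * (1 / r') + 3 * C2 ^ 2 with hC
  have hk0 : 0 < ‖k‖ := norm_pos_iff.2 hk
  have q2 : 0 ≤ C2 ^ 2 := sq_nonneg _
  have g1 : C1 ≤ C := by rw [hC]; linarith
  have g2 : 4 * C2 ≤ C := by rw [hC]; linarith
  have g2' : 3 * C2 ^ 2 ≤ C := by rw [hC]; linarith
  have g3 : 4 * C3 ≤ C := by rw [hC]; linarith
  have g4 : 4 * C4 ≤ C := by rw [hC]; linarith
  have g5 : 64 ≤ C := by rw [hC]; linarith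
  have g6 : 2 * (1 / r) ≤ C := by rw [hC]; linarith
  have g7 : 2 * (1 / r') ≤ C := by rw [hC]; linarith
  have hC0 : 0 < C := by linarith
  have sd0 : 0 < √d := Real.sqrt_pos.2 hd
  have sd2 : √d * √d = d := Real.mul_self_sqrt hd.le
  have hη20 : η ^ 20 ≤ 1 := pow_le_one₀ hη.le hη1
  have hη20' : 0 < η ^ 20 := by positivity
  have hδ0 : 0 ≤ δ := by
    by_contra h
    have h4 : δ * ‖k‖ < 0 := mul_neg_of_neg_of_pos (not_le.1 h) hk0
    linarith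
  have hsum : 0 ≤ √d + δ := by linarith
  have hdd : √d ≤ 1 / 64 := by
    have h3 : (64 : ℝ) * (√d + δ) ≤ η ^ 20 :=
      le_trans (mul_le_mul_of_nonneg_right g5 hsum) hsm
    linarith
  have hd1 : d ≤ 1 / 64 := by nlinarith
  have hρ64 : ρ ≤ 1 / 64 := by
    have : (64 : ℝ) * ρ ≤ 1 := (mul_le_mul_of_nonneg_right g5 hρ.le).trans (hρη.trans hη1)
    linarith
  have hz12 : z₁ ≤ z₂ := by
    obtain ⟨w, ⟨⟨h1, h2, -⟩, -⟩, -⟩ := hne
    linarith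
  have hz20 : 0 < z₂ := by linarith
  have hz2r : 2 * z₂ ≤ r := by
    have h3 : 2 * (1 / r) * z₂ ≤ 1 := (mul_le_mul_of_nonneg_right g6 hz20.le).trans hz2
    have h4 : 2 * (1 / r) * z₂ * r = 2 * z₂ := by field_simp
    have h5 := mul_le_mul_of_nonneg_right h3 hr.le
    rw [h4] at h5
    linarith
  have hz2r' : 2 * z₂ ≤ r' := by
    have h3 : 2 * (1 / r') * z₂ ≤ 1 := (mul_le_mul_of_nonneg_right g7 hz20.le).trans hz2
    have h4 : 2 * (1 / r') * z₂ * r' = 2 * z₂ := by field_simp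
    have h5 := mul_le_mul_of_nonneg_right h3 hr'.le
    rw [h4] at h5
    linarith
  have hmeas : MeasurableSet (Bc P β k d y₀ η z₁ z₂ 4 c₁ c₂ A₁ A₂) := by
    refine (isClosed_Bc hS hd1 (by norm_num) fun w hw => ?_).measurableSet
    exact (hE _ (D0_KK hS hd1 (by norm_num) hw) β hβ w.1 (by linarith [hw.1])
      (by linarith [hw.2.1])).1
  have hkρ : 0 ≤ ‖k‖ * ρ := by positivity
  have hkz : 0 ≤ ‖k‖ * z₂ := by positivity
  refine ⟨hmeas, ?_, ?_⟩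
  · -- the density
    intro w₀ hw₀
    obtain ⟨⟨hD0, hY0, hsep0⟩, hF0, hφ0, hA10, hA20⟩ := id hw₀
    have hxK : xw P w₀ ∈ KK := D0_KK hS hd1 (by norm_num) hD0
    obtain ⟨z1', z2', b0, b1, b2, bY⟩ := hD0
    have hw0z : 0 ≤ w₀.1 := by linarith
    obtain ⟨-, f2, -, -, -, -⟩ := hP _ hxK β hβ w₀.1 hw0z (by linarith) k
    have hMM : |sp k (MM (xw P w₀))| ≤ δ * ‖k‖ := by
      have e1 : |sp k (MM (xw P w₀))| ≤ |phi k ((xw P w₀, w₀.1, β) : XX)| +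
          |phi k ((xw P w₀, w₀.1, β) : XX) - sp k (MM (xw P w₀))| := by
        have e2 : sp k (MM (xw P w₀)) = phi k ((xw P w₀, w₀.1, β) : XX) -
            (phi k ((xw P w₀, w₀.1, β) : XX) - sp k (MM (xw P w₀))) := by ring
        calc |sp k (MM (xw P w₀))| = |phi k ((xw P w₀, w₀.1, β) : XX) -
            (phi k ((xw P w₀, w₀.1, β) : XX) - sp k (MM (xw P w₀)))| := by rw [← e2]
          _ ≤ _ := abs_sub _ _
      have e3 : |phi k ((xw P w₀, w₀.1, β) : XX)| ≤ c₂ := hφ0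
      have e4 : C3 * (‖k‖ * w₀.1) ≤ C * (‖k‖ * z₂) := by
        refine mul_le_mul (by linarith) ?_ (by positivity) hC0.le
        exact mul_le_mul_of_nonneg_left z2' hk0.le
      linarith
    have hFF : ∀ j, |sp k (FF (xw P w₀) j)| ≤ δ * ‖k‖ := fun j => (hF0 j).trans hδ1
    have hlav := hL (xw P w₀) d η δ ρ c₁ k hS b0 b1 b2 hd hη hη1 bY hsep0 hk hMM hFF
      ((mul_le_mul_of_nonneg_right g1 hsum).trans hsm) hρ.le
      ((mul_le_mul_of_nonneg_right g1 hρ.le).trans (hρη.trans hη1))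
      ((mul_le_mul_of_nonneg_right g1 (by positivity)).trans hρκ)
    -- the set of the chart variables
    set 𝓛 : Set (Fin 3 → ℝ) := {p | (∀ i, |p i - w₀.2 i| ≤ ρ) ∧
      ∀ j, |sp k (FF ((p, P) : VV) j)| ≤ c₁} with h𝓛
    have hvol𝓛 : volume 𝓛 ≤ ENNReal.ofReal (C1 * (ρ * c₁ ^ 2) / (η ^ 20 * ‖k‖ ^ 2)) := by
      refine le_trans (le_of_eq ?_) hlav
      have h1 : 𝓛 = (fun p => p + -w₀.2) ⁻¹' {u : Fin 3 → ℝ | (∀ i, |u i| ≤ ρ) ∧
          ∀ j, |sp k (FF (xw P w₀ + ins u) j)| ≤ c₁} := by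
        ext p
        have e1 : xw P w₀ + ins (p + -w₀.2) = ((p, P) : VV) := by
          unfold xw ins
          refine Prod.ext ?_ ?_
          · show w₀.2 + (p + -w₀.2) = p
            abel
          · show P + 0 = P
            rw [add_zero]
        simp only [h𝓛, Set.mem_ofPred_eq, Set.mem_preimage, e1, Pi.add_apply, Pi.neg_apply,
          sub_eq_add_neg]
      rw [h1, measure_preimage_add_right]
    have hSm : MeasurableSet (Bc P β k d y₀ η z₁ z₂ 4 c₁ c₂ A₁ A₂ ∩ bx ρz ρ w₀) := by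
      refine hmeas.inter ?_
      rw [bx_eq]
      exact measurableSet_Icc.prod (MeasurableSet.univ_pi fun i => measurableSet_Icc)
    rw [Measure.volume_eq_prod, Measure.prod_apply_symm hSm]
    have hsec : ∀ p : Fin 3 → ℝ, volume ((fun z => (z, p)) ⁻¹'
        (Bc P β k d y₀ η z₁ z₂ 4 c₁ c₂ A₁ A₂ ∩ bx ρz ρ w₀)) ≤
        𝓛.indicator (fun _ => ENNReal.ofReal γ) p := by
      intro p
      rcases Set.eq_empty_or_nonempty ((fun z => (z, p)) ⁻¹'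
        (Bc P β k d y₀ η z₁ z₂ 4 c₁ c₂ A₁ A₂ ∩ bx ρz ρ w₀)) with he | hne'
      · rw [he, measure_empty]; exact zero_le
      · obtain ⟨z, hz⟩ := hne'
        obtain ⟨⟨⟨hD, hYz, hsepz⟩, hFz, hφz, hA1z, hA2z⟩, hbz⟩ := id hz
        have hp : p ∈ 𝓛 := ⟨hbz.2, hFz⟩
        rw [Set.indicator_of_mem hp]
        have hxp : xw P (z, p) ∈ KK := D0_KK hS hd1 (by norm_num) hD
        rcases hcase with hc | ⟨hA1, hA1', hγ'⟩
        · -- no use of the radial derivative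
          have h1 : (fun z => (z, p)) ⁻¹' (Bc P β k d y₀ η z₁ z₂ 4 c₁ c₂ A₁ A₂ ∩ bx ρz ρ w₀) ⊆
              Set.Icc (w₀.1 - ρz) (w₀.1 + ρz) := by
            intro t ht
            have := ht.2.1
            rw [abs_le] at this
            exact ⟨by linarith [this.1], by linarith [this.2]⟩
          refine (measure_mono h1).trans ?_
          rw [Real.volume_Icc]
          apply ENNReal.ofReal_le_ofReal
          linarith
        · -- the radial lemma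
          set b : ℝ := kh ((xw P (z, p), 0, β) : XX) k / 2 with hb
          have hb1 : A₁ / 2 ≤ |b| := by
            rw [hb, abs_div, abs_two]
            have : A₁ ≤ |kh ((xw P (z, p), 0, β) : XX) k| := hA1z
            linarith
          have hb0 : b ≠ 0 := by
            intro h0
            rw [h0, abs_zero] at hb1
            linarith
          choose! f' hf' using fun t (ht : t ∈ Set.Icc z₁ z₂) =>
            (hP _ hxp β hβ t (by linarith [ht.1]) (by linarith [ht.2]) k).1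
          have h1 : (fun z => (z, p)) ⁻¹' (Bc P β k d y₀ η z₁ z₂ 4 c₁ c₂ A₁ A₂ ∩ bx ρz ρ w₀) ⊆
              {t : ℝ | t ∈ Set.Icc z₁ z₂ ∧ |phi k ((xw P (z, p), t, β) : XX)| ≤ c₂} := by
            intro t ht
            obtain ⟨⟨⟨hDt, -, -⟩, -, hφt, -, -⟩, -⟩ := ht
            exact ⟨⟨hDt.1, hDt.2.1⟩, hφt⟩
          refine (measure_mono h1).trans ?_
          refine (radial hb0 (fun t ht => (hf' t ht).1) (fun t ht => ?_)).trans ?_
          · refine (hf' t ht).2.trans ?_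
            have e4 : C3 * (‖k‖ * t) ≤ A₁ / 4 := by
              have e5 : 4 * C3 * (‖k‖ * t) ≤ C * (‖k‖ * z₂) := by
                refine mul_le_mul g3 ?_ (mul_nonneg hk0.le (by linarith [ht.1])) hC0.le
                exact mul_le_mul_of_nonneg_left ht.2 hk0.le
              linarith
            linarith
          · apply ENNReal.ofReal_le_ofReal
            refine le_trans ?_ hγ'
            have hb0' : 0 < |b| := by linarith
            rw [div_le_div_iff₀ hb0' hA1]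
            nlinarith
    refine (lintegral_mono hsec).trans ?_
    refine (lintegral_indicator_const_le _ _).trans ?_
    refine (mul_le_mul_right hvol𝓛 _).trans ?_
    rw [← ENNReal.ofReal_mul hγ]
    apply ENNReal.ofReal_le_ofReal
    have e : C * (c₁ ^ 2 * γ) / (η ^ 20 * ‖k‖ ^ 2 * ρ ^ 2 * ρz) * (ρz * ρ ^ 3) =
        C * (ρ * c₁ ^ 2) / (η ^ 20 * ‖k‖ ^ 2) * γ := by
      field_simp
    rw [e, mul_comm]
    refine mul_le_mul_of_nonneg_right ?_ hγ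
    refine div_le_div_of_nonneg_right ?_ (by positivity)
    exact mul_le_mul_of_nonneg_right g1 (by positivity)
  · -- the inclusion
    intro w₀ hw₀ w hw
    obtain ⟨⟨hD0, hY0, hsep0⟩, hF0, hφ0, hA10, hA20⟩ := id hw₀
    have hxK : xw P w₀ ∈ KK := D0_KK hS hd1 (by norm_num) hD0
    obtain ⟨z1', z2', b0, b1, b2, bY⟩ := hD0
    have b0' : |(xw P w₀).1 0| ≤ 1 / 32 := by
      show |w₀.2 0| ≤ _
      linarith
    have b1' : |(xw P w₀).1 1| ≤ 1 / 32 := by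
      show |w₀.2 1| ≤ _
      linarith
    set u : Fin 3 → ℝ := w.2 - w₀.2 with hu
    have hui : ∀ i, |u i| ≤ ρ := fun i => hw.2 i
    have hxu : xw P w = xw P w₀ + ins u := by
      unfold xw ins
      refine Prod.ext ?_ ?_
      · show w.2 = w₀.2 + u
        rw [hu]; abel
      · show P = P + 0
        rw [add_zero]
    have hseg : ∀ s ∈ Set.Icc (0 : ℝ) 1, xw P w₀ + s • ins u ∈ KK := by
      intro s hs
      have e1 : s • ins u = ins (s • u) := by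
        unfold ins
        simp
      rw [e1]
      refine KK_shift (ρ := ρ) hS b0' b1' b2 (fun l hl => (bY l hl).trans (by linarith))
        (fun i => ?_) hρ64
      rw [Pi.smul_apply, smul_eq_mul, abs_mul, abs_of_nonneg hs.1]
      nlinarith [hui i, abs_nonneg (u i), hs.2, hs.1]
    have hwz : |w.1 - w₀.1| ≤ ρz := hw.1
    rw [abs_le] at hwz
    have hw1 : z₁ / 2 ≤ w.1 := by linarith [hwz.1]
    have hw2 : w.1 ≤ 2 * z₂ := by linarith [hwz.2]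
    have hw10 : 0 ≤ w.1 := by linarith
    have hYs := Yf_shift (x := xw P w₀) (hS.e1 2) b0' b1' hui hρ64
    rw [← hxu] at hYs
    have hYs' : |Yf (P.1 2) (mu (xw P w)) (th (xw P w)) -
        Yf (P.1 2) (mu (xw P w₀)) (th (xw P w₀))| ≤ 6 * ρ := hYs
    obtain ⟨i1, i2, i3, i4⟩ := hI (xw P w₀) ρ k hxK hρ.le
      ((mul_le_mul_of_nonneg_right (by linarith) hρ.le).trans (hρη.trans hη1)) u hui
    have i3' := i3 c₁ hF0
    obtain ⟨-, -, -, -, -, f6⟩ := hP _ hxK β hβ w.1 hw10 (by linarith) k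
    obtain ⟨f7, f8⟩ := f6 u ρ hui hseg
    rw [← hxu] at i2 i3' f7 f8
    have hXs := hX (xw P w₀) ρ hxK hρ.le ((mul_le_mul_of_nonneg_right (by linarith) hρ.le).trans
      (hρη.trans hη1)) u hui
    rw [← hxu] at hXs
    have hwi : ∀ i, |w.2 i| ≤ |w₀.2 i| + ρ := by
      intro i
      have e1 : w.2 i = w₀.2 i + u i := by rw [hu, Pi.sub_apply]; ring
      rw [e1]
      exact (abs_add_le _ _).trans (by linarith [hui i])
    refine ⟨⟨⟨hw1, hw2, ?_, ?_, ?_, fun l hl => ?_⟩, ?_, fun l m hlm => ?_⟩, fun j => ?_, ?_,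
      abs_nonneg _, ?_⟩
    · linarith [hwi 0]
    · linarith [hwi 1]
    · linarith [hwi 2]
    · have e1 : P.2.1 l * Yf (P.1 2) (mu (xw P w)) (th (xw P w)) =
          P.2.1 l * Yf (P.1 2) (mu (xw P w₀)) (th (xw P w₀)) +
          P.2.1 l * (Yf (P.1 2) (mu (xw P w)) (th (xw P w)) -
            Yf (P.1 2) (mu (xw P w₀)) (th (xw P w₀))) := by ring
      rw [e1]
      refine (abs_add_le _ _).trans ?_
      rw [abs_mul (P.2.1 l) (Yf (P.1 2) (mu (xw P w)) (th (xw P w)) -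
            Yf (P.1 2) (mu (xw P w₀)) (th (xw P w₀)))]
      have e2 := mul_le_mul (hS.n1 l) hYs' (abs_nonneg _) (by norm_num)
      linarith [bY l hl]
    · have e1 : Yf (P.1 2) (mu (xw P w)) (th (xw P w)) =
          Yf (P.1 2) (mu (xw P w₀)) (th (xw P w₀)) +
          (Yf (P.1 2) (mu (xw P w)) (th (xw P w)) -
            Yf (P.1 2) (mu (xw P w₀)) (th (xw P w₀))) := by ring
      rw [e1]
      exact (abs_add_le _ _).trans (by linarith)
    · have e1 := hXs l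
      have e2 := hXs m
      have e3 := hsep0 l m hlm
      have e4 : Xq P.1 P.2.1 P.2.2 (mu (xw P w₀)) (th (xw P w₀)) l -
          Xq P.1 P.2.1 P.2.2 (mu (xw P w₀)) (th (xw P w₀)) m =
          (Xq P.1 P.2.1 P.2.2 (mu (xw P w)) (th (xw P w)) l -
            Xq P.1 P.2.1 P.2.2 (mu (xw P w)) (th (xw P w)) m) -
          (Xq P.1 P.2.1 P.2.2 (mu (xw P w)) (th (xw P w)) l -
            Xq P.1 P.2.1 P.2.2 (mu (xw P w₀)) (th (xw P w₀)) l) +
          (Xq P.1 P.2.1 P.2.2 (mu (xw P w)) (th (xw P w)) m -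
            Xq P.1 P.2.1 P.2.2 (mu (xw P w₀)) (th (xw P w₀)) m) := by ring
      rw [e4] at e3
      have e5 : η ≤ ‖Xq P.1 P.2.1 P.2.2 (mu (xw P w)) (th (xw P w)) l -
            Xq P.1 P.2.1 P.2.2 (mu (xw P w)) (th (xw P w)) m‖ + C4 * ρ + C4 * ρ :=
        e3.trans ((norm_add_le _ _).trans (add_le_add ((norm_sub_le _ _).trans
          (add_le_add le_rfl e1)) e2))
      have e6 : 4 * C4 * ρ ≤ η := (mul_le_mul_of_nonneg_right g4 hρ.le).trans hρη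
      linarith
    · have e1 := i2 j
      have e2 := hF0 j
      have e3 : |sp k (FF (xw P w) j)| ≤ |sp k (FF (xw P w₀) j)| +
          |sp k (FF (xw P w) j) - sp k (FF (xw P w₀) j)| := by
        have e4 : sp k (FF (xw P w) j) = sp k (FF (xw P w₀) j) +
          (sp k (FF (xw P w) j) - sp k (FF (xw P w₀) j)) := by ring
        calc |sp k (FF (xw P w) j)| = |sp k (FF (xw P w₀) j) +
          (sp k (FF (xw P w) j) - sp k (FF (xw P w₀) j))| := by rw [← e4]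
          _ ≤ _ := abs_add_le _ _
      have e5 : C2 * (‖k‖ * ρ) ≤ C * (‖k‖ * ρ) := mul_le_mul_of_nonneg_right (by linarith) hkρ
      linarith
    · -- the radial derivative
      have e1 : |phi k ((xw P w₀, w.1, β) : XX) - phi k ((xw P w₀, w₀.1, β) : XX)| ≤
          (A₂ / 2 + 2 * C3 * (‖k‖ * z₂)) * ρz := by
        choose! f' hf' using fun t (ht : t ∈ Set.Icc (z₁ / 2) (2 * z₂)) =>
          (hP _ hxK β hβ t (by linarith [ht.1]) (by linarith [ht.2]) k).1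
        have hmv := (convex_Icc (z₁ / 2) (2 * z₂)).norm_image_sub_le_of_norm_hasDerivWithin_le
          (f := fun t : ℝ => phi k ((xw P w₀, t, β) : XX)) (f' := f')
          (C := A₂ / 2 + 2 * C3 * (‖k‖ * z₂))
          (fun t ht => (hf' t ht).1.hasDerivWithinAt) (fun t ht => by
            rw [Real.norm_eq_abs]
            have e2 := (hf' t ht).2
            have e3 : |kh ((xw P w₀, 0, β) : XX) k| ≤ A₂ := hA20
            have e4 : |f' t| ≤ |kh ((xw P w₀, 0, β) : XX) k / 2| +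
                |f' t - kh ((xw P w₀, 0, β) : XX) k / 2| := by
              have e5 : f' t = kh ((xw P w₀, 0, β) : XX) k / 2 +
                (f' t - kh ((xw P w₀, 0, β) : XX) k / 2) := by ring
              calc |f' t| = |kh ((xw P w₀, 0, β) : XX) k / 2 +
                (f' t - kh ((xw P w₀, 0, β) : XX) k / 2)| := by rw [← e5]
                _ ≤ _ := abs_add_le _ _
            rw [abs_div, abs_two] at e4
            have e6 : C3 * (‖k‖ * t) ≤ 2 * C3 * (‖k‖ * z₂) := by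
              have := mul_le_mul_of_nonneg_left ht.2 (by positivity : 0 ≤ C3 * ‖k‖)
              linarith
            linarith) (x := w₀.1) (y := w.1) ⟨by linarith, by linarith⟩ ⟨hw1, hw2⟩
        rw [Real.norm_eq_abs, Real.norm_eq_abs] at hmv
        refine hmv.trans (mul_le_mul_of_nonneg_left hw.1 (by positivity))
      have e2 : phi k (qw P β w) = phi k ((xw P w, w.1, β) : XX) := rfl
      have e3 : |phi k ((xw P w₀, w₀.1, β) : XX)| ≤ c₂ := hφ0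
      have e4 : phi k ((xw P w, w.1, β) : XX) = phi k ((xw P w₀, w₀.1, β) : XX) +
          (phi k ((xw P w₀, w.1, β) : XX) - phi k ((xw P w₀, w₀.1, β) : XX)) +
          (phi k ((xw P w, w.1, β) : XX) - phi k ((xw P w₀, w.1, β) : XX)) := by ring
      rw [e2, e4]
      refine (abs_add_le _ _).trans ((add_le_add (abs_add_le _ _) le_rfl).trans ?_)
      -- collect
      have e5 : 3 * ρ * (c₁ + C2 * (‖k‖ * ρ)) ≤ C * (ρ * (c₁ + ‖k‖ * ρ)) := by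
        have e6 : 3 * ρ * c₁ ≤ C * (ρ * c₁) := by
          have : 3 * (ρ * c₁) ≤ C * (ρ * c₁) := mul_le_mul_of_nonneg_right (by linarith)
            (by positivity)
          linarith
        have e7 : 3 * C2 * (ρ * (‖k‖ * ρ)) ≤ C * (ρ * (‖k‖ * ρ)) :=
          mul_le_mul_of_nonneg_right (by linarith) (by positivity)
        linarith
      have e8 : C3 * (‖k‖ * w.1 * ρ) ≤ C * (‖k‖ * z₂ * ρ) := by
        have e9 : C3 * (‖k‖ * w.1 * ρ) ≤ C3 * (‖k‖ * (2 * z₂) * ρ) :=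
          mul_le_mul_of_nonneg_left (mul_le_mul_of_nonneg_right
            (mul_le_mul_of_nonneg_left hw2 hk0.le) hρ.le) (by linarith)
        have e10 : 2 * C3 * (‖k‖ * z₂ * ρ) ≤ C * (‖k‖ * z₂ * ρ) :=
          mul_le_mul_of_nonneg_right (by linarith) (by positivity)
        linarith
      have e9 : (A₂ / 2 + 2 * C3 * (‖k‖ * z₂)) * ρz ≤ C * ((A₂ + ‖k‖ * z₂) * ρz) := by
        have e10 : 2 * C3 * (‖k‖ * z₂) ≤ C * (‖k‖ * z₂) :=
          mul_le_mul_of_nonneg_right (by linarith) (by positivity)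
        have e11 : A₂ / 2 ≤ C * A₂ := by nlinarith
        have e12 : A₂ / 2 + 2 * C3 * (‖k‖ * z₂) ≤ C * (A₂ + ‖k‖ * z₂) := by linarith
        calc (A₂ / 2 + 2 * C3 * (‖k‖ * z₂)) * ρz ≤ (C * (A₂ + ‖k‖ * z₂)) * ρz :=
              mul_le_mul_of_nonneg_right e12 hρz.le
          _ = C * ((A₂ + ‖k‖ * z₂) * ρz) := by ring
      linarith
    · have e1 : |kh (q0 P β w) k| ≤ |kh ((xw P w₀, 0, β) : XX) k| +
          |kh ((xw P w, 0, β) : XX) k - kh ((xw P w₀, 0, β) : XX) k| := by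
        have e2 : kh (q0 P β w) k = kh ((xw P w₀, 0, β) : XX) k +
          (kh ((xw P w, 0, β) : XX) k - kh ((xw P w₀, 0, β) : XX) k) := by
          have : q0 P β w = ((xw P w, 0, β) : XX) := rfl
          rw [this]; ring
        rw [e2]
        exact abs_add_le _ _
      have e3 : |kh ((xw P w₀, 0, β) : XX) k| ≤ A₂ := hA20
      have e5 : C3 * (‖k‖ * ρ) ≤ C * (‖k‖ * ρ) := mul_le_mul_of_nonneg_right (by linarith) hkρ
      linarith

/-- the averaging with windows -/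
theorem matw : ∃ C : ℝ, 1 ≤ C ∧ ∀ (P : PP) (β : Fin 3 → ℝ) (k : Fin 3 → ℂ)
    (d y₀ η δ z₁ z₂ c₁ c₂ A₁ A₂ ρ ρz γ : ℝ) (E E' : Set (ℝ × (Fin 3 → ℝ))),
    Std P.1 P.2.1 P.2.2 → (∀ l, |β l| ≤ 1) → 0 < d → 0 < η → η ≤ 1 → 0 < z₁ → C * z₂ ≤ 1 →
    k ≠ 0 → 0 ≤ c₁ → 0 ≤ c₂ → 0 ≤ A₂ → c₁ ≤ δ * ‖k‖ → c₂ + C * (‖k‖ * z₂) ≤ δ * ‖k‖ →
    C * (√d + δ) ≤ η ^ 20 → 0 < ρ → C * ρ ≤ η → C * (‖k‖ * ρ ^ 2) ≤ c₁ → 0 < ρz → ρz ≤ z₁ / 2 →
    0 ≤ γ → (2 * ρz ≤ γ ∨ (0 < A₁ ∧ C * (‖k‖ * z₂) ≤ A₁ ∧ 8 * c₂ / A₁ ≤ γ)) →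
    MeasurableSet E →
    (∀ w₀ ∈ Bc P β k d y₀ η z₁ z₂ 4 c₁ c₂ A₁ A₂ ∩ E, bx ρz ρ w₀ ⊆ E') →
    volume (Bc P β k d y₀ η z₁ z₂ 4 c₁ c₂ A₁ A₂ ∩ E) ≤
      ENNReal.ofReal (C * (c₁ ^ 2 * γ) / (η ^ 20 * ‖k‖ ^ 2 * ρ ^ 2 * ρz)) *
      volume (Bc P β k (d + 6 * ρ) (y₀ + 6 * ρ) (η / 2) (z₁ / 2) (2 * z₂) (4 + ρ)
        (c₁ + C * (‖k‖ * ρ))
        (c₂ + C * (ρ * (c₁ + ‖k‖ * ρ)) + C * (‖k‖ * z₂ * ρ) + C * ((A₂ + ‖k‖ * z₂) * ρz))
        0 (A₂ + C * (‖k‖ * ρ)) ∩ E') := by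
  obtain ⟨C, hC, hM⟩ := matc0
  refine ⟨C, hC, ?_⟩
  intro P β k d y₀ η δ z₁ z₂ c₁ c₂ A₁ A₂ ρ ρz γ E E' hS hβ hd hη hη1 hz1 hz2 hk hc1 hc2 hA2 hδ1 hδ2
    hsm hρ hρη hρκ hρz hρz1 hγ hcase hE hEE
  rcases Set.eq_empty_or_nonempty (Bc P β k d y₀ η z₁ z₂ 4 c₁ c₂ A₁ A₂) with hemp | hne
  · rw [hemp, Set.empty_inter, measure_empty]; exact zero_le
  obtain ⟨h1, h2, h3⟩ := hM P β k d y₀ η δ z₁ z₂ c₁ c₂ A₁ A₂ ρ ρz γ hS hβ hd hη hη1 hz1 hz2 hk hc1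
    hc2 hA2 hδ1 hδ2 hsm hρ hρη hρκ hρz hρz1 hγ hcase hne
  have hk0 : 0 < ‖k‖ := norm_pos_iff.2 hk
  refine average (h1.inter hE) hρz hρ (by positivity) (fun w₀ hw₀ => ?_) (fun w₀ hw₀ w hw => ?_)
  · refine (measure_mono ?_).trans (h2 w₀ hw₀.1)
    rintro y ⟨⟨hy1, -⟩, hy2⟩
    exact ⟨hy1, hy2⟩
  · exact ⟨h3 w₀ hw₀.1 hw, hEE w₀ hw₀ hw⟩

end Pool.Agent.F5.H58
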