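import Pool.Agent.F5H.StmtsF
import Pool.Agent.Helper58_F5.MatC

/-!
# MAT, part D: from the body to the chart
-/

set_option autoImplicit false

namespace Pool.Agent.F5.H58

open Complex ComplexConjugate MeasureTheory Pool.Agent.F5H.BC Pool.Agent.BTL Pool.Agent.F5S
  Pool.Agent.F5H
open Pool.Agent.Helper68_F5 (bf)

/-- all uniform bounds, with the constant `Q` -/
def AC (Q : ℝ) : Prop := ∀ x ∈ KK, ∀ β : Fin 3 → ℝ, (∀ l, |β l| ≤ 1) → ∀ z : ℝ, 0 ≤ z →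
  Q * z ≤ 1 → ((x, z, β) : XX) ∈ UX ∧
    (∀ j, ‖dN ((x, z, β) : XX) (Pi.single j 1) 0‖ ≤ Q) ∧
    (∀ l, ‖wp ((x, z, β) : XX) l - wp ((x, 0, β) : XX) l‖ ≤ Q * z) ∧
    (∀ k, |sp k (Z1 ((x, z, β) : XX))| ≤ Q * ‖k‖) ∧
    (∀ k j, |sp k (DG ((x, z, β) : XX) j) - sp k (FF x j)| ≤ Q * (‖k‖ * z)) ∧
    (∀ k, |kh ((x, 0, β) : XX) k| ≤ Q * ‖k‖) ∧
    (∀ k, |sp k (KQ ((x, z, β) : XX)) - kh ((x, 0, β) : XX) k| ≤ Q * (‖k‖ * z)) ∧
    (∀ (u : Fin 3 → ℝ) (ρ z' : ℝ), (∀ i, |u i| ≤ ρ) → 0 ≤ z' → Q * z' ≤ 1 →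
      (∀ s ∈ Set.Icc (0 : ℝ) 1, x + s • ins u ∈ KK) →
      ∀ l, ‖TA ((x + ins u, z', β) : XX) l - TA ((x, z, β) : XX) l‖ ≤ Q * (ρ + |z' - z|))

theorem ac_ev (lpx : LPXStmt) : ∃ Q0 : ℝ, 1 ≤ Q0 ∧ ∀ Q : ℝ, Q0 ≤ Q → AC Q := by
  obtain ⟨C1, r1, hC1, hr1, h1⟩ := lpx
  obtain ⟨C2, r2, hC2, hr2, h2⟩ := phi_facts
  obtain ⟨C3, r3, hC3, hr3, h3⟩ := ext_bounds
  have i1 : 0 < 1 / r1 := by positivity
  have i2 : 0 < 1 / r2 := by positivity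
  have i3 : 0 < 1 / r3 := by positivity
  refine ⟨3 * C1 + C2 + 3 * C3 + 1 / r1 + 1 / r2 + 1 / r3, by linarith, fun Q hQ => ?_⟩
  intro x hx β hβ z hz0 hz
  have key : ∀ r : ℝ, 0 < r → 1 / r ≤ Q → ∀ z : ℝ, 0 ≤ z → Q * z ≤ 1 → z ≤ r := by
    intro r hr hrQ z hz0 hz
    have e1 : 1 / r * z ≤ 1 := (mul_le_mul_of_nonneg_right hrQ hz0).trans hz
    have e2 : 1 / r * z = z / r := by ring
    rw [e2, div_le_one hr] at e1
    exact e1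
  have k1 := key r1 hr1 (by linarith)
  obtain ⟨a1, a2, a3, a4⟩ := h1 x hx β hβ z hz0 (k1 z hz0 hz)
  have hb : ∀ k, |kh ((x, 0, β) : XX) k| ≤ C2 * ‖k‖ := fun k =>
    (h2 x hx β hβ z hz0 (key r2 hr2 (by linarith) z hz0 hz) k).2.2.2.1
  have hb3 : ∀ k j, |sp k (DG ((x, z, β) : XX) j) - sp k (FF x j)| ≤ C2 * (‖k‖ * z) := fun k =>
    (h2 x hx β hβ z hz0 (key r2 hr2 (by linarith) z hz0 hz) k).2.2.1
  obtain ⟨c1, -, -, c4, -, -, -⟩ := h3 x hx β hβ z hz0 (key r3 hr3 (by linarith) z hz0 hz)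
  refine ⟨c1, fun j => (a1 j).trans (by linarith), fun l => (a2 l).trans ?_, fun k => ?_,
    fun k j => (hb3 k j).trans ?_, fun k => (hb k).trans ?_, fun k => ?_, ?_⟩
  · exact mul_le_mul_of_nonneg_right (by linarith) hz0
  · refine (abs_sp_le _ _).trans ?_
    calc 3 * ‖k‖ * ‖Z1 ((x, z, β) : XX)‖ ≤ 3 * ‖k‖ * C3 :=
          mul_le_mul_of_nonneg_left c4 (by positivity)
      _ = 3 * C3 * ‖k‖ := by ring
      _ ≤ Q * ‖k‖ := mul_le_mul_of_nonneg_right (by linarith) (norm_nonneg _)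
  · exact mul_le_mul_of_nonneg_right (by linarith) (by positivity)
  · exact mul_le_mul_of_nonneg_right (by linarith) (norm_nonneg _)
  · rw [← KQ_zero (q := ((x, 0, β) : XX)) rfl, ← sp_sub]
    refine (abs_sp_le _ _).trans ?_
    calc 3 * ‖k‖ * ‖KQ ((x, z, β) : XX) - KQ ((x, 0, β) : XX)‖ ≤ 3 * ‖k‖ * (C1 * z) :=
          mul_le_mul_of_nonneg_left a3 (by positivity)
      _ = 3 * C1 * (‖k‖ * z) := by ring
      _ ≤ Q * (‖k‖ * z) := mul_le_mul_of_nonneg_right (by linarith) (by positivity)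
  · intro u ρ z' hu hz'0 hz' hs l
    have hρ : 0 ≤ ρ := (abs_nonneg _).trans (hu 0)
    refine (a4 u ρ z' hu hz'0 (k1 z' hz'0 hz') hs l).trans ?_
    exact mul_le_mul_of_nonneg_right (by linarith) (by positivity)

/-- the data of a centre -/
structure Ctr (T Q : ℝ) (V : Fin 3 → ℝ) (k0 : ℝ) (s : Bool × Bool) (h k : R6)
    (A : ℝ × ℝ × ℝ) : Prop where
  hQ : 1000 ≤ Q
  ac : AC Q
  hA : A ∈ KM Q
  srt : Srt (hG A h)
  sz1 : ∀ l, V l ≤ Q ^ 2 * ‖hG A h l‖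
  sz2 : ∀ l, ‖hG A h l‖ ≤ Q ^ 3 * V l
  v2 : 1 ≤ V 2
  v12 : V 2 ≤ V 1
  v01 : V 1 ≤ V 0
  k1 : 1 ≤ k0
  kA1 : k0 ≤ Q ^ 2 * ‖kG A k‖
  kA2 : ‖kG A k‖ ≤ Q ^ 2 * k0
  hT : 1 < T
  p0 : 0 < kap T (V 0)
  p1 : Q ^ 100 * kap T (V 0) ≤ 1
  p2 : 0 < kpr T (V 0)
  p3 : kpr T (V 0) ≤ kap T (V 0)
  p4 : Q ^ 100 * (k0 * ze T V) ≤ kap T (V 0)
  p5 : Q ^ 100 * (k0 * ze T V) ≤ 1
  p6 : 0 < Rx T / T
  p7 : Q ^ 100 * (Rx T / T) ≤ V 1

/-- the classes of `kappa` -/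
noncomputable def A2j (Q k0 : ℝ) (j : ℕ) : ℝ := Q ^ 4 * k0 * dl k0 j

/-- the classes of `kappa` -/
noncomputable def A1j (Q k0 : ℝ) (j : ℕ) : ℝ :=
  if k0⁻¹ ≤ (1 / 2) ^ j then A2j Q k0 j / 2 else 0

/-- the set in the chart -/
def Bj (T Q : ℝ) (V : Fin 3 → ℝ) (k0 : ℝ) (s : Bool × Bool) (h k : R6) (A : ℝ × ℝ × ℝ) (j : ℕ) :
    Set (ℝ × (Fin 3 → ℝ)) :=
  Bc (Pc A s h) (bc A h) (kG A k) (1 / Q ^ 50) (Q ^ 4 * (Rx T / T / V 2)) (1 / Q)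
    (sF T A h / 2) (2 * sF T A h) 4 (Q ^ 4 * kap T (V 0)) (Q ^ 2 * kpr T (V 0)) (A1j Q k0 j)
    (A2j Q k0 j)

/-- the windows in the chart -/
def Ew (T Q : ℝ) (V : Fin 3 → ℝ) (s : Bool × Bool) (h k : R6) (A : ℝ × ℝ × ℝ) :
    Set (ℝ × (Fin 3 → ℝ)) :=
  D0 (Pc A s h) (1 / Q ^ 50) (3 / 4 * sF T A h) (5 / 4 * sF T A h) 4 ∩
    {w | ∀ l, |(conj (kG A k l) * TA (qw (Pc A s h) (bc A h) w) l).re| ≤ Q ^ 2 * V l}

section

variable {T Q : ℝ} {V : Fin 3 → ℝ} {k0 : ℝ} {s : Bool × Bool} {h k : R6} {A : ℝ × ℝ × ℝ}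

theorem Ctr.Q0 (X : Ctr T Q V k0 s h k A) : 0 < Q := by linarith [X.hQ]

theorem Ctr.Q1 (X : Ctr T Q V k0 s h k A) : 1 ≤ Q := by linarith [X.hQ]

theorem Ctr.T0 (X : Ctr T Q V k0 s h k A) : 0 < T := by linarith [X.hT]

theorem Ctr.k00 (X : Ctr T Q V k0 s h k A) : 0 < k0 := by linarith [X.k1]

theorem Ctr.V0 (X : Ctr T Q V k0 s h k A) : 0 < V 0 := by linarith [X.v2, X.v12, X.v01]

theorem Ctr.V1 (X : Ctr T Q V k0 s h k A) : 0 < V 1 := by linarith [X.v2, X.v12, X.v01]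

theorem Ctr.V2 (X : Ctr T Q V k0 s h k A) : 0 < V 2 := by linarith [X.v2, X.v12, X.v01]

theorem Ctr.Vl (X : Ctr T Q V k0 s h k A) (l : Fin 3) : 1 ≤ V l := by
  fin_cases l
  · show 1 ≤ V 0
    linarith [X.v2, X.v12, X.v01]
  · show 1 ≤ V 1
    linarith [X.v2, X.v12, X.v01]
  · exact X.v2

theorem Ctr.nH (X : Ctr T Q V k0 s h k A) (l : Fin 3) : 0 < ‖hG A h l‖ := by
  have h1 := X.sz1 l
  have h2 := X.Vl l
  have h3 : 0 < Q ^ 2 := pow_pos X.Q0 2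
  by_contra hc
  have h4 : ‖hG A h l‖ = 0 := le_antisymm (not_lt.1 hc) (norm_nonneg _)
  rw [h4, mul_zero] at h1
  linarith

theorem Ctr.neH (X : Ctr T Q V k0 s h k A) (l : Fin 3) : hG A h l ≠ 0 := norm_pos_iff.1 (X.nH l)

theorem Ctr.leH (X : Ctr T Q V k0 s h k A) (l : Fin 3) : ‖hG A h l‖ ≤ ‖hG A h 0‖ := by
  fin_cases l
  · exact le_rfl
  · exact X.srt.2
  · exact X.srt.1.trans X.srt.2

theorem Ctr.geH (X : Ctr T Q V k0 s h k A) (l : Fin 3) : ‖hG A h 2‖ ≤ ‖hG A h l‖ := by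
  fin_cases l
  · exact X.srt.1.trans X.srt.2
  · exact X.srt.1
  · exact le_rfl

theorem Ctr.bc_pos (X : Ctr T Q V k0 s h k A) (l : Fin 3) : 0 < bc A h l :=
  div_pos (X.nH l) (X.nH 0)

theorem Ctr.bc_le (X : Ctr T Q V k0 s h k A) (l : Fin 3) : |bc A h l| ≤ 1 := by
  rw [abs_of_pos (X.bc_pos l)]
  exact div_le_one_of_le₀ (X.leH l) (norm_nonneg _)

theorem sg_sq (s : Bool × Bool) (l : Fin 3) : sg s l ^ 2 = 1 := by
  unfold sg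
  fin_cases l
  · show (if s.1 = true then (1 : ℝ) else -1) ^ 2 = 1
    split_ifs <;> norm_num
  · show (if s.2 = true then (1 : ℝ) else -1) ^ 2 = 1
    split_ifs <;> norm_num
  · show (1 : ℝ) ^ 2 = 1
    norm_num

theorem Ctr.std (X : Ctr T Q V k0 s h k A) :
    Std (Pc A s h).1 (Pc A s h).2.1 (Pc A s h).2.2 := by
  refine ⟨fun l => ?_, fun l => ?_, sg_sq s⟩
  · show ‖hG A h l / (‖hG A h l‖ : ℂ)‖ = 1
    rw [norm_div, norm_real, Real.norm_eq_abs, abs_norm, div_self (X.nH l).ne']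
  · show |‖hG A h 2‖ / ‖hG A h l‖| ≤ 1
    rw [abs_of_pos (div_pos (X.nH 2) (X.nH l))]
    exact div_le_one_of_le₀ (X.geH l) (norm_nonneg _)

theorem Ctr.S0 (X : Ctr T Q V k0 s h k A) : 0 < sF T A h := by
  unfold sF
  have := X.nH 0
  have := X.T0
  positivity

theorem Ctr.S1 (X : Ctr T Q V k0 s h k A) : ze T V ≤ Q ^ 5 * sF T A h := by
  unfold ze sF
  have hT := X.T0
  have h1 := X.sz1 0
  have h2 : V 0 ^ 2 ≤ (Q ^ 2 * ‖hG A h 0‖) ^ 2 := pow_le_pow_left₀ X.V0.le h1 2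
  rw [mul_div_assoc', div_le_div_iff₀ (by positivity) (by positivity)]
  have h3 : V 0 ^ 2 * (4 * T ^ 2) ≤ (Q ^ 2 * ‖hG A h 0‖) ^ 2 * (4 * T ^ 2) :=
    mul_le_mul_of_nonneg_right h2 (by positivity)
  have h4 : (Q ^ 2 * ‖hG A h 0‖) ^ 2 * (4 * T ^ 2) =
      4 * (Q ^ 4 * (‖hG A h 0‖ ^ 2 * T ^ 2)) := by ring
  have h5 : Q ^ 5 * ‖hG A h 0‖ ^ 2 * T ^ 2 = Q * (Q ^ 4 * (‖hG A h 0‖ ^ 2 * T ^ 2)) := by ring
  rw [h4] at h3
  rw [h5]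
  refine h3.trans (mul_le_mul_of_nonneg_right (by linarith [X.hQ]) ?_)
  have := X.Q0
  positivity

theorem Ctr.S2 (X : Ctr T Q V k0 s h k A) : sF T A h ≤ Q ^ 6 * ze T V := by
  unfold ze sF
  have hT := X.T0
  have h1 := X.sz2 0
  have h2 : ‖hG A h 0‖ ^ 2 ≤ (Q ^ 3 * V 0) ^ 2 := pow_le_pow_left₀ (norm_nonneg _) h1 2
  rw [mul_div_assoc', div_le_div_iff₀ (by positivity) (by positivity)]
  have h3 : ‖hG A h 0‖ ^ 2 * T ^ 2 ≤ (Q ^ 3 * V 0) ^ 2 * T ^ 2 :=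
    mul_le_mul_of_nonneg_right h2 (by positivity)
  have h4 : 0 ≤ (Q ^ 3 * V 0) ^ 2 * T ^ 2 := by positivity
  have h5 : Q ^ 6 * V 0 ^ 2 * (4 * T ^ 2) = 4 * ((Q ^ 3 * V 0) ^ 2 * T ^ 2) := by ring
  rw [h5]
  linarith

theorem Ctr.ze0 (X : Ctr T Q V k0 s h k A) : 0 < ze T V := by
  unfold ze
  have := X.V0
  have := X.T0
  positivity

/-- products of powers of `Q` -/
theorem Ctr.pw (X : Ctr T Q V k0 s h k A) {a b : ℕ} (hab : a ≤ b) : Q ^ a ≤ Q ^ b :=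
  pow_le_pow_right₀ X.Q1 hab

/-- `Q ^ 90 * (k0 * S) ≤ kap` -/
theorem Ctr.kS (X : Ctr T Q V k0 s h k A) : Q ^ 94 * (k0 * sF T A h) ≤ kap T (V 0) := by
  refine le_trans ?_ X.p4
  have h1 := X.S2
  have hQ := X.Q0
  calc Q ^ 94 * (k0 * sF T A h) ≤ Q ^ 94 * (k0 * (Q ^ 6 * ze T V)) :=
        mul_le_mul_of_nonneg_left (mul_le_mul_of_nonneg_left h1 X.k00.le) (by positivity)
    _ = Q ^ 100 * (k0 * ze T V) := by ring

theorem Ctr.kS1 (X : Ctr T Q V k0 s h k A) : Q ^ 94 * (k0 * sF T A h) ≤ 1 := by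
  refine le_trans ?_ X.p5
  have h1 := X.S2
  have hQ := X.Q0
  calc Q ^ 94 * (k0 * sF T A h) ≤ Q ^ 94 * (k0 * (Q ^ 6 * ze T V)) :=
        mul_le_mul_of_nonneg_left (mul_le_mul_of_nonneg_left h1 X.k00.le) (by positivity)
    _ = Q ^ 100 * (k0 * ze T V) := by ring

theorem Ctr.S3 (X : Ctr T Q V k0 s h k A) : Q ^ 94 * sF T A h ≤ 1 := by
  refine le_trans ?_ X.kS1
  refine mul_le_mul_of_nonneg_left ?_ (pow_pos X.Q0 _).le
  exact le_mul_of_one_le_left X.S0.le X.k1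

theorem Ctr.zz (X : Ctr T Q V k0 s h k A) {z : ℝ} (hz : z ≤ 2 * sF T A h) : Q * z ≤ 1 := by
  have h1 := X.S3
  have h2 : Q * z ≤ Q * (2 * sF T A h) := mul_le_mul_of_nonneg_left hz X.Q0.le
  have h3 : Q ^ 2 * sF T A h ≤ Q ^ 94 * sF T A h :=
    mul_le_mul_of_nonneg_right (X.pw (by norm_num)) X.S0.le
  have h4 : Q * (2 * sF T A h) ≤ Q ^ 2 * sF T A h := by
    have h5 : Q * (2 * sF T A h) = (2 * Q) * sF T A h := by ring
    rw [h5]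
    refine mul_le_mul_of_nonneg_right ?_ X.S0.le
    nlinarith [X.hQ]
  linarith

/-- the norm of the dual vector times `z` -/
theorem Ctr.Kz (X : Ctr T Q V k0 s h k A) {z : ℝ} (hz0 : 0 ≤ z) (hz : z ≤ 2 * sF T A h) :
    Q ^ 90 * (‖kG A k‖ * z) ≤ kap T (V 0) := by
  have h1 := X.kS
  have hQ := X.Q0
  have h2 : ‖kG A k‖ * z ≤ Q ^ 2 * k0 * (2 * sF T A h) :=
    mul_le_mul X.kA2 hz hz0 (by have := X.k00; positivity)
  have h3 : Q ^ 90 * (‖kG A k‖ * z) ≤ Q ^ 90 * (Q ^ 2 * k0 * (2 * sF T A h)) :=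
    mul_le_mul_of_nonneg_left h2 (by positivity)
  have h4 : Q ^ 90 * (Q ^ 2 * k0 * (2 * sF T A h)) = 2 * (Q ^ 92 * (k0 * sF T A h)) := by ring
  have h5 : 2 * (Q ^ 92 * (k0 * sF T A h)) ≤ Q ^ 94 * (k0 * sF T A h) := by
    have h6 : Q ^ 94 * (k0 * sF T A h) = Q ^ 2 * (Q ^ 92 * (k0 * sF T A h)) := by ring
    rw [h6]
    refine mul_le_mul_of_nonneg_right ?_ (by
      have := X.k00
      have := X.S0
      positivity)
    nlinarith [X.hQ]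
  linarith

/-- `hG` of the form of the chart -/
theorem hG_Ach (cha : CHAStmt) (X : Ctr T Q V k0 s h k A) {lam : ℝ} {μ : ℂ} (hl : 0 < lam)
    (hμ : ‖μ‖ < 1) (l : Fin 3) : hG (Ach A lam μ) h l =
      om μ * ((√lam * ‖hG A h l‖ : ℝ) : ℂ) * Eh ((Pc A s h).1 l) μ := by
  have h1 := (cha.2 A Q lam μ X.Q1 X.hA hl hμ).2.1 (cp h l)
  have h2 : hG (Ach A lam μ) h l = gA (Ach A lam μ) (cp h l) := rfl
  have h3 : gA A (cp h l) = hG A h l := rfl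
  have h4 : (‖hG A h l‖ : ℂ) ≠ 0 := by exact_mod_cast (X.nH l).ne'
  have h5 : (Pc A s h).1 l = hG A h l / (‖hG A h l‖ : ℂ) := rfl
  rw [h2, h1, h3, h5]
  unfold Eh
  rw [map_div₀, conj_ofReal]
  push_cast
  field_simp

theorem norm_om {μ : ℂ} (hμ : ‖μ‖ < 1) : ‖om μ‖ = 1 := by
  have h1 : (1 : ℂ) + μ ≠ 0 := by
    intro h
    have h2 : μ = -1 := by linear_combination h
    rw [h2, norm_neg, norm_one] at hμ
    exact lt_irrefl _ hμ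
  have h2 : ‖(1 : ℂ) + μ‖ ≠ 0 := norm_ne_zero_iff.2 h1
  unfold om
  rw [norm_div, norm_conj, norm_real, Real.norm_eq_abs, abs_norm, div_self h2]

theorem exp_Psi {μ : ℂ} (hμ : ‖μ‖ < 1) (θ : ℝ) :
    cexp (((ph3 μ θ - arg (1 + μ) : ℝ) : ℂ) * I) = om μ * w3 μ θ := by
  have h1 : (1 : ℂ) + μ ≠ 0 := by
    intro h
    have h2 : μ = -1 := by linear_combination h
    rw [h2, norm_neg, norm_one] at hμ
    exact lt_irrefl _ hμ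
  have h2 : (‖(1 : ℂ) + μ‖ : ℂ) ≠ 0 := by exact_mod_cast norm_ne_zero_iff.2 h1
  have h3 := norm_mul_exp_arg_mul_I (1 + μ)
  have h4 : conj (1 + μ) = (‖1 + μ‖ : ℂ) * cexp (-((arg (1 + μ) : ℝ) : ℂ) * I) := by
    rw [← h3, map_mul, ← exp_conj]
    simp only [map_mul, conj_ofReal, conj_I, norm_mul, norm_real, Real.norm_eq_abs, abs_norm,
      norm_exp_ofReal_mul_I, mul_one]
    congr 2
    rw [h3]
    ring
  have h5 : om μ = cexp (-((arg (1 + μ) : ℝ) : ℂ) * I) := by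
    unfold om
    rw [h4]
    field_simp
  rw [h5]
  unfold w3
  rw [← Complex.exp_add]
  congr 1
  push_cast
  ring

/-- the slab in the chart -/
theorem Ctr.slab (cha : CHAStmt) (X : Ctr T Q V k0 s h k A) {lam θ : ℝ} {μ : ℂ}
    (hl : 1 / 4 ≤ lam) (hμ : ‖μ‖ < 1)
    (hs : T * |(conj (cexp (((ph3 μ θ - arg (1 + μ) : ℝ) : ℂ) * I)) *
      hG (Ach A lam μ) h 2).re| ≤ Q * Rx T) :
    ‖hG A h 2‖ * |Yf ((Pc A s h).1 2) μ θ| ≤ 2 * Q * (Rx T / T) := by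
  have hl0 : 0 < lam := by linarith
  have hsq : 1 / 2 ≤ √lam := by
    rw [Real.le_sqrt' (by norm_num)]
    linarith
  have h1 : (conj (cexp (((ph3 μ θ - arg (1 + μ) : ℝ) : ℂ) * I)) * hG (Ach A lam μ) h 2).re =
      √lam * ‖hG A h 2‖ * Yf ((Pc A s h).1 2) μ θ := by
    rw [exp_Psi hμ, hG_Ach cha X hl0 hμ 2]
    have h2 := unit_mul_conj (norm_om hμ)
    have h3 : conj (om μ * w3 μ θ) * (om μ * ((√lam * ‖hG A h 2‖ : ℝ) : ℂ) *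
        Eh ((Pc A s h).1 2) μ) = ((√lam * ‖hG A h 2‖ : ℝ) : ℂ) *
        (conj (w3 μ θ) * Eh ((Pc A s h).1 2) μ) := by
      rw [map_mul]
      calc _ = (om μ * conj (om μ)) * (((√lam * ‖hG A h 2‖ : ℝ) : ℂ) *
          (conj (w3 μ θ) * Eh ((Pc A s h).1 2) μ)) := by ring
        _ = _ := by rw [h2, one_mul]
    rw [h3, re_ofReal_mul]
    rfl
  rw [h1, abs_mul, abs_mul, abs_of_pos (by positivity), abs_of_pos (X.nH 2)] at hs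
  have hT := X.T0
  have h2 : T * (1 / 2 * (‖hG A h 2‖ * |Yf ((Pc A s h).1 2) μ θ|)) ≤
      T * (√lam * ‖hG A h 2‖ * |Yf ((Pc A s h).1 2) μ θ|) := by
    refine mul_le_mul_of_nonneg_left ?_ hT.le
    rw [mul_assoc]
    exact mul_le_mul_of_nonneg_right hsq (by positivity)
  have h3 : 2 * Q * (Rx T / T) = 2 * (Q * Rx T) / T := by ring
  rw [h3, le_div_iff₀ hT]
  linarith

theorem norm_mw (w : ℝ × (Fin 3 → ℝ)) (μ : ℂ) (hμ : μ = mw w) :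
    |w.2 0| ≤ ‖μ‖ ∧ |w.2 1| ≤ ‖μ‖ := by
  have h1 : μ.re = w.2 0 := by rw [hμ]; simp [mw]
  have h2 : μ.im = w.2 1 := by rw [hμ]; simp [mw]
  rw [← h1, ← h2]
  exact ⟨abs_re_le_norm _, abs_im_le_norm _⟩

/-- the point of the chart is in the domain -/
theorem Ctr.dom (cha : CHAStmt) (X : Ctr T Q V k0 s h k A) {w : ℝ × (Fin 3 → ℝ)}
    (hl : |w.1 - 1| ≤ 1 / 8) (hμ : ‖mw w‖ ≤ 1 / Q ^ 50) (hθ : |w.2 2| ≤ 4)
    (hs : T * |(conj (cexp (((Psi A w).2 : ℂ) * I)) * hG (Ach A w.1 (mw w)) h 2).re| ≤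
      Q * Rx T) :
    (sF T A h * w.1, w.2) ∈ D0 (Pc A s h) (1 / Q ^ 50) (3 / 4 * sF T A h) (5 / 4 * sF T A h) 4 ∧
    |Yf ((Pc A s h).1 2) (mw w) (w.2 2)| ≤ Q ^ 4 * (Rx T / T / V 2) := by
  have hQ := X.Q0
  rw [abs_le] at hl
  have hS := X.S0
  have hμ1 : ‖mw w‖ < 1 := by
    refine hμ.trans_lt ?_
    rw [div_lt_one (by positivity)]
    exact one_lt_pow₀ (by linarith [X.hQ]) (by norm_num)
  obtain ⟨m0, m1⟩ := norm_mw w (mw w) rfl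
  have hY := X.slab cha (lam := w.1) (θ := w.2 2) (μ := mw w) (by linarith) hμ1 hs
  have hr := X.p6
  set Y := |Yf ((Pc A s h).1 2) (mw w) (w.2 2)| with hYd
  have hY0 : 0 ≤ Y := abs_nonneg _
  refine ⟨⟨?_, ?_, m0.trans hμ, m1.trans hμ, hθ, fun l hl2 => ?_⟩, ?_⟩
  · show 3 / 4 * sF T A h ≤ sF T A h * w.1
    nlinarith
  · show sF T A h * w.1 ≤ 5 / 4 * sF T A h
    nlinarith
  · show |‖hG A h 2‖ / ‖hG A h l‖ * Yf ((Pc A s h).1 2) (mw w) (w.2 2)| ≤ 1 / Q ^ 50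
    rw [abs_mul, abs_of_pos (div_pos (X.nH 2) (X.nH l)), ← hYd, div_mul_eq_mul_div,
      div_le_iff₀ (X.nH l)]
    have hV1 : V 1 ≤ V l := by
      fin_cases l
      · exact X.v01
      · exact le_rfl
      · exact absurd rfl hl2
    have h1 := X.p7
    have h2 := X.sz1 l
    have h3 : Q ^ 100 * (Rx T / T) ≤ Q ^ 2 * ‖hG A h l‖ := by linarith
    have h4 : Q ^ 98 * (Rx T / T) ≤ ‖hG A h l‖ := by
      have h5 : Q ^ 100 * (Rx T / T) = Q ^ 2 * (Q ^ 98 * (Rx T / T)) := by ring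
      rw [h5] at h3
      exact le_of_mul_le_mul_left h3 (by positivity)
    have h5 : 1 / Q ^ 50 * (Q ^ 98 * (Rx T / T)) ≤ 1 / Q ^ 50 * ‖hG A h l‖ :=
      mul_le_mul_of_nonneg_left h4 (by positivity)
    have h6 : 1 / Q ^ 50 * (Q ^ 98 * (Rx T / T)) = Q ^ 48 * (Rx T / T) := by
      field_simp
    have h7 : 2 * Q ≤ Q ^ 48 := by
      have h8 : Q ^ 2 ≤ Q ^ 48 := X.pw (by norm_num)
      nlinarith [X.hQ]
    have h8 : 2 * Q * (Rx T / T) ≤ Q ^ 48 * (Rx T / T) := mul_le_mul_of_nonneg_right h7 hr.le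
    linarith
  · have hV2 := X.V2
    have h2 := X.sz1 2
    have h3 : V 2 * Y ≤ Q ^ 2 * (‖hG A h 2‖ * Y) := by
      rw [← mul_assoc]
      exact mul_le_mul_of_nonneg_right h2 hY0
    have h4 : Q ^ 2 * (‖hG A h 2‖ * Y) ≤ Q ^ 2 * (2 * Q * (Rx T / T)) :=
      mul_le_mul_of_nonneg_left hY (by positivity)
    have h5 : Q ^ 2 * (2 * Q * (Rx T / T)) ≤ Q ^ 4 * (Rx T / T) := by
      have h6 : Q ^ 2 * (2 * Q * (Rx T / T)) = (2 * Q ^ 3) * (Rx T / T) := by ring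
      rw [h6]
      refine mul_le_mul_of_nonneg_right ?_ hr.le
      have h7 : Q ^ 4 = Q * Q ^ 3 := by ring
      rw [h7]
      exact mul_le_mul_of_nonneg_right (by linarith [X.hQ]) (by positivity)
    rw [mul_div_assoc', le_div_iff₀ hV2]
    linarith

end

end Pool.Agent.F5.H58
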