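import Pool.Agent.Helper58_F5.Smooth

/-!
# Near the base points
-/

set_option autoImplicit false

namespace Pool.Agent.F5.H58

open Complex ComplexConjugate

/-- standard parameters -/
structure Std (e : Fin 3 → ℂ) (ν ε : Fin 3 → ℝ) : Prop where
  e1 : ∀ l, ‖e l‖ = 1
  n1 : ∀ l, |ν l| ≤ 1
  p1 : ∀ l, ε l ^ 2 = 1

/-- the compact set -/
def KK : Set VV := {x | Std x.2.1 x.2.2.1 x.2.2.2 ∧ |x.1 0| ≤ 1 / 16 ∧ |x.1 1| ≤ 1 / 16 ∧
  |x.1 2| ≤ 5 ∧ ∀ l : Fin 3, l ≠ 2 →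
    |x.2.2.1 l * Yf (x.2.1 2) (mu x) (th x)| ≤ 1 / 2 * ‖Eh (x.2.1 l) (mu x)‖}

theorem norm_mu_le (x : VV) : ‖mu x‖ ≤ |x.1 0| + |x.1 1| := by
  unfold mu
  refine (norm_add_le _ _).trans ?_
  rw [norm_mul, norm_I, norm_real, norm_real, Real.norm_eq_abs, Real.norm_eq_abs, mul_one]

theorem norm_Eh_ge {e μ : ℂ} (he : ‖e‖ = 1) (hμ : ‖μ‖ ≤ 1 / 8) : 7 / 8 ≤ ‖Eh e μ‖ := by
  unfold Eh
  have h1 : ‖μ * conj e‖ ≤ 1 / 8 := by rw [norm_mul, norm_conj, he, mul_one]; exact hμ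
  have h2 := norm_sub_norm_le e (-(μ * conj e))
  rw [sub_neg_eq_add, norm_neg, he] at h2
  linarith

theorem KK_mu {x : VV} (hx : x ∈ KK) : ‖mu x‖ ≤ 1 / 8 := by
  have := norm_mu_le x
  linarith [hx.2.1, hx.2.2.1]

theorem KK_sub : KK ⊆ UU := by
  intro x hx l hl
  have h1 := norm_Eh_ge (hx.1.e1 l) (KK_mu hx)
  have h2 : 0 < ‖Eh (x.2.1 l) (mu x)‖ := by linarith
  refine ⟨norm_pos_iff.1 h2, ?_, ?_⟩
  · have h3 : |cf (x.2.1 l) (x.2.1 2) (x.2.2.1 l) (mu x) (th x)| ≤ 1 / 2 := by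
      unfold cf
      rw [abs_div, abs_norm, div_le_iff₀ h2]
      exact hx.2.2.2.2 l hl
    rw [← sq_abs]
    have := abs_nonneg (cf (x.2.1 l) (x.2.1 2) (x.2.2.1 l) (mu x) (th x))
    nlinarith
  · intro h0
    have := hx.1.p1 l
    rw [h0] at this
    norm_num at this

theorem cont_of {f : VV → ℝ} (h : ∀ x, ContDiffAt ℝ 0 f x) : Continuous f :=
  continuous_iff_continuousAt.2 fun x => (h x).continuousAt

theorem isCompact_KK : IsCompact KK := by
  have hc : IsClosed KK := by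
    have h1 : IsClosed {x : VV | Std x.2.1 x.2.2.1 x.2.2.2} := by
      have : {x : VV | Std x.2.1 x.2.2.1 x.2.2.2} =
          (⋂ l, {x : VV | ‖x.2.1 l‖ = 1}) ∩ (⋂ l, {x : VV | |x.2.2.1 l| ≤ 1}) ∩
          (⋂ l, {x : VV | x.2.2.2 l ^ 2 = 1}) := by
        ext x
        simp only [Set.mem_setOf_eq, Set.mem_inter_iff, Set.mem_iInter]
        exact ⟨fun h => ⟨⟨h.e1, h.n1⟩, h.p1⟩, fun h => ⟨h.1.1, h.1.2, h.2⟩⟩
      rw [this]
      refine (IsClosed.inter ?_ ?_).inter ?_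
      · exact isClosed_iInter fun l => isClosed_eq (by fun_prop) continuous_const
      · exact isClosed_iInter fun l => isClosed_le (by fun_prop) continuous_const
      · exact isClosed_iInter fun l => isClosed_eq (by fun_prop) continuous_const
    have h2 : IsClosed {x : VV | |x.1 0| ≤ 1 / 16} := isClosed_le (by fun_prop) continuous_const
    have h3 : IsClosed {x : VV | |x.1 1| ≤ 1 / 16} := isClosed_le (by fun_prop) continuous_const
    have h4 : IsClosed {x : VV | |x.1 2| ≤ 5} := isClosed_le (by fun_prop) continuous_const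
    have h5 : IsClosed {x : VV | ∀ l : Fin 3, l ≠ 2 →
        |x.2.2.1 l * Yf (x.2.1 2) (mu x) (th x)| ≤ 1 / 2 * ‖Eh (x.2.1 l) (mu x)‖} := by
      simp only [Set.setOf_forall]
      refine isClosed_iInter fun l => isClosed_iInter fun _ => isClosed_le ?_ ?_
      · exact (Continuous.mul (by fun_prop) (cont_of (cd_Yf 0))).abs
      · exact continuous_const.mul
          (continuous_iff_continuousAt.2 fun x => (cd_Eh 0 x l).continuousAt).norm
    exact h1.inter (h2.inter (h3.inter (h4.inter h5)))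
  refine Metric.isCompact_of_isClosed_isBounded hc ?_
  refine (Metric.isBounded_closedBall (x := (0 : VV)) (r := 10)).subset ?_
  intro x hx
  rw [mem_closedBall_zero_iff, Prod.norm_def, Prod.norm_def, Prod.norm_def]
  refine max_le ?_ (max_le ?_ (max_le ?_ ?_))
  · rw [pi_norm_le_iff_of_nonneg (by norm_num)]
    intro i
    rw [Real.norm_eq_abs]
    fin_cases i
    · exact hx.2.1.trans (by norm_num)
    · exact hx.2.2.1.trans (by norm_num)
    · exact hx.2.2.2.1.trans (by norm_num)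
  · rw [pi_norm_le_iff_of_nonneg (by norm_num)]
    intro i
    rw [hx.1.e1 i]; norm_num
  · rw [pi_norm_le_iff_of_nonneg (by norm_num)]
    intro i
    rw [Real.norm_eq_abs]
    exact (hx.1.n1 i).trans (by norm_num)
  · rw [pi_norm_le_iff_of_nonneg (by norm_num)]
    intro i
    rw [Real.norm_eq_abs]
    have := hx.1.p1 i
    rw [← sq_abs] at this
    have h0 := abs_nonneg (x.2.2.2 i)
    nlinarith

/-- the uniform Taylor expansions -/
theorem taylor_FF : ∃ C r : ℝ, 1 ≤ C ∧ 0 < r ∧ ∀ x ∈ KK, ∀ u : VV, ‖u‖ ≤ r → x + u ∈ UU ∧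
    ‖fderiv ℝ FF (x + u)‖ ≤ C ∧ ‖FF (x + u)‖ ≤ C ∧
    ‖FF (x + u) - FF x‖ ≤ C * ‖u‖ ∧ ‖FF (x + u) - FF x - fderiv ℝ FF x u‖ ≤ C * ‖u‖ ^ 2 ∧
    ‖fderiv ℝ FF (x + u) - fderiv ℝ FF x‖ ≤ C * ‖u‖ ∧ ‖MM (x + u) - MM x‖ ≤ C * ‖u‖ := by
  obtain ⟨C1, r1, hC1, hr1, h1⟩ := taylor_compact isOpen_UU isCompact_KK KK_sub
    (f := FF) (fun x hx => (cd_FF 2 hx).contDiffWithinAt)
  obtain ⟨C2, r2, hC2, hr2, h2⟩ := taylor_compact isOpen_UU isCompact_KK KK_sub
    (f := MM) (fun x hx => (cd_MM 2 hx).contDiffWithinAt)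
  refine ⟨max (max C1 C2) 1, min r1 r2, le_max_right _ _, lt_min hr1 hr2, fun x hx u hu => ?_⟩
  obtain ⟨a1, a2, a3, a4, a5, a6⟩ := h1 x hx u (hu.trans (min_le_left _ _))
  obtain ⟨b1, b2, b3, b4, b5, b6⟩ := h2 x hx u (hu.trans (min_le_right _ _))
  have c1 : C1 ≤ max (max C1 C2) 1 := (le_max_left _ _).trans (le_max_left _ _)
  have c2 : C2 ≤ max (max C1 C2) 1 := (le_max_right _ _).trans (le_max_left _ _)
  have n0 := norm_nonneg u
  refine ⟨a1, a2.trans c1, a3.trans c1, a4.trans ?_, a5.trans ?_, a6.trans ?_, b4.trans ?_⟩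
  · exact mul_le_mul_of_nonneg_right c1 n0
  · exact mul_le_mul_of_nonneg_right c1 (by positivity)
  · exact mul_le_mul_of_nonneg_right c1 n0
  · exact mul_le_mul_of_nonneg_right c2 n0

end Pool.Agent.F5.H58
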