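import Pool.Agent.Helper58_F5.Near

/-!
# Points near the base points
-/

set_option autoImplicit false

namespace Pool.Agent.F5.H58

open Complex ComplexConjugate

theorem w3_zero (θ : ℝ) : w3 0 θ = cexp ((θ : ℂ) * I) := by
  unfold w3 ph3
  rw [zero_mul, zero_im, sub_zero]

theorem norm_exp_sub (a b : ℝ) : ‖cexp ((a : ℂ) * I) - cexp ((b : ℂ) * I)‖ ≤ |a - b| := by
  have h1 : cexp ((a : ℂ) * I) - cexp ((b : ℂ) * I) =
      cexp ((b : ℂ) * I) * (cexp (I * ((a - b : ℝ) : ℂ)) - 1) := by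
    rw [mul_sub, ← Complex.exp_add, mul_one]
    congr 2
    push_cast
    ring
  rw [h1, norm_mul, norm_exp_ofReal_mul_I, one_mul]
  have := Real.norm_exp_I_mul_ofReal_sub_one_le (x := a - b)
  rwa [Real.norm_eq_abs] at this

theorem Yf_sub_le {e μ : ℂ} (he : ‖e‖ = 1) (θ : ℝ) :
    |Yf e μ θ - (conj (w3 0 θ) * e).re| ≤ 2 * ‖μ‖ := by
  unfold Yf
  rw [← sub_re]
  refine (abs_re_le_norm _).trans ?_
  have h1 : conj (w3 μ θ) * Eh e μ - conj (w3 0 θ) * e =
      (conj (w3 μ θ) - conj (w3 0 θ)) * e + conj (w3 μ θ) * (μ * conj e) := by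
    unfold Eh; ring
  rw [h1]
  refine (norm_add_le _ _).trans ?_
  rw [norm_mul, norm_mul, norm_mul, norm_conj, norm_conj, norm_w3, he, one_mul, mul_one, mul_one,
    ← map_sub, norm_conj]
  have h2 : ‖w3 μ θ - w3 0 θ‖ ≤ ‖μ‖ := by
    rw [w3_zero]
    unfold w3
    refine (norm_exp_sub _ _).trans ?_
    unfold ph3
    rw [show θ - (μ * cexp (((-2 * θ : ℝ) : ℂ) * I)).im - θ =
      -(μ * cexp (((-2 * θ : ℝ) : ℂ) * I)).im by ring, abs_neg]
    refine (abs_im_le_norm _).trans ?_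
    rw [norm_mul, norm_exp_ofReal_mul_I, mul_one]
  linarith

theorem abs_arcsin_le {y : ℝ} (hy : |y| ≤ 1) : |Real.arcsin y| ≤ 2 * |y| := by
  have h1 : ∀ z : ℝ, 0 ≤ z → z ≤ 1 → Real.arcsin z ≤ 2 * z := by
    intro z h0 h1
    have h2 := Real.mul_le_sin (Real.arcsin_nonneg.2 h0) (Real.arcsin_le_pi_div_two z)
    rw [Real.sin_arcsin (by linarith) h1] at h2
    have hπ := Real.pi_lt_four
    have hπ0 := Real.pi_pos
    have h3 : Real.arcsin z ≤ z * (Real.pi / 2) := by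
      have : 2 / Real.pi * Real.arcsin z * (Real.pi / 2) ≤ z * (Real.pi / 2) :=
        mul_le_mul_of_nonneg_right h2 (by positivity)
      have e1 : 2 / Real.pi * Real.arcsin z * (Real.pi / 2) = Real.arcsin z := by
        field_simp
      linarith
    nlinarith
  rcases le_total 0 y with h | h
  · rw [abs_of_nonneg (Real.arcsin_nonneg.2 h), abs_of_nonneg h]
    rw [abs_of_nonneg h] at hy
    exact h1 y h hy
  · rw [abs_of_nonpos (Real.arcsin_nonpos.2 h), abs_of_nonpos h, ← Real.arcsin_neg]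
    rw [abs_of_nonpos h] at hy
    exact h1 (-y) (by linarith) hy

/-- turning a unit vector with small real part to the imaginary axis -/
theorem exists_turn {e : ℂ} (he : ‖e‖ = 1) {θ : ℝ} {c : ℝ}
    (hc : |(conj (w3 0 θ) * e).re| ≤ c) (hc1 : c ≤ 1) :
    ∃ t : ℝ, |t| ≤ 2 * c ∧ (conj (w3 0 (θ + t)) * e).re = 0 := by
  set q := conj (w3 0 θ) * e with hq
  have hq1 : q.re ^ 2 + q.im ^ 2 = 1 := by
    have : ‖q‖ = 1 := by rw [hq, norm_mul, norm_conj, norm_w3, he, one_mul]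
    have h2 := norm_sq_eq q
    rw [this] at h2
    linarith
  obtain ⟨s, hs, hs1⟩ : ∃ s : ℝ, s * q.im = |q.im| ∧ |s| = 1 := by
    rcases le_total 0 q.im with h | h
    · exact ⟨1, by rw [one_mul, abs_of_nonneg h], abs_one⟩
    · exact ⟨-1, by rw [abs_of_nonpos h]; ring, by rw [abs_neg, abs_one]⟩
  have hy : |-(q.re * s)| = |q.re| := by rw [abs_neg, abs_mul, hs1, mul_one]
  have hy1 : |-(q.re * s)| ≤ 1 := by rw [hy]; linarith
  refine ⟨Real.arcsin (-(q.re * s)), ?_, ?_⟩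
  · have := abs_arcsin_le hy1
    rw [hy] at this
    linarith
  · have hw : conj (w3 0 (θ + Real.arcsin (-(q.re * s)))) * e =
        cexp (((-(Real.arcsin (-(q.re * s))) : ℝ) : ℂ) * I) * q := by
      rw [hq, w3_zero, w3_zero, ← exp_conj, ← exp_conj, ← mul_assoc, ← Complex.exp_add]
      congr 2
      simp only [map_mul, conj_ofReal, conj_I]
      push_cast
      ring
    rw [hw, Complex.exp_mul_I, ← ofReal_cos, ← ofReal_sin, Real.cos_neg, Real.sin_neg,
      Real.sin_arcsin (abs_le.1 hy1).1 (abs_le.1 hy1).2, Real.cos_arcsin]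
    have hs2 : s ^ 2 = 1 := by rw [← sq_abs, hs1, one_pow]
    have hsq : √(1 - (-(q.re * s)) ^ 2) = |q.im| := by
      rw [show 1 - (-(q.re * s)) ^ 2 = q.im ^ 2 by
        have : (-(q.re * s)) ^ 2 = q.re ^ 2 * s ^ 2 := by ring
        rw [this, hs2]; linarith, Real.sqrt_sq_eq_abs]
    rw [hsq]
    simp only [add_mul, add_re, mul_re, ofReal_re, ofReal_im, I_re, I_im, mul_im, zero_mul,
      mul_zero, mul_one, sub_zero, zero_sub, add_zero]
    rw [← hs]
    ring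

/-- near the base points -/
theorem near_base {x : VV} {d : ℝ} (hS : Std x.2.1 x.2.2.1 x.2.2.2) (h0 : |x.1 0| ≤ d)
    (h1 : |x.1 1| ≤ d) (h2 : |x.1 2| ≤ 4) (hd : 0 < d) (hd1 : d ≤ 1 / 64)
    (hY : ∀ l : Fin 3, l ≠ 2 → |x.2.2.1 l * Yf (x.2.1 2) (mu x) (th x)| ≤ d) :
    ∃ x' : VV, x' ∈ KK ∧ x'.1 0 = 0 ∧ x'.1 1 = 0 ∧ x'.2.1 = x.2.1 ∧ x'.2.2.2 = x.2.2.2 ∧
      Base x'.2.1 x'.2.2.1 x'.2.2.2 (th x') ∧ ‖x - x'‖ ≤ 8 * √d := by
  have sd : √d ≤ 1 / 8 := by
    rw [Real.sqrt_le_left (by norm_num)]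
    linarith
  have sd0 : 0 < √d := Real.sqrt_pos.2 hd
  have sd2 : √d * √d = d := Real.mul_self_sqrt hd.le
  have hdd : d ≤ √d := by nlinarith
  have hμ : ‖mu x‖ ≤ 2 * d := by linarith [norm_mu_le x]
  have hYY := Yf_sub_le (μ := mu x) (hS.e1 2) (th x)
  -- the general construction
  have key : ∀ (θ' : ℝ) (ν' : Fin 3 → ℝ), |θ' - x.1 2| ≤ 8 * √d → |θ'| ≤ 5 →
      (∀ l, |ν' l| ≤ 1) → (∀ l, |x.2.2.1 l - ν' l| ≤ 8 * √d) →
      (∀ l : Fin 3, l ≠ 2 → ν' l * (conj (w3 0 θ') * x.2.1 2).re = 0) →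
      ∃ x' : VV, x' ∈ KK ∧ x'.1 0 = 0 ∧ x'.1 1 = 0 ∧ x'.2.1 = x.2.1 ∧ x'.2.2.2 = x.2.2.2 ∧
      Base x'.2.1 x'.2.2.1 x'.2.2.2 (th x') ∧ ‖x - x'‖ ≤ 8 * √d := by
    intro θ' ν' a1 a2 a3 a4 a5
    have hmu : mu ((![0, 0, θ'], (x.2.1, ν', x.2.2.2)) : VV) = 0 := by
      simp [mu]
    have hth : th ((![0, 0, θ'], (x.2.1, ν', x.2.2.2)) : VV) = θ' := by
      simp [th]
    refine ⟨(![0, 0, θ'], (x.2.1, ν', x.2.2.2)), ⟨⟨hS.e1, a3, hS.p1⟩, ?_, ?_, ?_, ?_⟩, rfl, rfl,
      rfl, rfl, ⟨hS.e1, fun l _ => hS.p1 l, ?_⟩, ?_⟩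
    · show |(0 : ℝ)| ≤ 1 / 16
      rw [abs_zero]; norm_num
    · show |(0 : ℝ)| ≤ 1 / 16
      rw [abs_zero]; norm_num
    · exact a2
    · intro l hl
      rw [hmu, hth]
      show |ν' l * Yf (x.2.1 2) 0 θ'| ≤ _
      have : ν' l * Yf (x.2.1 2) 0 θ' = 0 := by
        unfold Yf
        rw [Eh_zero]
        exact a5 l hl
      rw [this, abs_zero]
      positivity
    · rw [hth]
      exact a5
    · rw [Prod.norm_def, Prod.norm_def, Prod.norm_def]
      refine max_le ?_ (max_le ?_ (max_le ?_ ?_))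
      · rw [pi_norm_le_iff_of_nonneg (by positivity)]
        intro i
        rw [Real.norm_eq_abs]
        fin_cases i
        · show |x.1 0 - 0| ≤ _
          rw [sub_zero]; linarith
        · show |x.1 1 - 0| ≤ _
          rw [sub_zero]; linarith
        · show |x.1 2 - θ'| ≤ _
          rw [abs_sub_comm]; exact a1
      · show ‖x.2.1 - x.2.1‖ ≤ _
        rw [sub_self, norm_zero]; positivity
      · rw [pi_norm_le_iff_of_nonneg (by positivity)]
        intro i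
        rw [Real.norm_eq_abs]
        exact a4 i
      · show ‖x.2.2.2 - x.2.2.2‖ ≤ _
        rw [sub_self, norm_zero]; positivity
  by_cases hc : |(conj (w3 0 (th x)) * x.2.1 2).re| ≤ 2 * √d
  · obtain ⟨t, ht, ht0⟩ := exists_turn (hS.e1 2) hc (by linarith)
    refine key (th x + t) x.2.2.1 ?_ ?_ hS.n1 ?_ ?_
    · show |x.1 2 + t - x.1 2| ≤ _
      rw [show x.1 2 + t - x.1 2 = t by ring]; linarith
    · show |x.1 2 + t| ≤ _
      refine (abs_add_le _ _).trans ?_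
      linarith
    · intro l
      rw [sub_self, abs_zero]; positivity
    · intro l _
      rw [ht0, mul_zero]
  · rw [not_le] at hc
    have hYb : √d ≤ |Yf (x.2.1 2) (mu x) (th x)| := by
      have := abs_sub_abs_le_abs_sub (conj (w3 0 (th x)) * x.2.1 2).re
        (Yf (x.2.1 2) (mu x) (th x))
      rw [abs_sub_comm] at this
      nlinarith
    refine key (th x) (fun l => if l = 2 then x.2.2.1 2 else 0) ?_ ?_ ?_ ?_ ?_
    · show |x.1 2 - x.1 2| ≤ _
      rw [sub_self, abs_zero]; positivity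
    · exact h2.trans (by norm_num)
    · intro l
      split_ifs
      · exact hS.n1 2
      · rw [abs_zero]; norm_num
    · intro l
      by_cases hl : l = 2
      · rw [if_pos hl, hl, sub_self, abs_zero]; positivity
      · rw [if_neg hl, sub_zero]
        have h3 := hY l hl
        rw [abs_mul] at h3
        have h4 : |x.2.2.1 l| * √d ≤ √d * √d := by
          rw [sd2]
          exact (mul_le_mul_of_nonneg_left hYb (abs_nonneg _)).trans h3
        have := le_of_mul_le_mul_right h4 sd0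
        linarith
    · intro l hl
      rw [if_neg hl, zero_mul]

end Pool.Agent.F5.H58
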