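import Mathlib

/-!
# Uniform Taylor expansions near a compact set
-/

set_option autoImplicit false

namespace Pool.Agent.F5.H58

open Metric Set

variable {V W : Type*} [NormedAddCommGroup V] [NormedSpace ℝ V] [FiniteDimensional ℝ V]
  [NormedAddCommGroup W] [NormedSpace ℝ W]

/-- a `C²` function near a compact set: the first order Taylor expansion with uniform constants -/
theorem taylor_compact {f : V → W} {U K : Set V} (hU : IsOpen U) (hK : IsCompact K) (hKU : K ⊆ U)
    (hf : ContDiffOn ℝ 2 f U) :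
    ∃ C r : ℝ, 0 < C ∧ 0 < r ∧ ∀ x ∈ K, ∀ u : V, ‖u‖ ≤ r → x + u ∈ U ∧
      ‖fderiv ℝ f (x + u)‖ ≤ C ∧ ‖f (x + u)‖ ≤ C ∧
      ‖f (x + u) - f x‖ ≤ C * ‖u‖ ∧ ‖f (x + u) - f x - fderiv ℝ f x u‖ ≤ C * ‖u‖ ^ 2 ∧
      ‖fderiv ℝ f (x + u) - fderiv ℝ f x‖ ≤ C * ‖u‖ := by
  have : ProperSpace V := FiniteDimensional.proper ℝ V
  obtain ⟨r, hr, hrU⟩ := hK.exists_cthickening_subset_open hU hKU
  have hK' : IsCompact (cthickening r K) := hK.cthickening
  have hd1 : ContDiffOn ℝ 1 (fderiv ℝ f) U :=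
    hf.fderiv_of_isOpen hU (by norm_num)
  have hd0 : ContinuousOn (fderiv ℝ f) U := hd1.continuousOn
  have hd2 := hd1.continuousOn_fderiv_of_isOpen hU le_rfl
  obtain ⟨C1, hC1⟩ := hK'.exists_bound_of_continuousOn (hd0.mono hrU)
  have hd2n := (hd2.mono hrU).norm
  obtain ⟨C2, hC2'⟩ := hK'.bddAbove_image hd2n
  have hC2 : ∀ x ∈ cthickening r K, ‖fderiv ℝ (fderiv ℝ f) x‖ ≤ C2 := fun x hx =>
    hC2' (mem_image_of_mem _ hx)
  obtain ⟨C3, hC3⟩ := hK'.exists_bound_of_continuousOn (hf.continuousOn.mono hrU)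
  set C := max (max C1 C2) (max C3 1) with hC
  have c1 : C1 ≤ C := (le_max_left _ _).trans (le_max_left _ _)
  have c2 : C2 ≤ C := (le_max_right _ _).trans (le_max_left _ _)
  have c3 : C3 ≤ C := (le_max_left _ _).trans (le_max_right _ _)
  have c4 : 1 ≤ C := (le_max_right _ _).trans (le_max_right _ _)
  refine ⟨C, r, by linarith, hr, fun x hx u hu => ?_⟩
  have hball : closedBall x ‖u‖ ⊆ cthickening r K := by
    refine (closedBall_subset_closedBall hu).trans ?_
    exact closedBall_subset_cthickening hx r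
  have hballU : closedBall x ‖u‖ ⊆ U := hball.trans hrU
  have hxb : x ∈ closedBall x ‖u‖ := mem_closedBall_self (norm_nonneg _)
  have hub : x + u ∈ closedBall x ‖u‖ := by
    rw [mem_closedBall, dist_eq_norm, add_sub_cancel_left]
  have hdiff : ∀ y ∈ closedBall x ‖u‖, DifferentiableAt ℝ f y := fun y hy =>
    (hf.differentiableOn (by norm_num)).differentiableAt (hU.mem_nhds (hballU hy))
  have hdiff' : ∀ y ∈ closedBall x ‖u‖, DifferentiableAt ℝ (fderiv ℝ f) y := fun y hy =>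
    (hd1.differentiableOn (by norm_num)).differentiableAt (hU.mem_nhds (hballU hy))
  have hlip : ∀ y ∈ closedBall x ‖u‖, ‖fderiv ℝ f y - fderiv ℝ f x‖ ≤ C * ‖y - x‖ := by
    intro y hy
    exact (convex_closedBall x ‖u‖).norm_image_sub_le_of_norm_fderiv_le hdiff'
      (fun z hz => (hC2 z (hball hz)).trans c2) hxb hy
  refine ⟨hballU hub, (hC1 _ (hball hub)).trans c1, (hC3 _ (hball hub)).trans c3, ?_, ?_, ?_⟩
  · have := (convex_closedBall x ‖u‖).norm_image_sub_le_of_norm_fderiv_le hdiff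
      (fun z hz => (hC1 z (hball hz)).trans c1) hxb hub
    rwa [add_sub_cancel_left] at this
  · have h1 : ∀ y ∈ closedBall x ‖u‖, HasFDerivWithinAt (fun z => f z - fderiv ℝ f x z)
        (fderiv ℝ f y - fderiv ℝ f x) (closedBall x ‖u‖) y := fun y hy =>
      ((hdiff y hy).hasFDerivAt.sub (fderiv ℝ f x).hasFDerivAt).hasFDerivWithinAt
    have h2 : ∀ y ∈ closedBall x ‖u‖, ‖fderiv ℝ f y - fderiv ℝ f x‖ ≤ C * ‖u‖ := by
      intro y hy
      refine (hlip y hy).trans ?_
      refine mul_le_mul_of_nonneg_left ?_ (by linarith)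
      rw [← dist_eq_norm]; exact hy
    have h3 := (convex_closedBall x ‖u‖).norm_image_sub_le_of_norm_hasFDerivWithin_le h1 h2 hxb hub
    rw [add_sub_cancel_left] at h3
    have h4 : f (x + u) - (fderiv ℝ f x) (x + u) - (f x - (fderiv ℝ f x) x) =
        f (x + u) - f x - fderiv ℝ f x u := by
      rw [map_add]; abel
    rw [h4] at h3
    refine h3.trans (le_of_eq ?_)
    ring
  · have := hlip _ hub
    rwa [add_sub_cancel_left] at this

end Pool.Agent.F5.H58
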