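import Pool.Agent.Helper58_F5.Base
import Pool.Agent.Helper58_F5.Tay

/-!
# Smoothness of the chart
-/

set_option autoImplicit false

namespace Pool.Agent.F5.H58

open Complex ComplexConjugate

/-- the space of the variables and the parameters -/
abbrev VV : Type := (Fin 3 → ℝ) × ((Fin 3 → ℂ) × (Fin 3 → ℝ) × (Fin 3 → ℝ))

/-- `μ` -/
noncomputable def mu (x : VV) : ℂ := (x.1 0 : ℂ) + (x.1 1 : ℂ) * I

/-- `θ` -/
noncomputable def th (x : VV) : ℝ := x.1 2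

/-- the family of the tangent vectors -/
noncomputable def FF (x : VV) (j l : Fin 3) : ℂ :=
  bb x.2.1 x.2.2.1 x.2.2.2 (mu x) (th x) (vb j) (tb j) l

/-- the family of the points -/
noncomputable def MM (x : VV) (l : Fin 3) : ℂ := Mm x.2.1 x.2.2.1 x.2.2.2 (mu x) (th x) l

/-- the open set -/
def UU : Set VV := {x | ∀ l : Fin 3, l ≠ 2 → Eh (x.2.1 l) (mu x) ≠ 0 ∧
  cf (x.2.1 l) (x.2.1 2) (x.2.2.1 l) (mu x) (th x) ^ 2 < 1 ∧ x.2.2.2 l ≠ 0}

section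

variable {E : Type*} [NormedAddCommGroup E] [NormedSpace ℝ E] {x : E} {n : WithTop ℕ∞}

theorem cd_conj {f : E → ℂ} (h : ContDiffAt ℝ n f x) :
    ContDiffAt ℝ n (fun y => conj (f y)) x :=
  conjCLE.contDiff.contDiffAt.comp x h

theorem cd_re {f : E → ℂ} (h : ContDiffAt ℝ n f x) : ContDiffAt ℝ n (fun y => (f y).re) x :=
  reCLM.contDiff.contDiffAt.comp x h

theorem cd_im {f : E → ℂ} (h : ContDiffAt ℝ n f x) : ContDiffAt ℝ n (fun y => (f y).im) x :=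
  imCLM.contDiff.contDiffAt.comp x h

theorem cd_of {f : E → ℝ} (h : ContDiffAt ℝ n f x) :
    ContDiffAt ℝ n (fun y => ((f y : ℝ) : ℂ)) x :=
  ofRealCLM.contDiff.contDiffAt.comp x h

end

theorem cd_mu (n : WithTop ℕ∞) (x : VV) : ContDiffAt ℝ n mu x := by
  unfold mu
  have h0 : ContDiffAt ℝ n (fun y : VV => y.1 0) x := by fun_prop
  have h1 : ContDiffAt ℝ n (fun y : VV => y.1 1) x := by fun_prop
  exact (cd_of h0).add ((cd_of h1).mul contDiffAt_const)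

theorem cd_th (n : WithTop ℕ∞) (x : VV) : ContDiffAt ℝ n th x := by
  unfold th
  fun_prop

theorem cd_e (n : WithTop ℕ∞) (x : VV) (l : Fin 3) : ContDiffAt ℝ n (fun y : VV => y.2.1 l) x := by
  fun_prop

theorem cd_nu (n : WithTop ℕ∞) (x : VV) (l : Fin 3) :
    ContDiffAt ℝ n (fun y : VV => y.2.2.1 l) x := by
  fun_prop

theorem cd_ep (n : WithTop ℕ∞) (x : VV) (l : Fin 3) :
    ContDiffAt ℝ n (fun y : VV => y.2.2.2 l) x := by
  fun_prop

theorem cd_Eh (n : WithTop ℕ∞) (x : VV) (l : Fin 3) :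
    ContDiffAt ℝ n (fun y : VV => Eh (y.2.1 l) (mu y)) x := by
  unfold Eh
  exact (cd_e n x l).add ((cd_mu n x).mul (cd_conj (cd_e n x l)))

theorem cd_e2 (n : WithTop ℕ∞) (x : VV) :
    ContDiffAt ℝ n (fun y : VV => cexp (((-2 * th y : ℝ) : ℂ) * I)) x :=
  ((cd_of (contDiffAt_const.mul (cd_th n x))).mul contDiffAt_const).cexp

theorem cd_ph3 (n : WithTop ℕ∞) (x : VV) : ContDiffAt ℝ n (fun y : VV => ph3 (mu y) (th y)) x := by
  unfold ph3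
  exact (cd_th n x).sub (cd_im ((cd_mu n x).mul (cd_e2 n x)))

theorem cd_w3 (n : WithTop ℕ∞) (x : VV) : ContDiffAt ℝ n (fun y : VV => w3 (mu y) (th y)) x := by
  unfold w3
  exact ((cd_of (cd_ph3 n x)).mul contDiffAt_const).cexp

theorem cd_Yf (n : WithTop ℕ∞) (x : VV) :
    ContDiffAt ℝ n (fun y : VV => Yf (y.2.1 2) (mu y) (th y)) x := by
  unfold Yf
  exact cd_re ((cd_conj (cd_w3 n x)).mul (cd_Eh n x 2))

theorem cd_norm (n : WithTop ℕ∞) {x : VV} {l : Fin 3} (h : Eh (x.2.1 l) (mu x) ≠ 0) :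
    ContDiffAt ℝ n (fun y : VV => ‖Eh (y.2.1 l) (mu y)‖) x :=
  (cd_Eh n x l).norm ℝ h

theorem cd_cf (n : WithTop ℕ∞) {x : VV} {l : Fin 3} (h : Eh (x.2.1 l) (mu x) ≠ 0) :
    ContDiffAt ℝ n (fun y : VV => cf (y.2.1 l) (y.2.1 2) (y.2.2.1 l) (mu y) (th y)) x := by
  unfold cf
  exact ((cd_nu n x l).mul (cd_Yf n x)).div (cd_norm n h) (norm_ne_zero_iff.2 h)

theorem cd_wl (n : WithTop ℕ∞) {x : VV} {l : Fin 3} (h : Eh (x.2.1 l) (mu x) ≠ 0)
    (h1 : cf (x.2.1 l) (x.2.1 2) (x.2.2.1 l) (mu x) (th x) ^ 2 < 1) :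
    ContDiffAt ℝ n
      (fun y : VV => wl (y.2.1 l) (y.2.1 2) (y.2.2.1 l) (y.2.2.2 l) (mu y) (th y)) x := by
  unfold wl
  have h2 : ContDiffAt ℝ n
      (fun y : VV => 1 - cf (y.2.1 l) (y.2.1 2) (y.2.2.1 l) (mu y) (th y) ^ 2) x :=
    contDiffAt_const.sub ((cd_cf n h).pow 2)
  have h3 := h2.sqrt (by
    show 1 - cf (x.2.1 l) (x.2.1 2) (x.2.2.1 l) (mu x) (th x) ^ 2 ≠ 0
    linarith)
  have h4 : ContDiffAt ℝ n (fun y : VV => Eh (y.2.1 l) (mu y) / (‖Eh (y.2.1 l) (mu y)‖ : ℂ)) x := by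
    have h5 := (cd_Eh n x l).mul (cd_of ((cd_norm n h).inv (norm_ne_zero_iff.2 h)))
    refine h5.congr_of_eventuallyEq (Filter.Eventually.of_forall fun y => ?_)
    simp [div_eq_mul_inv]
  exact h4.mul ((cd_of (cd_cf n h)).add ((cd_of ((cd_ep n x l).mul h3)).mul contDiffAt_const))

theorem cd_ww (n : WithTop ℕ∞) {x : VV} (hx : x ∈ UU) (l : Fin 3) :
    ContDiffAt ℝ n (fun y : VV => ww y.2.1 y.2.2.1 y.2.2.2 (mu y) (th y) l) x := by
  unfold ww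
  split_ifs with hl
  · exact cd_w3 n x
  · exact cd_wl n (hx l hl).1 (hx l hl).2.1

theorem cd_dph3 (n : WithTop ℕ∞) (x : VV) (v : ℂ) (τ : ℝ) :
    ContDiffAt ℝ n (fun y : VV => dph3 (mu y) (th y) v τ) x := by
  unfold dph3
  exact (contDiffAt_const.sub (cd_im (contDiffAt_const.mul (cd_e2 n x)))).add
    (contDiffAt_const.mul (cd_re ((cd_mu n x).mul (cd_e2 n x))))

theorem cd_dYf (n : WithTop ℕ∞) (x : VV) (v : ℂ) (τ : ℝ) :
    ContDiffAt ℝ n (fun y : VV => dYf (y.2.1 2) (mu y) (th y) v τ) x := by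
  unfold dYf
  exact ((cd_dph3 n x v τ).mul (cd_im ((cd_conj (cd_w3 n x)).mul (cd_Eh n x 2)))).add
    (cd_re ((cd_conj (cd_w3 n x)).mul (contDiffAt_const.mul (cd_conj (cd_e n x 2)))))

theorem im_ne {x : VV} {l : Fin 3} (h : Eh (x.2.1 l) (mu x) ≠ 0)
    (h1 : cf (x.2.1 l) (x.2.1 2) (x.2.2.1 l) (mu x) (th x) ^ 2 < 1) (h2 : x.2.2.2 l ≠ 0) :
    (conj (wl (x.2.1 l) (x.2.1 2) (x.2.2.1 l) (x.2.2.2 l) (mu x) (th x)) *
      Eh (x.2.1 l) (mu x)).im ≠ 0 := by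
  rw [conj_wl_mul h]
  simp only [sub_im, ofReal_im, mul_im, ofReal_re, I_im, I_re, mul_one, mul_zero, add_zero,
    zero_sub, ne_eq, neg_eq_zero, mul_eq_zero, not_or]
  exact ⟨⟨h2, norm_ne_zero_iff.2 h⟩, (Real.sqrt_pos.2 (by linarith)).ne'⟩

theorem cd_dph (n : WithTop ℕ∞) {x : VV} (hx : x ∈ UU) (v : ℂ) (τ : ℝ) (l : Fin 3) :
    ContDiffAt ℝ n (fun y : VV => dph y.2.1 y.2.2.1 y.2.2.2 (mu y) (th y) v τ l) x := by
  unfold dph
  split_ifs with hl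
  · exact cd_dph3 n x v τ
  · obtain ⟨h1, h2, h3⟩ := hx l hl
    unfold dphl
    exact (((cd_nu n x l).mul (cd_dYf n x v τ)).sub (cd_re ((cd_conj (cd_wl n h1 h2)).mul
      (contDiffAt_const.mul (cd_conj (cd_e n x l)))))).div
      (cd_im ((cd_conj (cd_wl n h1 h2)).mul (cd_Eh n x l))) (im_ne h1 h2 h3)

theorem cd_MM (n : WithTop ℕ∞) {x : VV} (hx : x ∈ UU) : ContDiffAt ℝ n MM x := by
  rw [contDiffAt_pi]
  intro l
  unfold MM Mm
  exact (cd_ww n hx l).sub ((cd_mu n x).mul (cd_conj (cd_ww n hx l)))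

theorem cd_FF (n : WithTop ℕ∞) {x : VV} (hx : x ∈ UU) : ContDiffAt ℝ n FF x := by
  rw [contDiffAt_pi]
  intro j
  rw [contDiffAt_pi]
  intro l
  unfold FF bb
  exact (((cd_of (cd_dph n hx (vb j) (tb j) l)).mul contDiffAt_const).mul
    ((cd_ww n hx l).add ((cd_mu n x).mul (cd_conj (cd_ww n hx l))))).sub
    (contDiffAt_const.mul (cd_conj (cd_ww n hx l)))

theorem isOpen_UU : IsOpen UU := by
  rw [isOpen_iff_eventually]
  intro x hx
  have h : ∀ l : Fin 3, ∀ᶠ y in nhds x, (l ≠ 2 → Eh (y.2.1 l) (mu y) ≠ 0 ∧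
      cf (y.2.1 l) (y.2.1 2) (y.2.2.1 l) (mu y) (th y) ^ 2 < 1 ∧ y.2.2.2 l ≠ 0) := by
    intro l
    by_cases hl : l = 2
    · exact Filter.Eventually.of_forall fun y h => absurd hl h
    · obtain ⟨h1, h2, h3⟩ := hx l hl
      have e1 := (cd_Eh 0 x l).continuousAt.eventually_ne h1
      have e2 : ∀ᶠ y in nhds x, cf (y.2.1 l) (y.2.1 2) (y.2.2.1 l) (mu y) (th y) ^ 2 < 1 :=
        ((cd_cf 0 h1).continuousAt.pow 2).eventually_lt continuousAt_const h2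
      have e3 := (cd_ep 0 x l).continuousAt.eventually_ne h3
      filter_upwards [e1, e2, e3] with y a b c _
      exact ⟨a, b, c⟩
  have h' := Filter.eventually_all.2 h
  filter_upwards [h'] with y hy
  exact hy

end Pool.Agent.F5.H58
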