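import Pool.Agent.Helper58_F5.ExtD

/-!
# The identities of the true cone and their derivatives
-/

set_option autoImplicit false

namespace Pool.Agent.F5.H58

open Complex ComplexConjugate MeasureTheory

/-- the points of the true cone divided by `σ` -/
noncomputable def NM (q : XX) (l : Fin 3) : ℂ := GM q l / ((1 - normSq (mu q.1) : ℝ) : ℂ)

/-- `m + μ m̄`, divided by `σ` -/
noncomputable def Zn (q : XX) (l : Fin 3) : ℂ := NM q l + mu q.1 * conj (NM q l)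

/-- the directions of the true cone -/
noncomputable def wp (q : XX) (l : Fin 3) : ℂ :=
  ww (Ps q).2.1 (Ps q).2.2.1 (Ps q).2.2.2 (mu (Ps q)) (th (Ps q)) l

theorem mu_Ps (q : XX) : mu (Ps q) = mu q.1 := rfl

theorem Zn_eq {q : XX} (hμ : normSq (mu q.1) < 1) (l : Fin 3) :
    Zn q l = ((√(1 - bz q l) : ℝ) : ℂ) * wp q l := by
  have h0 : ((1 - normSq (mu q.1) : ℝ) : ℂ) ≠ 0 := by
    exact_mod_cast (by linarith : (1 - normSq (mu q.1) : ℝ) ≠ 0)
  have h1 : GM q l = ((√(1 - bz q l) : ℝ) : ℂ) * (wp q l - mu q.1 * conj (wp q l)) := rfl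
  have h2 : mu q.1 * conj (mu q.1) = ((normSq (mu q.1) : ℝ) : ℂ) := mul_conj _
  unfold Zn NM
  rw [h1, map_div₀, conj_ofReal, map_mul, map_sub, map_mul, conj_ofReal, conj_conj]
  rw [mul_div_assoc', ← add_div, div_eq_iff h0]
  push_cast
  linear_combination (-((√(1 - bz q l) : ℝ) : ℂ) * wp q l) * h2

theorem norm_wp {q : XX} (hq : q ∈ UX) (hε : ∀ l, q.1.2.2.2 l ^ 2 = 1) (l : Fin 3) :
    ‖wp q l‖ = 1 := by
  refine norm_ww (fun l hl => ?_) l
  obtain ⟨h1, h2, h3⟩ := hq.2 l hl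
  exact ⟨hε l, h1, h2⟩

/-- I1 -/
theorem id1 {q : XX} (hq : q ∈ UX) (hε : ∀ l, q.1.2.2.2 l ^ 2 = 1) (hμ : normSq (mu q.1) < 1)
    (l : Fin 3) : normSq (Zn q l) + bz q l = 1 := by
  rw [Zn_eq hμ, normSq_mul, normSq_ofReal, normSq_eq_norm_sq (wp q l), norm_wp hq hε,
    Real.mul_self_sqrt (by linarith [hq.1 l])]
  ring

/-- I2 -/
theorem id2 {q : XX} (hq : q ∈ UX) (hμ : normSq (mu q.1) < 1)
    (hν : q.1.2.2.1 2 = 1) (l : Fin 3) :
    (conj (Zn q l) * Eh (q.1.2.1 l) (mu q.1)).re =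
      q.1.2.2.1 l * (√(1 - bz q 2) * Yf (q.1.2.1 2) (mu q.1) (th q.1)) := by
  rw [Zn_eq hμ, map_mul, conj_ofReal, mul_assoc, re_ofReal_mul]
  by_cases hl : l = 2
  · subst hl
    rw [hν, one_mul]
    congr 1
  · have h1 : wp q l = wl (q.1.2.1 l) (q.1.2.1 2) (q.1.2.2.1 l * sl q l) (q.1.2.2.2 l) (mu q.1)
        (th q.1) := by
      unfold wp ww
      rw [if_neg hl]
      rfl
    have h0 : Eh (q.1.2.1 l) (mu q.1) ≠ 0 := (hq.2 l hl).1
    rw [h1, conj_wl_mul h0]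
    simp only [sub_re, ofReal_re, mul_re, ofReal_im, I_re, I_im, mul_zero, zero_mul, sub_zero]
    have h2 : √(1 - bz q l) * sl q l = √(1 - bz q 2) := by
      unfold sl
      rw [← Real.sqrt_mul (by linarith [hq.1 l])]
      congr 1
      have : 1 - bz q l ≠ 0 := by linarith [hq.1 l]
      field_simp
    calc √(1 - bz q l) * (q.1.2.2.1 l * sl q l * Yf (q.1.2.1 2) (mu q.1) (th q.1)) =
        q.1.2.2.1 l * ((√(1 - bz q l) * sl q l) * Yf (q.1.2.1 2) (mu q.1) (th q.1)) := by ring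
      _ = _ := by rw [h2]

/-- I2, in the form used for the derivatives -/
theorem id2' {q : XX} (hq : q ∈ UX) (hμ : normSq (mu q.1) < 1)
    (hν : q.1.2.2.1 2 = 1) (l : Fin 3) :
    (conj (Zn q l) * Eh (q.1.2.1 l) (mu q.1)).re =
      q.1.2.2.1 l * (conj (Zn q 2) * Eh (q.1.2.1 2) (mu q.1)).re := by
  rw [id2 hq hμ hν l, id2 hq hμ hν 2, hν, one_mul]

/-- the open set where everything is smooth -/
theorem isOpen_mu : IsOpen {q : XX | normSq (mu q.1) < 1} := by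
  refine isOpen_lt ?_ continuous_const
  have h1 : Continuous fun q : XX => mu q.1 :=
    (continuous_iff_continuousAt.2 fun x => (cd_mu 0 x).continuousAt).comp continuous_fst
  exact continuous_normSq.comp h1

theorem cd_NM (n : WithTop ℕ∞) {q : XX} (hq : q ∈ UX) (hμ : normSq (mu q.1) < 1) :
    ContDiffAt ℝ n NM q := by
  rw [contDiffAt_pi]
  intro l
  have h3 := cdx_fst (cd_mu n q.1)
  have h4 : ContDiffAt ℝ n (fun p : XX => (1 - normSq (mu p.1))⁻¹) q := by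
    have h5 := contDiffAt_const (c := (1 : ℝ)).sub (((cd_re h3).mul (cd_re h3)).add
      ((cd_im h3).mul (cd_im h3)))
    have h6 : ContDiffAt ℝ n (fun p : XX => 1 - normSq (mu p.1)) q :=
      h5.congr_of_eventuallyEq (Filter.Eventually.of_forall fun p => by
        show 1 - normSq (mu p.1) = _
        rw [normSq_apply])
    exact h6.inv (by linarith)
  have h7 := (contDiffAt_pi.1 (cd_GM n hq) l).mul (cd_of h4)
  refine h7.congr_of_eventuallyEq (Filter.Eventually.of_forall fun p => ?_)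
  show GM p l / ((1 - normSq (mu p.1) : ℝ) : ℂ) = GM p l * (((1 - normSq (mu p.1))⁻¹ : ℝ) : ℂ)
  rw [div_eq_mul_inv, ofReal_inv]

/-- the direction of the line -/
noncomputable def dr' (u : Fin 3 → ℝ) (ζ : ℝ) : XX := (ins u, ζ, 0)

/-- the derivative of `NM` in a direction -/
noncomputable def dN (q : XX) (u : Fin 3 → ℝ) (ζ : ℝ) (l : Fin 3) : ℂ :=
  fderiv ℝ NM q (dr' u ζ) l

/-- the derivative of `Zn` in a direction -/
noncomputable def dZ (q : XX) (u : Fin 3 → ℝ) (ζ : ℝ) (l : Fin 3) : ℂ :=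
  dN q u ζ l + mu q.1 * conj (dN q u ζ l) + ((u 0 : ℂ) + (u 1 : ℂ) * I) * conj (NM q l)

section

variable {q : XX} (u : Fin 3 → ℝ) (ζ : ℝ)

theorem line_mu (t : ℝ) : mu (q + t • dr' u ζ).1 = mu q.1 + (t : ℂ) * ((u 0 : ℂ) + (u 1 : ℂ) * I) := by
  unfold mu dr' ins
  simp only [Prod.fst_add, Prod.smul_fst, Pi.add_apply, Pi.smul_apply, smul_eq_mul]
  push_cast
  ring

theorem line_P (t : ℝ) : (q + t • dr' u ζ).1.2 = q.1.2 := by
  unfold dr' ins
  simp only [Prod.fst_add, Prod.smul_fst, Prod.snd_add, Prod.smul_snd, smul_zero, add_zero]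

theorem line_z (t : ℝ) : (q + t • dr' u ζ).2.1 = q.2.1 + t * ζ := by
  unfold dr'
  simp only [Prod.fst_add, Prod.smul_fst, Prod.snd_add, Prod.smul_snd, smul_eq_mul]

theorem line_β (t : ℝ) : (q + t • dr' u ζ).2.2 = q.2.2 := by
  unfold dr'
  simp only [Prod.snd_add, Prod.smul_snd, smul_zero, add_zero]

theorem hd_NM (hq : q ∈ UX) (hμ : normSq (mu q.1) < 1) (l : Fin 3) :
    HasDerivAt (fun t : ℝ => NM (q + t • dr' u ζ) l) (dN q u ζ l) 0 := by
  have hf : HasFDerivAt NM (fderiv ℝ NM q) (q + (0 : ℝ) • dr' u ζ) := by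
    rw [zero_smul, add_zero]
    exact ((cd_NM 1 hq hμ).differentiableAt (by norm_num)).hasFDerivAt
  have hl : HasDerivAt (fun s : ℝ => q + s • dr' u ζ) (dr' u ζ) 0 := by
    simpa using ((hasDerivAt_id (0 : ℝ)).smul_const (dr' u ζ)).const_add q
  exact (hasDerivAt_pi.1 (hf.comp_hasDerivAt (0 : ℝ) hl)) l

theorem hd_mu : HasDerivAt (fun t : ℝ => mu (q + t • dr' u ζ).1) ((u 0 : ℂ) + (u 1 : ℂ) * I) 0 := by
  simp only [line_mu]
  exact hasDerivAt_mu _ _ 0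

theorem hd_Zn (hq : q ∈ UX) (hμ : normSq (mu q.1) < 1) (l : Fin 3) :
    HasDerivAt (fun t : ℝ => Zn (q + t • dr' u ζ) l) (dZ q u ζ l) 0 := by
  have h1 := hd_NM u ζ hq hμ l
  have h2 := hd_mu (q := q) u ζ
  have h3 := h1.add (h2.mul (hasDerivAt_conj h1))
  refine h3.congr_deriv ?_
  rw [zero_smul, add_zero]
  unfold dZ
  ring

theorem hd_Eh (l : Fin 3) : HasDerivAt (fun t : ℝ => Eh ((q + t • dr' u ζ).1.2.1 l)
    (mu (q + t • dr' u ζ).1)) (((u 0 : ℂ) + (u 1 : ℂ) * I) * conj (q.1.2.1 l)) 0 := by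
  simp only [line_P, line_mu]
  exact hasDerivAt_Eh _ _ _ 0

theorem ev_UX (hq : q ∈ UX) (hμ : normSq (mu q.1) < 1) : ∀ᶠ t : ℝ in nhds 0,
    (q + t • dr' u ζ) ∈ UX ∧ normSq (mu (q + t • dr' u ζ).1) < 1 := by
  have hc : Continuous fun t : ℝ => q + t • dr' u ζ := by fun_prop
  have h1 : ∀ᶠ t : ℝ in nhds 0, (q + t • dr' u ζ) ∈ UX :=
    hc.continuousAt.eventually_mem (by simpa using isOpen_UX.mem_nhds hq)
  have h2 : ∀ᶠ t : ℝ in nhds 0, (q + t • dr' u ζ) ∈ {q : XX | normSq (mu q.1) < 1} :=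
    hc.continuousAt.eventually_mem (by
      have : q ∈ {q : XX | normSq (mu q.1) < 1} := hμ
      simpa using isOpen_mu.mem_nhds this)
  filter_upwards [h1, h2] with t a b
  exact ⟨a, b⟩

/-- the derivative of I1 -/
theorem did1 (hq : q ∈ UX) (hε : ∀ l, q.1.2.2.2 l ^ 2 = 1) (hμ : normSq (mu q.1) < 1)
    (l : Fin 3) : 2 * (conj (Zn q l) * dZ q u ζ l).re +
      q.2.2 l ^ 2 * (2 * (conj (Eh (q.1.2.1 l) (mu q.1)) *
        (((u 0 : ℂ) + (u 1 : ℂ) * I) * conj (q.1.2.1 l))).re * q.2.1 +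
        normSq (Eh (q.1.2.1 l) (mu q.1)) * ζ) = 0 := by
  have hn : ∀ {f : ℝ → ℂ} {f' : ℂ}, HasDerivAt f f' 0 →
      HasDerivAt (fun t => normSq (f t)) (2 * (conj (f 0) * f').re) 0 := by
    intro f f' hf
    have h1 := (hasDerivAt_re hf).mul (hasDerivAt_re hf)
    have h2 := (hasDerivAt_im hf).mul (hasDerivAt_im hf)
    have h3 := h1.add h2
    have h4 : (fun t => normSq (f t)) = fun t => (f t).re * (f t).re + (f t).im * (f t).im := by
      funext t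
      rw [normSq_apply]
    rw [h4]
    refine h3.congr_deriv ?_
    simp only [mul_re, conj_re, conj_im]
    ring
  have h1 := hn (hd_Zn u ζ hq hμ l)
  have h2 := hn (hd_Eh (q := q) u ζ l)
  have hz : HasDerivAt (fun t : ℝ => (q + t • dr' u ζ).2.1) ζ 0 := by
    simp only [line_z]
    simpa using ((hasDerivAt_id (0 : ℝ)).mul_const ζ).const_add q.2.1
  have h3 : HasDerivAt (fun t : ℝ => bz (q + t • dr' u ζ) l)
      (q.2.2 l ^ 2 * (2 * (conj (Eh (q.1.2.1 l) (mu q.1)) *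
        (((u 0 : ℂ) + (u 1 : ℂ) * I) * conj (q.1.2.1 l))).re * q.2.1 +
        normSq (Eh (q.1.2.1 l) (mu q.1)) * ζ)) 0 := by
    unfold bz
    simp only [line_β]
    have h4 := (h2.const_mul (q.2.2 l ^ 2)).mul hz
    refine h4.congr_deriv ?_
    rw [zero_smul, add_zero]
    ring
  have h4 := h1.add h3
  have h5 : (fun t : ℝ => normSq (Zn (q + t • dr' u ζ) l) + bz (q + t • dr' u ζ) l) =ᶠ[nhds 0]
      fun _ => (1 : ℝ) := by
    filter_upwards [ev_UX u ζ hq hμ] with t ht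
    exact id1 ht.1 (fun m => by rw [line_P]; exact hε m) ht.2 l
  have h6 := (h4.congr_of_eventuallyEq h5.symm).unique (hasDerivAt_const (0 : ℝ) (1 : ℝ))
  rw [zero_smul, add_zero] at h6
  exact h6

/-- the derivative of I2 -/
theorem did2 (hq : q ∈ UX) (hμ : normSq (mu q.1) < 1) (hν : q.1.2.2.1 2 = 1) (l : Fin 3) :
    (conj (dZ q u ζ l) * Eh (q.1.2.1 l) (mu q.1)).re +
      (conj (Zn q l) * (((u 0 : ℂ) + (u 1 : ℂ) * I) * conj (q.1.2.1 l))).re =
    q.1.2.2.1 l * ((conj (dZ q u ζ 2) * Eh (q.1.2.1 2) (mu q.1)).re +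
      (conj (Zn q 2) * (((u 0 : ℂ) + (u 1 : ℂ) * I) * conj (q.1.2.1 2))).re) := by
  have h1 : ∀ m, HasDerivAt (fun t : ℝ => (conj (Zn (q + t • dr' u ζ) m) *
      Eh ((q + t • dr' u ζ).1.2.1 m) (mu (q + t • dr' u ζ).1)).re)
      ((conj (dZ q u ζ m) * Eh (q.1.2.1 m) (mu q.1)).re +
        (conj (Zn q m) * (((u 0 : ℂ) + (u 1 : ℂ) * I) * conj (q.1.2.1 m))).re) 0 := by
    intro m
    have h2 := hasDerivAt_re ((hasDerivAt_conj (hd_Zn u ζ hq hμ m)).mul (hd_Eh (q := q) u ζ m))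
    refine h2.congr_deriv ?_
    rw [zero_smul, add_zero, add_re]
  have h2 := (h1 2).const_mul (q.1.2.2.1 l)
  have h3 : (fun t : ℝ => (conj (Zn (q + t • dr' u ζ) l) *
      Eh ((q + t • dr' u ζ).1.2.1 l) (mu (q + t • dr' u ζ).1)).re) =ᶠ[nhds 0]
      fun t => q.1.2.2.1 l * (conj (Zn (q + t • dr' u ζ) 2) *
      Eh ((q + t • dr' u ζ).1.2.1 2) (mu (q + t • dr' u ζ).1)).re := by
    filter_upwards [ev_UX u ζ hq hμ] with t ht
    have := id2' ht.1 ht.2 (by rw [line_P]; exact hν) l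
    rw [line_P] at this ⊢
    exact this
  exact ((h1 l).congr_of_eventuallyEq h3.symm).unique h2

end

end Pool.Agent.F5.H58
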